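import Mathlib

/-!
LinearBound, block K: weighted bases.

`S k`, `k : Fin r`, are the Gram matrices of `r` bilinear forms on `K^n`; `bf S l` is the form of the functional `l`.
A weighted basis is a basis with a real weight for every basis vector; its filtration is
`s ↦ span {x i | a i ≤ s}`. Two weighted bases are `Eqv` if they have the same filtration.
-/

set_option autoImplicit false

open Matrix Module

namespace QL

section
variable {K : Type} [Field K] {n r : ℕ}

/-- the bilinear form of `l`. -/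
def bf {σ : Type} [Fintype σ] (S : Fin r → Matrix σ σ K) (l : Fin r → K) (x y : σ → K) : K :=
  ∑ k, l k * (x ⬝ᵥ (S k *ᵥ y))

/-- the filtration of a weighted basis. -/
def fil {m : ℕ} (x : Basis (Fin m) K (Fin m → K)) (a : Fin m → ℝ) (s : ℝ) :
    Submodule K (Fin m → K) := Submodule.span K (x '' {i | a i ≤ s})

/-- equivalence of weighted bases. -/
def Eqv {m : ℕ} (x : Basis (Fin m) K (Fin m → K)) (a : Fin m → ℝ)
    (y : Basis (Fin m) K (Fin m → K)) (c : Fin m → ℝ) : Prop :=
  (∀ i, x i ∈ fil y c (a i)) ∧ ∀ k, y k ∈ fil x a (c k)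

/-- compatible weighted bases of `K^n` (weights `a`) and of the space of functionals (weights `b`). -/
def Comp (S : Fin r → Matrix (Fin n) (Fin n) K) (x : Basis (Fin n) K (Fin n → K)) (a : Fin n → ℝ)
    (l : Basis (Fin r) K (Fin r → K)) (b : Fin r → ℝ) : Prop :=
  (∀ i, 0 ≤ a i) ∧ (∀ j, 0 ≤ b j) ∧ ∀ j i k, bf S (l j) (x i) (x k) ≠ 0 → b j ≤ a i + a k

/-- the functional to be maximised. -/
noncomputable def muK (a : Fin n → ℝ) (b : Fin r → ℝ) : ℝ := ∑ j, b j - (1 / 4) * ∑ i, a i

/-- the norm. -/
noncomputable def nmK (a : Fin n → ℝ) (b : Fin r → ℝ) : ℝ := ∑ i, a i ^ 2 + ∑ j, b j ^ 2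

end

section
variable {p : ℕ} [Fact p.Prime] {n r m : ℕ}

/-- `K` is the algebraic closure of `F_p`. -/
abbrev KK (p : ℕ) [Fact p.Prime] : Type := AlgebraicClosure (ZMod p)

/-- the Frobenius on vectors. -/
noncomputable def frv (v : Fin m → KK p) : Fin m → KK p := fun i => v i ^ p

/-- the inclusion of `F_p^m`. -/
noncomputable def inj (v : Fin m → ZMod p) : Fin m → KK p := fun i => algebraMap (ZMod p) (KK p) (v i)

end

end QL
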