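import Pool.Agent.Lib.MP_c77682_nt.L.YDefs
import Pool.Agent.Lib.MP_c77682_nt.L.KDefs

section

/-!
LinearBound, block D: the doubled system `f_l(x)`, `b_m(x, u)`.
-/

set_option autoImplicit false

open Matrix Module

namespace QL

section
variable {K : Type} [Field K] {n r : ℕ}

/-- the doubled system. -/
def dblQ (Q : Fin r → Matrix (Fin n) (Fin n) K) :
    Fin (r + r) → Matrix (Fin n ⊕ Fin n) (Fin n ⊕ Fin n) K :=
  Fin.append (fun k => fromBlocks (Q k) 0 0 0) (fun k => fromBlocks 0 (Q k + (Q k)ᵀ) 0 0)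

end

end QL
end

section

/-!
LinearBound (MP_c77682_nt), job D1. See table papers, id 368.
-/

set_option autoImplicit false
set_option linter.unusedSectionVars false

open Matrix Module

namespace QL

section

variable {K : Type} [Field K] {n r : ℕ}

private theorem D1_split (x : Fin n ⊕ Fin n → K) :
    x = Sum.elim (fun i => x (Sum.inl i)) (fun i => x (Sum.inr i)) := by
  funext s
  rcases s with s | s <;> rfl

private theorem D1_left (A : Matrix (Fin n) (Fin n) K) (x y : Fin n ⊕ Fin n → K) :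
    bq (fromBlocks A 0 0 0) x y =
      (fun i => x (Sum.inl i)) ⬝ᵥ ((A + Aᵀ) *ᵥ fun i => y (Sum.inl i)) := by
  unfold bq
  rw [fromBlocks_transpose, fromBlocks_add, fromBlocks_mulVec, D1_split x,
    sumElim_dotProduct_sumElim]
  simp
  rfl

private theorem D1_right (A : Matrix (Fin n) (Fin n) K) (x y : Fin n ⊕ Fin n → K) :
    bq (fromBlocks 0 (A + Aᵀ) 0 0) x y =
      (fun i => x (Sum.inl i)) ⬝ᵥ ((A + Aᵀ) *ᵥ fun i => y (Sum.inr i)) +
        (fun i => x (Sum.inr i)) ⬝ᵥ ((A + Aᵀ) *ᵥ fun i => y (Sum.inl i)) := by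
  unfold bq
  rw [fromBlocks_transpose, fromBlocks_add, fromBlocks_mulVec, D1_split x,
    sumElim_dotProduct_sumElim]
  simp only [zero_add, add_zero, zero_mulVec, transpose_zero, transpose_add, transpose_transpose]
  rw [add_comm Aᵀ A]
  rfl

/-- JOB D1. the polar forms of the doubled system. -/
theorem bq_dblQ (Q : Fin r → Matrix (Fin n) (Fin n) K) (l : Fin (r + r) → K)
    (x y : Fin n ⊕ Fin n → K) :
    ∑ k, l k * bq (dblQ Q k) x y =
      bf (fun k => Q k + (Q k)ᵀ) (fun k => l (Fin.castAdd r k)) (fun i => x (Sum.inl i))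
          (fun i => y (Sum.inl i)) +
        bf (fun k => Q k + (Q k)ᵀ) (fun k => l (Fin.natAdd r k)) (fun i => x (Sum.inl i))
          (fun i => y (Sum.inr i)) +
        bf (fun k => Q k + (Q k)ᵀ) (fun k => l (Fin.natAdd r k)) (fun i => x (Sum.inr i))
          (fun i => y (Sum.inl i)) := by
  rw [Fin.sum_univ_add]
  unfold dblQ bf
  simp only [Fin.append_left, Fin.append_right, D1_left, D1_right, mul_add,
    Finset.sum_add_distrib]
  ring

end

end QL
end

section

section

/-!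
LinearBound (MP_c77682_nt), job D2. See table papers, id 368.
-/

set_option autoImplicit false

open Matrix Module

namespace QL

section

variable {K : Type} [Field K] {n r : ℕ}

private theorem adapted_aux {W : Type} [AddCommGroup W] [Module K W] [FiniteDimensional K W]
    (A B : Submodule K W) (hAB : A ≤ B) :
    ∃ (c₀ c₁ c₂ : ℕ) (x : Basis ((Fin c₀ ⊕ Fin c₁) ⊕ Fin c₂) K W),
      c₀ = finrank K A ∧ c₀ + c₁ = finrank K B ∧ c₀ + c₁ + c₂ = finrank K W ∧
      (∀ i, x (Sum.inl (Sum.inl i)) ∈ A) ∧ (∀ i, x (Sum.inl (Sum.inr i)) ∈ B) := by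
  obtain ⟨C₂, hC₂⟩ := Submodule.exists_isCompl B
  obtain ⟨C₁, hC₁⟩ := Submodule.exists_isCompl (Submodule.comap B.subtype A)
  have bA := Module.finBasis K (Submodule.comap B.subtype A)
  have bC := Module.finBasis K C₁
  have bD := Module.finBasis K C₂
  let e1 := Submodule.prodEquivOfIsCompl _ _ hC₁
  let e2 := Submodule.prodEquivOfIsCompl _ _ hC₂
  let bB : Basis _ K B := (bA.prod bC).map e1
  let bW : Basis _ K W := (bB.prod bD).map e2
  have h0 : finrank K (Submodule.comap B.subtype A) = finrank K A :=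
    (Submodule.comapSubtypeEquivOfLe hAB).finrank_eq
  refine ⟨_, _, _, bW, h0, ?_, ?_, ?_, ?_⟩
  · rw [finrank_eq_card_basis bB, Fintype.card_sum, Fintype.card_fin, Fintype.card_fin]
  · rw [finrank_eq_card_basis bW, Fintype.card_sum, Fintype.card_sum, Fintype.card_fin,
      Fintype.card_fin, Fintype.card_fin]
  · intro i
    have h1 : bW (Sum.inl (Sum.inl i)) = ((bA i : B) : W) := by
      simp only [bW, bB, e1, e2, Basis.map_apply, Basis.prod_apply, Submodule.coe_prodEquivOfIsCompl',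
        Sum.elim_inl, Function.comp_apply, LinearMap.inl_apply]
      simp
    rw [h1]
    exact (bA i).2
  · intro i
    have h1 : bW (Sum.inl (Sum.inr i)) = ((bC i : B) : W) := by
      simp only [bW, bB, e1, e2, Basis.map_apply, Basis.prod_apply, Submodule.coe_prodEquivOfIsCompl',
        Sum.elim_inl, Sum.elim_inr, Function.comp_apply, LinearMap.inl_apply, LinearMap.inr_apply]
      simp
    rw [h1]
    exact (bC i : B).2

/-- JOB D2. Adapted bases: for subspaces `U, V` of `K^m` there is a basis indexed by `Fin m` with real weights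
`0, 1/2, 1` such that the vectors of weight `0` are in `U ∩ V`, those of weight `≤ 1/2` are in `U + V`, and
`2 ∑ a = (m - dim U) + (m - dim V)`.

PROOF. Extend a basis of `U ⊓ V` to one of `U ⊔ V` and to one of everything; `∑ a = (dim (U ⊔ V) - dim (U ⊓ V))/2 +
(m - dim (U ⊔ V))` and `dim (U ⊔ V) + dim (U ⊓ V) = dim U + dim V`. -/
theorem exists_adapted {m : ℕ} (U V : Submodule K (Fin m → K)) :
    ∃ (x : Basis (Fin m) K (Fin m → K)) (a : Fin m → ℝ),
      (∀ i, a i = 0 ∨ a i = 1 / 2 ∨ a i = 1) ∧ (∀ i, a i = 0 → x i ∈ U ⊓ V) ∧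
      (∀ i, a i = 1 / 2 → x i ∈ U ⊔ V) ∧
      2 * ∑ i, a i = (m - finrank K U : ℝ) + (m - finrank K V : ℝ) := by
  obtain ⟨c₀, c₁, c₂, x, h0, h1, h2, h3, h4⟩ := adapted_aux (U ⊓ V) (U ⊔ V)
    (inf_le_left.trans le_sup_left)
  rw [finrank_fin_fun] at h2
  have hcard : Fintype.card ((Fin c₀ ⊕ Fin c₁) ⊕ Fin c₂) = Fintype.card (Fin m) := by
    simp only [Fintype.card_sum, Fintype.card_fin]
    exact h2
  let e : ((Fin c₀ ⊕ Fin c₁) ⊕ Fin c₂) ≃ Fin m := Fintype.equivOfCardEq hcard
  let w : ((Fin c₀ ⊕ Fin c₁) ⊕ Fin c₂) → ℝ := Sum.elim (Sum.elim (fun _ => 0) (fun _ => 1 / 2))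
    (fun _ => 1)
  refine ⟨x.reindex e, fun i => w (e.symm i), ?_, ?_, ?_, ?_⟩
  · intro i
    show w (e.symm i) = 0 ∨ w (e.symm i) = 1 / 2 ∨ w (e.symm i) = 1
    rcases e.symm i with (j | j) | j
    · exact Or.inl rfl
    · exact Or.inr (Or.inl rfl)
    · exact Or.inr (Or.inr rfl)
  · intro i
    rw [Basis.reindex_apply]
    show w (e.symm i) = _ → _
    rcases e.symm i with (j | j) | j
    · intro _
      exact h3 j
    · intro hi
      simp [w] at hi
    · intro hi
      simp [w] at hi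
  · intro i
    rw [Basis.reindex_apply]
    show w (e.symm i) = _ → _
    rcases e.symm i with (j | j) | j
    · intro hi
      simp [w] at hi
    · intro _
      exact h4 j
    · intro hi
      norm_num [w] at hi
  · rw [e.symm.sum_comp w]
    simp only [w, Fintype.sum_sum_type, Sum.elim_inl, Sum.elim_inr, Finset.sum_const,
      Finset.card_univ, Fintype.card_fin, smul_zero, nsmul_eq_mul]
    have h5 := Submodule.finrank_sup_add_finrank_inf_eq U V
    have h6 : (finrank K ↥(U ⊔ V) : ℝ) + finrank K ↥(U ⊓ V) = finrank K U + finrank K V := by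
      exact_mod_cast h5
    have h7 : (c₀ : ℝ) = finrank K ↥(U ⊓ V) := by exact_mod_cast h0
    have h8 : (c₀ : ℝ) + c₁ = finrank K ↥(U ⊔ V) := by exact_mod_cast h1
    have h9 : (c₀ : ℝ) + c₁ + c₂ = m := by exact_mod_cast h2
    linarith

end

end QL
end

section

/-!
LinearBound (MP_c77682_nt), job D3. See table papers, id 368.
-/

set_option autoImplicit false

open Matrix Module

namespace QL

section

variable {K : Type} [Field K] {n r : ℕ}

private theorem adapted_aux3 {W : Type} [AddCommGroup W] [Module K W] [FiniteDimensional K W]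
    (A B : Submodule K W) (hAB : A ≤ B) :
    ∃ (c₀ c₁ c₂ : ℕ) (x : Basis ((Fin c₀ ⊕ Fin c₁) ⊕ Fin c₂) K W),
      c₀ = finrank K A ∧ c₀ + c₁ = finrank K B ∧ c₀ + c₁ + c₂ = finrank K W ∧
      (∀ i, x (Sum.inl (Sum.inl i)) ∈ A) ∧ (∀ i, x (Sum.inl (Sum.inr i)) ∈ B) := by
  obtain ⟨C₂, hC₂⟩ := Submodule.exists_isCompl B
  obtain ⟨C₁, hC₁⟩ := Submodule.exists_isCompl (Submodule.comap B.subtype A)
  have bA := Module.finBasis K (Submodule.comap B.subtype A)
  have bC := Module.finBasis K C₁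
  have bD := Module.finBasis K C₂
  let e1 := Submodule.prodEquivOfIsCompl _ _ hC₁
  let e2 := Submodule.prodEquivOfIsCompl _ _ hC₂
  let bB : Basis _ K B := (bA.prod bC).map e1
  let bW : Basis _ K W := (bB.prod bD).map e2
  have h0 : finrank K (Submodule.comap B.subtype A) = finrank K A :=
    (Submodule.comapSubtypeEquivOfLe hAB).finrank_eq
  refine ⟨_, _, _, bW, h0, ?_, ?_, ?_, ?_⟩
  · rw [finrank_eq_card_basis bB, Fintype.card_sum, Fintype.card_fin, Fintype.card_fin]
  · rw [finrank_eq_card_basis bW, Fintype.card_sum, Fintype.card_sum, Fintype.card_fin,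
      Fintype.card_fin, Fintype.card_fin]
  · intro i
    have h1 : bW (Sum.inl (Sum.inl i)) = ((bA i : B) : W) := by
      simp only [bW, bB, e1, e2, Basis.map_apply, Basis.prod_apply, Submodule.coe_prodEquivOfIsCompl',
        Sum.elim_inl, Function.comp_apply, LinearMap.inl_apply]
      simp
    rw [h1]
    exact (bA i).2
  · intro i
    have h1 : bW (Sum.inl (Sum.inr i)) = ((bC i : B) : W) := by
      simp only [bW, bB, e1, e2, Basis.map_apply, Basis.prod_apply, Submodule.coe_prodEquivOfIsCompl',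
        Sum.elim_inl, Sum.elim_inr, Function.comp_apply, LinearMap.inl_apply, LinearMap.inr_apply]
      simp
    rw [h1]
    exact (bC i : B).2

/-- JOB D3. Adapted bases of the space of functionals: for subspaces `A₁, A₂` there is a basis with weights
`1, 1/2, 0` such that the vectors of weight `1` are in `A₂`, those of weight `1/2` are in `A₁ ⊔ A₂`, and
`dim A₁ + dim A₂ ≤ 2 ∑ b`.

PROOF. Extend a basis of `A₂` to one of `A₁ ⊔ A₂` and to one of everything (weights `1`, `1/2`, `0`):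
`2 ∑ b = 2 dim A₂ + (dim (A₁ ⊔ A₂) - dim A₂) = dim A₂ + dim (A₁ ⊔ A₂)`. -/
theorem exists_adapted' {m : ℕ} (A₁ A₂ : Submodule K (Fin m → K)) :
    ∃ (l : Basis (Fin m) K (Fin m → K)) (b : Fin m → ℝ),
      (∀ i, b i = 0 ∨ b i = 1 / 2 ∨ b i = 1) ∧ (∀ i, b i = 1 → l i ∈ A₂) ∧
      (∀ i, b i = 1 / 2 → l i ∈ A₁ ⊔ A₂) ∧
      (finrank K A₁ + finrank K A₂ : ℝ) ≤ 2 * ∑ i, b i := by
  obtain ⟨c₀, c₁, c₂, x, h0, h1, h2, h3, h4⟩ := adapted_aux3 A₂ (A₁ ⊔ A₂) le_sup_right
  rw [finrank_fin_fun] at h2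
  have hcard : Fintype.card ((Fin c₀ ⊕ Fin c₁) ⊕ Fin c₂) = Fintype.card (Fin m) := by
    simp only [Fintype.card_sum, Fintype.card_fin]
    exact h2
  let e : ((Fin c₀ ⊕ Fin c₁) ⊕ Fin c₂) ≃ Fin m := Fintype.equivOfCardEq hcard
  let w : ((Fin c₀ ⊕ Fin c₁) ⊕ Fin c₂) → ℝ := Sum.elim (Sum.elim (fun _ => 1) (fun _ => 1 / 2))
    (fun _ => 0)
  refine ⟨x.reindex e, fun i => w (e.symm i), ?_, ?_, ?_, ?_⟩
  · intro i
    show w (e.symm i) = 0 ∨ w (e.symm i) = 1 / 2 ∨ w (e.symm i) = 1
    rcases e.symm i with (j | j) | j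
    · exact Or.inr (Or.inr rfl)
    · exact Or.inr (Or.inl rfl)
    · exact Or.inl rfl
  · intro i
    rw [Basis.reindex_apply]
    show w (e.symm i) = _ → _
    rcases e.symm i with (j | j) | j
    · intro _
      exact h3 j
    · intro hi
      norm_num [w] at hi
    · intro hi
      simp [w] at hi
  · intro i
    rw [Basis.reindex_apply]
    show w (e.symm i) = _ → _
    rcases e.symm i with (j | j) | j
    · intro hi
      norm_num [w] at hi
    · intro _
      exact h4 j
    · intro hi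
      norm_num [w] at hi
  · rw [e.symm.sum_comp w]
    simp only [w, Fintype.sum_sum_type, Sum.elim_inl, Sum.elim_inr, Finset.sum_const,
      Finset.card_univ, Fintype.card_fin, smul_zero, nsmul_eq_mul]
    have h7 : (c₀ : ℝ) = finrank K ↥A₂ := by exact_mod_cast h0
    have h8 : (c₀ : ℝ) + c₁ = finrank K ↥(A₁ ⊔ A₂) := by exact_mod_cast h1
    have h9 : finrank K ↥A₁ ≤ finrank K ↥(A₁ ⊔ A₂) := Submodule.finrank_mono le_sup_left
    have h10 : (finrank K ↥A₁ : ℝ) ≤ finrank K ↥(A₁ ⊔ A₂) := by exact_mod_cast h9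
    linarith

end

end QL
end

section

/-!
LinearBound (MP_c77682_nt), job D4. See table papers, id 368.
-/

set_option autoImplicit false

open Matrix Module

namespace QL

section

variable {K : Type} [Field K] {n r : ℕ}

/-- dimension of a subspace through an exact pair. -/
theorem dim_split_D4 {M N P : Type} [AddCommGroup M] [Module K M] [AddCommGroup N] [Module K N]
    [AddCommGroup P] [Module K P] [FiniteDimensional K M] [FiniteDimensional K P]
    (f : M →ₗ[K] N) (g : P →ₗ[K] M) (hfg : ∀ m, f m = 0 → ∃ p, g p = m) (U : Submodule K M) :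
    finrank K U ≤ finrank K (U.map f) + finrank K (U.comap g) := by
  have h1 := LinearMap.finrank_range_add_finrank_ker (f.domRestrict U)
  have h2 : LinearMap.range (f.domRestrict U) = U.map f := by
    rw [LinearMap.domRestrict, LinearMap.range_comp, Submodule.range_subtype]
  rw [h2] at h1
  have h3 : finrank K (LinearMap.ker (f.domRestrict U)) ≤ finrank K (U.comap g) := by
    have e1 : (LinearMap.ker (f.domRestrict U)).map U.subtype ≤ (U.comap g).map g := by
      rintro m ⟨⟨u, hu⟩, hk, rfl⟩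
      have hk' : f u = 0 := hk
      obtain ⟨p, hp⟩ := hfg u hk'
      refine ⟨p, ?_, hp⟩
      show g p ∈ U
      rw [hp]
      exact hu
    have e2 := Submodule.finrank_mono e1
    have e3 : finrank K ((LinearMap.ker (f.domRestrict U)).map U.subtype) =
        finrank K (LinearMap.ker (f.domRestrict U)) :=
      (Submodule.equivMapOfInjective U.subtype U.subtype_injective _).finrank_eq.symm
    have e4 := Submodule.finrank_map_le g (U.comap g)
    omega
  omega

theorem bf_add_l_D4 {σ : Type} [Fintype σ] (S : Fin r → Matrix σ σ K) (l l' : Fin r → K)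
    (x y : σ → K) : bf S (l + l') x y = bf S l x y + bf S l' x y := by
  simp [bf, add_mul, Finset.sum_add_distrib]

theorem bf_add_r_D4 {σ : Type} [Fintype σ] (S : Fin r → Matrix σ σ K) (l : Fin r → K)
    (x y z : σ → K) : bf S l x (y + z) = bf S l x y + bf S l x z := by
  simp [bf, mul_add, Matrix.mulVec_add, dotProduct_add, Finset.sum_add_distrib]

theorem bf_zero_r_D4 {σ : Type} [Fintype σ] (S : Fin r → Matrix σ σ K) (l : Fin r → K)
    (x : σ → K) : bf S l x 0 = 0 := by
  simp [bf]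

theorem bf_zero_l_D4 {σ : Type} [Fintype σ] (S : Fin r → Matrix σ σ K)
    (x y : σ → K) : bf S 0 x y = 0 := by
  simp [bf]

theorem bf_symm_D4 (Q : Fin r → Matrix (Fin n) (Fin n) K) (l : Fin r → K) (x y : Fin n → K) :
    bf (fun k => Q k + (Q k)ᵀ) l x y = bf (fun k => Q k + (Q k)ᵀ) l y x := by
  unfold bf
  refine Finset.sum_congr rfl fun k _ => ?_
  congr 1
  have hs : (Q k + (Q k)ᵀ)ᵀ = Q k + (Q k)ᵀ := by
    rw [Matrix.transpose_add, Matrix.transpose_transpose, add_comm]
  calc x ⬝ᵥ ((Q k + (Q k)ᵀ) *ᵥ y) = x ⬝ᵥ ((Q k + (Q k)ᵀ)ᵀ *ᵥ y) := by rw [hs]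
    _ = x ⬝ᵥ (y ᵥ* (Q k + (Q k)ᵀ)) := by rw [Matrix.mulVec_transpose]
    _ = (y ᵥ* (Q k + (Q k)ᵀ)) ⬝ᵥ x := dotProduct_comm _ _
    _ = y ⬝ᵥ ((Q k + (Q k)ᵀ) *ᵥ x) := (Matrix.dotProduct_mulVec _ _ _).symm

/-- the embedding `v ↦ (0, v)`. -/
def jr_D4 (K : Type) [Field K] (n : ℕ) : (Fin n → K) →ₗ[K] (Fin n ⊕ Fin n → K) where
  toFun v := Sum.elim 0 v
  map_add' a b := by
    ext i; cases i <;> simp
  map_smul' c a := by
    ext i; cases i <;> simp

/-- the embedding `l ↦ (l, 0)`. -/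
def jl_D4 (K : Type) [Field K] (r : ℕ) : (Fin r → K) →ₗ[K] (Fin (r + r) → K) where
  toFun v := Fin.append v 0
  map_add' a b := by
    ext i
    refine Fin.addCases (fun k => ?_) (fun k => ?_) i
    · simp
    · rw [Pi.add_apply, Fin.append_right, Fin.append_right, Fin.append_right]
      simp
  map_smul' c a := by
    ext i
    refine Fin.addCases (fun k => ?_) (fun k => ?_) i
    · simp
    · rw [Pi.smul_apply, Fin.append_right, Fin.append_right]
      simp

/-- JOB D4. The doubled system satisfies `Hyp` with `c = 0`.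

PROOF. Let `U'`, `L'` be as in `Hyp`. `U` = image of `U'` under `x ↦ x ∘ inl`, `V = {v | (0, v) ∈ U'}`:
`dim U' = dim U + dim V` (rank-nullity). `A₂` = image of `L'` under `l ↦ l ∘ natAdd`, `A₁ = {l | (l, 0) ∈ L'}`:
`dim L' = dim A₁ + dim A₂`. With `bq_dblQ`: for `m ∈ A₂`, `u ∈ U`, `v ∈ V`: `bf S m u v = 0` (apply the condition to
`(u, u') ∈ U'` and `(0, v)`), and for `l ∈ A₁`, `u, u' ∈ U`: `bf S l u u' = 0`. `S k = Q k + (Q k)ᵀ` is symmetric, so
`bf S l x y = bf S l y x`. Take the adapted bases of `exists_adapted U V` and `exists_adapted' A₁ A₂`. They are `Comp`: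
let `bf S (l j) (x i) (x k) ≠ 0`. If `b j = 1`: `l j ∈ A₂`; if `a i + a k < 1` one of them is `0` and the other `≤ 1/2`, say
`x i ∈ U ⊓ V`, `x k ∈ U ⊔ V`, and `bf S (l j)` vanishes on `(U ⊓ V) × (U ⊔ V)` (on `V × U` and `U × V`). If `b j = 1/2`:
`l j ∈ A₁ ⊔ A₂`; if `a i = a k = 0` both are in `U ⊓ V` and `bf` vanishes. So `hK` gives `4 ∑ b ≤ ∑ a`, hence
`4 (dim A₁ + dim A₂) ≤ 8 ∑ b ≤ 2 ∑ a = 2 n - dim U - dim V`. -/
theorem Hyp_dblQ (Q : Fin r → Matrix (Fin n) (Fin n) K)
    (hK : ∀ (x : Basis (Fin n) K (Fin n → K)) (a : Fin n → ℝ) (l : Basis (Fin r) K (Fin r → K))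
      (b : Fin r → ℝ), Comp (fun k => Q k + (Q k)ᵀ) x a l b → 4 * ∑ j, b j ≤ ∑ i, a i) :
    Hyp (dblQ Q) 0 := by
  intro U' L' h
  set S : Fin r → Matrix (Fin n) (Fin n) K := fun k => Q k + (Q k)ᵀ with hS
  set U : Submodule K (Fin n → K) := U'.map (LinearMap.funLeft K K Sum.inl) with hU
  set V : Submodule K (Fin n → K) := U'.comap (jr_D4 K n) with hV
  set A₂ : Submodule K (Fin r → K) := L'.map (LinearMap.funLeft K K (Fin.natAdd r)) with hA₂
  set A₁ : Submodule K (Fin r → K) := L'.comap (jl_D4 K r) with hA₁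
  have dU : finrank K U' ≤ finrank K U + finrank K V := by
    refine dim_split_D4 _ _ (fun m hm => ⟨fun i => m (Sum.inr i), ?_⟩) U'
    ext i
    cases i with
    | inl i =>
      have := congrFun hm i
      simp only [LinearMap.funLeft_apply, Pi.zero_apply] at this
      exact this.symm
    | inr i => simp [jr_D4]
  have dL : finrank K L' ≤ finrank K A₂ + finrank K A₁ := by
    refine dim_split_D4 _ _ (fun m hm => ⟨fun i => m (Fin.castAdd r i), ?_⟩) L'
    ext i
    refine Fin.addCases (fun k => ?_) (fun k => ?_) i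
    · simp [jl_D4]
    · have := congrFun hm k
      simp only [LinearMap.funLeft_apply, Pi.zero_apply] at this
      show Fin.append (fun i => m (Fin.castAdd r i)) 0 (Fin.natAdd r k) = m (Fin.natAdd r k)
      rw [Fin.append_right, this]
      rfl
  have c1 : ∀ m ∈ A₂, ∀ u ∈ U, ∀ v ∈ V, bf S m u v = 0 := by
    rintro m ⟨l, hl, rfl⟩ u ⟨x, hx, rfl⟩ v hv
    have hv' : jr_D4 K n v ∈ U' := hv
    have h0 := h l hl x hx _ hv'
    rw [bq_dblQ] at h0
    have e0 : (fun i => jr_D4 K n v (Sum.inl i)) = 0 := by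
      ext i; simp [jr_D4]
    have e1 : (fun i => jr_D4 K n v (Sum.inr i)) = v := by
      ext i; simp [jr_D4]
    rw [e0, e1, bf_zero_r_D4, bf_zero_r_D4, zero_add, add_zero] at h0
    exact h0
  have c2 : ∀ m ∈ A₁, ∀ u ∈ U, ∀ v ∈ U, bf S m u v = 0 := by
    rintro m hm u ⟨x, hx, rfl⟩ v ⟨y, hy, rfl⟩
    have hm' : jl_D4 K r m ∈ L' := hm
    have h0 := h _ hm' x hx y hy
    rw [bq_dblQ] at h0
    have e0 : (fun k => jl_D4 K r m (Fin.natAdd r k)) = 0 := by
      ext i
      show Fin.append m 0 (Fin.natAdd r i) = 0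
      rw [Fin.append_right]
      rfl
    have e1 : (fun k => jl_D4 K r m (Fin.castAdd r k)) = m := by
      ext i; simp [jl_D4]
    rw [e0, e1, bf_zero_l_D4, bf_zero_l_D4, add_zero, add_zero] at h0
    exact h0
  have sy : ∀ l x y, bf S l x y = bf S l y x := fun l x y => bf_symm_D4 Q l x y
  have c3 : ∀ m ∈ A₂, ∀ x ∈ U ⊓ V, ∀ y ∈ U ⊔ V, bf S m x y = 0 := by
    intro m hm x hx y hy
    obtain ⟨u, hu, v, hv, rfl⟩ := Submodule.mem_sup.1 hy
    rw [bf_add_r_D4, sy m x u, c1 m hm u hu x hx.2, c1 m hm x hx.1 v hv, add_zero]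
  have c4 : ∀ m ∈ A₁ ⊔ A₂, ∀ x ∈ U ⊓ V, ∀ y ∈ U ⊓ V, bf S m x y = 0 := by
    intro m hm x hx y hy
    obtain ⟨u, hu, v, hv, rfl⟩ := Submodule.mem_sup.1 hm
    rw [bf_add_l_D4, c2 u hu x hx.1 y hy.1, c1 v hv x hx.1 y hy.2, add_zero]
  obtain ⟨x, a, ha, ha0, ha1, hsa⟩ := exists_adapted U V
  obtain ⟨l, b, hb, hb1, hb2, hsb⟩ := exists_adapted' A₁ A₂
  have hcomp : Comp S x a l b := by
    refine ⟨fun i => ?_, fun j => ?_, fun j i k hne => ?_⟩
    · rcases ha i with h | h | h <;> rw [h] <;> norm_num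
    · rcases hb j with h | h | h <;> rw [h] <;> norm_num
    · rcases hb j with hj | hj | hj
      · rcases ha i with hi | hi | hi <;> rcases ha k with hk | hk | hk <;>
          rw [hi, hk, hj] <;> norm_num
      · rcases ha i with hi | hi | hi <;> rcases ha k with hk | hk | hk
        · exact absurd (c4 _ (hb2 j hj) _ (ha0 i hi) _ (ha0 k hk)) hne
        all_goals rw [hi, hk, hj]; norm_num
      · rcases ha i with hi | hi | hi <;> rcases ha k with hk | hk | hk
        · exact absurd (c3 _ (hb1 j hj) _ (ha0 i hi) _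
            (Submodule.mem_sup_left (ha0 k hk).1)) hne
        · exact absurd (c3 _ (hb1 j hj) _ (ha0 i hi) _ (ha1 k hk)) hne
        · rw [hi, hk, hj]; norm_num
        · exact absurd ((sy _ _ _).trans (c3 _ (hb1 j hj) _ (ha0 k hk) _ (ha1 i hi))) hne
        all_goals rw [hi, hk, hj]; norm_num
  have hfin := hK x a l b hcomp
  have h4 : (4 * finrank K L' + finrank K U' : ℝ) ≤ n + n := by
    have e1 : (finrank K U' : ℝ) ≤ finrank K U + finrank K V := by exact_mod_cast dU
    have e2 : (finrank K L' : ℝ) ≤ finrank K A₂ + finrank K A₁ := by exact_mod_cast dL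
    linarith
  have h5 : 4 * finrank K L' + finrank K U' ≤ n + n := by exact_mod_cast h4
  simpa using h5

end

end QL
end
end
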