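import Pool.Agent.Lib.MP_c77682_nt.L.KDefs

/-!
LinearBound (MP_c77682_nt), job K1. See table papers, id 368.
-/

set_option autoImplicit false

open Matrix Module

namespace QL

section

variable {K : Type} [Field K] {n r m : ℕ}

/-- JOB K1. -/
theorem fil_mono (x : Basis (Fin m) K (Fin m → K)) (a : Fin m → ℝ) {s t : ℝ} (h : s ≤ t) :
    fil x a s ≤ fil x a t :=
  Submodule.span_mono (Set.image_mono fun _ hi => le_trans hi h)

/-- JOB K1. membership in coordinates. -/
theorem mem_fil (x : Basis (Fin m) K (Fin m → K)) (a : Fin m → ℝ) (s : ℝ) (v : Fin m → K) :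
    v ∈ fil x a s ↔ ∀ i, x.repr v i ≠ 0 → a i ≤ s := by
  unfold fil
  rw [x.mem_span_image]
  constructor
  · intro h i hi
    exact h (Finsupp.mem_support_iff.mpr hi)
  · intro h i hi
    exact h i (Finsupp.mem_support_iff.mp hi)

/-- JOB K1. -/
theorem finrank_fil (x : Basis (Fin m) K (Fin m → K)) (a : Fin m → ℝ) (s : ℝ) :
    finrank K (fil x a s) = (Finset.univ.filter fun i => a i ≤ s).card := by
  classical
  have h1 : fil x a s = Submodule.span K
      (Set.range fun i : {i : Fin m // a i ≤ s} => x i) := by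
    unfold fil
    congr 1
    ext v
    constructor
    · rintro ⟨i, hi, rfl⟩
      exact ⟨⟨i, hi⟩, rfl⟩
    · rintro ⟨⟨i, hi⟩, rfl⟩
      exact ⟨i, hi, rfl⟩
  have h2 : LinearIndependent K (fun i : {i : Fin m // a i ≤ s} => x i) :=
    x.linearIndependent.comp (fun i : {i : Fin m // a i ≤ s} => (i : Fin m))
      Subtype.val_injective
  rw [h1, finrank_span_eq_card h2]
  exact Fintype.card_subtype _

/-- JOB K1. equivalent weighted bases have the same filtration, and conversely. -/
theorem Eqv_iff (x : Basis (Fin m) K (Fin m → K)) (a : Fin m → ℝ)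
    (y : Basis (Fin m) K (Fin m → K)) (c : Fin m → ℝ) :
    Eqv x a y c ↔ ∀ s, fil x a s = fil y c s := by
  constructor
  · rintro ⟨h1, h2⟩ s
    apply le_antisymm
    · refine Submodule.span_le.mpr ?_
      rintro _ ⟨i, hi, rfl⟩
      exact fil_mono y c hi (h1 i)
    · refine Submodule.span_le.mpr ?_
      rintro _ ⟨i, hi, rfl⟩
      exact fil_mono x a hi (h2 i)
  · intro h
    constructor
    · intro i
      rw [← h]
      exact Submodule.subset_span ⟨i, le_refl (a i), rfl⟩
    · intro k
      rw [h]
      exact Submodule.subset_span ⟨k, le_refl (c k), rfl⟩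

end

end QL
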