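import Pool.Agent.Lib.MP_c77682_nt.L.KDefs

section

/-!
LinearBound (MP_c77682_nt), job K8. See table papers, id 368.
-/

set_option autoImplicit false

open Matrix Module

namespace QL

section

variable {p : ℕ} [Fact p.Prime] {n r m : ℕ}

private lemma int_ind (M t : ℝ) (h0 : 0 ≤ t) (hM : t ≤ M) :
    ∫ s in Set.Ioc 0 M, (Set.Iio t).indicator (fun _ => (1 : ℝ)) s = t := by
  rw [MeasureTheory.setIntegral_indicator measurableSet_Iio, MeasureTheory.setIntegral_const]
  have : Set.Ioc 0 M ∩ Set.Iio t = Set.Ioo 0 t := by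
    ext s
    simp only [Set.mem_inter_iff, Set.mem_Ioc, Set.mem_Iio, Set.mem_Ioo]
    constructor
    · rintro ⟨⟨h1, _⟩, h3⟩
      exact ⟨h1, h3⟩
    · rintro ⟨h1, h3⟩
      exact ⟨⟨h1, by linarith⟩, h3⟩
  rw [this, Real.volume_real_Ioo_of_le h0]
  simp

private lemma int_sum {k : ℕ} (t : Fin k → ℝ) (M : ℝ) (h0 : ∀ i, 0 ≤ t i) (hM : ∀ i, t i ≤ M) :
    ∫ s in Set.Ioc 0 M, ∑ i, (Set.Iio (t i)).indicator (fun _ => (1 : ℝ)) s = ∑ i, t i := by
  rw [MeasureTheory.integral_finsetSum]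
  · exact Finset.sum_congr rfl fun i _ => int_ind M (t i) (h0 i) (hM i)
  · intro i _
    exact (MeasureTheory.integrable_const (1 : ℝ)).indicator measurableSet_Iio

private lemma sum_ind {k : ℕ} (t : Fin k → ℝ) (s : ℝ) :
    ∑ i, (Set.Iio (t i)).indicator (fun _ => (1 : ℝ)) s =
      ((Finset.univ.filter fun i => s < t i).card : ℝ) := by
  simp only [Set.indicator_apply, Set.mem_Iio]
  rw [Finset.sum_boole]

/-- JOB K8. Summation over the levels.

PROOF. For `t ≥ 0`, `t = ∫ s in 0..M, if s < t then 1 else 0` (`M` larger than all weights). So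
`8 ∑ b j = 8 ∫_0^{2M} #{j | u < b j} du = 16 ∫_0^M #{j | 2 s < b j} ds ≤ 2 ∫_0^M #{i | s < a i} ds = 2 ∑ a i`. (Or by
induction without integrals.) -/
theorem level_sum (a : Fin n → ℝ) (b : Fin r → ℝ) (ha : ∀ i, 0 ≤ a i) (hb : ∀ j, 0 ≤ b j)
    (h : ∀ s : ℝ, 0 ≤ s → 8 * (Finset.univ.filter fun j => 2 * s < b j).card ≤
      (Finset.univ.filter fun i => s < a i).card) : 4 * ∑ j, b j ≤ ∑ i, a i := by
  set M : ℝ := ∑ i, a i + ∑ j, b j with hM
  have hsa : 0 ≤ ∑ i, a i := Finset.sum_nonneg fun i _ => ha i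
  have hsb : 0 ≤ ∑ j, b j := Finset.sum_nonneg fun j _ => hb j
  have haM : ∀ i, a i ≤ M := fun i => by
    have := Finset.single_le_sum (fun i _ => ha i) (Finset.mem_univ i)
    linarith
  have hbM : ∀ j, b j / 2 ≤ M := fun j => by
    have := Finset.single_le_sum (fun j _ => hb j) (Finset.mem_univ j)
    have := hb j
    linarith
  have h1 := int_sum a M ha haM
  have h2 := int_sum (fun j => b j / 2) M (fun j => by have := hb j; positivity) hbM
  have key : ∫ s in Set.Ioc 0 M, 8 * ∑ j, (Set.Iio (b j / 2)).indicator (fun _ => (1 : ℝ)) s ≤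
      ∫ s in Set.Ioc 0 M, ∑ i, (Set.Iio (a i)).indicator (fun _ => (1 : ℝ)) s := by
    refine MeasureTheory.setIntegral_mono_on ?_ ?_ measurableSet_Ioc ?_
    · refine MeasureTheory.Integrable.const_mul ?_ _
      exact MeasureTheory.integrable_finsetSum _ fun j _ =>
        (MeasureTheory.integrable_const (1 : ℝ)).indicator measurableSet_Iio
    · exact MeasureTheory.integrable_finsetSum _ fun j _ =>
        (MeasureTheory.integrable_const (1 : ℝ)).indicator measurableSet_Iio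
    · intro s hs
      rw [sum_ind a s, sum_ind (fun j => b j / 2) s]
      have h3 := h s hs.1.le
      have h4 : (Finset.univ.filter fun j => s < b j / 2) =
          (Finset.univ.filter fun j => 2 * s < b j) := by
        refine Finset.filter_congr fun j _ => ?_
        constructor <;> intro h5 <;> linarith
      rw [h4]
      exact_mod_cast h3
  rw [MeasureTheory.integral_const_mul, h1, h2, ← Finset.sum_div] at key
  linarith

end

end QL
end

section

/-!
LinearBound (MP_c77682_nt), job K4. See table papers, id 368.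
-/

set_option autoImplicit false

open Matrix Module

namespace QL

section

variable {K : Type} [Field K] {n r m : ℕ}

/-- the polytope part of a set of triples. -/
private def polyK (n r : ℕ) (T : Finset (Fin r × Fin n × Fin n)) :
    Set ((Fin n → ℝ) × (Fin r → ℝ)) :=
  {q | (∀ i, 0 ≤ q.1 i) ∧ (∀ j, 0 ≤ q.2 j) ∧ nmK q.1 q.2 ≤ 1 ∧
    ∀ t ∈ T, q.2 t.1 ≤ q.1 t.2.1 + q.1 t.2.2}

private theorem polyK_compact (T : Finset (Fin r × Fin n × Fin n)) :
    IsCompact (polyK n r T) := by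
  have hc : IsCompact (Set.Icc (0 : (Fin n → ℝ) × (Fin r → ℝ)) (fun _ => 1, fun _ => 1)) :=
    isCompact_Icc
  refine hc.of_isClosed_subset ?_ ?_
  · have h1 : IsClosed {q : (Fin n → ℝ) × (Fin r → ℝ) | ∀ i, 0 ≤ q.1 i} := by
      rw [Set.ofPred_forall]
      exact isClosed_iInter fun i => isClosed_le continuous_const (by fun_prop)
    have h2 : IsClosed {q : (Fin n → ℝ) × (Fin r → ℝ) | ∀ j, 0 ≤ q.2 j} := by
      rw [Set.ofPred_forall]
      exact isClosed_iInter fun i => isClosed_le continuous_const (by fun_prop)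
    have h3 : IsClosed {q : (Fin n → ℝ) × (Fin r → ℝ) | nmK q.1 q.2 ≤ 1} := by
      refine isClosed_le ?_ continuous_const
      unfold nmK
      fun_prop
    have h4 : IsClosed {q : (Fin n → ℝ) × (Fin r → ℝ) |
        ∀ t ∈ T, q.2 t.1 ≤ q.1 t.2.1 + q.1 t.2.2} := by
      rw [Set.ofPred_forall]
      refine isClosed_iInter fun t => ?_
      rw [Set.ofPred_forall]
      exact isClosed_iInter fun _ => isClosed_le (by fun_prop) (by fun_prop)
    exact h1.inter (h2.inter (h3.inter h4))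
  · rintro ⟨a, b⟩ ⟨ha, hb, hn, -⟩
    simp only at ha hb hn
    unfold nmK at hn
    have hA : ∀ i, a i ^ 2 ≤ 1 := fun i => by
      have h1 : a i ^ 2 ≤ ∑ i, a i ^ 2 :=
        Finset.single_le_sum (f := fun i => a i ^ 2) (fun i _ => sq_nonneg _) (Finset.mem_univ i)
      have h2 : 0 ≤ ∑ j, b j ^ 2 := Finset.sum_nonneg fun j _ => sq_nonneg _
      linarith
    have hB : ∀ j, b j ^ 2 ≤ 1 := fun j => by
      have h1 : b j ^ 2 ≤ ∑ j, b j ^ 2 :=
        Finset.single_le_sum (f := fun j => b j ^ 2) (fun j _ => sq_nonneg _) (Finset.mem_univ j)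
      have h2 : 0 ≤ ∑ i, a i ^ 2 := Finset.sum_nonneg fun j _ => sq_nonneg _
      linarith
    refine ⟨⟨fun i => ha i, fun j => hb j⟩, ⟨fun i => ?_, fun j => ?_⟩⟩
    · exact (abs_le_of_sq_le_sq' (by simpa using hA i) zero_le_one).2
    · exact (abs_le_of_sq_le_sq' (by simpa using hB j) zero_le_one).2

private theorem polyK_nonempty (T : Finset (Fin r × Fin n × Fin n)) :
    (polyK n r T).Nonempty := by
  refine ⟨(0, 0), fun i => le_refl _, fun j => le_refl _, ?_, fun t _ => ?_⟩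
  · simp [nmK]
  · simp

/-- JOB K4. Existence of a maximum.

PROOF. For a set `T` of triples `(j, i, k)` let `P_T = {(a, b) | 0 ≤ a, 0 ≤ b, nmK a b ≤ 1, b j ≤ a i + a k for (j,i,k) ∈ T}`, a
compact nonempty set (it contains `0`); `muK` has a maximum `M_T ≥ 0` on it. `Comp S x a l b` with `nmK a b ≤ 1` says
`(a, b) ∈ P_T` for `T = T(x, l) = {(j,i,k) | bf S (l j) (x i) (x k) ≠ 0}`. There are finitely many `T`; choose bases
`(x₀, l₀)` for which `M_{T(x₀, l₀)}` is the largest value that occurs (the set of values is finite and nonempty). -/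
theorem exists_max (S : Fin r → Matrix (Fin n) (Fin n) K) :
    ∃ (x : Basis (Fin n) K (Fin n → K)) (a : Fin n → ℝ) (l : Basis (Fin r) K (Fin r → K))
      (b : Fin r → ℝ), Comp S x a l b ∧ nmK a b ≤ 1 ∧
      ∀ (x' : Basis (Fin n) K (Fin n → K)) (a' : Fin n → ℝ) (l' : Basis (Fin r) K (Fin r → K))
        (b' : Fin r → ℝ), Comp S x' a' l' b' → nmK a' b' ≤ 1 → muK a' b' ≤ muK a b := by
  classical
  have hmax : ∀ T : Finset (Fin r × Fin n × Fin n), ∃ q ∈ polyK n r T,
      ∀ q' ∈ polyK n r T, muK q'.1 q'.2 ≤ muK q.1 q.2 := by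
    intro T
    have hcont : ContinuousOn (fun q : (Fin n → ℝ) × (Fin r → ℝ) => muK q.1 q.2)
        (polyK n r T) := by
      apply Continuous.continuousOn
      unfold muK
      fun_prop
    obtain ⟨q, hq, hm⟩ := (polyK_compact T).exists_isMaxOn (polyK_nonempty T) hcont
    exact ⟨q, hq, fun q' hq' => hm hq'⟩
  choose f hf hfm using hmax
  let TT : Basis (Fin n) K (Fin n → K) → Basis (Fin r) K (Fin r → K) →
      Finset (Fin r × Fin n × Fin n) := fun x l =>
    Finset.univ.filter fun t => bf S (l t.1) (x t.2.1) (x t.2.2) ≠ 0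
  let 𝒯 : Finset (Finset (Fin r × Fin n × Fin n)) :=
    Finset.univ.filter fun T => ∃ x l, T = TT x l
  have hne : 𝒯.Nonempty :=
    ⟨TT (Pi.basisFun K (Fin n)) (Pi.basisFun K (Fin r)),
      Finset.mem_filter.2 ⟨Finset.mem_univ _, _, _, rfl⟩⟩
  obtain ⟨T, hT, hTm⟩ := 𝒯.exists_max_image (fun T => muK (f T).1 (f T).2) hne
  obtain ⟨x, l, hxl⟩ := (Finset.mem_filter.1 hT).2
  obtain ⟨h1, h2, h3, h4⟩ := hf T
  refine ⟨x, (f T).1, l, (f T).2, ⟨h1, h2, fun j i k hjik => ?_⟩, h3, ?_⟩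
  · refine h4 (j, i, k) ?_
    rw [hxl]
    exact Finset.mem_filter.2 ⟨Finset.mem_univ _, hjik⟩
  · intro x' a' l' b' hC hn
    have hmem : (a', b') ∈ polyK n r (TT x' l') := by
      refine ⟨hC.1, hC.2.1, hn, fun t ht => ?_⟩
      exact hC.2.2 _ _ _ (Finset.mem_filter.1 ht).2
    have e1 := hfm (TT x' l') _ hmem
    have e2 := hTm (TT x' l') (Finset.mem_filter.2 ⟨Finset.mem_univ _, _, _, rfl⟩)
    exact le_trans e1 e2

end

end QL
end
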