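import Pool.Agent.Lib.MP_c77682_nt.L.KDefs
import Pool.Agent.Lib.MP_c77682_nt.L.K1
import Pool.Agent.Lib.MP_c77682_nt.L.K4

section

/-!
LinearBound (MP_c77682_nt), job K6. See table papers, id 368.
-/

set_option autoImplicit false

open Matrix Module

namespace QL

section

variable {p : ℕ} [Fact p.Prime] {n r m : ℕ}

/-- JOB K6. elements fixed by Frobenius. -/
theorem fixed_iff (z : KK p) : z ^ p = z ↔ ∃ w : ZMod p, algebraMap (ZMod p) (KK p) w = z := by
  have hc : CharP (KK p) p := charP_of_injective_algebraMap (algebraMap (ZMod p) (KK p)).injective p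
  rw [← Subfield.mem_bot_iff_pow_eq_self (KK p) p, ← ZMod.fieldRange_castHom_eq_bot (K := KK p) p]
  constructor
  · rintro ⟨w, hw⟩
    refine ⟨w, ?_⟩
    rw [← hw]
    exact RingHom.congr_fun (Subsingleton.elim (algebraMap (ZMod p) (KK p)) _) w
  · rintro ⟨w, hw⟩
    refine ⟨w, ?_⟩
    rw [← hw]
    exact RingHom.congr_fun (Subsingleton.elim _ (algebraMap (ZMod p) (KK p))) w

/-- JOB K6. Galois descent for subspaces.

PROOF. Let `W` be the span of `{inj v | inj v ∈ U}`; `W ≤ U`. Suppose `u ∈ U \ W` with the smallest number of nonzero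
coordinates; scale one of them to be `1`. `frv u - u ∈ U` (`hU`) has fewer nonzero coordinates, so it is in `W`;
repeating the argument for... more precisely: consider the reduced row echelon basis of `U` (the unique basis `u_1, …, u_d`
with pivot columns `c_1 < … < c_d` and `u_i (c_k) = δ_ik`); `frv u_1, …, frv u_d` is a reduced echelon basis of the span of
`frv U ⊆ U` with the same pivots, so `frv u_i = u_i` (an element of `U` with coordinates `δ_ik` at the pivots is `u_i`);
hence `u_i = inj v_i`. (Equivalent: choose a set `C` of `d = dim U` coordinates such that `U → K^C` is an isomorphism; the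
preimages of the unit vectors are fixed by `frv`.) -/
theorem descent (U : Submodule (KK p) (Fin m → KK p)) (hU : ∀ u ∈ U, frv u ∈ U) :
    ∃ U₀ : Submodule (ZMod p) (Fin m → ZMod p), finrank (ZMod p) U₀ = finrank (KK p) U ∧
      ∀ v ∈ U₀, inj v ∈ U := by
  classical
  -- the coordinate functionals on `U`
  let e : Fin m → Dual (KK p) U := fun i => (LinearMap.proj i).comp U.subtype
  obtain ⟨κ, a, ha, hsp, hli⟩ := exists_linearIndependent' (KK p) e
  have hfin : Finite κ := Finite.of_injective a ha
  have := Fintype.ofFinite κ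
  let Φ : U →ₗ[KK p] (κ → KK p) := LinearMap.pi fun k => e (a k)
  have hΦinj : Function.Injective Φ := by
    rw [← LinearMap.ker_eq_bot, LinearMap.ker_eq_bot']
    intro u hu
    have h1 : ∀ f ∈ Submodule.span (KK p) (Set.range (e ∘ a)), f u = 0 := by
      intro f hf
      induction hf using Submodule.span_induction with
      | mem x hx =>
        obtain ⟨k, rfl⟩ := hx
        exact congrFun hu k
      | zero => rfl
      | add x y _ _ hx hy => rw [LinearMap.add_apply, hx, hy, add_zero]
      | smul c x _ hx => rw [LinearMap.smul_apply, hx, smul_zero]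
    rw [hsp] at h1
    ext i
    exact h1 (e i) (Submodule.subset_span ⟨i, rfl⟩)
  have hcard1 : Fintype.card κ ≤ finrank (KK p) U := by
    have h2 := hli.fintype_card_le_finrank
    rwa [Subspace.dual_finrank_eq] at h2
  have hcard2 : finrank (KK p) U ≤ Fintype.card κ := by
    have h2 := LinearMap.finrank_le_finrank_of_injective hΦinj
    rwa [finrank_fintype_fun_eq_card] at h2
  have hcard : finrank (KK p) U = Fintype.card κ := le_antisymm hcard2 hcard1
  have hΦsurj : Function.Surjective Φ := by
    refine (LinearMap.injective_iff_surjective_of_finrank_eq_finrank ?_).1 hΦinj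
    rw [finrank_fintype_fun_eq_card, hcard]
  choose u hu using fun k : κ => hΦsurj (Pi.single k 1)
  have hua : ∀ k l : κ, (u k : Fin m → KK p) (a l) = if l = k then 1 else 0 := by
    intro k l
    have h3 := congrFun (hu k) l
    rw [Pi.single_apply] at h3
    exact h3
  have hp0 : p ≠ 0 := (Fact.out : p.Prime).ne_zero
  have hfix : ∀ k, frv (u k : Fin m → KK p) = (u k : Fin m → KK p) := by
    intro k
    have h4 : (⟨frv (u k : Fin m → KK p), hU _ (u k).2⟩ : U) = u k := by
      apply hΦinj
      funext l
      have h5 : (Φ (u k)) l = (u k : Fin m → KK p) (a l) := rfl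
      rw [h5, hua]
      show ((u k : Fin m → KK p) (a l)) ^ p = _
      rw [hua]
      split_ifs
      · exact one_pow p
      · exact zero_pow hp0
    exact congrArg Subtype.val h4
  have hex : ∀ k i, ∃ w : ZMod p, algebraMap (ZMod p) (KK p) w = (u k : Fin m → KK p) i :=
    fun k i => (fixed_iff _).1 (congrFun (hfix k) i)
  choose v hv using hex
  have hva : ∀ k l : κ, v k (a l) = if l = k then 1 else 0 := by
    intro k l
    apply (algebraMap (ZMod p) (KK p)).injective
    rw [hv, hua]
    split_ifs
    · rw [map_one]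
    · rw [map_zero]
  have hvli : LinearIndependent (ZMod p) v := by
    rw [Fintype.linearIndependent_iff]
    intro g hg l
    have h6 := congrFun hg (a l)
    rw [Finset.sum_apply] at h6
    simp only [Pi.smul_apply, hva, smul_eq_mul, mul_ite, mul_one, mul_zero, Pi.zero_apply] at h6
    rwa [Finset.sum_ite_eq, if_pos (Finset.mem_univ l)] at h6
  refine ⟨Submodule.span (ZMod p) (Set.range v), ?_, ?_⟩
  · rw [finrank_span_eq_card hvli, hcard]
  · intro w hw
    induction hw using Submodule.span_induction with
    | mem x hx =>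
      obtain ⟨k, rfl⟩ := hx
      have h7 : inj (v k) = (u k : Fin m → KK p) := funext fun i => hv k i
      rw [h7]
      exact (u k).2
    | zero =>
      have h7 : (inj (0 : Fin m → ZMod p) : Fin m → KK p) = 0 := funext fun i => map_zero _
      rw [h7]
      exact U.zero_mem
    | add x y _ _ hx hy =>
      have h7 : (inj (x + y) : Fin m → KK p) = inj x + inj y := funext fun i => map_add _ _ _
      rw [h7]
      exact U.add_mem hx hy
    | smul c x _ hx =>
      have h7 : (inj (c • x) : Fin m → KK p) = algebraMap (ZMod p) (KK p) c • inj x :=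
        funext fun i => map_mul _ _ _
      rw [h7]
      exact U.smul_mem _ hx

end

end QL
end

section

section

/-!
LinearBound (MP_c77682_nt), job K2. See table papers, id 368.
-/

set_option autoImplicit false

open Matrix Module

namespace QL

section

variable {K : Type} [Field K] {n r m : ℕ}

private theorem K2_step (x x' : Basis (Fin m) K (Fin m → K)) (i : Fin m) :
    ∃ (n : ℕ) (v : Fin m → K), v ∈ Submodule.span K (x' '' {j | (j : ℕ) < n}) ∧
      v - x i ∈ Submodule.span K (x '' {j | j < i}) ∧
      (∀ n' < n, ∀ w ∈ Submodule.span K (x' '' {j | (j : ℕ) < n'}),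
        w - x i ∉ Submodule.span K (x '' {j | j < i})) ∧ 0 < n ∧ n ≤ m := by
  classical
  have hex : ∃ v ∈ Submodule.span K (x' '' {j | (j : ℕ) < m}),
      v - x i ∈ Submodule.span K (x '' {j | j < i}) := by
    refine ⟨x i, ?_, ?_⟩
    · have h1 : {j : Fin m | (j : ℕ) < m} = Set.univ := by
        ext j
        simp
      rw [h1, Set.image_univ, x'.span_eq]
      exact Submodule.mem_top
    · rw [sub_self]
      exact Submodule.zero_mem _
  have hP0 : ¬ ∃ v ∈ Submodule.span K (x' '' {j | (j : ℕ) < 0}),
      v - x i ∈ Submodule.span K (x '' {j | j < i}) := by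
    rintro ⟨v, hv1, hv2⟩
    have h1 : {j : Fin m | (j : ℕ) < 0} = ∅ := by
      ext j
      simp
    rw [h1, Set.image_empty, Submodule.span_empty, Submodule.mem_bot] at hv1
    rw [hv1, zero_sub, Submodule.neg_mem_iff, Basis.mem_span_image, Basis.repr_self,
      Finsupp.support_single _ one_ne_zero] at hv2
    have h2 : i ∈ {j : Fin m | j < i} := hv2 (by simp)
    exact lt_irrefl i h2
  have h1 : ∃ n, ∃ v ∈ Submodule.span K (x' '' {j | (j : ℕ) < n}),
      v - x i ∈ Submodule.span K (x '' {j | j < i}) := ⟨m, hex⟩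
  obtain ⟨v, hv1, hv2⟩ := Nat.find_spec h1
  refine ⟨Nat.find h1, v, hv1, hv2, ?_, ?_, Nat.find_min' h1 hex⟩
  · intro n' hn' w hw hw'
    exact Nat.find_min h1 hn' ⟨w, hw, hw'⟩
  · rw [Nat.pos_iff_ne_zero]
    intro h0
    rw [h0] at hv1
    exact hP0 ⟨v, hv1, hv2⟩

private theorem K2_core (x x' : Basis (Fin m) K (Fin m → K)) :
    ∃ (y : Basis (Fin m) K (Fin m → K)) (π : Equiv.Perm (Fin m)),
      (∀ i, y i ∈ Submodule.span K (x '' {j | j ≤ i})) ∧
      (∀ i, x i ∈ Submodule.span K (y '' {j | j ≤ i})) ∧
      (∀ i, y i ∈ Submodule.span K (x' '' {j | j ≤ π i})) ∧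
      (∀ k, x' k ∈ Submodule.span K (y '' {i | π i ≤ k})) := by
  classical
  choose N y hy1 hy2 hNmin hpos hle using K2_step x x'
  let k : Fin m → Fin m := fun i => ⟨N i - 1, by
    have h1 := hle i
    have h2 := hpos i
    omega⟩
  have hkv : ∀ i, ((k i : Fin m) : ℕ) = N i - 1 := fun i => rfl
  have hy1' : ∀ i j, x'.repr (y i) j ≠ 0 → (j : ℕ) < N i := by
    intro i j hj
    have h1 := hy1 i
    rw [Basis.mem_span_image] at h1
    exact h1 (Finsupp.mem_support_iff.2 hj)
  have hc : ∀ i, x'.repr (y i) (k i) ≠ 0 := by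
    intro i h0
    have h1 : y i ∈ Submodule.span K (x' '' {j | (j : ℕ) < N i - 1}) := by
      rw [Basis.mem_span_image]
      intro j hj
      have h2 := Finsupp.mem_support_iff.1 hj
      have h3 := hy1' i j h2
      have h4 : j ≠ k i := by
        intro h5
        rw [h5] at h2
        exact h2 h0
      have h5 : (j : ℕ) ≠ N i - 1 := by
        intro h6
        exact h4 (Fin.ext h6)
      show (j : ℕ) < N i - 1
      omega
    have h2 := hpos i
    exact hNmin i (N i - 1) (by omega) _ h1 (hy2 i)
  have hyx : ∀ i, y i ∈ Submodule.span K (x '' {j | j ≤ i}) := by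
    intro i
    have h1 : x i ∈ Submodule.span K (x '' {j | j ≤ i}) :=
      Submodule.subset_span ⟨i, le_refl i, rfl⟩
    have h3 : (x '' {j | j < i}) ⊆ (x '' {j | j ≤ i}) := by
      rintro _ ⟨j, hj, rfl⟩
      have hj' : j < i := hj
      exact ⟨j, hj'.le, rfl⟩
    have h2 : y i - x i ∈ Submodule.span K (x '' {j | j ≤ i}) :=
      Submodule.span_mono h3 (hy2 i)
    have h4 := Submodule.add_mem _ h2 h1
    rwa [sub_add_cancel] at h4
  have hlt : ∀ i i', i < i' → k i ≠ k i' := by
    intro i i' hii hk
    have hn : N i = N i' := by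
      have h1 := congrArg Fin.val hk
      rw [hkv, hkv] at h1
      have h2 := hpos i
      have h3 := hpos i'
      omega
    set c := x'.repr (y i) (k i) with hcd
    have hc0 : c ≠ 0 := hc i
    set c' := x'.repr (y i') (k i') with hcd'
    have h1 : y i' - (c' / c) • y i ∈ Submodule.span K (x' '' {j | (j : ℕ) < N i' - 1}) := by
        rw [Basis.mem_span_image]
        intro j hj
        have h2 := Finsupp.mem_support_iff.1 hj
        rw [map_sub, map_smul, Finsupp.sub_apply, Finsupp.smul_apply, smul_eq_mul] at h2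
        show (j : ℕ) < N i' - 1
        by_contra h3
        by_cases h4 : j = k i'
        · apply h2
          rw [h4, ← hcd', ← hk, ← hcd, div_mul_cancel₀ _ hc0, sub_self]
        · have h5 : (j : ℕ) ≠ N i' - 1 := fun h6 => h4 (Fin.ext h6)
          have h6 : x'.repr (y i') j = 0 := by
            by_contra h7
            have := hy1' i' j h7
            omega
          have h7 : x'.repr (y i) j = 0 := by
            by_contra h7
            have := hy1' i j h7
            omega
          apply h2
          rw [h6, h7, mul_zero, sub_zero]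
    have h1' : y i' - (c' / c) • y i - x i' ∈ Submodule.span K (x '' {j | j < i'}) := by
      rw [sub_right_comm]
      refine Submodule.sub_mem _ (hy2 i') (Submodule.smul_mem _ _ ?_)
      refine Submodule.span_mono (Set.image_mono ?_) (hyx i)
      intro j hj
      exact lt_of_le_of_lt hj hii
    have h2 := hpos i'
    exact hNmin i' (N i' - 1) (by omega) _ h1 h1'
  have hinj : Function.Injective k := by
    intro i i' h
    rcases lt_trichotomy i i' with h1 | h1 | h1
    · exact absurd h (hlt i i' h1)
    · exact h1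
    · exact absurd h.symm (hlt i' i h1)
  let π : Equiv.Perm (Fin m) := Equiv.ofBijective k (Finite.injective_iff_bijective.1 hinj)
  have hπ : ∀ i, π i = k i := fun i => rfl
  have hxy : ∀ n : ℕ, ∀ i : Fin m, (i : ℕ) = n → x i ∈ Submodule.span K (y '' {j | j ≤ i}) := by
    intro n
    induction n using Nat.strong_induction_on with
    | _ n ih =>
      intro i hi
      have h1 : x i = y i - (y i - x i) := by abel
      rw [h1]
      refine Submodule.sub_mem _ (Submodule.subset_span ⟨i, le_refl i, rfl⟩) ?_
      refine (Submodule.span_le.2 ?_) (hy2 i)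
      rintro _ ⟨j, hj, rfl⟩
      have h2 : j < i := hj
      have h3 := ih j (by rw [← hi]; exact h2) j rfl
      exact Submodule.span_mono (Set.image_mono fun l hl => le_trans hl h2.le) h3
  have htop : ⊤ ≤ Submodule.span K (Set.range y) := by
    rw [← x.span_eq, Submodule.span_le]
    rintro _ ⟨i, rfl⟩
    exact Submodule.span_mono (Set.image_subset_range _ _) (hxy _ i rfl)
  let Y : Basis (Fin m) K (Fin m → K) := basisOfTopLeSpanOfCardEqFinrank y htop (by simp)
  have hY : ∀ i, Y i = y i := fun i => by
    simp [Y]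
  have hY' : (Y : Fin m → Fin m → K) = y := funext hY
  have hx'y : ∀ n : ℕ, ∀ i : Fin m, (i : ℕ) = n →
      x' i ∈ Submodule.span K (y '' {j | π j ≤ i}) := by
    intro n
    induction n using Nat.strong_induction_on with
    | _ n ih =>
      intro l hl
      set i := π.symm l with hidef
      have hπi : π i = l := π.apply_symm_apply l
      have hki : k i = l := hπi
      have hci := hc i
      have h1 : y i - x'.repr (y i) (k i) • x' l ∈
          Submodule.span K (y '' {j | π j ≤ l}) := by
        have h2 : y i - x'.repr (y i) (k i) • x' l ∈ Submodule.span K (x' '' {j | j < l}) := by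
          rw [Basis.mem_span_image]
          intro j hj
          have h3 := Finsupp.mem_support_iff.1 hj
          rw [map_sub, map_smul, Finsupp.sub_apply, Finsupp.smul_apply, Basis.repr_self,
            smul_eq_mul] at h3
          by_contra h4
          have h5 : l ≤ j := not_lt.1 h4
          rcases h5.lt_or_eq with h6 | h6
          · rw [Finsupp.single_apply, if_neg h6.ne, mul_zero, sub_zero] at h3
            have h7 := hy1' i j h3
            have h8 := congrArg Fin.val hki
            rw [hkv] at h8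
            have h9 : (l : ℕ) < j := h6
            have h10 := hpos i
            omega
          · rw [← h6, Finsupp.single_eq_same, mul_one, hki, sub_self] at h3
            exact h3 rfl
        refine (Submodule.span_le.2 ?_) h2
        rintro _ ⟨j, hj, rfl⟩
        have h3 : j < l := hj
        have h4 := ih j (by rw [← hl]; exact h3) j rfl
        exact Submodule.span_mono (Set.image_mono fun u hu => le_trans hu h3.le) h4
      have h5 : x' l = (x'.repr (y i) (k i))⁻¹ • (y i - (y i - x'.repr (y i) (k i) • x' l)) := by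
        rw [sub_sub_cancel, smul_smul, inv_mul_cancel₀ hci, one_smul]
      rw [h5]
      refine Submodule.smul_mem _ _ (Submodule.sub_mem _ ?_ h1)
      exact Submodule.subset_span ⟨i, le_of_eq hπi, rfl⟩
  refine ⟨Y, π, ?_, ?_, ?_, ?_⟩
  · intro i
    rw [hY]
    exact hyx i
  · intro i
    rw [hY']
    exact hxy _ i rfl
  · intro i
    rw [hY, hπ, Basis.mem_span_image]
    intro j hj
    have h1 := hy1' i j (Finsupp.mem_support_iff.1 hj)
    have h2 := hpos i
    show j ≤ k i
    rw [Fin.le_def, hkv]
    omega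
  · intro l
    rw [hY']
    exact hx'y _ l rfl

/-- JOB K2. Two filtrations have a common adapted basis.

PROOF. Order the indices so that `a` (resp. `a'`) is monotone, ties broken arbitrarily (choose permutations that sort; it
is harmless to replace `x`, `x'` by reindexed bases), and let `X_{<i}`, `X_{≤i}` (resp. `X'_{<k}`, `X'_{≤k}`) be the spans of
the basis vectors with smaller / smaller or equal position. For every `i` let `k(i)` be the least `k` such that
`X'_{≤k}` contains a vector `y` with `y - x i ∈ X_{<i}` (exists since `X'_{≤ last}` is everything), and let `y i` be such a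
vector. `k` is injective: let `i < i'` with `k(i) = k(i') = k`. `y i ∉ X'_{<k}` and `y i' ∉ X'_{<k}` by minimality (if `k` is
the first position, `X'_{<k} = 0`, and `y i ≠ 0`), and `X'_{≤k}/X'_{<k}` is a line, so `y i' - c y i ∈ X'_{<k}` for some
`c ∈ K`; but `y i' - c y i - x i' ∈ X_{<i'}`, contradicting the minimality of `k(i')`. So `k` is a permutation `π`.
`(y i)` is a basis (unitriangular with respect to `x`) and `Eqv x a y a` because `y i - x i ∈ X_{<i}` (and
conversely `x i ∈ span {y i' | i' ≤ i}`). `Eqv x' a' y (a' ∘ π)`: `y i ∈ X'_{≤π i}`, and `span {y i | π i ≤ k} ⊆ X'_{≤k}` have the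
same dimension, so `x' k ∈ span {y i | π i ≤ k}`. -/
theorem exists_common (x x' : Basis (Fin m) K (Fin m → K)) (a a' : Fin m → ℝ) :
    ∃ (y : Basis (Fin m) K (Fin m → K)) (π : Equiv.Perm (Fin m)),
      Eqv x a y a ∧ Eqv x' a' y (a' ∘ π) := by
  set σ := Tuple.sort a with hσ
  set σ' := Tuple.sort a' with hσ'
  have hm : Monotone (a ∘ σ) := Tuple.monotone_sort a
  have hm' : Monotone (a' ∘ σ') := Tuple.monotone_sort a'
  obtain ⟨Y, π, h1, h2, h3, h4⟩ := K2_core (x.reindex σ.symm) (x'.reindex σ'.symm)
  have hX : ∀ i, (x.reindex σ.symm) i = x (σ i) := fun i => by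
    rw [Basis.reindex_apply, Equiv.symm_symm]
  have hX' : ∀ i, (x'.reindex σ'.symm) i = x' (σ' i) := fun i => by
    rw [Basis.reindex_apply, Equiv.symm_symm]
  have hY : ∀ i, (Y.reindex σ) i = Y (σ.symm i) := fun i => Basis.reindex_apply _ _ _
  refine ⟨Y.reindex σ, σ.symm.trans (π.trans σ'), ⟨?_, ?_⟩, ⟨?_, ?_⟩⟩
  · intro i
    have h5 := h2 (σ.symm i)
    rw [hX, Equiv.apply_symm_apply] at h5
    refine (Submodule.span_le.2 ?_) h5
    rintro _ ⟨j, hj, rfl⟩
    refine Submodule.subset_span ⟨σ j, ?_, ?_⟩
    · have h6 := hm hj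
      simp only [Function.comp_apply, Equiv.apply_symm_apply] at h6
      exact h6
    · rw [hY, Equiv.symm_apply_apply]
  · intro k
    have h5 := h1 (σ.symm k)
    rw [hY]
    refine (Submodule.span_le.2 ?_) h5
    rintro _ ⟨j, hj, rfl⟩
    refine Submodule.subset_span ⟨σ j, ?_, ?_⟩
    · have h6 := hm hj
      simp only [Function.comp_apply, Equiv.apply_symm_apply] at h6
      exact h6
    · rw [hX]
  · intro k
    have h5 := h4 (σ'.symm k)
    rw [hX', Equiv.apply_symm_apply] at h5
    refine (Submodule.span_le.2 ?_) h5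
    rintro _ ⟨j, hj, rfl⟩
    refine Submodule.subset_span ⟨σ j, ?_, ?_⟩
    · have h6 := hm' hj
      simp only [Function.comp_apply, Equiv.apply_symm_apply] at h6
      show a' ((σ.symm.trans (π.trans σ')) (σ j)) ≤ a' k
      simp only [Equiv.trans_apply, Equiv.symm_apply_apply]
      exact h6
    · rw [hY, Equiv.symm_apply_apply]
  · intro i
    have h5 := h3 (σ.symm i)
    rw [hY]
    refine (Submodule.span_le.2 ?_) h5
    rintro _ ⟨j, hj, rfl⟩
    refine Submodule.subset_span ⟨σ' j, ?_, ?_⟩
    · have h6 := hm' hj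
      simp only [Function.comp_apply] at h6
      show a' (σ' j) ≤ a' ((σ.symm.trans (π.trans σ')) i)
      simp only [Equiv.trans_apply]
      exact h6
    · rw [hX']

end

end QL
end

section

/-!
LinearBound (MP_c77682_nt), job K3. See table papers, id 368.
-/

set_option autoImplicit false

open Matrix Module

namespace QL

section

variable {K : Type} [Field K] {n r m : ℕ}

private theorem k3_bf_r (S : Fin r → Matrix (Fin n) (Fin n) K) (l : Fin r → K) (x : Fin n → K)
    (s : Set (Fin n → K)) (h : ∀ y ∈ s, bf S l x y = 0) {y : Fin n → K}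
    (hy : y ∈ Submodule.span K s) : bf S l x y = 0 := by
  induction hy using Submodule.span_induction with
  | mem y hy => exact h y hy
  | zero => simp [bf]
  | add y z _ _ hy hz =>
    have e : bf S l x (y + z) = bf S l x y + bf S l x z := by
      unfold bf
      rw [← Finset.sum_add_distrib]
      refine Finset.sum_congr rfl fun k _ => ?_
      rw [Matrix.mulVec_add, dotProduct_add, mul_add]
    rw [e, hy, hz, add_zero]
  | smul a y _ hy =>
    have e : bf S l x (a • y) = a * bf S l x y := by
      unfold bf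
      rw [Finset.mul_sum]
      refine Finset.sum_congr rfl fun k _ => ?_
      rw [Matrix.mulVec_smul, dotProduct_smul, smul_eq_mul]
      ring
    rw [e, hy, mul_zero]

private theorem k3_bf_m (S : Fin r → Matrix (Fin n) (Fin n) K) (l : Fin r → K) (y : Fin n → K)
    (s : Set (Fin n → K)) (h : ∀ x ∈ s, bf S l x y = 0) {x : Fin n → K}
    (hx : x ∈ Submodule.span K s) : bf S l x y = 0 := by
  induction hx using Submodule.span_induction with
  | mem x hx => exact h x hx
  | zero => simp [bf]
  | add x z _ _ hx hz =>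
    have e : bf S l (x + z) y = bf S l x y + bf S l z y := by
      unfold bf
      rw [← Finset.sum_add_distrib]
      refine Finset.sum_congr rfl fun k _ => ?_
      rw [add_dotProduct, mul_add]
    rw [e, hx, hz, add_zero]
  | smul a x _ hx =>
    have e : bf S l (a • x) y = a * bf S l x y := by
      unfold bf
      rw [Finset.mul_sum]
      refine Finset.sum_congr rfl fun k _ => ?_
      rw [smul_dotProduct, smul_eq_mul]
      ring
    rw [e, hx, mul_zero]

private theorem k3_bf_l (S : Fin r → Matrix (Fin n) (Fin n) K) (x y : Fin n → K)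
    (s : Set (Fin r → K)) (h : ∀ l ∈ s, bf S l x y = 0) {l : Fin r → K}
    (hl : l ∈ Submodule.span K s) : bf S l x y = 0 := by
  induction hl using Submodule.span_induction with
  | mem l hl => exact h l hl
  | zero => simp [bf]
  | add l z _ _ hl hz =>
    have e : bf S (l + z) x y = bf S l x y + bf S z x y := by
      unfold bf
      rw [← Finset.sum_add_distrib]
      refine Finset.sum_congr rfl fun k _ => ?_
      rw [Pi.add_apply, add_mul]
    rw [e, hl, hz, add_zero]
  | smul a l _ hl =>
    have e : bf S (a • l) x y = a * bf S l x y := by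
      unfold bf
      rw [Finset.mul_sum]
      refine Finset.sum_congr rfl fun k _ => ?_
      rw [Pi.smul_apply, smul_eq_mul]
      ring
    rw [e, hl, mul_zero]

/-- JOB K3. compatibility depends only on the filtrations.

PROOF. `Comp` says (besides `a, b ≥ 0`): for all `j` and all `u ∈ fil x a s`, `v ∈ fil x a t` with `s + t < b j`:
`bf S (l j) u v = 0`. (One direction by bilinearity.) Let `z` be the new basis of functionals with weights `d`, `Eqv` for
the negatives: `z k ∈ span {l j | - b j ≤ - d k} = span {l j | d k ≤ b j}`. If `bf S (z k) (y i) (y i') ≠ 0` then, expanding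
`z k` in the `l j` with `b j ≥ d k`, `y i` in the `x` with weight `≤ c i`, `y i'` in the `x` with weight `≤ c i'`, some
`bf S (l j) (x u) (x v) ≠ 0`, so `d k ≤ b j ≤ a u + a v ≤ c i + c i'`. Nonnegativity: the multisets of weights agree
(`c i ≥ min a`: `y i ∈ fil x a (c i)` is nonzero, so some `a j ≤ c i`; `d k ≤`-statement: `z k` is a nonzero combination of
`l j` with `d k ≤ b j`; for `0 ≤ d k` use the other direction of `Eqv`: if `d k < 0`, then `fil` at `s = 0`: all `l j` are in
`span {z i | -d i ≤ - b j ≤ 0}`, so all `l j`, hence everything, lie in the span of the `z i` with `d i ≥ 0`,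
contradiction). -/
theorem Comp.congr {S : Fin r → Matrix (Fin n) (Fin n) K} {x y : Basis (Fin n) K (Fin n → K)}
    {a c : Fin n → ℝ} {l z : Basis (Fin r) K (Fin r → K)} {b d : Fin r → ℝ} (h : Comp S x a l b)
    (h1 : Eqv x a y c) (h2 : Eqv l (fun j => - b j) z (fun j => - d j)) : Comp S y c z d := by
  obtain ⟨ha, hb, hS⟩ := h
  refine ⟨fun i => ?_, fun k => ?_, fun k i i' hne => ?_⟩
  · have hy := (mem_fil x a (c i) (y i)).mp (h1.2 i)
    have hne : x.repr (y i) ≠ 0 := by
      intro h0
      exact y.ne_zero i ((LinearEquiv.map_eq_zero_iff x.repr).mp h0)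
    obtain ⟨j, hj⟩ := Finsupp.ne_iff.mp hne
    exact (ha j).trans (hy j hj)
  · have hl : ∀ j, l j ∈ fil z (fun j => - d j) 0 := fun j =>
      fil_mono z _ (by linarith [hb j]) (h2.1 j)
    have htop : (⊤ : Submodule K (Fin r → K)) ≤ fil z (fun j => - d j) 0 := by
      rw [← l.span_eq]
      refine Submodule.span_le.mpr ?_
      rintro _ ⟨j, rfl⟩
      exact hl j
    have hk := (mem_fil z (fun j => - d j) 0 (z k)).mp (htop trivial) k (by
      rw [z.repr_self, Finsupp.single_eq_same]
      exact one_ne_zero)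
    have hk' : - d k ≤ 0 := hk
    linarith
  · by_contra hlt
    rw [not_le] at hlt
    apply hne
    refine k3_bf_l S _ _ _ ?_ (h2.2 k)
    rintro _ ⟨j, hj, rfl⟩
    have hj' : - b j ≤ - d k := hj
    refine k3_bf_m S _ _ _ ?_ (h1.2 i)
    rintro _ ⟨u, hu, rfl⟩
    have hu' : a u ≤ c i := hu
    refine k3_bf_r S _ _ _ ?_ (h1.2 i')
    rintro _ ⟨v, hv, rfl⟩
    have hv' : a v ≤ c i' := hv
    by_contra h0
    have := hS j u v h0
    linarith

end

end QL
end
end

section

section

/-!
LinearBound (MP_c77682_nt), job K7. See table papers, id 368.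
-/

set_option autoImplicit false

open Matrix Module

namespace QL

section

variable {p : ℕ} [Fact p.Prime] {n r m : ℕ}

private theorem frv_eq (v : Fin m → KK p) (i : Fin m) : frv v i = frobenius (KK p) p (v i) := rfl

private theorem frv_add (v w : Fin m → KK p) : frv (v + w) = frv v + frv w := by
  funext i
  simp only [frv_eq, Pi.add_apply, map_add]

private theorem frv_zero : frv (0 : Fin m → KK p) = 0 := by
  funext i
  simp only [frv_eq, Pi.zero_apply, map_zero]

private theorem frv_smul (c : KK p) (v : Fin m → KK p) : frv (c • v) = (c ^ p) • frv v := by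
  funext i
  simp only [frv, Pi.smul_apply, smul_eq_mul, mul_pow]

/-- JOB K7. Frobenius image of a basis. -/
theorem exists_frob_basis (x : Basis (Fin m) (KK p) (Fin m → KK p)) :
    ∃ x' : Basis (Fin m) (KK p) (Fin m → KK p), ∀ i, x' i = frv (x i) := by
  have h1 : IsUnit (Matrix.of fun i => (x i : Fin m → KK p)) := by
    rw [← Matrix.linearIndependent_rows_iff_isUnit]
    exact x.linearIndependent
  have h2 : IsUnit ((Matrix.of fun i => (x i : Fin m → KK p)).map (frobenius (KK p) p)) := by
    have := h1.map (RingHom.mapMatrix (frobenius (KK p) p))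
    exact this
  have h3 : LinearIndependent (KK p) (fun i => frv (x i)) := by
    rw [← Matrix.linearIndependent_rows_iff_isUnit] at h2
    exact h2
  have hc : Fintype.card (Fin m) = finrank (KK p) (Fin m → KK p) := by
    rw [Module.finrank_fintype_fun_eq_card]
  by_cases hm : Nonempty (Fin m)
  · refine ⟨basisOfLinearIndependentOfCardEqFinrank h3 hc, fun i => ?_⟩
    rw [coe_basisOfLinearIndependentOfCardEqFinrank]
  · exact ⟨x, fun i => (hm ⟨i⟩).elim⟩

/-- JOB K7. Frobenius and the forms (`S` has entries in `F_p`). -/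
theorem bf_frob (S : Fin r → Matrix (Fin n) (Fin n) (ZMod p)) (l : Fin r → KK p)
    (x y : Fin n → KK p) :
    bf (fun k => (S k).map (algebraMap (ZMod p) (KK p))) (frv l) (frv x) (frv y) =
      bf (fun k => (S k).map (algebraMap (ZMod p) (KK p))) l x y ^ p := by
  have hS : ∀ k i j, frobenius (KK p) p (algebraMap (ZMod p) (KK p) (S k i j)) =
      algebraMap (ZMod p) (KK p) (S k i j) := by
    intro k i j
    rw [frobenius_def, ← map_pow, ZMod.pow_card]
  have h : bf (fun k => (S k).map (algebraMap (ZMod p) (KK p))) l x y ^ p =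
      frobenius (KK p) p (bf (fun k => (S k).map (algebraMap (ZMod p) (KK p))) l x y) := rfl
  rw [h]
  simp only [bf, dotProduct, Matrix.mulVec, Matrix.map_apply, map_sum, map_mul, hS, frv_eq]

/-- JOB K7. Frobenius and filtrations: `v ∈ fil x a s → frv v ∈ fil x' a s` if `x' = frv ∘ x`. -/
theorem frv_mem_fil {x x' : Basis (Fin m) (KK p) (Fin m → KK p)} (hx : ∀ i, x' i = frv (x i))
    (a : Fin m → ℝ) (s : ℝ) {v : Fin m → KK p} (hv : v ∈ fil x a s) : frv v ∈ fil x' a s := by
  unfold fil at hv ⊢
  induction hv using Submodule.span_induction with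
  | mem v h =>
    obtain ⟨i, hi, rfl⟩ := h
    rw [← hx i]
    exact Submodule.subset_span ⟨i, hi, rfl⟩
  | zero => rw [frv_zero]; exact Submodule.zero_mem _
  | add v w _ _ h1 h2 => rw [frv_add]; exact Submodule.add_mem _ h1 h2
  | smul c v _ h => rw [frv_smul]; exact Submodule.smul_mem _ _ h

end

end QL
end

section

/-!
LinearBound (MP_c77682_nt), job K5. See table papers, id 368.
-/

set_option autoImplicit false

open Matrix Module

namespace QL

section

variable {K : Type} [Field K] {n r m : ℕ}

private theorem nmK_avg (a a' : Fin n → ℝ) (b b' : Fin r → ℝ) :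
    nmK (fun i => (a i + a' i) / 2) (fun j => (b j + b' j) / 2) =
      (nmK a b + nmK a' b') / 2 - nmK (fun i => a i - a' i) (fun j => b j - b' j) / 4 := by
  unfold nmK
  have h1 : ∀ (k : ℕ) (u v : Fin k → ℝ), ∑ i, ((u i + v i) / 2) ^ 2 =
      (∑ i, u i ^ 2 + ∑ i, v i ^ 2) / 2 - (∑ i, (u i - v i) ^ 2) / 4 := by
    intro k u v
    rw [← Finset.sum_add_distrib, Finset.sum_div, Finset.sum_div, ← Finset.sum_sub_distrib]
    exact Finset.sum_congr rfl fun i _ => by ring
  rw [h1, h1]
  ring

private theorem muK_avg (a a' : Fin n → ℝ) (b b' : Fin r → ℝ) :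
    muK (fun i => (a i + a' i) / 2) (fun j => (b j + b' j) / 2) =
      (muK a b + muK a' b') / 2 := by
  unfold muK
  have h1 : ∀ (k : ℕ) (u v : Fin k → ℝ), ∑ i, ((u i + v i) / 2) =
      (∑ i, u i + ∑ i, v i) / 2 := by
    intro k u v
    rw [← Finset.sum_add_distrib, Finset.sum_div]
  rw [h1, h1]
  ring

private theorem nmK_smul (t : ℝ) (a : Fin n → ℝ) (b : Fin r → ℝ) :
    nmK (fun i => t * a i) (fun j => t * b j) = t ^ 2 * nmK a b := by
  unfold nmK
  simp only [mul_pow]
  rw [← Finset.mul_sum, ← Finset.mul_sum]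
  ring

private theorem muK_smul (t : ℝ) (a : Fin n → ℝ) (b : Fin r → ℝ) :
    muK (fun i => t * a i) (fun j => t * b j) = t * muK a b := by
  unfold muK
  rw [← Finset.mul_sum, ← Finset.mul_sum]
  ring

private theorem nmK_nonneg (a : Fin n → ℝ) (b : Fin r → ℝ) : 0 ≤ nmK a b :=
  add_nonneg (Finset.sum_nonneg fun _ _ => sq_nonneg _) (Finset.sum_nonneg fun _ _ => sq_nonneg _)

private theorem nmK_eq_zero {a : Fin n → ℝ} {b : Fin r → ℝ} (h : nmK a b = 0) :
    (∀ i, a i = 0) ∧ ∀ j, b j = 0 := by
  unfold nmK at h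
  have hA : 0 ≤ ∑ i, a i ^ 2 := Finset.sum_nonneg fun _ _ => sq_nonneg _
  have hB : 0 ≤ ∑ j, b j ^ 2 := Finset.sum_nonneg fun _ _ => sq_nonneg _
  have hA0 : ∑ i, a i ^ 2 = 0 := by linarith
  have hB0 : ∑ j, b j ^ 2 = 0 := by linarith
  constructor
  · intro i
    have := (Finset.sum_eq_zero_iff_of_nonneg fun i _ => sq_nonneg (a i)).1 hA0 i
      (Finset.mem_univ i)
    exact pow_eq_zero_iff (two_ne_zero) |>.1 this
  · intro j
    have := (Finset.sum_eq_zero_iff_of_nonneg fun j _ => sq_nonneg (b j)).1 hB0 j
      (Finset.mem_univ j)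
    exact pow_eq_zero_iff (two_ne_zero) |>.1 this

/-- JOB K5. Uniqueness of the filtrations of a maximum with positive value.

PROOF. `exists_common` for `(x, a), (x', a')` gives `y, π`, and for `(l, -b), (l', -b')` gives `z, ρ`; by `Comp.congr`
`Comp S y a z b` and `Comp S y (a' ∘ π) z (b' ∘ ρ)` (note `Eqv l (-b) z (-b)`). Put `a'' = (a + a' ∘ π)/2`,
`b'' = (b + b' ∘ ρ)/2`: `Comp S y a'' z b''` and `muK a'' b'' = (muK a b + muK (a' ∘ π) (b' ∘ ρ))/2 = M` (`muK` is invariant
under permutations, and `muK a b = muK a' b' = M` as both are maximal). If `(a, b) ≠ (a' ∘ π, b' ∘ ρ)` then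
`N := nmK a'' b'' < 1` (strict convexity of the square: `((s+t)/2)^2 < (s^2+t^2)/2` for `s ≠ t`); if `N > 0`, the
weights `a''/√N, b''/√N` are compatible of norm `1` with `muK = M/√N > M`, contradiction; if `N = 0`, `muK a'' b'' = 0 < M`,
contradiction. So `a = a' ∘ π`, `b = b' ∘ ρ`, and the filtrations coincide (`Eqv_iff`). -/
theorem max_unique (S : Fin r → Matrix (Fin n) (Fin n) K)
    {x x' : Basis (Fin n) K (Fin n → K)} {a a' : Fin n → ℝ} {l l' : Basis (Fin r) K (Fin r → K)}
    {b b' : Fin r → ℝ} (h : Comp S x a l b) (h' : Comp S x' a' l' b') (hn : nmK a b ≤ 1)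
    (hn' : nmK a' b' ≤ 1) (hpos : 0 < muK a b)
    (hmax : ∀ (y : Basis (Fin n) K (Fin n → K)) (c : Fin n → ℝ) (z : Basis (Fin r) K (Fin r → K))
      (d : Fin r → ℝ), Comp S y c z d → nmK c d ≤ 1 → muK c d ≤ muK a b)
    (heq : muK a' b' = muK a b) :
    (∀ s, fil x a s = fil x' a' s) ∧
      ∀ s, fil l (fun j => - b j) s = fil l' (fun j => - b' j) s := by
  obtain ⟨y, π, hy, hy'⟩ := exists_common x x' a a'
  obtain ⟨z, ρ, hz, hz'⟩ := exists_common l l' (fun j => - b j) (fun j => - b' j)
  have hC : Comp S y a z b := h.congr hy hz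
  have hC' : Comp S y (a' ∘ π) z (b' ∘ ρ) := h'.congr hy' hz'
  have hmu' : muK (a' ∘ π) (b' ∘ ρ) = muK a' b' := by
    unfold muK
    simp only [Function.comp_apply]
    rw [Equiv.sum_comp π a', Equiv.sum_comp ρ b']
  have hnm' : nmK (a' ∘ π) (b' ∘ ρ) = nmK a' b' := by
    unfold nmK
    simp only [Function.comp_apply]
    rw [Equiv.sum_comp π (fun i => a' i ^ 2), Equiv.sum_comp ρ (fun j => b' j ^ 2)]
  have hA : Comp S y (fun i => (a i + (a' ∘ π) i) / 2) z (fun j => (b j + (b' ∘ ρ) j) / 2) := by
    refine ⟨fun i => ?_, fun j => ?_, fun j i k hjik => ?_⟩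
    · have := hC.1 i
      have := hC'.1 i
      positivity
    · have := hC.2.1 j
      have := hC'.2.1 j
      positivity
    · have e1 := hC.2.2 j i k hjik
      have e2 := hC'.2.2 j i k hjik
      linarith
  have key : nmK (fun i => a i - (a' ∘ π) i) (fun j => b j - (b' ∘ ρ) j) = 0 := by
    by_contra hne
    have hpos' : 0 < nmK (fun i => a i - (a' ∘ π) i) (fun j => b j - (b' ∘ ρ) j) :=
      lt_of_le_of_ne (nmK_nonneg _ _) (Ne.symm hne)
    have hN := nmK_avg a (a' ∘ π) b (b' ∘ ρ)
    have hM := muK_avg a (a' ∘ π) b (b' ∘ ρ)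
    rw [hmu', heq] at hM
    rw [hnm'] at hN
    have hN0 := nmK_nonneg (fun i => (a i + (a' ∘ π) i) / 2) (fun j => (b j + (b' ∘ ρ) j) / 2)
    have hs := nmK_smul (2 / (1 + nmK (fun i => (a i + (a' ∘ π) i) / 2)
      (fun j => (b j + (b' ∘ ρ) j) / 2))) (fun i => (a i + (a' ∘ π) i) / 2)
      (fun j => (b j + (b' ∘ ρ) j) / 2)
    have hs' := muK_smul (2 / (1 + nmK (fun i => (a i + (a' ∘ π) i) / 2)
      (fun j => (b j + (b' ∘ ρ) j) / 2))) (fun i => (a i + (a' ∘ π) i) / 2)
      (fun j => (b j + (b' ∘ ρ) j) / 2)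
    rw [hM] at hs'
    generalize nmK (fun i => (a i + (a' ∘ π) i) / 2) (fun j => (b j + (b' ∘ ρ) j) / 2) = N
      at hN hN0 hs hs'
    have hN1 : N < 1 := by linarith
    have hden : 0 < 1 + N := by linarith
    have ht0 : 0 < 2 / (1 + N) := by positivity
    have ht1 : 1 < 2 / (1 + N) := by
      rw [lt_div_iff₀ hden]
      linarith
    have hle : (2 / (1 + N)) ^ 2 * N ≤ 1 := by
      rw [div_pow, div_mul_eq_mul_div, div_le_one (by positivity)]
      nlinarith [sq_nonneg (1 - N)]
    have hCt : Comp S y (fun i => 2 / (1 + N) * ((a i + (a' ∘ π) i) / 2)) z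
        (fun j => 2 / (1 + N) * ((b j + (b' ∘ ρ) j) / 2)) := by
      refine ⟨fun i => ?_, fun j => ?_, fun j i k hjik => ?_⟩
      · exact mul_nonneg ht0.le (hA.1 i)
      · exact mul_nonneg ht0.le (hA.2.1 j)
      · have e1 := hA.2.2 j i k hjik
        rw [← mul_add]
        exact mul_le_mul_of_nonneg_left e1 ht0.le
    have hfin := hmax _ _ _ _ hCt (by rw [hs]; exact hle)
    rw [hs'] at hfin
    nlinarith
  obtain ⟨k1, k2⟩ := nmK_eq_zero key
  have ea : a' ∘ π = a := funext fun i => (sub_eq_zero.1 (k1 i)).symm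
  have eb : (fun j => - b' j) ∘ ρ = fun j => - b j := funext fun j => by
    have := sub_eq_zero.1 (k2 j)
    simp only [Function.comp_apply] at this ⊢
    rw [this]
  rw [ea] at hy'
  rw [eb] at hz'
  refine ⟨fun s => ?_, fun s => ?_⟩
  · rw [(Eqv_iff x a y a).1 hy s, (Eqv_iff x' a' y a).1 hy' s]
  · rw [(Eqv_iff _ _ _ _).1 hz s, (Eqv_iff _ _ _ _).1 hz' s]

end

end QL
end

section

/-!
LinearBound (MP_c77682_nt), job K9. See table papers, id 368.
-/

set_option autoImplicit false

open Matrix Module

namespace QL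

section

variable {p : ℕ} [Fact p.Prime] {n r m : ℕ}

section helpers
variable {K : Type} [Field K]

private theorem bf_add_l (S : Fin r → Matrix (Fin n) (Fin n) K) (l l' : Fin r → K)
    (x y : Fin n → K) : bf S (l + l') x y = bf S l x y + bf S l' x y := by
  simp [bf, add_mul, Finset.sum_add_distrib]

private theorem bf_smul_l (S : Fin r → Matrix (Fin n) (Fin n) K) (c : K) (l : Fin r → K)
    (x y : Fin n → K) : bf S (c • l) x y = c * bf S l x y := by
  simp [bf, Finset.mul_sum, mul_assoc]

private theorem bf_add_x (S : Fin r → Matrix (Fin n) (Fin n) K) (l : Fin r → K)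
    (x x' y : Fin n → K) : bf S l (x + x') y = bf S l x y + bf S l x' y := by
  simp [bf, mul_add, Finset.sum_add_distrib, add_dotProduct]

private theorem bf_smul_x (S : Fin r → Matrix (Fin n) (Fin n) K) (c : K) (l : Fin r → K)
    (x y : Fin n → K) : bf S l (c • x) y = c * bf S l x y := by
  simp only [bf, smul_dotProduct, smul_eq_mul, Finset.mul_sum]
  refine Finset.sum_congr rfl (fun k _ => by ring)

private theorem bf_add_y (S : Fin r → Matrix (Fin n) (Fin n) K) (l : Fin r → K)
    (x y y' : Fin n → K) : bf S l x (y + y') = bf S l x y + bf S l x y' := by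
  simp [bf, mul_add, Finset.sum_add_distrib, mulVec_add, dotProduct_add]

private theorem bf_smul_y (S : Fin r → Matrix (Fin n) (Fin n) K) (c : K) (l : Fin r → K)
    (x y : Fin n → K) : bf S l x (c • y) = c * bf S l x y := by
  simp only [bf, mulVec_smul, dotProduct_smul, smul_eq_mul, Finset.mul_sum]
  refine Finset.sum_congr rfl (fun k _ => by ring)

private theorem bf_span_zero (S : Fin r → Matrix (Fin n) (Fin n) K) (A : Set (Fin r → K))
    (B : Set (Fin n → K)) (h : ∀ l ∈ A, ∀ x ∈ B, ∀ y ∈ B, bf S l x y = 0)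
    (l : Fin r → K) (hl : l ∈ Submodule.span K A) (x : Fin n → K)
    (hx : x ∈ Submodule.span K B) (y : Fin n → K) (hy : y ∈ Submodule.span K B) :
    bf S l x y = 0 := by
  have h1 : ∀ l ∈ A, ∀ x ∈ B, bf S l x y = 0 := by
    intro l hl x hx
    induction hy using Submodule.span_induction with
    | mem y hy => exact h l hl x hx y hy
    | zero => simp [bf]
    | add u v _ _ hu hv => rw [bf_add_y, hu, hv, add_zero]
    | smul c u _ hu => rw [bf_smul_y, hu, mul_zero]
  have h2 : ∀ l ∈ A, bf S l x y = 0 := by
    intro l hl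
    induction hx using Submodule.span_induction with
    | mem x hx => exact h1 l hl x hx
    | zero => simp [bf]
    | add u v _ _ hu hv => rw [bf_add_x, hu, hv, add_zero]
    | smul c u _ hu => rw [bf_smul_x, hu, mul_zero]
  induction hl using Submodule.span_induction with
  | mem l hl => exact h2 l hl
  | zero => simp [bf]
  | add u v _ _ hu hv => rw [bf_add_l, hu, hv, add_zero]
  | smul c u _ hu => rw [bf_smul_l, hu, mul_zero]

end helpers

private theorem bf_inj (S : Fin r → Matrix (Fin n) (Fin n) (ZMod p)) (l : Fin r → ZMod p)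
    (x y : Fin n → ZMod p) :
    bf (fun k => (S k).map (algebraMap (ZMod p) (KK p))) (inj l) (inj x) (inj y) =
      algebraMap (ZMod p) (KK p) (bf S l x y) := by
  simp only [bf, inj, map_sum, map_mul, dotProduct, mulVec, Matrix.map_apply]

/-- JOB K9. The descent theorem.

PROOF. Suppose `Comp S x a l b` and `4 ∑ b > ∑ a`, i.e. `muK a b > 0`; scaling the weights by a small positive factor we
may assume `nmK a b ≤ 1`, so the maximum `(x, a, l, b)` of `exists_max` has `muK a b > 0`. Let `x' = frv ∘ x`,
`l' = frv ∘ l`; by `bf_frob` (`bf ≠ 0 ↔ bf^p ≠ 0`) `Comp S x' a l' b`. `max_unique`: `fil x a s = fil x' a s` and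
`fil l (-b) s = fil l' (-b) s`. So (`frv_mem_fil`) all `fil x a s`, `fil l (-b) s` are invariant under `frv`. For `s ≥ 0`
let `U = fil x a s` and let `L = fil l (-b) t` where `t` is the largest of the numbers `- b j` smaller than `- 2 s` (if
there is none, `L = ⊥` and the inequality below is trivial): `L = span {l j | 2 s < b j}`. `descent` gives `U₀`, `L₀` over
`F_p`; for `v ∈ L₀`, `u, u' ∈ U₀`: `bf S v u u' = 0` since `bf` of `inj v ∈ L`, `inj u, inj u' ∈ U` vanishes (`b j > 2 s ≥ a i +
a k`) and `algebraMap` is injective. Hypothesis: `8 dim L₀ + dim U₀ ≤ n`, i.e. `8 #{j | 2 s < b j} ≤ #{i | s < a i}`.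
`level_sum` gives `4 ∑ b ≤ ∑ a`, contradiction. -/
theorem kempf (S : Fin r → Matrix (Fin n) (Fin n) (ZMod p))
    (hst : ∀ (U : Submodule (ZMod p) (Fin n → ZMod p)) (L : Submodule (ZMod p) (Fin r → ZMod p)),
      (∀ l ∈ L, ∀ u ∈ U, ∀ u' ∈ U, bf S l u u' = 0) →
      8 * finrank (ZMod p) L + finrank (ZMod p) U ≤ n)
    (x : Basis (Fin n) (KK p) (Fin n → KK p)) (a : Fin n → ℝ)
    (l : Basis (Fin r) (KK p) (Fin r → KK p)) (b : Fin r → ℝ)
    (h : Comp (fun k => (S k).map (algebraMap (ZMod p) (KK p))) x a l b) :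
    4 * ∑ j, b j ≤ ∑ i, a i := by
  by_contra hcon
  push Not at hcon
  set S' : Fin r → Matrix (Fin n) (Fin n) (KK p) :=
    fun k => (S k).map (algebraMap (ZMod p) (KK p)) with hS'
  obtain ⟨x₀, a₀, l₀, b₀, hc, hn1, hmax⟩ := exists_max S'
  have hN0 : 0 ≤ nmK a b := by
    unfold nmK; positivity
  -- the value of the maximum is positive
  have hpos : 0 < muK a₀ b₀ := by
    set c : ℝ := 1 / (1 + nmK a b) with hcdef
    have hcpos : 0 < c := by rw [hcdef]; positivity
    have h1 : Comp S' x (fun i => c * a i) l (fun j => c * b j) := by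
      refine ⟨fun i => mul_nonneg hcpos.le (h.1 i), fun j => mul_nonneg hcpos.le (h.2.1 j), ?_⟩
      intro j i k hne
      have := h.2.2 j i k hne
      nlinarith
    have h2 : nmK (fun i => c * a i) (fun j => c * b j) ≤ 1 := by
      have e : nmK (fun i => c * a i) (fun j => c * b j) = c ^ 2 * nmK a b := by
        simp only [nmK, mul_pow, ← Finset.mul_sum]
        ring
      rw [e, hcdef, div_pow, one_pow, div_mul_eq_mul_div, one_mul, div_le_one (by positivity)]
      nlinarith
    have h3 := hmax _ _ _ _ h1 h2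
    have e : muK (fun i => c * a i) (fun j => c * b j) = c * muK a b := by
      simp only [muK, ← Finset.mul_sum]
      ring
    rw [e] at h3
    have h4 : 0 < muK a b := by
      unfold muK
      linarith
    have := mul_pos hcpos h4
    linarith
  obtain ⟨x', hx'⟩ := exists_frob_basis x₀
  obtain ⟨l', hl'⟩ := exists_frob_basis l₀
  have hc' : Comp S' x' a₀ l' b₀ := by
    refine ⟨hc.1, hc.2.1, ?_⟩
    intro j i k hne
    apply hc.2.2 j i k
    intro h0
    apply hne
    rw [hx', hx', hl', hS', bf_frob, ← hS', h0]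
    exact zero_pow (Fact.out : p.Prime).ne_zero
  obtain ⟨hfx, hfl⟩ := max_unique S' hc hc' hn1 hn1 hpos hmax rfl
  have hlev := level_sum a₀ b₀ hc.1 hc.2.1 ?_
  · unfold muK at hpos
    linarith
  · intro s hs
    by_cases hB : (Finset.univ.filter fun j => 2 * s < b₀ j).Nonempty
    swap
    · rw [Finset.not_nonempty_iff_eq_empty] at hB
      rw [hB]
      simp
    obtain ⟨j₀, hj₀, hmin⟩ := Finset.exists_min_image _ b₀ hB
    rw [Finset.mem_filter] at hj₀
    set U : Submodule (KK p) (Fin n → KK p) := fil x₀ a₀ s with hU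
    set L : Submodule (KK p) (Fin r → KK p) := fil l₀ (fun j => - b₀ j) (- b₀ j₀) with hL
    have hUf : ∀ u ∈ U, frv u ∈ U := by
      intro u hu
      have := frv_mem_fil hx' a₀ s hu
      rw [← hfx s] at this
      exact this
    have hLf : ∀ u ∈ L, frv u ∈ L := by
      intro u hu
      have := frv_mem_fil hl' (fun j => - b₀ j) (- b₀ j₀) hu
      rw [← hfl] at this
      exact this
    obtain ⟨U₀, hU₀, hUm⟩ := descent U hUf
    obtain ⟨L₀, hL₀, hLm⟩ := descent L hLf
    have key := hst U₀ L₀ ?_
    · rw [hU₀, hL₀, hU, hL, finrank_fil, finrank_fil] at key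
      have e1 : (Finset.univ.filter fun j => - b₀ j ≤ - b₀ j₀)
          = Finset.univ.filter fun j => 2 * s < b₀ j := by
        ext j
        simp only [Finset.mem_filter, Finset.mem_univ, true_and, neg_le_neg_iff]
        constructor
        · intro h1
          exact lt_of_lt_of_le hj₀.2 h1
        · intro h1
          exact hmin j (by simp [h1])
      rw [e1] at key
      have e2 : (Finset.univ.filter fun i => a₀ i ≤ s).card
          + (Finset.univ.filter fun i => s < a₀ i).card = n := by
        have := Finset.card_filter_add_card_filter_not (s := (Finset.univ : Finset (Fin n)))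
          (fun i => a₀ i ≤ s)
        simpa using this
      omega
    · intro v hv u hu u' hu'
      have h1 : bf S' (inj v) (inj u) (inj u') = 0 := by
        refine bf_span_zero S' _ _ ?_ _ (hLm v hv) _ (hUm u hu) _ (hUm u' hu')
        rintro _ ⟨j, hj, rfl⟩ _ ⟨i, hi, rfl⟩ _ ⟨k, hk, rfl⟩
        by_contra hne
        have h2 := hc.2.2 j i k hne
        simp only [Set.mem_ofPred_eq] at hj hi hk
        linarith [hj₀.2]
      rw [hS', bf_inj] at h1
      exact (map_eq_zero_iff _ (algebraMap (ZMod p) (KK p)).injective).1 h1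

end

end QL
end
end
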