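import Pool.Agent.Lib.MP_c77682_nt.L.MDefs

section

/-!
LinearBound (MP_c77682_nt), job M1. See table papers, id 368.
-/

set_option autoImplicit false

open Matrix

namespace QL

section

variable {K : Type} [Field K] {p : ℕ} {σ : Type} [Fintype σ] [DecidableEq σ]

theorem M1_ne {a : σ} {m m' : Mon p σ} (h : Xm K p a m m' ≠ 0) :
    ∀ i, (m i : ℕ) = m' i + (if i = a then 1 else 0) := by
  by_contra hcon
  exact h (if_neg hcon)

theorem M1_mul (a b : σ) (m m' : Mon p σ) : (Xm K p a * Xm K p b) m m' =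
    if ∀ i, (m i : ℕ) = m' i + (if i = b then 1 else 0) + (if i = a then 1 else 0)
      then 1 else 0 := by
  rw [Matrix.mul_apply]
  split_ifs with h
  · let m₁ : Mon p σ := fun i => ⟨(m' i : ℕ) + (if i = b then 1 else 0), by
      have h1 := h i
      have h2 := (m i).isLt
      omega⟩
    rw [Finset.sum_eq_single m₁]
    · have h1 : Xm K p a m m₁ = 1 := if_pos (fun i => h i)
      have h2 : Xm K p b m₁ m' = 1 := if_pos (fun i => rfl)
      rw [h1, h2, one_mul]
    · intro m₂ _ hne
      by_contra hcon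
      apply hne
      have h2 : Xm K p b m₂ m' ≠ 0 := fun h0 => hcon (by rw [h0, mul_zero])
      funext i
      apply Fin.ext
      exact M1_ne h2 i
    · intro h1
      exact absurd (Finset.mem_univ _) h1
  · apply Finset.sum_eq_zero
    intro m₂ _
    by_contra hcon
    apply h
    have h1 : Xm K p a m m₂ ≠ 0 := fun h0 => hcon (by rw [h0, zero_mul])
    have h2 : Xm K p b m₂ m' ≠ 0 := fun h0 => hcon (by rw [h0, mul_zero])
    intro i
    rw [M1_ne h1 i, M1_ne h2 i]

theorem M1_pow (a : σ) (k : ℕ) (m m' : Mon p σ) (h : (Xm K p a ^ k) m m' ≠ 0) :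
    (m a : ℕ) = m' a + k := by
  induction k generalizing m with
  | zero =>
    rw [pow_zero, Matrix.one_apply] at h
    split_ifs at h with h1
    · rw [h1, add_zero]
    · exact absurd rfl h
  | succ k ih =>
    rw [pow_succ', Matrix.mul_apply] at h
    obtain ⟨m₂, _, h2⟩ := Finset.exists_ne_zero_of_sum_ne_zero h
    have h3 : Xm K p a m m₂ ≠ 0 := fun h0 => h2 (by rw [h0, zero_mul])
    have h4 : (Xm K p a ^ k) m₂ m' ≠ 0 := fun h0 => h2 (by rw [h0, mul_zero])
    have h5 := M1_ne h3 a
    rw [if_pos rfl] at h5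
    rw [h5, ih m₂ h4]
    ring

/-- JOB M1. the variables commute. -/
theorem Xm_comm (a b : σ) : Xm K p a * Xm K p b = Xm K p b * Xm K p a := by
  ext m m'
  rw [M1_mul, M1_mul]
  congr 1
  apply propext
  constructor
  · intro h i
    rw [h i]
    ring
  · intro h i
    rw [h i]
    ring

/-- JOB M1. -/
theorem Xm_deg (a : σ) (m m' : Mon p σ) (h : Xm K p a m m' ≠ 0) : dg m = dg m' + 1 := by
  have h1 := M1_ne h
  rw [dg, dg, Finset.sum_congr rfl (fun i _ => h1 i), Finset.sum_add_distrib]
  congr 1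
  rw [Finset.sum_ite_eq', if_pos (Finset.mem_univ a)]

/-- JOB M1. `x_a^p = 0`. (`(x_a^k) m m' ≠ 0` implies `m a = m' a + k`.) -/
theorem Xm_pow (hp : 1 ≤ p) (a : σ) : Xm K p a ^ p = 0 := by
  ext m m'
  rw [Matrix.zero_apply]
  by_contra hcon
  have h1 := M1_pow a p m m' hcon
  have h2 := (m a).isLt
  omega

end

end QL
end

section

section

/-!
LinearBound (MP_c77682_nt), job M2. See table papers, id 368.
-/

set_option autoImplicit false

open Matrix

namespace QL

section

variable {K : Type} [Field K] {p : ℕ} {σ : Type} [Fintype σ] [DecidableEq σ]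

private theorem M2_cx (a b : σ) : Commute (Xm K p a) (Xm K p b) := Xm_comm a b

/-- JOB M2. -/
theorem GN_comm (Q Q' : Matrix σ σ K) : GN p Q * GN p Q' = GN p Q' * GN p Q := by
  have h : Commute (GN p Q) (GN p Q') := by
    unfold GN
    refine Commute.sum_left _ _ _ fun a _ => Commute.sum_left _ _ _ fun b _ => ?_
    refine Commute.sum_right _ _ _ fun c _ => Commute.sum_right _ _ _ fun d _ => ?_
    refine Commute.smul_left (Commute.smul_right ?_ _) _
    exact ((M2_cx a c).mul_left (M2_cx b c)).mul_right ((M2_cx a d).mul_left (M2_cx b d))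
  exact h

/-- JOB M2. -/
theorem GN_deg (Q : Matrix σ σ K) (m m' : Mon p σ) (h : GN p Q m m' ≠ 0) : dg m = dg m' + 2 := by
  unfold GN at h
  rw [Matrix.sum_apply] at h
  obtain ⟨a, _, ha⟩ := Finset.exists_ne_zero_of_sum_ne_zero h
  rw [Matrix.sum_apply] at ha
  obtain ⟨b, _, hb⟩ := Finset.exists_ne_zero_of_sum_ne_zero ha
  rw [Matrix.smul_apply, smul_eq_mul, Matrix.mul_apply] at hb
  obtain ⟨m'', _, hm⟩ := Finset.exists_ne_zero_of_sum_ne_zero (right_ne_zero_of_mul hb)
  have h1 := Xm_deg a m m'' (left_ne_zero_of_mul hm)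
  have h2 := Xm_deg b m'' m' (right_ne_zero_of_mul hm)
  omega

/-- JOB M2. -/
theorem GN_add (Q Q' : Matrix σ σ K) : GN p (Q + Q') = GN p Q + GN p Q' := by
  unfold GN
  simp only [Matrix.add_apply, add_smul, Finset.sum_add_distrib]

/-- JOB M2. -/
theorem GN_smul (c : K) (Q : Matrix σ σ K) : GN p (c • Q) = c • GN p Q := by
  unfold GN
  simp only [Matrix.smul_apply, smul_eq_mul, mul_smul, Finset.smul_sum]

end

end QL
end

section

/-!
LinearBound (MP_c77682_nt), job M3. See table papers, id 368.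
-/

set_option autoImplicit false

open Matrix

namespace QL

section

variable {K : Type} [Field K] {p : ℕ} {σ : Type} [Fintype σ] [DecidableEq σ]

private theorem m3_sum_pow {R ι : Type} [Ring R] {p : ℕ} [Fact p.Prime] [CharP R p] [DecidableEq ι]
    (s : Finset ι) (f : ι → R) (hc : ∀ i j, Commute (f i) (f j)) :
    (∑ i ∈ s, f i) ^ p = ∑ i ∈ s, f i ^ p := by
  induction s using Finset.induction_on with
  | empty =>
    rw [Finset.sum_empty, Finset.sum_empty]
    exact zero_pow (Fact.out : p.Prime).ne_zero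
  | insert a s ha ih =>
    rw [Finset.sum_insert ha, Finset.sum_insert ha, ← ih]
    apply add_pow_char_of_commute
    exact Commute.sum_right _ _ _ (fun j _ => hc a j)

/-- JOB M3. In characteristic `p`, `GN p Q ^ p = 0`.

PROOF. The matrices `Q a b • (x_a x_b)` commute pairwise, so in characteristic `p` the `p`-th power of their sum is the
sum of the `p`-th powers (`add_pow_char_of_commute`, `Finset.noncommSum`-free: induction over the finset), and
`(x_a x_b)^p = x_a^p x_b^p = 0`. (The matrix ring has characteristic `p`: `Matrix.charP` or `CharP` from the algebra map;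
the monomial set is nonempty because `p ≥ 1`.) -/
theorem GN_pow [Fact p.Prime] [CharP K p] (Q : Matrix σ σ K) : GN p Q ^ p = 0 := by
  have hp : 1 ≤ p := (Fact.out : p.Prime).one_lt.le
  have : Nonempty (Mon p σ) := ⟨fun _ => ⟨0, hp⟩⟩
  have : CharP (Matrix (Mon p σ) (Mon p σ) K) p := inferInstance
  have hc : ∀ a b : σ, Commute (Xm K p a) (Xm K p b) := fun a b => Xm_comm a b
  have h1 : GN p Q = ∑ x : σ × σ, Q x.1 x.2 • (Xm K p x.1 * Xm K p x.2) := by
    unfold GN
    rw [Fintype.sum_prod_type]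
  rw [h1, m3_sum_pow]
  · apply Finset.sum_eq_zero
    intro x _
    rw [smul_pow, (hc x.1 x.2).mul_pow, Xm_pow hp, zero_mul, smul_zero]
  · intro i j
    apply Commute.smul_left
    apply Commute.smul_right
    apply Commute.mul_left
    · exact (hc _ _).mul_right (hc _ _)
    · exact (hc _ _).mul_right (hc _ _)

private theorem m3_zero [Fact p.Prime] [CharP K p] (S : Matrix σ σ K) (h : S + Sᵀ = 0) :
    GN p S = 0 := by
  have hp : 1 ≤ p := (Fact.out : p.Prime).one_lt.le
  have hS : ∀ a b, S a b + S b a = 0 := by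
    intro a b
    have := congrFun (congrFun h a) b
    simpa using this
  have h1 : GN p S = ∑ x : σ × σ, S x.1 x.2 • (Xm K p x.1 * Xm K p x.2) := by
    unfold GN
    rw [Fintype.sum_prod_type]
  rw [h1]
  refine Finset.sum_involution (fun x _ => (x.2, x.1)) ?_ ?_ (fun x _ => Finset.mem_univ _)
    (fun x _ => rfl)
  · intro x _
    change S x.1 x.2 • (Xm K p x.1 * Xm K p x.2) + S x.2 x.1 • (Xm K p x.2 * Xm K p x.1) = 0
    rw [Xm_comm x.2 x.1, ← add_smul, hS, zero_smul]
  · rintro ⟨a, b⟩ _ hx hab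
    have hb : b = a := by
      have := congrArg Prod.fst hab
      exact this
    subst hb
    apply hx
    change S b b • (Xm K p b * Xm K p b) = 0
    by_cases h2 : p = 2
    · have h3 : Xm K p b ^ p = 0 := Xm_pow hp b
      have h4 : Xm K p b * Xm K p b = 0 := by
        rw [← pow_two]
        have : Xm K p b ^ 2 = Xm K p b ^ p := by rw [h2]
        rw [this, h3]
      rw [h4, smul_zero]
    · have h3 : (2 : K) ≠ 0 := by
        intro h4
        have h5 : ((2 : ℕ) : K) = 0 := by exact_mod_cast h4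
        rw [CharP.cast_eq_zero_iff K p] at h5
        have h6 := (Nat.prime_dvd_prime_iff_eq (Fact.out : p.Prime) Nat.prime_two).1 h5
        exact h2 h6
      have h4 : (2 : K) * S b b = 0 := by
        rw [two_mul]
        exact hS b b
      have h5 : S b b = 0 := (mul_eq_zero.1 h4).resolve_left h3
      rw [h5, zero_smul]

/-- JOB M3. `GN` depends only on `Q + Qᵀ`.

PROOF. `S = Q - Q'` satisfies `S + Sᵀ = 0`. `∑ S a b x_a x_b`: exchanging `a` and `b` shows
`2 GN S = 0`-type cancellation; precisely `∑_{a,b} S a b x_a x_b = ∑_a S a a x_a^2 + ∑_{a<b} (S a b + S b a) x_a x_b` (choose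
a linear order on `σ`, or argue with `Fintype.equivFin`), the second sum is `0`; in the first `2 S a a = 0`: if `p ≠ 2`,
`S a a = 0`; if `p = 2`, `x_a^2 = 0` (`Xm_pow`). -/
theorem GN_congr [Fact p.Prime] [CharP K p] (Q Q' : Matrix σ σ K) (h : Q + Qᵀ = Q' + Q'ᵀ) :
    GN p Q = GN p Q' := by
  have h0 : (Q - Q') + (Q - Q')ᵀ = 0 := by
    rw [Matrix.transpose_sub]
    have : (Q - Q') + (Qᵀ - Q'ᵀ) = (Q + Qᵀ) - (Q' + Q'ᵀ) := by abel
    rw [this, h, sub_self]
  have h1 := m3_zero (p := p) (Q - Q') h0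
  have h2 : GN p Q = GN p ((Q - Q') + Q') := by rw [sub_add_cancel]
  rw [h2, GN_add, h1, zero_add]

end

end QL
end
end
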