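import Pool.Agent.Lib.MP_c77682_nt.L.Cx

section

/-!
LinearBound (MP_c77682_nt), job C1b. See table papers, id 368.
-/

set_option autoImplicit false

namespace QL

section

variable {F M : Type} [Field F] [AddCommGroup M] [Module F M]

/-- the terms of `d (d c)`. -/
private noncomputable def GG (p : ℕ) {r : ℕ} (f : Fin r → Module.End F M) (c : (Fin r → ℕ) → M)
    (b : Fin r → ℕ) (i k : Fin r) : M :=
  if 1 ≤ b i then
    if 1 ≤ Function.update b i (b i - 1) k then
      (-1 : F) ^ sgE i b • (-1 : F) ^ sgE k (Function.update b i (b i - 1)) •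
        ph p (f i) (b i) (ph p (f k) (Function.update b i (b i - 1) k)
          (c (Function.update (Function.update b i (b i - 1)) k
            (Function.update b i (b i - 1) k - 1)))) else 0
  else 0

private theorem sgE_lower {r : ℕ} (i k : Fin r) (hik : i < k) (b : Fin r → ℕ) (hb : 1 ≤ b i) :
    sgE k b = sgE k (Function.update b i (b i - 1)) + 1 := by
  unfold sgE
  have hi : i ∈ Finset.univ.filter (fun l : Fin r => l < k) := by simpa using hik
  rw [← Finset.add_sum_erase _ _ hi, ← Finset.add_sum_erase _ _ hi, Function.update_self]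
  have : ∑ x ∈ (Finset.univ.filter (fun l : Fin r => l < k)).erase i,
      Function.update b i (b i - 1) x =
      ∑ x ∈ (Finset.univ.filter (fun l : Fin r => l < k)).erase i, b x := by
    refine Finset.sum_congr rfl fun x hx => ?_
    rw [Function.update_of_ne (Finset.ne_of_mem_erase hx)]
  rw [this]
  omega

private theorem sgE_same {r : ℕ} (i k : Fin r) (hik : i < k) (b : Fin r → ℕ) (v : ℕ) :
    sgE i (Function.update b k v) = sgE i b := by
  unfold sgE
  refine Finset.sum_congr rfl fun x hx => ?_
  have hx' : x < i := by simpa using hx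
  rw [Function.update_of_ne (ne_of_lt (hx'.trans hik))]

private theorem ph_comm {p : ℕ} {S T : Module.End F M} (h : Commute S T) (a b : ℕ) (m : M) :
    ph p S a (ph p T b m) = ph p T b (ph p S a m) := by
  have h1 : Commute (ph p S a) (ph p T b) := by
    unfold ph
    split_ifs
    · exact h
    · exact h.pow_right _
    · exact h.pow_left _
    · exact h.pow_pow _ _
  have h2 := congrArg (fun A : Module.End F M => A m) h1.eq
  simpa only [Module.End.mul_apply] using h2

private theorem GG_lt {p r : ℕ} {f : Fin r → Module.End F M}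
    (hc : ∀ i j, Commute (f i) (f j)) (c : (Fin r → ℕ) → M) (b : Fin r → ℕ) {i k : Fin r}
    (hik : i < k) : GG p f c b i k + GG p f c b k i = 0 := by
  unfold GG
  rw [Function.update_of_ne (ne_of_gt hik), Function.update_of_ne (ne_of_lt hik)]
  by_cases h1 : 1 ≤ b i
  · by_cases h2 : 1 ≤ b k
    · rw [if_pos h1, if_pos h2, if_pos h2, if_pos h1, sgE_same i k hik, sgE_lower i k hik b h1,
        ph_comm (hc i k), Function.update_comm (ne_of_lt hik), smul_smul, smul_smul, ← pow_add,
        ← pow_add, ← add_smul]
      have : (-1 : F) ^ (sgE i b + sgE k (Function.update b i (b i - 1))) +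
          (-1 : F) ^ (sgE k (Function.update b i (b i - 1)) + 1 + sgE i b) = 0 := by
        rw [show sgE k (Function.update b i (b i - 1)) + 1 + sgE i b =
          (sgE i b + sgE k (Function.update b i (b i - 1))) + 1 by ring, pow_succ]
        ring
      rw [this, zero_smul]
    · rw [if_neg h2, if_pos h1, if_neg h2, add_zero]
  · rw [if_neg h1]
    by_cases h2 : 1 ≤ b k
    · rw [if_pos h2, if_neg h1, add_zero]
    · rw [if_neg h2, add_zero]

private theorem GG_self {p r : ℕ} (hp : 1 ≤ p) {f : Fin r → Module.End F M}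
    (hn : ∀ i, f i ^ p = 0) (c : (Fin r → ℕ) → M) (b : Fin r → ℕ) (i : Fin r) :
    GG p f c b i i = 0 := by
  unfold GG
  split_ifs with h1 h2
  · rw [Function.update_self] at *
    have key : ∀ m : M, ph p (f i) (b i) (ph p (f i) (b i - 1) m) = 0 := by
      intro m
      rw [← Module.End.mul_apply]
      have : ph p (f i) (b i) * ph p (f i) (b i - 1) = 0 := by
        unfold ph
        by_cases h3 : Odd (b i)
        · have h4 : ¬ Odd (b i - 1) := by
            rw [Nat.not_odd_iff_even]
            exact Nat.Odd.sub_odd h3 odd_one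
          rw [if_pos h3, if_neg h4, ← pow_succ', Nat.sub_add_cancel hp, hn]
        · have h4 : Odd (b i - 1) := by
            rw [Nat.not_odd_iff_even] at h3
            exact Nat.Even.sub_odd h1 h3 odd_one
          rw [if_neg h3, if_pos h4, ← pow_succ, Nat.sub_add_cancel hp, hn]
      rw [this, LinearMap.zero_apply]
    rw [key, smul_zero, smul_zero]
  · rfl
  · rfl

/-- JOB C1b. `d ∘ d = 0`.

PROOF. `(d (d c))(b) = ∑_{i, k} …`. The terms with `i ≠ k` cancel in pairs (the operators commute; the sign
exponents of `(i, k)` and `(k, i)`, `i < k`, differ by one: in one of the two orders the entry `b i` has been lowered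
by one before the sign of `k` is computed; `ph p (f k) (b k)` is not changed by lowering `b i`). The terms `i = k`
(`b i ≥ 2`) contain `ph p (f i) (b i) ∘ ph p (f i) (b i - 1) = (f i)^p = 0` since one of `b i`, `b i - 1` is odd and the
other even (`1 ≤ p`). -/
theorem dL_dL {p r : ℕ} (hp : 1 ≤ p) {𝓜 : ℤ → Submodule F M} {f : Fin r → Module.End F M}
    (hS : Sys p 𝓜 f) (c : (Fin r → ℕ) → M) : dL p f (dL p f c) = 0 := by
  funext b
  have h : dL p f (dL p f c) b = ∑ x : Fin r × Fin r, GG p f c b x.1 x.2 := by
    rw [dL_apply, Fintype.sum_prod_type]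
    refine Finset.sum_congr rfl fun i _ => ?_
    by_cases h1 : 1 ≤ b i
    · rw [if_pos h1, dL_apply, map_sum, Finset.smul_sum]
      refine Finset.sum_congr rfl fun k _ => ?_
      unfold GG
      rw [if_pos h1]
      split_ifs with h2
      · rw [map_smul]
      · rw [map_zero, smul_zero]
    · rw [if_neg h1]
      symm
      refine Finset.sum_eq_zero fun k _ => ?_
      unfold GG
      rw [if_neg h1]
  rw [h, Pi.zero_apply]
  refine Finset.sum_involution (fun x _ => Prod.swap x) ?_ ?_ (fun _ _ => Finset.mem_univ _)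
    (fun _ _ => Prod.swap_swap _)
  · rintro ⟨i, k⟩ -
    show GG p f c b i k + GG p f c b k i = 0
    rcases lt_trichotomy i k with hik | hik | hik
    · exact GG_lt hS.comm c b hik
    · subst hik
      rw [GG_self hp hS.nil, add_zero]
    · rw [add_comm]
      exact GG_lt hS.comm c b hik
  · rintro ⟨i, k⟩ - hne heq
    apply hne
    have : k = i := congrArg Prod.fst heq
    subst this
    exact GG_self hp hS.nil c b k

end

end QL
end

section

/-!
LinearBound (MP_c77682_nt), job C1a. See table papers, id 368.
-/

set_option autoImplicit false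

namespace QL

section

variable {F M : Type} [Field F] [AddCommGroup M] [Module F M]

private theorem sum_upd {r : ℕ} (b : Fin r → ℕ) (i : Fin r) (hb : 1 ≤ b i) :
    (∑ k, (Function.update b i (b i - 1) k : ℤ)) + 1 = ∑ k, (b k : ℤ) := by
  rw [← Finset.add_sum_erase _ _ (Finset.mem_univ i),
    ← Finset.add_sum_erase _ _ (Finset.mem_univ i), Function.update_self]
  have : ∑ x ∈ Finset.univ.erase i, (Function.update b i (b i - 1) x : ℤ) =
      ∑ x ∈ Finset.univ.erase i, (b x : ℤ) := by
    refine Finset.sum_congr rfl fun x hx => ?_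
    rw [Function.update_of_ne (Finset.ne_of_mem_erase hx)]
  rw [this]
  push_cast [Nat.cast_sub hb]
  ring

private theorem nodd_sum {r : ℕ} (b : Fin r → ℕ) :
    nodd b = ∑ k, if Odd (b k) then 1 else 0 := by
  unfold nodd
  rw [Finset.card_filter]

private theorem nodd_upd {r : ℕ} (b : Fin r → ℕ) (i : Fin r) (v : ℕ) :
    nodd (Function.update b i v) + (if Odd (b i) then 1 else 0) =
      nodd b + (if Odd v then 1 else 0) := by
  rw [nodd_sum, nodd_sum, ← Finset.add_sum_erase _ _ (Finset.mem_univ i),
    ← Finset.add_sum_erase _ (fun k => if Odd (b k) then 1 else 0) (Finset.mem_univ i),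
    Function.update_self]
  have : ∑ x ∈ Finset.univ.erase i, (if Odd (Function.update b i v x) then 1 else 0) =
      ∑ x ∈ Finset.univ.erase i, (if Odd (b x) then 1 else 0) := by
    refine Finset.sum_congr rfl fun x hx => ?_
    rw [Function.update_of_ne (Finset.ne_of_mem_erase hx)]
  rw [this]
  ring

private theorem pow_deg {p r : ℕ} {𝓜 : ℤ → Submodule F M} {f : Fin r → Module.End F M}
    (hS : Sys p 𝓜 f) (i : Fin r) (n : ℕ) (D : ℤ) (m : M) (hm : m ∈ 𝓜 D) :
    (f i ^ n) m ∈ 𝓜 (D + 2 * n) := by
  induction n with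
  | zero => simpa using hm
  | succ n ih =>
    rw [pow_succ', Module.End.mul_apply]
    have := hS.deg i _ _ ih
    convert this using 2
    push_cast
    ring

/-- JOB C1a. `d` has bidegree `(1, p)`.

PROOF. Fix `b`. If `∑ b ≠ j + 1`, every summand vanishes: for `b i ≥ 1` the sum of
`b - e_i = Function.update b i (b i - 1)` is `∑ b - 1 ≠ j`, so `c (b - e_i) = 0`. Degrees: put `b' = b - e_i`
(`b i ≥ 1`). `c b' ∈ 𝓜 (ℓ - (p-2) nodd b')`. If `b i` is odd, `nodd b' = nodd b - 1`, `ph = f i` and
`ℓ - (p-2)(nodd b - 1) + 2 = ℓ + p - (p-2) nodd b`. If `b i` is even, `nodd b' = nodd b + 1`, `ph = (f i)^(p-1)`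
raises degrees by `2 (p-1)` and `ℓ - (p-2)(nodd b + 1) + 2(p-1) = ℓ + p - (p-2) nodd b`. -/
theorem dL_mem_Bi {p r : ℕ} (hp : 1 ≤ p) {𝓜 : ℤ → Submodule F M} {f : Fin r → Module.End F M}
    (hS : Sys p 𝓜 f) {j ℓ : ℤ} {c : (Fin r → ℕ) → M} (hc : c ∈ Bi p 𝓜 j ℓ) :
    dL p f c ∈ Bi p 𝓜 (j + 1) (ℓ + p) := by
  intro b
  have key : ∀ i, (if 1 ≤ b i then
      (-1 : F) ^ sgE i b • ph p (f i) (b i) (c (Function.update b i (b i - 1))) else 0) ∈
        𝓜 (ℓ + p - ((p : ℤ) - 2) * nodd b) := by
    intro i
    split_ifs with hb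
    · refine Submodule.smul_mem _ _ ?_
      have h1 := (hc (Function.update b i (b i - 1))).1
      have h2 := nodd_upd b i (b i - 1)
      unfold ph
      split_ifs with ho
      · have he : ¬ Odd (b i - 1) := by
          rw [Nat.not_odd_iff_even]
          exact ho.tsub_odd odd_one
        rw [if_pos ho, if_neg he] at h2
        have h3 := hS.deg i _ _ h1
        convert h3 using 2
        have h4 : (nodd b : ℤ) = nodd (Function.update b i (b i - 1)) + 1 := by
          exact_mod_cast h2.symm
        rw [h4]
        ring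
      · have he : Odd (b i - 1) := by
          rw [Nat.not_odd_iff_even] at ho
          obtain ⟨k, hk⟩ := ho
          exact ⟨k - 1, by omega⟩
        rw [if_neg ho, if_pos he] at h2
        have h3 := pow_deg hS i (p - 1) _ _ h1
        convert h3 using 2
        have h4 : (nodd (Function.update b i (b i - 1)) : ℤ) = nodd b + 1 := by
          exact_mod_cast h2
        rw [h4, Nat.cast_sub hp]
        push_cast
        ring
    · exact Submodule.zero_mem _
  refine ⟨?_, fun hj => ?_⟩
  · rw [dL_apply]
    exact Submodule.sum_mem _ fun i _ => key i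
  · rw [dL_apply]
    refine Finset.sum_eq_zero fun i _ => ?_
    split_ifs with hb
    · have h1 := sum_upd b i hb
      have h2 : (∑ k, (Function.update b i (b i - 1) k : ℤ)) ≠ j := by
        intro h
        apply hj
        rw [← h1, h]
      rw [(hc (Function.update b i (b i - 1))).2 h2, map_zero, smul_zero]
    · rfl

end

end QL
end
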