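import Pool.Agent.Lib.MP_c77682_nt.L.BDefs

/-!
LinearBound, block M: the truncated polynomial algebra `K[x_s]/(x_s^p)` as the space of functions on the monomials
with exponents `< p`, and multiplication by quadratic forms as matrices.
-/

set_option autoImplicit false

open Matrix

namespace QL

/-- monomials with exponents `< p`. -/
abbrev Mon (p : ℕ) (σ : Type) : Type := σ → Fin p

/-- degree. -/
def dg {p : ℕ} {σ : Type} [Fintype σ] (m : Mon p σ) : ℕ := ∑ i, (m i : ℕ)

section
variable {K : Type} [Field K] {p : ℕ} {σ : Type} [Fintype σ] [DecidableEq σ]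

/-- multiplication by the variable `x_a`. -/
def Xm (K : Type) [Field K] (p : ℕ) {σ : Type} [Fintype σ] [DecidableEq σ] (a : σ) :
    Matrix (Mon p σ) (Mon p σ) K :=
  fun m m' => if ∀ i, (m i : ℕ) = m' i + (if i = a then 1 else 0) then 1 else 0

/-- multiplication by the quadratic form `∑ Q a b x_a x_b`. -/
noncomputable def GN (p : ℕ) (Q : Matrix σ σ K) : Matrix (Mon p σ) (Mon p σ) K :=
  ∑ a, ∑ b, Q a b • (Xm K p a * Xm K p b)

/-- homogeneous vectors of degree `D` in `μ → K`. -/
def gr (K : Type) [Field K] {μ : Type} (deg : μ → ℕ) (D : ℤ) : Submodule K (μ → K) where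
  carrier := {x | ∀ m, x m ≠ 0 → (deg m : ℤ) = D}
  add_mem' := by
    intro x y hx hy m hm
    by_contra h
    apply hm
    have h1 : x m = 0 := by
      by_contra h1
      exact h (hx m h1)
    have h2 : y m = 0 := by
      by_contra h2
      exact h (hy m h2)
    rw [Pi.add_apply, h1, h2, add_zero]
  zero_mem' := fun m hm => absurd rfl hm
  smul_mem' := by
    intro c x hx m hm
    apply hx
    intro h1
    apply hm
    rw [Pi.smul_apply, h1, smul_zero]

/-- truncation of polynomials. -/
noncomputable def Tm (K : Type) [Field K] (p : ℕ) (σ : Type) [Fintype σ] :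
    MvPolynomial σ K →ₗ[K] (Mon p σ → K) where
  toFun P m := MvPolynomial.coeff (Finsupp.equivFunOnFinite.symm fun i => (m i : ℕ)) P
  map_add' P P' := by
    funext m
    simp
  map_smul' c P := by
    funext m
    simp

/-- the quadratic polynomial of a matrix. -/
noncomputable def qf (Q : Matrix σ σ K) : MvPolynomial σ K :=
  ∑ a, ∑ b, MvPolynomial.C (Q a b) * (MvPolynomial.X a * MvPolynomial.X b)

end

section
variable {K : Type} [Field K] {p : ℕ} {σ σ' : Type} [Fintype σ] [DecidableEq σ] [Fintype σ']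
  [DecidableEq σ']

end

section
variable {K : Type} [Field K] {p : ℕ} {σ₁ σ₀ : Type} [Fintype σ₁] [DecidableEq σ₁] [Fintype σ₀]
  [DecidableEq σ₀]

/-- functions on the monomials in the variables `σ₁ ⊕ σ₀`, as functions on the monomials in `σ₁` with values in the
functions on the monomials in `σ₀`. -/
def curryMon (K : Type) [Field K] (p : ℕ) (σ₁ σ₀ : Type) :
    (Mon p (σ₁ ⊕ σ₀) → K) ≃ₗ[K] (Mon p σ₁ → (Mon p σ₀ → K)) where
  toFun x m₁ m₀ := x (Sum.elim m₁ m₀)
  invFun y m := y (fun i => m (Sum.inl i)) (fun i => m (Sum.inr i))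
  map_add' x y := rfl
  map_smul' c x := rfl
  left_inv x := by
    funext m
    change x (Sum.elim _ _) = x m
    congr 1
    funext i
    cases i <;> rfl
  right_inv y := rfl

/-- the operator of a quadratic form, transported by `curryMon`. -/
noncomputable def opC (p : ℕ) (Q : Matrix (σ₁ ⊕ σ₀) (σ₁ ⊕ σ₀) K) :
    Module.End K (Mon p σ₁ → (Mon p σ₀ → K)) :=
  (curryMon K p σ₁ σ₀).toLinearMap ∘ₗ (GN p Q).mulVecLin ∘ₗ (curryMon K p σ₁ σ₀).symm.toLinearMap

end

end QL
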