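import Pool.Agent.Lib.MP_c77682_nt.L.QDefs

/-!
LinearBound (MP_c77682_nt), job Q1. See table papers, id 368.
-/

set_option autoImplicit false

namespace QL

section

variable {K V V' : Type} [Field K] [AddCommGroup V] [Module K V] [AddCommGroup V'] [Module K V']

/-- JOB Q1. Retracts.

PROOF. `x ∈ 𝒱 D`, `g^k x = 0`: `i x ∈ 𝒱' D`, `g'^k (i x) = 0`, so `i x = g'^(p-k) y'` and
`x = ρ (i x) = g^(p-k) (ρ y')`. -/
theorem QP_retract {p : ℕ} {𝒱 : ℤ → Submodule K V} {g : Module.End K V}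
    {𝒱' : ℤ → Submodule K V'} {g' : Module.End K V'} {a : ℤ} (i : V →ₗ[K] V') (ρ : V' →ₗ[K] V)
    (hi : ∀ D, ∀ x ∈ 𝒱 D, i x ∈ 𝒱' D) (hρ : ∀ D, ∀ x ∈ 𝒱' D, ρ x ∈ 𝒱 D)
    (hig : ∀ x, i (g x) = g' (i x)) (hρg : ∀ x, ρ (g' x) = g (ρ x)) (hρi : ∀ x, ρ (i x) = x)
    (h : QP p 𝒱' g' a) : QP p 𝒱 g a := by
  have hig' : ∀ (k : ℕ) (x : V), i ((g ^ k) x) = (g' ^ k) (i x) := by
    intro k
    induction k with
    | zero => intro x; simp
    | succ k ih =>
      intro x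
      rw [pow_succ, pow_succ, Module.End.mul_apply, Module.End.mul_apply, ih, hig]
  have hρg' : ∀ (k : ℕ) (x : V'), ρ ((g' ^ k) x) = (g ^ k) (ρ x) := by
    intro k
    induction k with
    | zero => intro x; simp
    | succ k ih =>
      intro x
      rw [pow_succ, pow_succ, Module.End.mul_apply, Module.End.mul_apply, ih, hρg]
  intro k hk hkp D hD x hx hgx
  obtain ⟨y, hy, hyx⟩ := h k hk hkp D hD (i x) (hi D x hx) (by rw [← hig', hgx, map_zero])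
  exact ⟨ρ y, hρ _ y hy, by rw [← hρg', hyx, hρi]⟩

end

end QL
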