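import Pool.Agent.Lib.MP_c77682_nt.L.QDefs
import Pool.Agent.Lib.MP_c77682_nt.L.MDefs
import Pool.Agent.Lib.MP_c77682_nt.L.Q1

section

/-!
LinearBound (MP_c77682_nt), job Q2. See table papers, id 368.
-/

set_option autoImplicit false

namespace QL

section

variable {K V V' : Type} [Field K] [AddCommGroup V] [Module K V] [AddCommGroup V'] [Module K V']

private theorem q2_dbl_pow (g : Module.End K V) (k : ℕ) (x : V × V) :
    ((dbl g) ^ (k + 1)) x = ((g ^ (k + 1)) x.1, (g ^ (k + 1)) x.2 + ((k : K) + 1) • (g ^ k) x.1) := by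
  induction k with
  | zero =>
    simp [dbl]
  | succ k ih =>
    rw [pow_succ', Module.End.mul_apply, ih]
    have e1 : (g ^ (k + 1 + 1)) x.1 = g ((g ^ (k + 1)) x.1) := by
      rw [pow_succ', Module.End.mul_apply]
    have e2 : (g ^ (k + 1 + 1)) x.2 = g ((g ^ (k + 1)) x.2) := by
      rw [pow_succ', Module.End.mul_apply]
    have e3 : (g ^ (k + 1)) x.1 = g ((g ^ k) x.1) := by
      rw [pow_succ', Module.End.mul_apply]
    show (g ((g ^ (k + 1)) x.1), g ((g ^ (k + 1)) x.2 + ((k : K) + 1) • (g ^ k) x.1) + (g ^ (k + 1)) x.1) = _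
    rw [e1, e2, map_add, map_smul, ← e3]
    ext
    · rfl
    · show g ((g ^ (k + 1)) x.2) + ((k : K) + 1) • (g ^ (k + 1)) x.1 + (g ^ (k + 1)) x.1
        = g ((g ^ (k + 1)) x.2) + (((k + 1 : ℕ) : K) + 1) • (g ^ (k + 1)) x.1
      push_cast
      module

/-- JOB Q2. `Q(a)` for `V` gives `Q(a + 1)` for `V ⊕ V v`.

PROOF. `h = dbl g`: `h^k (x₀, x₁) = (g^k x₀, g^k x₁ + k g^(k-1) x₀)` for `k ≥ 1`. Let `(x₀, x₁)` be of degree `D <
(a + 1) - k + 1` with `h^k (x₀, x₁) = 0`. `n := k x₀ + g x₁ ∈ 𝒱 D` satisfies `g^(k-1) n = 0`, and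
`g^(k+1) x₁ = g (g^k x₁) = - k g^k x₀ = 0`. Hence `n = g^(p-k+1) u` with `u ∈ 𝒱 (D - 2(p-k+1))` (if `k ≥ 2` by `Q(a)` for
`k - 1`: `D < a - (k-1) + 1`; if `k = 1`, `n = 0`, `u = 0`), and `x₁ = g^(p-k-1) w` with
`w ∈ 𝒱 (D - 2 - 2(p-k-1)) = 𝒱 (D - 2(p-k))` (if `k + 2 ≤ p` by `Q(a)` for `k + 1`, `D - 2 < a - (k+1) + 1`; if
`k + 1 = p`, `w = x₁`). Put `y₁ = u`, `y₀ = (p - k)⁻¹ (w - g u)` (`k` is invertible in `K`, and `p - k = -k` in `K`).
Then `g^(p-k) y₁ + (p-k) g^(p-k-1) y₀ = g^(p-k) u + g^(p-k-1)(w - g u) = x₁` and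
`g^(p-k) y₀ = -k⁻¹ (g^(p-k) w - g^(p-k+1) u) = -k⁻¹ (g x₁ - n) = x₀`. So `h^(p-k) (y₀, y₁) = (x₀, x₁)`; degrees:
`y₀ ∈ 𝒱 (D - 2(p-k))`, `y₁ ∈ 𝒱 (D - 2(p-k) - 2)`. -/
theorem QP_dbl {p : ℕ} [Fact p.Prime] [CharP K p] {𝒱 : ℤ → Submodule K V} {g : Module.End K V}
    {a : ℤ} (hg : ∀ D, ∀ x ∈ 𝒱 D, g x ∈ 𝒱 (D + 2)) (h : QP p 𝒱 g a) :
    QP p (grD 𝒱) (dbl g) (a + 1) := by
  intro k hk1 hkp D hD x hx hkx
  obtain ⟨j, rfl⟩ : ∃ j, k = j + 1 := ⟨k - 1, by omega⟩
  obtain ⟨m, hm⟩ : ∃ m, p = j + 1 + (m + 1) := ⟨p - (j + 1) - 1, by omega⟩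
  obtain ⟨x0, x1⟩ := x
  have hx0 : x0 ∈ 𝒱 D := hx.1
  have hx1 : x1 ∈ 𝒱 (D - 2) := hx.2
  rw [q2_dbl_pow] at hkx
  have h0 : (g ^ (j + 1)) x0 = 0 := congrArg Prod.fst hkx
  have h1 : (g ^ (j + 1)) x1 + ((j : K) + 1) • (g ^ j) x0 = 0 := congrArg Prod.snd hkx
  have hgx1 : g x1 ∈ 𝒱 D := by
    have := hg _ x1 hx1
    rwa [sub_add_cancel] at this
  -- the element n
  have hn : ((j : K) + 1) • x0 + g x1 ∈ 𝒱 D :=
    Submodule.add_mem _ (Submodule.smul_mem _ _ hx0) hgx1
  have hgn : (g ^ j) (((j : K) + 1) • x0 + g x1) = 0 := by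
    rw [map_add, map_smul, ← Module.End.mul_apply, ← pow_succ, add_comm]
    exact h1
  obtain ⟨u, hu, hun⟩ : ∃ u ∈ 𝒱 (D - 2 * ((p : ℤ) - j)),
      (g ^ (p - j)) u = ((j : K) + 1) • x0 + g x1 := by
    by_cases hj : j = 0
    · subst hj
      refine ⟨0, Submodule.zero_mem _, ?_⟩
      rw [map_zero]
      simpa using hgn.symm
    · exact h j (by omega) (by omega) D (by push_cast at hD ⊢; linarith) _ hn hgn
  have hg2 : (g ^ (j + 1 + 1)) x1 = 0 := by
    have e : (g ^ (j + 1)) x1 = -(((j : K) + 1) • (g ^ j) x0) := eq_neg_of_add_eq_zero_left h1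
    rw [pow_succ', Module.End.mul_apply, e, map_neg, map_smul, ← Module.End.mul_apply, ← pow_succ',
      h0, smul_zero, neg_zero]
  obtain ⟨w, hw, hwx⟩ : ∃ w ∈ 𝒱 (D - 2 - 2 * ((p : ℤ) - (j + 1 + 1 : ℕ))), (g ^ m) w = x1 := by
    by_cases hm0 : m = 0
    · subst hm0
      refine ⟨x1, ?_, by simp⟩
      have : D - 2 - 2 * ((p : ℤ) - (j + 1 + 1 : ℕ)) = D - 2 := by
        rw [hm]; push_cast; ring
      rw [this]; exact hx1
    · have := h (j + 1 + 1) (by omega) (by omega) (D - 2) (by push_cast at hD ⊢; linarith) x1 hx1 hg2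
      have e : p - (j + 1 + 1) = m := by omega
      rwa [e] at this
  have hcast : ((p : ℕ) : K) = 0 := CharP.cast_eq_zero K p
  have hsum : ((j : K) + 1) + ((m : K) + 1) = 0 := by
    rw [← hcast, hm]; push_cast; ring
  have hmne : ((m : K) + 1) ≠ 0 := by
    intro hc
    have : ((m + 1 : ℕ) : K) = 0 := by push_cast; exact hc
    have hdvd := (CharP.cast_eq_zero_iff K p (m + 1)).1 this
    have := Nat.le_of_dvd (by omega) hdvd
    omega
  have hpj : p - j = m + 1 + 1 := by omega
  have hpk : p - (j + 1) = m + 1 := by omega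
  rw [hpj] at hun
  have hgu : g u ∈ 𝒱 (D - 2 * ((p : ℤ) - (j + 1 : ℕ))) := by
    have := hg _ u hu
    have e : D - 2 * ((p : ℤ) - j) + 2 = D - 2 * ((p : ℤ) - (j + 1 : ℕ)) := by push_cast; ring
    rwa [e] at this
  have hw' : w ∈ 𝒱 (D - 2 * ((p : ℤ) - (j + 1 : ℕ))) := by
    have e : D - 2 - 2 * ((p : ℤ) - (j + 1 + 1 : ℕ)) = D - 2 * ((p : ℤ) - (j + 1 : ℕ)) := by
      push_cast; ring
    rwa [e] at hw
  refine ⟨(((m : K) + 1)⁻¹ • (w - g u), u), ⟨?_, ?_⟩, ?_⟩
  · exact Submodule.smul_mem _ _ (Submodule.sub_mem _ hw' hgu)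
  · show u ∈ 𝒱 (D - 2 * ((p : ℤ) - (j + 1 : ℕ)) - 2)
    have e : D - 2 * ((p : ℤ) - (j + 1 : ℕ)) - 2 = D - 2 * ((p : ℤ) - j) := by push_cast; ring
    rw [e]; exact hu
  · rw [hpk, q2_dbl_pow]
    have hgw : (g ^ (m + 1)) w = g x1 := by
      rw [pow_succ', Module.End.mul_apply, hwx]
    have hguu : (g ^ (m + 1)) (g u) = ((j : K) + 1) • x0 + g x1 := by
      rw [← Module.End.mul_apply, ← pow_succ, hun]
    have hgum : (g ^ m) (g u) = (g ^ (m + 1)) u := by
      rw [← Module.End.mul_apply, ← pow_succ]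
    ext
    · show (g ^ (m + 1)) (((m : K) + 1)⁻¹ • (w - g u)) = x0
      rw [map_smul, map_sub, hgw, hguu]
      have e : g x1 - (((j : K) + 1) • x0 + g x1) = ((m : K) + 1) • x0 := by
        have : ((m : K) + 1) = -((j : K) + 1) := by linear_combination hsum
        rw [this]
        module
      rw [e, smul_smul, inv_mul_cancel₀ hmne, one_smul]
    · show (g ^ (m + 1)) u + ((m : K) + 1) • (g ^ m) (((m : K) + 1)⁻¹ • (w - g u)) = x1
      rw [map_smul, smul_smul, mul_inv_cancel₀ hmne, one_smul, map_sub, hwx, hgum]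
      abel

end

end QL
end

section

/-!
LinearBound, block R: the complex as a complex of free modules over `R = K[t_0, …, t_{r-1}]` (model B).

`CB K r μ = (Finset (Fin r) → μ → R)`: the component at `I`, `m` is the coefficient of `η_I ⊗ m`. The matrices
`G i` over `K` act on the index `μ`.
-/

set_option autoImplicit false

open MvPolynomial Matrix

namespace QL

/-- model B cochains. -/
abbrev CB (K : Type) [Field K] (r : ℕ) (μ : Type) : Type :=
  Finset (Fin r) → μ → MvPolynomial (Fin r) K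

section
variable {K : Type} [Field K] {r : ℕ} {μ : Type} [Fintype μ] [DecidableEq μ]

/-- sign exponent: the number of elements of `I` below `i`. -/
def sgB (i : Fin r) (I : Finset (Fin r)) : ℕ := (I.filter (· < i)).card

/-- the differential of model B: `∑ G_i η_i + ∑ t_i G_i^(p-1) ∂_i`. -/
noncomputable def dB (p : ℕ) (G : Fin r → Matrix μ μ K) :
    CB K r μ →ₗ[MvPolynomial (Fin r) K] CB K r μ where
  toFun c I m := ∑ i, (-1 : MvPolynomial (Fin r) K) ^ sgB i I *
    (if i ∈ I then ∑ m', C (G i m m') * c (I.erase i) m'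
      else X i * ∑ m', C ((G i ^ (p - 1)) m m') * c (insert i I) m')
  map_add' c c' := by
    funext I m
    simp only [Pi.add_apply]
    rw [← Finset.sum_add_distrib]
    refine Finset.sum_congr rfl fun i _ => ?_
    split_ifs
    · rw [← mul_add, ← Finset.sum_add_distrib]
      simp only [mul_add]
    · rw [← mul_add, ← mul_add, ← Finset.sum_add_distrib]
      simp only [mul_add]
  map_smul' a c := by
    funext I m
    simp only [Pi.smul_apply, RingHom.id_apply, smul_eq_mul]
    rw [Finset.mul_sum]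
    refine Finset.sum_congr rfl fun i _ => ?_
    split_ifs
    · have h : ∑ m', C (G i m m') * (a * c (I.erase i) m') =
          a * ∑ m', C (G i m m') * c (I.erase i) m' := by
        rw [Finset.mul_sum]
        exact Finset.sum_congr rfl fun m' _ => by ring
      rw [h]
      ring
    · have h : ∑ m', C ((G i ^ (p - 1)) m m') * (a * c (insert i I) m') =
          a * ∑ m', C ((G i ^ (p - 1)) m m') * c (insert i I) m' := by
        rw [Finset.mul_sum]
        exact Finset.sum_congr rfl fun m' _ => by ring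
      rw [h]
      ring

theorem dB_apply (p : ℕ) (G : Fin r → Matrix μ μ K) (c : CB K r μ) (I : Finset (Fin r)) (m : μ) :
    dB p G c I m = ∑ i, (-1 : MvPolynomial (Fin r) K) ^ sgB i I *
      (if i ∈ I then ∑ m', C (G i m m') * c (I.erase i) m'
        else X i * ∑ m', C ((G i ^ (p - 1)) m m') * c (insert i I) m') := rfl

/-- level `ℓ` cochains. -/
def LB (K : Type) [Field K] (p : ℕ) {r : ℕ} {μ : Type} (deg : μ → ℕ) (ℓ : ℤ) :
    Submodule (MvPolynomial (Fin r) K) (CB K r μ) where
  carrier := {c | ∀ I m, (deg m : ℤ) + ((p : ℤ) - 2) * I.card ≠ ℓ → c I m = 0}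
  add_mem' := by
    intro c c' h h' I m hm
    rw [Pi.add_apply, Pi.add_apply, h I m hm, h' I m hm, add_zero]
  zero_mem' := fun I m _ => rfl
  smul_mem' := by
    intro a c h I m hm
    rw [Pi.smul_apply, Pi.smul_apply, h I m hm, smul_zero]

/-- the hypotheses on the matrices. -/
structure SysM (p : ℕ) (deg : μ → ℕ) (G : Fin r → Matrix μ μ K) : Prop where
  comm : ∀ i j, G i * G j = G j * G i
  nil : ∀ i, G i ^ p = 0
  deg : ∀ i m m', G i m m' ≠ 0 → deg m = deg m' + 2

/-- the annihilator of the homology of level `ℓ` contains a polynomial that does not vanish at `a`. -/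
def AnnP (p : ℕ) (deg : μ → ℕ) (G : Fin r → Matrix μ μ K) (a : Fin r → K) (ℓ : ℤ) : Prop :=
  ∃ g : MvPolynomial (Fin r) K, eval a g ≠ 0 ∧
    ∀ c ∈ LB K p deg ℓ, dB p G c = 0 → ∃ e ∈ LB K p deg (ℓ - p), dB p G e = g • c

/-- cochains of degree `j`: the component at `I` has only monomials `t^a` with `|I| + 2 |a| = j`. -/
def HB (K : Type) [Field K] (r : ℕ) (μ : Type) (j : ℤ) : Submodule K (CB K r μ) where
  carrier := {c | ∀ I m a, (I.card : ℤ) + 2 * (∑ i, (a i : ℤ)) ≠ j → coeff a (c I m) = 0}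
  add_mem' := by
    intro c c' h h' I m a ha
    rw [Pi.add_apply, Pi.add_apply, coeff_add, h I m a ha, h' I m a ha, add_zero]
  zero_mem' := fun I m a _ => by rw [Pi.zero_apply, Pi.zero_apply, coeff_zero]
  smul_mem' := by
    intro x c h I m a ha
    rw [Pi.smul_apply, Pi.smul_apply, coeff_smul, h I m a ha, smul_zero]

/-- the exponent vector `b / 2`. -/
noncomputable def hlf (b : Fin r → ℕ) : Fin r →₀ ℕ := Finsupp.equivFunOnFinite.symm fun k => b k / 2

/-- the set of odd entries. -/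
def oddS (b : Fin r → ℕ) : Finset (Fin r) := Finset.univ.filter fun k => Odd (b k)

/-- from model B to model A. -/
noncomputable def toA (K : Type) [Field K] (r : ℕ) (μ : Type) :
    CB K r μ →ₗ[K] ((Fin r → ℕ) → (μ → K)) where
  toFun c b m := coeff (hlf b) (c (oddS b) m)
  map_add' c c' := by
    funext b m
    simp
  map_smul' x c := by
    funext b m
    simp

/-- the component of degree `j`. -/
noncomputable def cmp (K : Type) [Field K] (r : ℕ) (μ : Type) (j : ℤ) : CB K r μ →ₗ[K] CB K r μ where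
  toFun c I m := if 0 ≤ j - I.card ∧ Even (j - I.card) then
    homogeneousComponent ((j - I.card) / 2).toNat (c I m) else 0
  map_add' c c' := by
    funext I m
    simp only [Pi.add_apply]
    split_ifs
    · rw [map_add]
    · rw [add_zero]
  map_smul' x c := by
    funext I m
    simp only [Pi.smul_apply, RingHom.id_apply]
    split_ifs
    · rw [map_smul]
    · rw [smul_zero]

end

section
variable {K : Type} [Field K] {r : ℕ} {μ : Type} [Fintype μ] [DecidableEq μ]

/-- cycles of level `ℓ`. -/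
noncomputable def ZB (p : ℕ) (deg : μ → ℕ) (G : Fin r → Matrix μ μ K) (ℓ : ℤ) :
    Submodule (MvPolynomial (Fin r) K) (CB K r μ) := LB K p deg ℓ ⊓ LinearMap.ker (dB p G)

/-- boundaries of level `ℓ`. -/
noncomputable def BB (p : ℕ) (deg : μ → ℕ) (G : Fin r → Matrix μ μ K) (ℓ : ℤ) :
    Submodule (MvPolynomial (Fin r) K) (CB K r μ) := (LB K p deg (ℓ - p)).map (dB p G)

end

section
variable {K : Type} [Field K] {r : ℕ} {μ : Type} [Fintype μ] [DecidableEq μ]

/-- setting `t_0 = 0`. -/
noncomputable def sg0 (K : Type) [Field K] (r : ℕ) :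
    MvPolynomial (Fin (r + 1)) K →ₐ[K] MvPolynomial (Fin (r + 1)) K :=
  aeval fun k => if k = 0 then 0 else X k

/-- cochains in column `0`: no `η_0`, no `t_0`. -/
def Col0 (c : CB K (r + 1) μ) : Prop :=
  ∀ I m, (0 ∈ I → c I m = 0) ∧ sg0 K r (c I m) = c I m

/-- the ideal `(t_1, …, t_r)`. -/
noncomputable def I0 (K : Type) [Field K] (r : ℕ) : Ideal (MvPolynomial (Fin (r + 1)) K) :=
  Ideal.span (Set.range fun k : Fin r => X k.succ)

end

end QL
end

section

section

/-!
LinearBound (MP_c77682_nt), job Q3. See table papers, id 368.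
-/

set_option autoImplicit false

namespace QL

section

variable {K V V' : Type} [Field K] [AddCommGroup V] [Module K V] [AddCommGroup V'] [Module K V']

/-- the inclusion. -/
private def q3i (n : ℕ) : (Fin (n + 1) → V) →ₗ[K] (Fin n → V) × (Fin n → V) where
  toFun x := (fun j => x j.castSucc, fun j => (((j : ℕ) : K) + 1) • x j.succ)
  map_add' x y := by
    ext j
    · rfl
    · simp [smul_add]
  map_smul' c x := by
    ext j
    · rfl
    · simp [smul_smul, mul_comm]

/-- the retraction. -/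
private def q3r (n : ℕ) : ((Fin n → V) × (Fin n → V)) →ₗ[K] (Fin (n + 1) → V) where
  toFun w j := (if h : (j : ℕ) < n then ((n : K)⁻¹ * ((n : K) - ((j : ℕ) : K))) • w.1 ⟨j, h⟩ else 0) +
    (if h : 1 ≤ (j : ℕ) then ((n : K)⁻¹) • w.2 ⟨(j : ℕ) - 1, by omega⟩ else 0)
  map_add' x y := by
    funext j
    simp only [Prod.fst_add, Prod.snd_add, Pi.add_apply]
    split_ifs <;> simp only [smul_add, add_zero, zero_add]
    abel
  map_smul' c x := by
    funext j
    simp only [Prod.smul_fst, Prod.smul_snd, Pi.smul_apply, RingHom.id_apply]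
    split_ifs <;> simp only [smul_add, add_zero, zero_add, smul_zero, smul_comm c]

private theorem q3_trc_apply (s n : ℕ) (g : Module.End K V) (x : Fin n → V) (i : Fin n) :
    trc s n g x i = g (x i) + if h : s ≤ (i : ℕ) then x ⟨i - s, by omega⟩ else 0 := rfl

private theorem q3_dbl_apply (g : Module.End K V) (x : V × V) :
    dbl g x = (g x.1, g x.2 + x.1) := rfl

private theorem q3_trc_deg {𝒱 : ℤ → Submodule K V} {g : Module.End K V}
    (hg : ∀ D, ∀ x ∈ 𝒱 D, g x ∈ 𝒱 (D + 2)) (n : ℕ) :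
    ∀ D, ∀ x ∈ grT n 2 𝒱 D, trc 1 n g x ∈ grT n 2 𝒱 (D + 2) := by
  intro D x hx i
  rw [q3_trc_apply]
  refine Submodule.add_mem _ ?_ ?_
  · have := hg _ _ (hx i)
    rwa [show D - 2 * ((i : ℕ) : ℤ) + 2 = D + 2 - 2 * ((i : ℕ) : ℤ) by ring] at this
  · split_ifs with h
    · have := hx ⟨(i : ℕ) - 1, by omega⟩
      simp only at this
      rwa [show D - 2 * ((((i : ℕ) - 1 : ℕ)) : ℤ) = D + 2 - 2 * ((i : ℕ) : ℤ) by
        push_cast [Nat.cast_sub h]; ring] at this
    · exact Submodule.zero_mem _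

/-- JOB Q3. `Q(a)` for `V` gives `Q(a + n - 1)` for `V ⊗ K[u]/(u^n)`, `deg u = 2`, operator `g + u`, `1 ≤ n ≤ p`.

PROOF. Induction on `n`. `n = 1`: `x ↦ x 0` is an isomorphism, use `QP_retract`. Step `n → n + 1 ≤ p` (so `n ≠ 0` in `K`):
by `QP_dbl` and the induction hypothesis `(Fin n → V) × (Fin n → V)` (`= V ⊗ K[w]/w^n ⊗ K[v]/v^2`) has
`Q(a + n - 1 + 1)`. The maps `i : u^j ↦ (w + v)^j = w^j + j w^(j-1) v` (`u^n ↦ n w^(n-1) v`) and
`ρ : w^j ↦ ((n - j)/n) u^j`, `w^(j-1) v ↦ (1/n) u^j` commute with the operators and `ρ ∘ i = id`; that is, for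
`x : Fin (n+1) → V`: `(i x).1 j = x j`, `(i x).2 j = (j+1) x (j+1)` (`j < n`), and for `(y, z)`:
`(ρ (y, z)) j = ((n - j)/n) y j + (1/n) z (j - 1)` (the first term absent for `j = n`, the second for `j = 0`). Use
`QP_retract`. -/
theorem QP_trc {p : ℕ} [Fact p.Prime] [CharP K p] {𝒱 : ℤ → Submodule K V} {g : Module.End K V}
    {a : ℤ} (hg : ∀ D, ∀ x ∈ 𝒱 D, g x ∈ 𝒱 (D + 2)) (h : QP p 𝒱 g a) (n : ℕ) (hn : 1 ≤ n)
    (hnp : n ≤ p) : QP p (grT n 2 𝒱) (trc 1 n g) (a + n - 1) := by
  induction n, hn using Nat.le_induction with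
  | base =>
    have h' : QP p 𝒱 g (a + ((1 : ℕ) : ℤ) - 1) := by
      rwa [show a + ((1 : ℕ) : ℤ) - 1 = a by push_cast; ring]
    refine QP_retract (LinearMap.proj (0 : Fin 1)) (LinearMap.pi fun _ : Fin 1 => LinearMap.id)
      ?_ ?_ ?_ ?_ ?_ h'
    · intro D x hx
      have := hx 0
      simpa using this
    · intro D x hx i
      have hi : (i : ℕ) = 0 := by omega
      simpa [hi] using hx
    · intro x
      rw [LinearMap.proj_apply, LinearMap.proj_apply, q3_trc_apply]
      simp
    · intro x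
      funext i
      have hi : (i : ℕ) = 0 := by omega
      rw [q3_trc_apply]
      simp
    · intro x
      funext i
      have hi : i = 0 := Subsingleton.elim _ _
      simp [hi]
  | succ n hn ih =>
    have hn0 : (n : K) ≠ 0 := by
      intro h0
      have := (CharP.cast_eq_zero_iff K p n).1 h0
      exact absurd (Nat.le_of_dvd (by omega) this) (by omega)
    have h1 := QP_dbl (q3_trc_deg hg n) (ih (by omega))
    rw [show a + (n : ℤ) - 1 + 1 = a + ((n + 1 : ℕ) : ℤ) - 1 by push_cast; ring] at h1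
    refine QP_retract (q3i n) (q3r n) ?_ ?_ ?_ ?_ ?_ h1
    · intro D x hx
      refine ⟨fun j => ?_, fun j => ?_⟩
      · have := hx j.castSucc
        rwa [Fin.val_castSucc] at this
      · have := hx j.succ
        refine Submodule.smul_mem _ _ ?_
        rwa [show D - 2 * (((j.succ : Fin (n + 1)) : ℕ) : ℤ) = D - 2 - 2 * ((j : ℕ) : ℤ) by
          rw [Fin.val_succ]; push_cast; ring] at this
    · intro D w hw j
      refine Submodule.add_mem _ ?_ ?_
      · split_ifs with h
        · exact Submodule.smul_mem _ _ (hw.1 ⟨j, h⟩)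
        · exact Submodule.zero_mem _
      · split_ifs with h
        · have := hw.2 ⟨(j : ℕ) - 1, by omega⟩
          refine Submodule.smul_mem _ _ ?_
          simp only at this
          rwa [show D - 2 - 2 * ((((j : ℕ) - 1 : ℕ)) : ℤ) = D - 2 * ((j : ℕ) : ℤ) by
            push_cast [Nat.cast_sub h]; ring] at this
        · exact Submodule.zero_mem _
    · intro x
      rw [q3_dbl_apply]
      refine Prod.ext ?_ ?_
      · funext j
        change trc 1 (n + 1) g x j.castSucc = trc 1 n g (fun j => x j.castSucc) j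
        rw [q3_trc_apply, q3_trc_apply]
        rfl
      · funext j
        change (((j : ℕ) : K) + 1) • trc 1 (n + 1) g x j.succ =
          trc 1 n g (fun j : Fin n => (((j : ℕ) : K) + 1) • x j.succ) j + x j.castSucc
        rw [q3_trc_apply, q3_trc_apply, map_smul, smul_add, add_assoc]
        congr 1
        rw [dif_pos (by rw [Fin.val_succ]; omega)]
        have e1 : (⟨((j.succ : Fin (n + 1)) : ℕ) - 1, by omega⟩ : Fin (n + 1)) = j.castSucc := by
          apply Fin.ext
          simp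
        rw [e1]
        by_cases hj : 1 ≤ (j : ℕ)
        · rw [dif_pos hj]
          have e2 : Fin.succ (⟨(j : ℕ) - 1, by omega⟩ : Fin n) = j.castSucc := by
            apply Fin.ext
            simp only [Fin.val_succ, Fin.val_castSucc]
            omega
          rw [e2]
          have e3 : ((((j : ℕ) - 1 : ℕ) : K) + 1) = ((j : ℕ) : K) := by
            rw [Nat.cast_sub hj]; push_cast; ring
          simp only [e3]
          rw [add_smul, one_smul]
        · rw [dif_neg hj, zero_add]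
          have : (j : ℕ) = 0 := by omega
          rw [this]
          simp
    · rintro ⟨y, z⟩
      rw [q3_dbl_apply]
      funext j
      rw [q3_trc_apply]
      change (if h : (j : ℕ) < n then ((n : K)⁻¹ * ((n : K) - ((j : ℕ) : K))) •
          trc 1 n g y ⟨j, h⟩ else 0) +
        (if h : 1 ≤ (j : ℕ) then ((n : K)⁻¹) •
          (trc 1 n g z ⟨(j : ℕ) - 1, by omega⟩ + y ⟨(j : ℕ) - 1, by omega⟩) else 0) =
        g ((if h : (j : ℕ) < n then ((n : K)⁻¹ * ((n : K) - ((j : ℕ) : K))) • y ⟨j, h⟩ else 0) +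
          (if h : 1 ≤ (j : ℕ) then ((n : K)⁻¹) • z ⟨(j : ℕ) - 1, by omega⟩ else 0)) +
        (if h : 1 ≤ (j : ℕ) then
          ((if h' : (j : ℕ) - 1 < n then ((n : K)⁻¹ * ((n : K) - (((j : ℕ) - 1 : ℕ) : K))) •
            y ⟨(j : ℕ) - 1, h'⟩ else 0) +
          (if h' : 1 ≤ (j : ℕ) - 1 then ((n : K)⁻¹) • z ⟨(j : ℕ) - 1 - 1, by omega⟩ else 0))
          else 0)
      by_cases hj1 : 1 ≤ (j : ℕ)
      · have hjn : (j : ℕ) - 1 < n := by omega
        have e3 : (n : K) - (((j : ℕ) - 1 : ℕ) : K) = (n : K) - ((j : ℕ) : K) + 1 := by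
          rw [Nat.cast_sub hj1]; push_cast; ring
        rw [dif_pos hj1, dif_pos hj1, dif_pos hj1, dif_pos hjn, q3_trc_apply, e3]
        simp only
        have e4 : (if h : 1 ≤ (j : ℕ) - 1 then z ⟨(j : ℕ) - 1 - 1, by omega⟩ else 0 : V) =
          (if h : 1 ≤ (j : ℕ) - 1 then z ⟨(j : ℕ) - 1 - 1, by omega⟩ else 0 : V) := rfl
        by_cases hj2 : (j : ℕ) < n
        · rw [dif_pos hj2, dif_pos hj2, q3_trc_apply, dif_pos (by simpa using hj1), map_add,
            map_smul, map_smul]
          by_cases hj3 : 1 ≤ (j : ℕ) - 1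
          · rw [dif_pos hj3, dif_pos hj3]
            simp only [smul_add, mul_add, add_smul, mul_one]
            abel
          · rw [dif_neg hj3, dif_neg hj3]
            simp only [smul_add, mul_add, add_smul, mul_one, add_zero]
            abel
        · rw [dif_neg hj2, dif_neg hj2, zero_add, zero_add, map_smul]
          have hjn' : ((j : ℕ) : K) = (n : K) := by
            have : (j : ℕ) = n := by omega
            rw [this]
          rw [hjn', sub_self, zero_add, mul_one]
          by_cases hj3 : 1 ≤ (j : ℕ) - 1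
          · rw [dif_pos hj3, dif_pos hj3]
            simp only [smul_add]
            abel
          · rw [dif_neg hj3, dif_neg hj3]
            simp only [smul_add, add_zero]
      · have hj0 : (j : ℕ) < n := by omega
        rw [dif_neg hj1, dif_neg hj1, dif_neg hj1, dif_pos hj0, dif_pos hj0, q3_trc_apply,
          dif_neg (by simpa using hj1)]
        simp only [add_zero, map_smul]
    · intro x
      funext j
      change (if h : (j : ℕ) < n then ((n : K)⁻¹ * ((n : K) - ((j : ℕ) : K))) •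
          x (Fin.castSucc ⟨j, h⟩) else 0) +
        (if h : 1 ≤ (j : ℕ) then ((n : K)⁻¹) • ((((((j : ℕ) - 1 : ℕ)) : K) + 1) •
          x (Fin.succ ⟨(j : ℕ) - 1, by omega⟩)) else 0) = x j
      by_cases hj1 : 1 ≤ (j : ℕ)
      · rw [dif_pos hj1]
        have e2 : Fin.succ (⟨(j : ℕ) - 1, by omega⟩ : Fin n) = j := by
          apply Fin.ext
          simp only [Fin.val_succ]
          omega
        have e3 : ((((j : ℕ) - 1 : ℕ) : K) + 1) = ((j : ℕ) : K) := by
          rw [Nat.cast_sub hj1]; push_cast; ring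
        rw [e2, e3, smul_smul]
        by_cases hj2 : (j : ℕ) < n
        · rw [dif_pos hj2]
          have e4 : Fin.castSucc (⟨(j : ℕ), hj2⟩ : Fin n) = j := Fin.ext rfl
          rw [e4, ← add_smul, ← mul_add, sub_add_cancel, inv_mul_cancel₀ hn0, one_smul]
        · rw [dif_neg hj2, zero_add]
          have hjn' : ((j : ℕ) : K) = (n : K) := by
            have : (j : ℕ) = n := by omega
            rw [this]
          rw [hjn', inv_mul_cancel₀ hn0, one_smul]
      · have hj0 : (j : ℕ) < n := by omega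
        have hj00 : ((j : ℕ) : K) = 0 := by
          have : (j : ℕ) = 0 := by omega
          rw [this]; simp
        rw [dif_neg hj1, dif_pos hj0, add_zero]
        have e4 : Fin.castSucc (⟨(j : ℕ), hj0⟩ : Fin n) = j := Fin.ext rfl
        rw [e4, hj00, sub_zero, inv_mul_cancel₀ hn0, one_smul]

end

end QL
end

section

/-!
LinearBound (MP_c77682_nt), job Q4. See table papers, id 368.
-/

set_option autoImplicit false

namespace QL

section

variable {K V V' : Type} [Field K] [AddCommGroup V] [Module K V] [AddCommGroup V'] [Module K V']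

private theorem pow_comm' {A B : Type} [AddCommGroup A] [Module K A] [AddCommGroup B] [Module K B]
    (L : A →ₗ[K] B) (T : Module.End K A) (T' : Module.End K B) (h : ∀ x, L (T x) = T' (L x))
    (k : ℕ) (x : A) : L ((T ^ k) x) = (T' ^ k) (L x) := by
  induction k generalizing x with
  | zero => simp
  | succ k ih => rw [pow_succ, pow_succ, Module.End.mul_apply, Module.End.mul_apply, ih, h]

private def evI (m : ℕ) (j : Fin (m + 1)) : Fin (2 * m + 1) := ⟨2 * (j : ℕ), by omega⟩

private def odI (m : ℕ) (j : Fin m) : Fin (2 * m + 1) := ⟨2 * (j : ℕ) + 1, by omega⟩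

private theorem ev_comm (m : ℕ) (g : Module.End K V) (x : Fin (2 * m + 1) → V) :
    LinearMap.funLeft K V (evI m) (trc 2 (2 * m + 1) g x) =
      trc 1 (m + 1) g (LinearMap.funLeft K V (evI m) x) := by
  funext j
  simp only [LinearMap.funLeft_apply, trc, LinearMap.coe_mk, AddHom.coe_mk, evI]
  congr 1
  by_cases h : 1 ≤ (j : ℕ)
  · rw [dif_pos (by omega), dif_pos h]
    congr 1
    apply Fin.ext
    simp only
    omega
  · rw [dif_neg (by omega), dif_neg h]

private theorem od_comm (m : ℕ) (g : Module.End K V) (x : Fin (2 * m + 1) → V) :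
    LinearMap.funLeft K V (odI m) (trc 2 (2 * m + 1) g x) =
      trc 1 m g (LinearMap.funLeft K V (odI m) x) := by
  funext j
  simp only [LinearMap.funLeft_apply, trc, LinearMap.coe_mk, AddHom.coe_mk, odI]
  congr 1
  by_cases h : 1 ≤ (j : ℕ)
  · rw [dif_pos (by omega), dif_pos h]
    congr 1
    apply Fin.ext
    simp only
    omega
  · rw [dif_neg (by omega), dif_neg h]

private theorem ext_par {m : ℕ} {x y : Fin (2 * m + 1) → V}
    (h1 : LinearMap.funLeft K V (evI m) x = LinearMap.funLeft K V (evI m) y)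
    (h2 : LinearMap.funLeft K V (odI m) x = LinearMap.funLeft K V (odI m) y) : x = y := by
  funext i
  rcases Nat.even_or_odd' (i : ℕ) with ⟨j, hj | hj⟩
  · have h := congrFun h1 ⟨j, by omega⟩
    simp only [LinearMap.funLeft_apply] at h
    have e : evI m ⟨j, by omega⟩ = i := Fin.ext (by simp only [evI]; omega)
    rwa [e] at h
  · have h := congrFun h2 ⟨j, by omega⟩
    simp only [LinearMap.funLeft_apply] at h
    have e : odI m ⟨j, by omega⟩ = i := Fin.ext (by simp only [odI]; omega)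
    rwa [e] at h

/-- JOB Q4. `Q(a)` for `V` gives `Q(a + (p-1)/2)` for `V ⊗ K[z]/(z^p)`, `deg z = 1`, operator `g + z^2` (`p` odd).

PROOF. `trc 2 p g` preserves the even and the odd `z`-exponents. The even part is `V ⊗ K[u]/(u^((p+1)/2))` with
`u = z^2`, which has `Q(a + (p+1)/2 - 1)` by `QP_trc`. The odd part is `z ⊗ V ⊗ K[u]/(u^((p-1)/2))`: degrees shifted by
`1`, so it has `Q(a + (p-1)/2 - 1 + 1)`. A vector `x` is the sum of its even and odd parts; solve for both and add. -/
theorem QP_sq {p : ℕ} [Fact p.Prime] [CharP K p] (hp : p ≠ 2) {𝒱 : ℤ → Submodule K V}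
    {g : Module.End K V} {a : ℤ} (hg : ∀ D, ∀ x ∈ 𝒱 D, g x ∈ 𝒱 (D + 2)) (h : QP p 𝒱 g a) :
    QP p (grT p 1 𝒱) (trc 2 p g) (a + ((p : ℤ) - 1) / 2) := by
  have hpp : p.Prime := Fact.out
  obtain ⟨m, hm⟩ := hpp.odd_of_ne_two hp
  subst hm
  have hm1 : 1 ≤ m := by
    have := hpp.two_le
    omega
  have hE := QP_trc hg h (m + 1) (by omega) (by omega)
  have hO := QP_trc hg h m hm1 (by omega)
  intro k hk hkp D hD x hx hx0
  obtain ⟨yE, hyE, hyE'⟩ := hE k hk hkp D (by push_cast at hD ⊢; omega)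
    (LinearMap.funLeft K V (evI m) x)
    (fun j => by
      have h1 := hx (evI m j)
      have e : D - 1 * (((evI m j : Fin (2 * m + 1)) : ℕ) : ℤ) = D - 2 * ((j : ℕ) : ℤ) := by
        simp only [evI]; push_cast; ring
      rw [e] at h1
      exact h1)
    (by rw [← pow_comm' _ _ _ (ev_comm m g), hx0, map_zero])
  obtain ⟨yO, hyO, hyO'⟩ := hO k hk hkp (D - 1) (by push_cast at hD ⊢; omega)
    (LinearMap.funLeft K V (odI m) x)
    (fun j => by
      have h1 := hx (odI m j)
      have e : D - 1 * (((odI m j : Fin (2 * m + 1)) : ℕ) : ℤ) = D - 1 - 2 * ((j : ℕ) : ℤ) := by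
        simp only [odI]; push_cast; ring
      rw [e] at h1
      exact h1)
    (by rw [← pow_comm' _ _ _ (od_comm m g), hx0, map_zero])
  let y : Fin (2 * m + 1) → V := fun i =>
    if hi : (i : ℕ) % 2 = 0 then yE ⟨(i : ℕ) / 2, by omega⟩ else yO ⟨(i : ℕ) / 2, by omega⟩
  have hyEv : LinearMap.funLeft K V (evI m) y = yE := by
    funext j
    simp only [LinearMap.funLeft_apply, y, evI]
    rw [dif_pos (by omega)]
    congr 1
    apply Fin.ext
    simp only
    omega
  have hyOd : LinearMap.funLeft K V (odI m) y = yO := by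
    funext j
    simp only [LinearMap.funLeft_apply, y, odI]
    rw [dif_neg (by omega)]
    congr 1
    apply Fin.ext
    simp only
    omega
  refine ⟨y, ?_, ?_⟩
  · intro i
    rcases Nat.even_or_odd' (i : ℕ) with ⟨j, hj | hj⟩
    · have h1 := hyE ⟨j, by omega⟩
      have e1 : y i = yE ⟨j, by omega⟩ := by
        simp only [y]
        rw [dif_pos (by omega)]
        congr 1
        apply Fin.ext
        simp only
        omega
      rw [e1]
      have e : D - 2 * (((2 * m + 1 : ℕ) : ℤ) - k) - 1 * ((i : ℕ) : ℤ) =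
          D - 2 * (((2 * m + 1 : ℕ) : ℤ) - k) - 2 * ((j : ℕ) : ℤ) := by
        rw [hj]; push_cast; ring
      rw [e]
      exact h1
    · have h1 := hyO ⟨j, by omega⟩
      have e1 : y i = yO ⟨j, by omega⟩ := by
        simp only [y]
        rw [dif_neg (by omega)]
        congr 1
        apply Fin.ext
        simp only
        omega
      rw [e1]
      have e : D - 2 * (((2 * m + 1 : ℕ) : ℤ) - k) - 1 * ((i : ℕ) : ℤ) =
          D - 1 - 2 * (((2 * m + 1 : ℕ) : ℤ) - k) - 2 * ((j : ℕ) : ℤ) := by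
        rw [hj]; push_cast; ring
      rw [e]
      exact h1
  · apply ext_par (K := K)
    · rw [pow_comm' _ _ _ (ev_comm m g), hyEv, hyE']
    · rw [pow_comm' _ _ _ (od_comm m g), hyOd, hyO']

end

end QL
end

section

/-!
LinearBound (MP_c77682_nt), job N3. See table papers, id 368.
-/

set_option autoImplicit false

open Matrix

namespace QL

private theorem N3_Xm {K : Type} [Field K] {p τ : ℕ} (a : Fin τ) (x : Mon p (Fin τ) → K)
    (m : Mon p (Fin τ)) : (Xm K p a *ᵥ x) m =
      if h : 1 ≤ (m a : ℕ) then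
        x (Function.update m a ⟨(m a : ℕ) - 1, lt_of_le_of_lt (Nat.sub_le _ _) (m a).2⟩) else 0 := by
  rw [Matrix.mulVec, dotProduct]
  by_cases h : 1 ≤ (m a : ℕ)
  · rw [dif_pos h]
    rw [Finset.sum_eq_single
      (Function.update m a ⟨(m a : ℕ) - 1, lt_of_le_of_lt (Nat.sub_le _ _) (m a).2⟩)]
    · unfold Xm
      rw [if_pos, one_mul]
      intro i
      by_cases hi : i = a
      · subst hi
        rw [if_pos rfl, Function.update_self]
        simp only
        omega
      · rw [if_neg hi, Function.update_of_ne hi, add_zero]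
    · intro m' _ hm'
      unfold Xm
      rw [if_neg, zero_mul]
      intro hall
      apply hm'
      funext i
      apply Fin.ext
      by_cases hi : i = a
      · subst hi
        have := hall i
        rw [if_pos rfl] at this
        rw [Function.update_self]
        simp only
        omega
      · have := hall i
        rw [if_neg hi, add_zero] at this
        rw [Function.update_of_ne hi, this]
    · intro h'
      exact absurd (Finset.mem_univ _) h'
  · rw [dif_neg h]
    refine Finset.sum_eq_zero fun m' _ => ?_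
    unfold Xm
    rw [if_neg, zero_mul]
    intro hall
    have := hall a
    rw [if_pos rfl] at this
    omega

private theorem N3_sq {K : Type} [Field K] {p τ : ℕ} (a : Fin τ) (x : Mon p (Fin τ) → K)
    (m : Mon p (Fin τ)) : ((Xm K p a * Xm K p a) *ᵥ x) m =
      if h : 2 ≤ (m a : ℕ) then
        x (Function.update m a ⟨(m a : ℕ) - 2, lt_of_le_of_lt (Nat.sub_le _ _) (m a).2⟩) else 0 := by
  rw [← Matrix.mulVec_mulVec, N3_Xm]
  by_cases h : 1 ≤ (m a : ℕ)
  · rw [dif_pos h, N3_Xm]
    simp only [Function.update_self, Function.update_idem]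
    by_cases h2 : 2 ≤ (m a : ℕ)
    · rw [dif_pos (by omega), dif_pos h2]
      congr 2
    · rw [dif_neg (by omega), dif_neg h2]
  · rw [dif_neg h, dif_neg (by omega)]

private theorem N3_GN {K : Type} [Field K] {p τ : ℕ} (x : Mon p (Fin τ) → K)
    (m : Mon p (Fin τ)) : (GN p (1 : Matrix (Fin τ) (Fin τ) K) *ᵥ x) m =
      ∑ a, if h : 2 ≤ (m a : ℕ) then
        x (Function.update m a ⟨(m a : ℕ) - 2, lt_of_le_of_lt (Nat.sub_le _ _) (m a).2⟩) else 0 := by
  have h1 : GN p (1 : Matrix (Fin τ) (Fin τ) K) = ∑ a, Xm K p a * Xm K p a := by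
    unfold GN
    refine Finset.sum_congr rfl fun a _ => ?_
    rw [Finset.sum_eq_single a]
    · rw [Matrix.one_apply_eq, one_smul]
    · intro b _ hb
      rw [Matrix.one_apply_ne hb.symm, zero_smul]
    · intro h
      exact absurd (Finset.mem_univ _) h
  rw [h1, Matrix.sum_mulVec, Finset.sum_apply]
  exact Finset.sum_congr rfl fun a _ => N3_sq a x m

private theorem N3_dg {p τ : ℕ} (a : Fin τ) (m : Mon p (Fin τ)) (h : 2 ≤ (m a : ℕ)) :
    dg (Function.update m a ⟨(m a : ℕ) - 2, lt_of_le_of_lt (Nat.sub_le _ _) (m a).2⟩) + 2 =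
      dg m := by
  unfold dg
  have h1 : (fun i => ((Function.update m a
      ⟨(m a : ℕ) - 2, lt_of_le_of_lt (Nat.sub_le _ _) (m a).2⟩ i : Fin p) : ℕ)) =
      Function.update (fun i => (m i : ℕ)) a ((m a : ℕ) - 2) := by
    funext i
    by_cases hi : i = a
    · subst hi
      rw [Function.update_self, Function.update_self]
    · rw [Function.update_of_ne hi, Function.update_of_ne hi]
  rw [h1, Finset.sum_update_of_mem (Finset.mem_univ a),
    ← Finset.sum_sdiff (Finset.singleton_subset_iff.2 (Finset.mem_univ a))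
      (f := fun i => (m i : ℕ)), Finset.sum_singleton]
  omega

private theorem N3_deg {K : Type} [Field K] {p τ : ℕ} (D : ℤ) (x : Mon p (Fin τ) → K)
    (hx : x ∈ gr K (dg (p := p) (σ := Fin τ)) D) :
    (GN p (1 : Matrix (Fin τ) (Fin τ) K)).mulVecLin x ∈
      gr K (dg (p := p) (σ := Fin τ)) (D + 2) := by
  intro m hm
  rw [Matrix.mulVecLin_apply, N3_GN] at hm
  obtain ⟨a, _, ha⟩ := Finset.exists_ne_zero_of_sum_ne_zero hm
  by_cases h : 2 ≤ (m a : ℕ)
  · rw [dif_pos h] at ha
    have h1 := hx _ ha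
    have h2 := N3_dg a m h
    rw [← h2]
    push_cast
    rw [h1]
  · rw [dif_neg h] at ha
    exact absurd rfl ha

private def N3_i (K : Type) [Field K] (p τ : ℕ) :
    (Mon p (Fin (τ + 1)) → K) →ₗ[K] (Fin p → (Mon p (Fin τ) → K)) where
  toFun x j m := x (Fin.cons j m)
  map_add' x y := rfl
  map_smul' c x := rfl

private def N3_ρ (K : Type) [Field K] (p τ : ℕ) :
    (Fin p → (Mon p (Fin τ) → K)) →ₗ[K] (Mon p (Fin (τ + 1)) → K) where
  toFun z m := z (m 0) (Fin.tail m)
  map_add' x y := rfl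
  map_smul' c x := rfl

private theorem N3_ig {K : Type} [Field K] {p τ : ℕ} (x : Mon p (Fin (τ + 1)) → K) :
    N3_i K p τ ((GN p (1 : Matrix (Fin (τ + 1)) (Fin (τ + 1)) K)).mulVecLin x) =
      trc 2 p (GN p (1 : Matrix (Fin τ) (Fin τ) K)).mulVecLin (N3_i K p τ x) := by
  funext j m
  have h1 : N3_i K p τ ((GN p (1 : Matrix (Fin (τ + 1)) (Fin (τ + 1)) K)).mulVecLin x) j m =
    (GN p (1 : Matrix (Fin (τ + 1)) (Fin (τ + 1)) K) *ᵥ x) (Fin.cons j m) := rfl
  have h2 : trc 2 p (GN p (1 : Matrix (Fin τ) (Fin τ) K)).mulVecLin (N3_i K p τ x) j m =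
    (GN p (1 : Matrix (Fin τ) (Fin τ) K) *ᵥ (N3_i K p τ x j)) m +
      (if h : 2 ≤ (j : ℕ) then N3_i K p τ x ⟨j - 2, by omega⟩ else 0) m := rfl
  rw [h1, h2, N3_GN, N3_GN, Fin.sum_univ_succ, add_comm]
  congr 1
  · refine Finset.sum_congr rfl fun a _ => ?_
    simp only [Fin.cons_succ]
    by_cases h : 2 ≤ (m a : ℕ)
    · rw [dif_pos h, dif_pos h, ← Fin.cons_update]
      rfl
    · rw [dif_neg h, dif_neg h]
  · simp only [Fin.cons_zero]
    by_cases h : 2 ≤ (j : ℕ)
    · rw [dif_pos h, dif_pos h, Fin.update_cons_zero]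
      rfl
    · rw [dif_neg h, dif_neg h]
      rfl

/-- JOB N3. `Q(τ (p-1)/2)` for `x_1^2 + … + x_τ^2`, `p` odd.

PROOF. Induction on `τ`. `τ = 0`: the space is `K` in degree `0`, `g = 0`; `x ∈ 𝒱 D`, `D < 0 - k + 1 ≤ 0`: `x = 0`. Step:
`x ↦ (i ↦ m ↦ x (Fin.cons i m))` is an isomorphism `(Mon p (Fin (τ+1)) → K) ≃ (Fin p → (Mon p (Fin τ) → K))` that
transforms `GN p 1` into `trc 2 p (GN p 1)` and the gradings into each other; apply `QP_sq` and `QP_retract`.
(`(τ + 1) (p-1)/2 = τ (p-1)/2 + (p-1)/2` since `p - 1` is even.) -/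
theorem QP_one {K : Type} [Field K] {p : ℕ} [Fact p.Prime] [CharP K p] (hp : p ≠ 2) (τ : ℕ) :
    QP p (gr K (dg (p := p) (σ := Fin τ))) (GN p (1 : Matrix (Fin τ) (Fin τ) K)).mulVecLin
      (τ * (((p : ℤ) - 1) / 2)) := by
  induction τ with
  | zero =>
    intro k hk hkp D hD x hx _
    have h0 : x = 0 := by
      funext m
      by_contra hm
      have h1 := hx m hm
      have h2 : dg m = 0 := by
        unfold dg
        simp
      rw [h2] at h1
      push_cast at hD h1
      rw [zero_mul] at hD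
      omega
    exact ⟨0, Submodule.zero_mem _, by rw [map_zero, h0]⟩
  | succ τ ih =>
    have hρi : ∀ x, N3_ρ K p τ (N3_i K p τ x) = x := by
      intro x
      funext m
      show x (Fin.cons (m 0) (Fin.tail m)) = x m
      rw [Fin.cons_self_tail]
    have hiρ : ∀ z, N3_i K p τ (N3_ρ K p τ z) = z := by
      intro z
      funext j m
      rfl
    have hdg : ∀ (j : Fin p) (m : Mon p (Fin τ)),
        dg (Fin.cons j m : Mon p (Fin (τ + 1))) = (j : ℕ) + dg m := by
      intro j m
      unfold dg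
      rw [Fin.sum_univ_succ]
      simp
    have hsq := QP_sq hp (fun D x hx => N3_deg D x hx) ih
    have hr := QP_retract (N3_i K p τ) (N3_ρ K p τ)
      (𝒱 := gr K (dg (p := p) (σ := Fin (τ + 1))))
      (g := (GN p (1 : Matrix (Fin (τ + 1)) (Fin (τ + 1)) K)).mulVecLin)
      (𝒱' := grT p 1 (gr K (dg (p := p) (σ := Fin τ))))
      (g' := trc 2 p (GN p (1 : Matrix (Fin τ) (Fin τ) K)).mulVecLin)
      (a := (τ : ℤ) * (((p : ℤ) - 1) / 2) + ((p : ℤ) - 1) / 2)
      (by
        intro D x hx j m hm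
        have h1 := hx (Fin.cons j m) hm
        rw [hdg] at h1
        push_cast at h1
        linarith)
      (by
        intro D z hz m hm
        have h1 := hz (m 0) (Fin.tail m) hm
        have h2 := hdg (m 0) (Fin.tail m)
        rw [Fin.cons_self_tail] at h2
        rw [h2]
        push_cast
        linarith)
      N3_ig
      (by
        intro z
        have h1 := N3_ig (N3_ρ K p τ z)
        rw [hiρ] at h1
        rw [← h1, hρi])
      hρi hsq
    have e : ((τ + 1 : ℕ) : ℤ) * (((p : ℤ) - 1) / 2) =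
        (τ : ℤ) * (((p : ℤ) - 1) / 2) + ((p : ℤ) - 1) / 2 := by
      push_cast
      ring
    rw [e]
    exact hr

end QL
end
end
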