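import Mathlib

/-!
LinearBound: the hypothesis `Hyp Q c`.
-/

set_option autoImplicit false

open Matrix Module

namespace QL

section
variable {K : Type} [Field K] {σ : Type} [Fintype σ]

/-- polar form of the quadratic form `∑ Q a b x_a x_b`. -/
def bq (Q : Matrix σ σ K) (x y : σ → K) : K := x ⬝ᵥ ((Q + Qᵀ) *ᵥ y)

/-- `4 dim L ≤ c + codim U` for all `U`, `L` with `b_l (U, U) = 0`, `l ∈ L`. -/
def Hyp {r : ℕ} (Q : Fin r → Matrix σ σ K) (c : ℕ) : Prop :=
  ∀ (U : Submodule K (σ → K)) (L : Submodule K (Fin r → K)),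
    (∀ l ∈ L, ∀ x ∈ U, ∀ y ∈ U, ∑ k, l k * bq (Q k) x y = 0) →
    4 * finrank K L + finrank K U ≤ c + Fintype.card σ

end

end QL
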