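import Mathlib
import Pool.Agent.Lib.MP_c77682_nt.L.N3
import Pool.Agent.Lib.MP_c77682_nt.L.C1a
import Pool.Agent.Lib.MP_c77682_nt.L.YDefs
import Pool.Agent.Lib.MP_c77682_nt.L.M3

section

section

/-!
LinearBound (MP_c77682_nt), job R1. See table papers, id 368.
-/

set_option autoImplicit false

open MvPolynomial Matrix

namespace QL

section

variable {K : Type} [Field K] {r : ℕ} {μ : Type} [Fintype μ] [DecidableEq μ]

/-- JOB R1. -/
theorem toA_inj (c : CB K r μ) (h : toA K r μ c = 0) : c = 0 := by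
  funext I m
  ext a
  have h1 := congrFun (congrFun h fun k => 2 * a k + if k ∈ I then 1 else 0) m
  have h2 : hlf (fun k => 2 * a k + if k ∈ I then 1 else 0) = a := by
    ext k
    show (2 * a k + if k ∈ I then 1 else 0) / 2 = a k
    split_ifs <;> omega
  have h3 : oddS (fun k => 2 * a k + if k ∈ I then 1 else 0) = I := by
    ext k
    unfold oddS
    rw [Finset.mem_filter]
    constructor
    · rintro ⟨-, h4⟩
      by_contra h5
      change Odd (2 * a k + if k ∈ I then 1 else 0) at h4
      rw [if_neg h5, add_zero] at h4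
      exact (Nat.not_odd_iff_even.2 (even_two_mul _)) h4
    · intro h4
      refine ⟨Finset.mem_univ _, ?_⟩
      show Odd (2 * a k + if k ∈ I then 1 else 0)
      rw [if_pos h4]
      exact odd_two_mul_add_one _
  change coeff (hlf (fun k => 2 * a k + if k ∈ I then 1 else 0))
    (c (oddS (fun k => 2 * a k + if k ∈ I then 1 else 0)) m) = 0 at h1
  rw [h2, h3] at h1
  rw [h1]
  simp

private theorem R1_coeff_sign (n : ℕ) (a : Fin r →₀ ℕ) (P : MvPolynomial (Fin r) K) :
    coeff a ((-1 : MvPolynomial (Fin r) K) ^ n * P) = (-1 : K) ^ n * coeff a P := by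
  have h : (-1 : MvPolynomial (Fin r) K) ^ n = C ((-1 : K) ^ n) := by
    rw [map_pow, map_neg, map_one]
  rw [h, coeff_C_mul]

private theorem R1_neg_one_pow_sum {α : Type} (s : Finset α) (b : α → ℕ) [DecidablePred fun k => Odd (b k)] :
    (-1 : K) ^ (∑ k ∈ s, b k) = (-1 : K) ^ (s.filter fun k => Odd (b k)).card := by
  classical
  induction s using Finset.induction_on with
  | empty => simp
  | insert x s hx ih =>
    rw [Finset.sum_insert hx, pow_add, ih, Finset.filter_insert]
    split_ifs with h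
    · rw [Finset.card_insert_of_notMem (by simp [hx]), h.neg_one_pow, pow_succ]
      ring
    · rw [(Nat.not_odd_iff_even.1 h).neg_one_pow, one_mul]

private theorem R1_sign (i : Fin r) (b : Fin r → ℕ) :
    (-1 : K) ^ sgE i b = (-1 : K) ^ sgB i (oddS b) := by
  unfold sgE sgB oddS
  rw [R1_neg_one_pow_sum]
  congr 2
  ext k
  simp only [Finset.mem_filter, Finset.mem_univ, true_and]
  exact and_comm

private theorem R1_pow (G : Matrix μ μ K) (n : ℕ) : G.mulVecLin ^ n = (G ^ n).mulVecLin := by
  induction n with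
  | zero =>
    rw [pow_zero, pow_zero, Matrix.mulVecLin_one]
    rfl
  | succ n ih =>
    rw [pow_succ, pow_succ, ih, Matrix.mulVecLin_mul]
    rfl

/-- JOB R1. the differentials correspond.

PROOF. Fix `b`, `I = oddS b`, `a = hlf b`. Term `i`: if `b i` is odd: `i ∈ I`, `b - e_i` has `oddS = I.erase i`,
`hlf = a`. If `b i` is even and `≥ 2`: `i ∉ I`, `oddS (b - e_i) = insert i I`, `hlf (b - e_i) = a - e_i`, and
`coeff a (X i * q) = coeff (a - e_i) q`; if `b i = 0`, `coeff a (X i * q) = 0`. Signs: `sgE i b ≡ sgB i I` mod 2. -/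
theorem toA_dB (p : ℕ) (G : Fin r → Matrix μ μ K) (c : CB K r μ) :
    toA K r μ (dB p G c) = dL p (fun i => (G i).mulVecLin) (toA K r μ c) := by
  funext b m
  rw [dL_apply, Finset.sum_apply]
  show coeff (hlf b) (dB p G c (oddS b) m) = _
  rw [dB_apply, coeff_sum]
  refine Finset.sum_congr rfl fun i _ => ?_
  rw [R1_coeff_sign]
  by_cases ho : Odd (b i)
  · have hi : i ∈ oddS b := by
      unfold oddS
      rw [Finset.mem_filter]
      exact ⟨Finset.mem_univ _, ho⟩
    have h1 : 1 ≤ b i := by
      obtain ⟨k, hk⟩ := ho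
      omega
    rw [if_pos hi, if_pos h1]
    have e1 : hlf (Function.update b i (b i - 1)) = hlf b := by
      ext k
      show (Function.update b i (b i - 1) k) / 2 = b k / 2
      by_cases hk : k = i
      · subst hk
        rw [Function.update_self]
        obtain ⟨l, hl⟩ := ho
        omega
      · rw [Function.update_of_ne hk]
    have e2 : oddS (Function.update b i (b i - 1)) = (oddS b).erase i := by
      ext k
      unfold oddS
      rw [Finset.mem_filter, Finset.mem_erase, Finset.mem_filter]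
      by_cases hk : k = i
      · subst hk
        rw [Function.update_self]
        constructor
        · rintro ⟨-, h⟩
          exfalso
          obtain ⟨l, hl⟩ := ho
          obtain ⟨l', hl'⟩ := h
          omega
        · rintro ⟨h, -⟩
          exact absurd rfl h
      · rw [Function.update_of_ne hk]
        simp [hk]
    show _ = (-1 : K) ^ sgE i b • (ph p (G i).mulVecLin (b i)
      (toA K r μ c (Function.update b i (b i - 1)))) m
    rw [R1_sign, smul_eq_mul]
    congr 1
    unfold ph
    rw [if_pos ho, coeff_sum]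
    show _ = ∑ m', G i m m' * coeff (hlf (Function.update b i (b i - 1)))
      (c (oddS (Function.update b i (b i - 1))) m')
    rw [e1, e2]
    exact Finset.sum_congr rfl fun m' _ => coeff_C_mul _ _ _
  · have hi : i ∉ oddS b := by
      unfold oddS
      rw [Finset.mem_filter]
      exact fun h => ho h.2
    rw [if_neg hi, coeff_X_mul']
    by_cases h1 : 1 ≤ b i
    · rw [if_pos h1]
      have he := Nat.not_odd_iff_even.1 ho
      have h2 : 2 ≤ b i := by
        obtain ⟨l, hl⟩ := he
        omega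
      have hs : i ∈ (hlf b).support := by
        rw [Finsupp.mem_support_iff]
        show b i / 2 ≠ 0
        omega
      rw [if_pos hs]
      have e1 : hlf (Function.update b i (b i - 1)) = hlf b - Finsupp.single i 1 := by
        ext k
        show (Function.update b i (b i - 1) k) / 2 = b k / 2 - Finsupp.single i 1 k
        by_cases hk : k = i
        · subst hk
          rw [Function.update_self, Finsupp.single_eq_same]
          obtain ⟨l, hl⟩ := he
          omega
        · rw [Function.update_of_ne hk, Finsupp.single_eq_of_ne hk]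
          rfl
      have e2 : oddS (Function.update b i (b i - 1)) = insert i (oddS b) := by
        ext k
        unfold oddS
        rw [Finset.mem_filter, Finset.mem_insert, Finset.mem_filter]
        by_cases hk : k = i
        · subst hk
          rw [Function.update_self]
          constructor
          · intro _
            exact Or.inl rfl
          · intro _
            refine ⟨Finset.mem_univ _, ?_⟩
            obtain ⟨l, hl⟩ := he
            exact ⟨l - 1, by omega⟩
        · rw [Function.update_of_ne hk]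
          simp [hk]
      show _ = (-1 : K) ^ sgE i b • (ph p (G i).mulVecLin (b i)
        (toA K r μ c (Function.update b i (b i - 1)))) m
      rw [R1_sign, smul_eq_mul]
      congr 1
      unfold ph
      rw [if_neg ho, R1_pow, coeff_sum]
      show _ = ∑ m', (G i ^ (p - 1)) m m' * coeff (hlf (Function.update b i (b i - 1)))
        (c (oddS (Function.update b i (b i - 1))) m')
      rw [e1, e2]
      exact Finset.sum_congr rfl fun m' _ => coeff_C_mul _ _ _
    · have h0 : b i = 0 := by omega
      have hs : i ∉ (hlf b).support := by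
        rw [Finsupp.mem_support_iff, not_not]
        show b i / 2 = 0
        omega
      rw [if_neg hs, if_neg h1, mul_zero]
      rfl

end

end QL
end

section

/-!
LinearBound (MP_c77682_nt), job R2. See table papers, id 368.
-/

set_option autoImplicit false

open MvPolynomial Matrix

namespace QL

section

variable {K : Type} [Field K] {r : ℕ} {μ : Type} [Fintype μ] [DecidableEq μ]

/-- the index `b` with odd part `I` and half `a`. -/
private def r2b (I : Finset (Fin r)) (a : Fin r →₀ ℕ) : Fin r → ℕ :=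
  fun k => 2 * a k + if k ∈ I then 1 else 0

private theorem r2_odd (I : Finset (Fin r)) (a : Fin r →₀ ℕ) : oddS (r2b I a) = I := by
  ext k
  unfold oddS r2b
  rw [Finset.mem_filter]
  by_cases h : k ∈ I
  · simp only [h, if_true, iff_true]
    exact ⟨Finset.mem_univ k, ⟨a k, rfl⟩⟩
  · simp only [h, if_false, iff_false]
    rintro ⟨-, m, hm⟩
    omega

private theorem r2_hlf (I : Finset (Fin r)) (a : Fin r →₀ ℕ) : hlf (r2b I a) = a := by
  ext k
  unfold hlf r2b
  simp only [Finsupp.equivFunOnFinite_symm_apply_apply]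
  split_ifs <;> omega

private theorem r2_sum (b : Fin r → ℕ) :
    ((oddS b).card : ℤ) + 2 * (∑ i, (hlf b i : ℤ)) = ∑ k, (b k : ℤ) := by
  have h1 : ((oddS b).card : ℤ) = ∑ k, if Odd (b k) then (1 : ℤ) else 0 := by
    unfold oddS
    rw [Finset.card_filter]
    push_cast
    rfl
  rw [h1, Finset.mul_sum, ← Finset.sum_add_distrib]
  refine Finset.sum_congr rfl fun k _ => ?_
  have h2 : hlf b k = b k / 2 := by
    unfold hlf
    simp only [Finsupp.equivFunOnFinite_symm_apply_apply]
  rw [h2]
  by_cases h : Odd (b k)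
  · rw [if_pos h]
    obtain ⟨m, hm⟩ := h
    omega
  · rw [if_neg h]
    rw [Nat.not_odd_iff_even] at h
    obtain ⟨m, hm⟩ := h
    omega

private theorem r2_toA (c : CB K r μ) (b : Fin r → ℕ) (m : μ) :
    toA K r μ c b m = coeff (hlf b) (c (oddS b) m) := rfl

private theorem r2_toA' (c : CB K r μ) (I : Finset (Fin r)) (a : Fin r →₀ ℕ) (m : μ) :
    toA K r μ c (r2b I a) m = coeff a (c I m) := by
  rw [r2_toA, r2_odd, r2_hlf]

private theorem r2_gr {deg : μ → ℕ} {D : ℤ} {x : μ → K} (h : x ∈ gr K deg D) :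
    ∀ m, x m ≠ 0 → (deg m : ℤ) = D := h

/-- JOB R2. bidegrees correspond. (`∑ b = |oddS b| + 2 ∑ hlf b`, `nodd b = (oddS b).card`; every pair `(I, a)` is
`(oddS b, hlf b)` for `b k = 2 a k + (if k ∈ I then 1 else 0)`.) -/
theorem toA_mem_Bi {p : ℕ} {deg : μ → ℕ} {j ℓ : ℤ} (c : CB K r μ) :
    (c ∈ LB K p deg ℓ ∧ c ∈ HB K r μ j) ↔ toA K r μ c ∈ Bi p (gr K deg) j ℓ := by
  rw [mem_Bi]
  constructor
  · rintro ⟨hL, hH⟩ b
    refine ⟨?_, fun hb => ?_⟩
    · intro m hm
      rw [r2_toA] at hm
      by_contra h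
      apply hm
      rw [hL (oddS b) m, coeff_zero]
      intro h2
      apply h
      change (deg m : ℤ) = ℓ - ((p : ℤ) - 2) * (oddS b).card
      linarith
    · funext m
      rw [r2_toA]
      refine hH (oddS b) m (hlf b) ?_
      rw [r2_sum]
      exact hb
  · intro h
    refine ⟨fun I m hm => ?_, fun I m a ha => ?_⟩
    · ext a
      rw [coeff_zero]
      by_contra h2
      rw [← r2_toA'] at h2
      have h3 := r2_gr (h (r2b I a)).1 m h2
      have h4 : nodd (r2b I a) = I.card := by
        have h5 : nodd (r2b I a) = (oddS (r2b I a)).card := rfl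
        rw [h5, r2_odd]
      rw [h4] at h3
      apply hm
      linarith
    · rw [← r2_toA', (h (r2b I a)).2]
      · rfl
      · rw [← r2_sum, r2_odd, r2_hlf]
        exact ha

/-- JOB R2. every cochain of model A of some bidegree comes from model B. -/
theorem exists_toA {p : ℕ} {deg : μ → ℕ} {j ℓ : ℤ} (c : (Fin r → ℕ) → (μ → K))
    (hc : c ∈ Bi p (gr K deg) j ℓ) : ∃ c' : CB K r μ, toA K r μ c' = c := by
  classical
  rw [mem_Bi] at hc
  set S : Finset (Fin r →₀ ℕ) :=
    Finset.Iic (Finsupp.equivFunOnFinite.symm fun _ => j.toNat) with hS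
  refine ⟨fun I m => ∑ a ∈ S, monomial a (c (r2b I a) m), ?_⟩
  funext b
  funext m
  rw [r2_toA, coeff_sum]
  simp only [coeff_monomial]
  have hb : r2b (oddS b) (hlf b) = b := by
    funext k
    unfold r2b
    have h2 : hlf b k = b k / 2 := by
      unfold hlf
      simp only [Finsupp.equivFunOnFinite_symm_apply_apply]
    have h3 : k ∈ oddS b ↔ Odd (b k) := by
      unfold oddS
      rw [Finset.mem_filter]
      exact ⟨fun h => h.2, fun h => ⟨Finset.mem_univ k, h⟩⟩
    rw [h2]
    by_cases h : Odd (b k)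
    · rw [if_pos (h3.2 h)]
      obtain ⟨n, hn⟩ := h
      omega
    · rw [if_neg fun h' => h (h3.1 h')]
      rw [Nat.not_odd_iff_even] at h
      obtain ⟨n, hn⟩ := h
      omega
  rw [Finset.sum_ite_eq' S (hlf b) fun a => c (r2b (oddS b) a) m]
  split_ifs with h
  · rw [hb]
  · rw [(hc b).2]
    · rfl
    · intro h2
      apply h
      rw [hS, Finset.mem_Iic]
      intro k
      simp only [Finsupp.equivFunOnFinite_symm_apply_apply]
      have h3 : hlf b k = b k / 2 := by
        unfold hlf
        simp only [Finsupp.equivFunOnFinite_symm_apply_apply]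
      have h4 : (b k : ℤ) ≤ ∑ k, (b k : ℤ) :=
        Finset.single_le_sum (f := fun k => (b k : ℤ)) (fun i _ => Int.natCast_nonneg _)
          (Finset.mem_univ k)
      rw [h3]
      omega

end

end QL
end
end

section

section

/-!
LinearBound (MP_c77682_nt), job R4. See table papers, id 368.
-/

set_option autoImplicit false

open MvPolynomial Matrix

namespace QL

section

variable {K : Type} [Field K] {r : ℕ} {μ : Type} [Fintype μ] [DecidableEq μ]

private theorem deg_cast (a : Fin r →₀ ℕ) : ((a.degree : ℕ) : ℤ) = ∑ i, (a i : ℤ) := by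
  rw [Finsupp.degree_eq_sum]
  push_cast
  rfl

private theorem cmp_app (j : ℤ) (c : CB K r μ) (I : Finset (Fin r)) (m : μ) :
    cmp K r μ j c I m = if 0 ≤ j - I.card ∧ Even (j - I.card) then
      homogeneousComponent ((j - I.card) / 2).toNat (c I m) else 0 := rfl

private theorem hb_iff (j : ℤ) (c : CB K r μ) : c ∈ HB K r μ j ↔
    ∀ I m a, (I.card : ℤ) + 2 * (∑ i, (a i : ℤ)) ≠ j → coeff a (c I m) = 0 := Iff.rfl

private theorem coeff_cmp (j : ℤ) (c : CB K r μ) (I : Finset (Fin r)) (m : μ) (a : Fin r →₀ ℕ) :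
    coeff a (cmp K r μ j c I m) =
      if (I.card : ℤ) + 2 * (∑ i, (a i : ℤ)) = j then coeff a (c I m) else 0 := by
  rw [cmp_app, ← deg_cast]
  by_cases h : 0 ≤ j - I.card ∧ Even (j - I.card)
  · rw [if_pos h, coeff_homogeneousComponent]
    obtain ⟨h0, k, hk⟩ := h
    by_cases h2 : (I.card : ℤ) + 2 * (a.degree : ℤ) = j
    · rw [if_pos h2, if_pos]
      omega
    · rw [if_neg h2, if_neg]
      omega
  · rw [if_neg h, coeff_zero, if_neg]
    intro h2
    apply h
    refine ⟨by omega, (a.degree : ℤ), by omega⟩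

/-- JOB R4. -/
theorem cmp_mem (j : ℤ) (c : CB K r μ) : cmp K r μ j c ∈ HB K r μ j := by
  rw [hb_iff]
  intro I m a ha
  rw [coeff_cmp, if_neg ha]

/-- JOB R4. -/
theorem cmp_of_mem {i j : ℤ} {c : CB K r μ} (hc : c ∈ HB K r μ i) :
    cmp K r μ j c = if i = j then c else 0 := by
  rw [hb_iff] at hc
  funext I m
  ext a
  rw [coeff_cmp]
  by_cases hij : i = j
  · rw [if_pos hij]
    split_ifs with h
    · rfl
    · rw [hc I m a (by rw [hij]; exact h)]
  · rw [if_neg hij]
    split_ifs with h
    · rw [hc I m a (by rw [h]; exact fun h' => hij h'.symm)]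
      simp
    · simp

/-- JOB R4. a cochain is the sum of its components. -/
theorem sum_cmp (c : CB K r μ) : ∃ J : ℕ, c = ∑ j ∈ Finset.range J, cmp K r μ (j : ℤ) c := by
  refine ⟨r + 2 * (∑ I : Finset (Fin r), ∑ m : μ, (c I m).totalDegree) + 1, ?_⟩
  funext I m
  ext a
  rw [Finset.sum_apply, Finset.sum_apply, coeff_sum]
  simp only [coeff_cmp, ← deg_cast]
  by_cases h0 : coeff a (c I m) = 0
  · rw [h0]
    simp
  · have h1 : a.degree ≤ (c I m).totalDegree := by
      rw [Finsupp.degree_eq_sum]
      have := le_totalDegree (mem_support_iff.2 h0)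
      rwa [Finsupp.sum_fintype _ _ (fun _ => rfl)] at this
    have h2 : (c I m).totalDegree ≤ ∑ I : Finset (Fin r), ∑ m : μ, (c I m).totalDegree :=
      le_trans (Finset.single_le_sum (f := fun m => (c I m).totalDegree) (fun _ _ => Nat.zero_le _)
        (Finset.mem_univ m))
        (Finset.single_le_sum (f := fun I => ∑ m : μ, (c I m).totalDegree)
          (fun _ _ => Nat.zero_le _) (Finset.mem_univ I))
    have h3 : I.card ≤ r := by
      have := Finset.card_le_univ I
      rwa [Fintype.card_fin] at this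
    rw [Finset.sum_eq_single (I.card + 2 * a.degree)]
    · rw [if_pos (by push_cast; rfl)]
    · intro b _ hb
      rw [if_neg]
      intro h
      apply hb
      omega
    · intro h
      exfalso
      apply h
      rw [Finset.mem_range]
      omega

/-- JOB R4. -/
theorem cmp_LB {p : ℕ} {deg : μ → ℕ} {ℓ : ℤ} {c : CB K r μ} (hc : c ∈ LB K p deg ℓ) (j : ℤ) :
    cmp K r μ j c ∈ LB K p deg ℓ := by
  intro I m hm
  have h : c I m = 0 := hc I m hm
  rw [cmp_app, h]
  simp

private theorem coeff_sgn (s : ℕ) (q : MvPolynomial (Fin r) K) (a : Fin r →₀ ℕ) :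
    coeff a ((-1 : MvPolynomial (Fin r) K) ^ s * q) = (-1 : K) ^ s * coeff a q := by
  rcases Nat.even_or_odd s with h | h
  · rw [h.neg_one_pow, h.neg_one_pow, one_mul, one_mul]
  · rw [h.neg_one_pow, h.neg_one_pow]
    simp

private theorem dB_HB {p : ℕ} {G : Fin r → Matrix μ μ K} {i : ℤ} {c : CB K r μ}
    (hc : c ∈ HB K r μ i) : dB p G c ∈ HB K r μ (i + 1) := by
  rw [hb_iff] at hc ⊢
  intro I m a ha
  rw [dB_apply, coeff_sum]
  refine Finset.sum_eq_zero fun k _ => ?_
  rw [coeff_sgn]
  by_cases hk : k ∈ I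
  · rw [if_pos hk, coeff_sum]
    rw [Finset.sum_eq_zero, mul_zero]
    intro m' _
    rw [coeff_C_mul, hc, mul_zero]
    rw [Finset.card_erase_of_mem hk]
    have : 1 ≤ I.card := Finset.card_pos.2 ⟨k, hk⟩
    intro h
    apply ha
    omega
  · rw [if_neg hk, coeff_X_mul']
    split_ifs with hs
    · rw [coeff_sum, Finset.sum_eq_zero, mul_zero]
      intro m' _
      rw [coeff_C_mul, hc, mul_zero]
      rw [Finset.card_insert_of_notMem hk, ← deg_cast]
      rw [← deg_cast] at ha
      have hle : Finsupp.single k 1 ≤ a := by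
        rw [Finsupp.single_le_iff]
        exact Nat.one_le_iff_ne_zero.2 (Finsupp.mem_support_iff.1 hs)
      have hd : (a - Finsupp.single k 1).degree + 1 = a.degree := by
        conv_rhs => rw [← tsub_add_cancel_of_le hle]
        rw [map_add, Finsupp.degree_single]
      intro h
      apply ha
      push_cast at h ⊢
      omega
    · rw [mul_zero]

/-- JOB R4. components and the differential (compare the components of `d c = ∑ d (cmp i c)`). -/
theorem dB_cmp {p : ℕ} {G : Fin r → Matrix μ μ K} (j : ℤ) (c : CB K r μ) :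
    dB p G (cmp K r μ j c) = cmp K r μ (j + 1) (dB p G c) := by
  obtain ⟨J, hJ⟩ := sum_cmp c
  have h1 : cmp K r μ j c = ∑ i ∈ Finset.range J, if (i : ℤ) = j then cmp K r μ i c else 0 := by
    conv_lhs => rw [hJ]
    rw [map_sum]
    exact Finset.sum_congr rfl fun i _ => cmp_of_mem (cmp_mem _ _)
  have h2 : cmp K r μ (j + 1) (dB p G c) =
      ∑ i ∈ Finset.range J, if (i : ℤ) + 1 = j + 1 then dB p G (cmp K r μ i c) else 0 := by
    conv_lhs => rw [hJ]
    rw [map_sum, map_sum]
    exact Finset.sum_congr rfl fun i _ => cmp_of_mem (dB_HB (cmp_mem _ _))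
  rw [h1, h2, map_sum]
  refine Finset.sum_congr rfl fun i _ => ?_
  by_cases h : (i : ℤ) = j
  · rw [if_pos h, if_pos (by rw [h])]
  · rw [if_neg h, if_neg (fun h' => h (by linarith)), map_zero]

/-- JOB R4. the component of degree `j` of a multiple of a homogeneous cochain. -/
theorem cmp_smul {i j : ℤ} {c : CB K r μ} (hc : c ∈ HB K r μ i) (g : MvPolynomial (Fin r) K) :
    cmp K r μ j (g • c) =
      if 0 ≤ j - i ∧ Even (j - i) then homogeneousComponent ((j - i) / 2).toNat g • c else 0 := by
  rw [hb_iff] at hc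
  funext I m
  ext a
  rw [coeff_cmp]
  have e1 : (g • c) I m = g * c I m := rfl
  rw [e1, coeff_mul, ← deg_cast]
  have key : ∀ x ∈ Finset.HasAntidiagonal.antidiagonal a, coeff x.2 (c I m) ≠ 0 →
      (I.card : ℤ) + 2 * (x.2.degree : ℤ) = i ∧ a.degree = x.1.degree + x.2.degree := by
    intro x hx h0
    constructor
    · by_contra h
      apply h0
      apply hc
      rw [← deg_cast]
      exact h
    · rw [← Finset.HasAntidiagonal.mem_antidiagonal.1 hx, map_add]
  by_cases hj : 0 ≤ j - i ∧ Even (j - i)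
  · rw [if_pos hj]
    have e2 : (homogeneousComponent ((j - i) / 2).toNat g • c) I m =
      homogeneousComponent ((j - i) / 2).toNat g * c I m := rfl
    rw [e2, coeff_mul]
    obtain ⟨h0, k, hk⟩ := hj
    split_ifs with h
    · refine Finset.sum_congr rfl fun x hx => ?_
      by_cases hz : coeff x.2 (c I m) = 0
      · rw [hz, mul_zero, mul_zero]
      · obtain ⟨h1, h2⟩ := key x hx hz
        rw [coeff_homogeneousComponent, if_pos]
        omega
    · symm
      refine Finset.sum_eq_zero fun x hx => ?_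
      by_cases hz : coeff x.2 (c I m) = 0
      · rw [hz, mul_zero]
      · obtain ⟨h1, h2⟩ := key x hx hz
        rw [coeff_homogeneousComponent, if_neg, zero_mul]
        intro h3
        apply h
        omega
  · rw [if_neg hj]
    have e3 : (0 : CB K r μ) I m = 0 := rfl
    rw [e3, coeff_zero]
    split_ifs with h
    · refine Finset.sum_eq_zero fun x hx => ?_
      by_cases hz : coeff x.2 (c I m) = 0
      · rw [hz, mul_zero]
      · obtain ⟨h1, h2⟩ := key x hx hz
        exfalso
        apply hj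
        refine ⟨by omega, (x.1.degree : ℤ), by omega⟩
    · rfl

end

end QL
end

section

/-!
LinearBound (MP_c77682_nt), job R3. See table papers, id 368.
-/

set_option autoImplicit false

open MvPolynomial Matrix

namespace QL

section

variable {K : Type} [Field K] {r : ℕ} {μ : Type} [Fintype μ] [DecidableEq μ]

private theorem mulVecLin_pow (A : Matrix μ μ K) (k : ℕ) :
    (A.mulVecLin : Module.End K (μ → K)) ^ k = (A ^ k).mulVecLin := by
  induction k with
  | zero =>
    rw [pow_zero, pow_zero, Matrix.mulVecLin_one]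
    rfl
  | succ k ih =>
    rw [pow_succ, pow_succ, ih, Matrix.mulVecLin_mul]
    rfl

/-- JOB R3. -/
theorem dB_dB {p : ℕ} (hp : 1 ≤ p) {deg : μ → ℕ} {G : Fin r → Matrix μ μ K} (hG : SysM p deg G)
    (c : CB K r μ) : dB p G (dB p G c) = 0 := by
  apply toA_inj
  rw [toA_dB, toA_dB]
  have hS : Sys p (fun _ : ℤ => (⊤ : Submodule K (μ → K)))
      (fun i => ((G i).mulVecLin : Module.End K (μ → K))) := by
    refine ⟨?_, ?_, fun _ _ _ _ => Submodule.mem_top⟩
    · intro i j
      show (G i).mulVecLin * (G j).mulVecLin = (G j).mulVecLin * (G i).mulVecLin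
      have h := hG.comm i j
      have h1 : ((G i) * (G j)).mulVecLin = ((G j) * (G i)).mulVecLin := by rw [h]
      rw [Matrix.mulVecLin_mul, Matrix.mulVecLin_mul] at h1
      exact h1
    · intro i
      rw [mulVecLin_pow, hG.nil i]
      exact Matrix.mulVecLin_zero
  exact dL_dL hp hS _

private theorem pow_deg {p : ℕ} {deg : μ → ℕ} {G : Fin r → Matrix μ μ K} (hG : SysM p deg G)
    (i : Fin r) (k : ℕ) : ∀ m m' : μ, (G i ^ k) m m' ≠ 0 → deg m = deg m' + 2 * k := by
  induction k with
  | zero =>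
    intro m m' h
    rw [pow_zero, Matrix.one_apply] at h
    by_cases hm : m = m'
    · rw [hm]
      rfl
    · rw [if_neg hm] at h
      exact absurd rfl h
  | succ k ih =>
    intro m m' h
    rw [pow_succ, Matrix.mul_apply] at h
    obtain ⟨x, -, hx⟩ := Finset.exists_ne_zero_of_sum_ne_zero h
    have h1 := ih m x (left_ne_zero_of_mul hx)
    have h2 := hG.deg i x m' (right_ne_zero_of_mul hx)
    omega

/-- JOB R3. -/
theorem dB_mem_LB {p : ℕ} (hp : 1 ≤ p) {deg : μ → ℕ} {G : Fin r → Matrix μ μ K}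
    (hG : SysM p deg G) {ℓ : ℤ} {c : CB K r μ} (hc : c ∈ LB K p deg ℓ) :
    dB p G c ∈ LB K p deg (ℓ + p) := by
  intro I m hm
  rw [dB_apply]
  refine Finset.sum_eq_zero fun i _ => ?_
  have key : (if i ∈ I then ∑ m', C (G i m m') * c (I.erase i) m'
      else X i * ∑ m', C ((G i ^ (p - 1)) m m') * c (insert i I) m' :
      MvPolynomial (Fin r) K) = 0 := by
    split_ifs with hi
    · refine Finset.sum_eq_zero fun m' _ => ?_
      by_cases h : G i m m' = 0
      · rw [h, C_0, zero_mul]
      · have hd := hG.deg i m m' h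
        have hcard : ((I.erase i).card : ℤ) = (I.card : ℤ) - 1 := by
          rw [Finset.card_erase_of_mem hi]
          have := Finset.card_pos.mpr ⟨i, hi⟩
          omega
        rw [hc (I.erase i) m' ?_, mul_zero]
        intro h2
        apply hm
        rw [hcard] at h2
        rw [hd]
        push_cast
        linarith [h2]
    · rw [Finset.sum_eq_zero, mul_zero]
      intro m' _
      by_cases h : (G i ^ (p - 1)) m m' = 0
      · rw [h, C_0, zero_mul]
      · have hd := pow_deg hG i (p - 1) m m' h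
        have hcard : ((insert i I).card : ℤ) = (I.card : ℤ) + 1 := by
          rw [Finset.card_insert_of_notMem hi]
          push_cast
          ring
        rw [hc (insert i I) m' ?_, mul_zero]
        intro h2
        apply hm
        rw [hcard] at h2
        rw [hd]
        have hp' : ((p - 1 : ℕ) : ℤ) = (p : ℤ) - 1 := by
          rw [Nat.cast_sub hp]
          simp
        push_cast [hp']
        linarith [h2]
  rw [key, mul_zero]

/-- JOB R3. -/
theorem dB_mem_HB {p : ℕ} {G : Fin r → Matrix μ μ K} {j : ℤ} {c : CB K r μ}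
    (hc : c ∈ HB K r μ j) : dB p G c ∈ HB K r μ (j + 1) := by
  intro I m a ha
  rw [dB_apply, coeff_sum]
  refine Finset.sum_eq_zero fun i _ => ?_
  have h1 : (-1 : MvPolynomial (Fin r) K) ^ sgB i I = C ((-1) ^ sgB i I) := by
    rw [map_pow, map_neg, map_one]
  rw [h1, coeff_C_mul]
  have key : coeff a (if i ∈ I then ∑ m', C (G i m m') * c (I.erase i) m'
      else X i * ∑ m', C ((G i ^ (p - 1)) m m') * c (insert i I) m' :
      MvPolynomial (Fin r) K) = 0 := by
    split_ifs with hi
    · rw [coeff_sum]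
      refine Finset.sum_eq_zero fun m' _ => ?_
      have hcard : ((I.erase i).card : ℤ) = (I.card : ℤ) - 1 := by
        rw [Finset.card_erase_of_mem hi]
        have := Finset.card_pos.mpr ⟨i, hi⟩
        omega
      rw [coeff_C_mul, hc (I.erase i) m' a ?_, mul_zero]
      intro h2
      apply ha
      rw [hcard] at h2
      linarith [h2]
    · rw [coeff_X_mul']
      split_ifs with hs
      · rw [coeff_sum]
        refine Finset.sum_eq_zero fun m' _ => ?_
        have hcard : ((insert i I).card : ℤ) = (I.card : ℤ) + 1 := by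
          rw [Finset.card_insert_of_notMem hi]
          push_cast
          ring
        rw [coeff_C_mul, hc (insert i I) m' (a - Finsupp.single i 1) ?_, mul_zero]
        intro h2
        apply ha
        rw [hcard] at h2
        have hai : 1 ≤ a i := by
          rw [Finsupp.mem_support_iff] at hs
          omega
        have hsum : (∑ k, (((a - Finsupp.single i 1 : Fin r →₀ ℕ) k : ℕ) : ℤ)) = (∑ k, (a k : ℤ)) - 1 := by
          rw [← Finset.add_sum_erase _ _ (Finset.mem_univ i),
            ← Finset.add_sum_erase Finset.univ (fun k => (a k : ℤ)) (Finset.mem_univ i)]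
          have e1 : (((a - Finsupp.single i 1 : Fin r →₀ ℕ) i : ℕ) : ℤ) = (a i : ℤ) - 1 := by
            rw [Finsupp.tsub_apply, Finsupp.single_eq_same]
            omega
          have e2 : ∑ k ∈ Finset.univ.erase i, (((a - Finsupp.single i 1 : Fin r →₀ ℕ) k : ℕ) : ℤ) =
              ∑ k ∈ Finset.univ.erase i, (a k : ℤ) := by
            refine Finset.sum_congr rfl fun k hk => ?_
            rw [Finsupp.tsub_apply, Finsupp.single_eq_of_ne (Finset.ne_of_mem_erase hk)]
            simp
          rw [e1, e2]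
          ring
        rw [hsum] at h2
        linarith [h2]
      · rfl
  rw [key, mul_zero]

end

end QL
end

section

/-!
LinearBound (MP_c77682_nt), job R5. See table papers, id 368.
-/

set_option autoImplicit false

open MvPolynomial Matrix

namespace QL

section

variable {K : Type} [Field K] {r : ℕ} {μ : Type} [Fintype μ] [DecidableEq μ]

/-- JOB R5. (`CB K r μ` is a finite free module over the Noetherian ring `R`.) -/
theorem isNoetherian_CB : IsNoetherian (MvPolynomial (Fin r) K) (CB K r μ) := by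
  haveI : IsNoetherianRing (MvPolynomial (Fin r) K) := inferInstance
  haveI : IsNoetherian (MvPolynomial (Fin r) K) (μ → MvPolynomial (Fin r) K) := inferInstance
  exact inferInstance

/-- JOB R5. boundaries are cycles. -/
theorem BB_le_ZB {p : ℕ} (hp : 1 ≤ p) {deg : μ → ℕ} {G : Fin r → Matrix μ μ K}
    (hG : SysM p deg G) (ℓ : ℤ) : BB p deg G ℓ ≤ ZB p deg G ℓ := by
  rintro _ ⟨c, hc, rfl⟩
  refine Submodule.mem_inf.mpr ⟨?_, ?_⟩
  · have h := dB_mem_LB hp hG hc
    rwa [sub_add_cancel] at h
  · exact LinearMap.mem_ker.mpr (dB_dB hp hG c)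

/-- JOB R5. components of cycles are cycles, components of boundaries are boundaries. -/
theorem cmp_ZB {p : ℕ} {deg : μ → ℕ} {G : Fin r → Matrix μ μ K} {ℓ : ℤ} {c : CB K r μ} (j : ℤ) :
    (c ∈ ZB p deg G ℓ → cmp K r μ j c ∈ ZB p deg G ℓ) ∧
      (c ∈ BB p deg G ℓ → cmp K r μ j c ∈ BB p deg G ℓ) := by
  refine ⟨fun hc => ?_, ?_⟩
  · obtain ⟨h1, h2⟩ := Submodule.mem_inf.mp hc
    refine Submodule.mem_inf.mpr ⟨cmp_LB h1 j, ?_⟩
    rw [LinearMap.mem_ker] at h2 ⊢
    rw [dB_cmp, h2, map_zero]
  · rintro ⟨e, he, rfl⟩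
    refine ⟨cmp K r μ (j - 1) e, cmp_LB he (j - 1), ?_⟩
    rw [dB_cmp, sub_add_cancel]

/-- JOB R5. `HB j = 0` for `j < 0`. -/
theorem HB_neg {j : ℤ} (hj : j < 0) {c : CB K r μ} (hc : c ∈ HB K r μ j) : c = 0 := by
  funext I m
  ext a
  rw [Pi.zero_apply, Pi.zero_apply, coeff_zero]
  apply hc I m a
  have h1 : (0 : ℤ) ≤ ∑ i, (a i : ℤ) := Finset.sum_nonneg fun i _ => Int.natCast_nonneg _
  have h2 : (0 : ℤ) ≤ (I.card : ℤ) := Int.natCast_nonneg _
  omega

/-- JOB R5. exactness in model A from model B and conversely. -/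
theorem Ex_iff {p : ℕ} {deg : μ → ℕ} {G : Fin r → Matrix μ μ K} (hG : SysM p deg G) {j ℓ : ℤ} :
    Ex p (gr K deg) (fun i => (G i).mulVecLin) j ℓ ↔
      ∀ c ∈ ZB p deg G ℓ, c ∈ HB K r μ j → c ∈ BB p deg G ℓ := by
  have hinj : ∀ x y : CB K r μ, toA K r μ x = toA K r μ y → x = y := by
    intro x y hxy
    have h := toA_inj (x - y) (by rw [map_sub, hxy, sub_self])
    exact sub_eq_zero.mp h
  constructor
  · intro hEx c hc hj
    obtain ⟨h1, h2⟩ := Submodule.mem_inf.mp hc
    rw [LinearMap.mem_ker] at h2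
    have hB : toA K r μ c ∈ Bi p (gr K deg) j ℓ := (toA_mem_Bi c).mp ⟨h1, hj⟩
    obtain ⟨e, he, hde⟩ := hEx _ hB (by rw [← toA_dB, h2, map_zero])
    obtain ⟨e', rfl⟩ := exists_toA e he
    obtain ⟨he1, he2⟩ := (toA_mem_Bi e').mpr he
    refine ⟨e', he1, ?_⟩
    apply hinj
    rw [toA_dB, hde]
  · intro h c hc hd
    obtain ⟨c', rfl⟩ := exists_toA c hc
    obtain ⟨h1, h2⟩ := (toA_mem_Bi c').mpr hc
    have hd' : dB p G c' = 0 := by
      apply hinj
      rw [toA_dB, hd, map_zero]
    obtain ⟨e, he, hde⟩ := h c' (Submodule.mem_inf.mpr ⟨h1, LinearMap.mem_ker.mpr hd'⟩) h2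
    refine ⟨toA K r μ (cmp K r μ (j - 1) e), ?_, ?_⟩
    · exact (toA_mem_Bi _).mp ⟨cmp_LB he (j - 1), cmp_mem (j - 1) e⟩
    · rw [← toA_dB, dB_cmp, sub_add_cancel, hde, cmp_of_mem h2, if_pos rfl]

end

end QL
end
end

section

section

/-!
LinearBound (MP_c77682_nt), job N1. See table papers, id 368.
-/

set_option autoImplicit false

open Matrix

namespace QL

/-- Diagonalisation of a symmetric matrix by congruence, characteristic `≠ 2`. -/
private theorem nf_diag {K : Type} [Field K] (h2 : (2 : K) ≠ 0) {σ : Type} [Fintype σ]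
    [DecidableEq σ] (S : Matrix σ σ K) (hS : Sᵀ = S) :
    ∃ (w : σ → K) (g h : Matrix σ σ K), g * h = 1 ∧ gᵀ * S * g = diagonal w := by
  let _ : Invertible (2 : K) := invertibleOfNonzero h2
  set B : LinearMap.BilinForm K (σ → K) := Matrix.toBilin' S with hB
  have hsymm : B.IsSymm := by
    refine ⟨fun x y => ?_⟩
    rw [hB, Matrix.toBilin'_apply', Matrix.toBilin'_apply']
    rw [Matrix.dotProduct_mulVec, ← Matrix.mulVec_transpose, hS, dotProduct_comm]
  obtain ⟨v, hv⟩ := LinearMap.BilinForm.exists_orthogonal_basis (K := K)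
    (LinearMap.BilinForm.isSymm_iff.mp hsymm)
  have hcard : Module.finrank K (σ → K) = Fintype.card σ := Module.finrank_fintype_fun_eq_card K
  let r : Fin (Module.finrank K (σ → K)) ≃ σ := (finCongr hcard).trans (Fintype.equivFin σ).symm
  let v' : Module.Basis σ K (σ → K) := v.reindex r
  refine ⟨fun i => B (v' i) (v' i), (Pi.basisFun K σ).toMatrix v', v'.toMatrix (Pi.basisFun K σ),
    Module.Basis.toMatrix_mul_toMatrix_flip _ _, ?_⟩
  ext i j
  have h1 : (((Pi.basisFun K σ).toMatrix v')ᵀ * S * ((Pi.basisFun K σ).toMatrix v')) i j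
      = B (v' i) (v' j) := by
    rw [hB, Matrix.toBilin'_apply', Matrix.mul_assoc, Matrix.mul_apply]
    rfl
  rw [h1]
  by_cases hij : i = j
  · subst hij
    rw [diagonal_apply_eq]
  · rw [diagonal_apply_ne _ hij]
    have := hv (show r.symm i ≠ r.symm j from fun hh => hij (r.symm.injective hh))
    simpa [v', Module.Basis.reindex_apply] using this

/-- JOB N1. Diagonalisation over an algebraically closed field of characteristic `≠ 2`.

PROOF. `S` is symmetric; take an orthogonal basis of the bilinear form `x, y ↦ x ⬝ S y`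
(`LinearMap.BilinForm.exists_orthogonal_basis`, or `QuadraticForm.equivalent_weightedSumSquares`, or induction on
`card σ`: if `S ≠ 0` there is `x` with `x ⬝ S x ≠ 0`, split it off), indexed by `σ`; so `gᵀ S g = diagonal w`. Scale the
basis vectors with `w i ≠ 0` by a square root of `2 / w i`; choose `e` so that `w i ≠ 0` iff `e i` is in the left
summand. -/
theorem nf_sq {K : Type} [Field K] [IsAlgClosed K] (h2 : (2 : K) ≠ 0) {σ : Type} [Fintype σ]
    [DecidableEq σ] (S : Matrix σ σ K) (hS : Sᵀ = S) :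
    ∃ (τ n : ℕ) (e : σ ≃ Fin τ ⊕ Fin n) (g h : Matrix σ σ K), g * h = 1 ∧
      (gᵀ * S * g).submatrix e.symm e.symm =
        fromBlocks ((2 : K) • (1 : Matrix (Fin τ) (Fin τ) K)) 0 0 0 := by
  classical
  obtain ⟨w, g, h, hgh, hw⟩ := nf_diag h2 S hS
  have hc : ∀ i, ∃ c : K, c ≠ 0 ∧ c * w i * c = if w i = 0 then 0 else 2 := by
    intro i
    by_cases hi : w i = 0
    · exact ⟨1, one_ne_zero, by simp [hi]⟩
    · obtain ⟨z, hz⟩ := IsAlgClosed.exists_eq_mul_self (2 / w i)
      refine ⟨z, ?_, ?_⟩
      · rintro rfl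
        rw [mul_zero] at hz
        exact (div_ne_zero h2 hi) hz
      · rw [if_neg hi]
        calc z * w i * z = (z * z) * w i := by ring
          _ = 2 := by rw [← hz]; field_simp
  choose c hc0 hc1 using hc
  let e : σ ≃ Fin (Fintype.card {i // w i ≠ 0}) ⊕ Fin (Fintype.card {i // ¬ w i ≠ 0}) :=
    (Equiv.sumCompl (fun i => w i ≠ 0)).symm.trans
      (Equiv.sumCongr (Fintype.equivFin _) (Fintype.equivFin _))
  refine ⟨_, _, e, g * diagonal c, diagonal (fun i => (c i)⁻¹) * h, ?_, ?_⟩
  · rw [Matrix.mul_assoc, ← Matrix.mul_assoc (diagonal c), diagonal_mul_diagonal]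
    have : (fun i => c i * (c i)⁻¹) = fun _ => (1 : K) := by
      funext i
      exact mul_inv_cancel₀ (hc0 i)
    rw [this, diagonal_one, Matrix.one_mul, hgh]
  · have h3 : (g * diagonal c)ᵀ * S * (g * diagonal c)
        = diagonal (fun i => if w i = 0 then (0 : K) else 2) := by
      calc (g * diagonal c)ᵀ * S * (g * diagonal c)
          = diagonal c * (gᵀ * S * g) * diagonal c := by
            rw [transpose_mul, diagonal_transpose]
            simp only [Matrix.mul_assoc]
        _ = diagonal (fun i => if w i = 0 then (0 : K) else 2) := by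
            rw [hw, diagonal_mul_diagonal, diagonal_mul_diagonal]
            congr 1
            funext i
            exact hc1 i
    rw [h3]
    have hl : ∀ a, w (e.symm (Sum.inl a)) ≠ 0 := by
      intro a
      exact ((Fintype.equivFin {i // w i ≠ 0}).symm a).2
    have hr : ∀ a, w (e.symm (Sum.inr a)) = 0 := by
      intro a
      have := ((Fintype.equivFin {i // ¬ w i ≠ 0}).symm a).2
      exact not_not.mp this
    ext i j
    rw [submatrix_apply]
    rcases i with i | i <;> rcases j with j | j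
    · rw [fromBlocks_apply₁₁]
      by_cases hij : i = j
      · subst hij
        rw [diagonal_apply_eq, if_neg (hl i)]
        simp
      · rw [diagonal_apply_ne _ (fun hh => hij (Sum.inl_injective (e.symm.injective hh)))]
        simp [Matrix.one_apply_ne hij]
    · rw [fromBlocks_apply₁₂, diagonal_apply_ne _ (fun hh => by
        have := e.symm.injective hh
        exact absurd this (by simp))]
      rfl
    · rw [fromBlocks_apply₂₁, diagonal_apply_ne _ (fun hh => by
        have := e.symm.injective hh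
        exact absurd this (by simp))]
      rfl
    · rw [fromBlocks_apply₂₂]
      by_cases hij : i = j
      · subst hij
        rw [diagonal_apply_eq, if_pos (hr i)]
        rfl
      · rw [diagonal_apply_ne _ (fun hh => hij (Sum.inr_injective (e.symm.injective hh)))]
        rfl

end QL
end

section

/-!
LinearBound (MP_c77682_nt), job N2. See table papers, id 368.
-/

set_option autoImplicit false

open Matrix

namespace QL

/-- The standard alternating form of rank `2m`. -/
private def N2_std {K : Type} [Field K] {m n : ℕ} (u v : (Fin m ⊕ Fin m) ⊕ Fin n → K) : K :=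
  ∑ i : Fin m, (u (Sum.inl (Sum.inl i)) * v (Sum.inl (Sum.inr i)) -
    u (Sum.inl (Sum.inr i)) * v (Sum.inl (Sum.inl i)))

/-- The shift of the coordinates. -/
private def N2_shift (K : Type) [Field K] (m n : ℕ) :
    ((Fin (m + 1) ⊕ Fin (m + 1)) ⊕ Fin n → K) ≃ₗ[K]
      (K × K) × ((Fin m ⊕ Fin m) ⊕ Fin n → K) where
  toFun u := ((u (Sum.inl (Sum.inl 0)), u (Sum.inl (Sum.inr 0))),
    Sum.elim (Sum.elim (fun i => u (Sum.inl (Sum.inl i.succ)))
      (fun i => u (Sum.inl (Sum.inr i.succ)))) (fun k => u (Sum.inr k)))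
  invFun q := Sum.elim (Sum.elim (Fin.cons q.1.1 fun i => q.2 (Sum.inl (Sum.inl i)))
      (Fin.cons q.1.2 fun i => q.2 (Sum.inl (Sum.inr i)))) (fun k => q.2 (Sum.inr k))
  map_add' u v := by
    refine Prod.ext rfl ?_
    funext s
    rcases s with (s | s) | s <;> rfl
  map_smul' a u := by
    refine Prod.ext rfl ?_
    funext s
    rcases s with (s | s) | s <;> rfl
  left_inv u := by
    funext s
    rcases s with (s | s) | s
    · refine Fin.cases ?_ (fun i => ?_) s <;> simp
    · refine Fin.cases ?_ (fun i => ?_) s <;> simp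
    · simp
  right_inv q := by
    refine Prod.ext ?_ ?_
    · simp
    · funext s
      rcases s with (s | s) | s <;> simp

/-- Splitting off a hyperbolic plane. -/
private noncomputable def N2_split {K V : Type} [Field K] [AddCommGroup V] [Module K V]
    (B : LinearMap.BilinForm K V) (hB : B.IsAlt) (x y : V) (hxy : B x y = 1) :
    ((K × K) × ↥(LinearMap.ker (B x) ⊓ LinearMap.ker (B y))) ≃ₗ[K] V where
  toFun q := q.1.1 • x + q.1.2 • y + (q.2 : V)
  invFun z := ((B z y, B x z), ⟨z - B z y • x - B x z • y, by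
    have hyx : B y x = -1 := by rw [← hB.neg_eq x y, hxy]
    refine ⟨?_, ?_⟩
    · rw [SetLike.mem_coe, LinearMap.mem_ker, map_sub, map_sub, map_smul, map_smul, hB x, hxy]
      simp
    · rw [SetLike.mem_coe, LinearMap.mem_ker, map_sub, map_sub, map_smul, map_smul, hB y, hyx,
        ← hB.neg_eq z y]
      simp⟩)
  map_add' q q' := by
    simp only [Prod.fst_add, Prod.snd_add, Submodule.coe_add, add_smul]
    abel
  map_smul' a q := by
    simp only [Prod.smul_fst, Prod.smul_snd, smul_eq_mul, Submodule.coe_smul, RingHom.id_apply,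
      smul_add, mul_smul]
  left_inv q := by
    obtain ⟨⟨a, b⟩, ⟨w, hw⟩⟩ := q
    have hwx : B x w = 0 := LinearMap.mem_ker.1 hw.1
    have hwy : B y w = 0 := LinearMap.mem_ker.1 hw.2
    have hwy' : B w y = 0 := by rw [← hB.neg_eq y w, hwy, neg_zero]
    have h1 : B (a • x + b • y + w) y = a := by
      rw [map_add, map_add, map_smul, map_smul, LinearMap.add_apply, LinearMap.add_apply,
        LinearMap.smul_apply, LinearMap.smul_apply, hxy, hB y, hwy']
      simp
    have h2 : B x (a • x + b • y + w) = b := by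
      rw [map_add, map_add, map_smul, map_smul, hxy, hB x, hwx]
      simp
    refine Prod.ext (Prod.ext ?_ ?_) (Subtype.ext ?_)
    · exact h1
    · exact h2
    · show (a • x + b • y + w) - B (a • x + b • y + w) y • x - B x (a • x + b • y + w) • y = w
      rw [h1, h2]
      abel
  right_inv z := by
    simp only
    abel

private theorem N2_split_apply {K V : Type} [Field K] [AddCommGroup V] [Module K V]
    (B : LinearMap.BilinForm K V) (hB : B.IsAlt) (x y : V) (hxy : B x y = 1)
    (q : (K × K) × ↥(LinearMap.ker (B x) ⊓ LinearMap.ker (B y))) :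
    N2_split B hB x y hxy q = q.1.1 • x + q.1.2 • y + (q.2 : V) := rfl

private theorem N2_split_form {K V : Type} [Field K] [AddCommGroup V] [Module K V]
    (B : LinearMap.BilinForm K V) (hB : B.IsAlt) (x y : V) (hxy : B x y = 1)
    (q r : (K × K) × ↥(LinearMap.ker (B x) ⊓ LinearMap.ker (B y))) :
    B (N2_split B hB x y hxy q) (N2_split B hB x y hxy r) =
      q.1.1 * r.1.2 - q.1.2 * r.1.1 + B (q.2 : V) (r.2 : V) := by
  obtain ⟨⟨a, b⟩, ⟨w, hw⟩⟩ := q
  obtain ⟨⟨a', b'⟩, ⟨w', hw'⟩⟩ := r
  have hyx : B y x = -1 := by rw [← hB.neg_eq x y, hxy]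
  have h1 : B x w' = 0 := LinearMap.mem_ker.1 hw'.1
  have h2 : B y w' = 0 := LinearMap.mem_ker.1 hw'.2
  have h3 : B w x = 0 := by rw [← hB.neg_eq x w, LinearMap.mem_ker.1 hw.1, neg_zero]
  have h4 : B w y = 0 := by rw [← hB.neg_eq y w, LinearMap.mem_ker.1 hw.2, neg_zero]
  rw [N2_split_apply, N2_split_apply]
  simp only [map_add, map_smul, LinearMap.add_apply, LinearMap.smul_apply, hxy, hyx, hB x, hB y,
    h1, h2, h3, h4, smul_eq_mul]
  ring

private theorem N2_main {K : Type} [Field K] (d : ℕ) : ∀ (V : Type) [AddCommGroup V] [Module K V]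
    [FiniteDimensional K V] (B : LinearMap.BilinForm K V), B.IsAlt → Module.finrank K V = d →
    ∃ (m n : ℕ) (φ : ((Fin m ⊕ Fin m) ⊕ Fin n → K) ≃ₗ[K] V), ∀ u v, B (φ u) (φ v) = N2_std u v := by
  induction d using Nat.strong_induction_on with
  | _ d ih =>
  intro V _ _ _ B hB hd
  by_cases h0 : B = 0
  · -- the zero form
    obtain ⟨φ⟩ : Nonempty (((Fin 0 ⊕ Fin 0) ⊕ Fin d → K) ≃ₗ[K] V) := by
      refine FiniteDimensional.nonempty_linearEquiv_of_finrank_eq ?_
      rw [hd, Module.finrank_fintype_fun_eq_card]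
      simp
    refine ⟨0, d, φ, fun u v => ?_⟩
    rw [h0]
    simp [N2_std]
  · have hx : ∃ x y, B x y ≠ 0 := by
      by_contra hcon
      push Not at hcon
      exact h0 (LinearMap.ext fun x => LinearMap.ext fun y => by rw [hcon x y]; rfl)
    obtain ⟨x, y', hxy'⟩ := hx
    obtain ⟨y, hy⟩ : ∃ y, y = (B x y')⁻¹ • y' := ⟨_, rfl⟩
    have hxy : B x y = 1 := by
      rw [hy, map_smul, smul_eq_mul, inv_mul_cancel₀ hxy']
    obtain ⟨W, hW⟩ : ∃ W : Submodule K V, W = LinearMap.ker (B x) ⊓ LinearMap.ker (B y) :=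
      ⟨_, rfl⟩
    have hlt : Module.finrank K W < d := by
      rw [← hd]
      refine Submodule.finrank_lt ?_
      intro htop
      have : y ∈ W := by rw [htop]; trivial
      rw [hW] at this
      have h1 : B x y = 0 := LinearMap.mem_ker.1 this.1
      rw [hxy] at h1
      exact one_ne_zero h1
    subst hW
    obtain ⟨m, n, φ, hφ⟩ := ih _ hlt _ (B.restrict _) (fun w => hB w.1) rfl
    refine ⟨m + 1, n, (N2_shift K m n).trans
      (((LinearEquiv.refl K (K × K)).prodCongr φ).trans (N2_split B hB x y hxy)), ?_⟩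
    intro u v
    have e1 : ∀ u, ((N2_shift K m n).trans
      (((LinearEquiv.refl K (K × K)).prodCongr φ).trans (N2_split B hB x y hxy))) u =
        N2_split B hB x y hxy ((N2_shift K m n u).1, φ (N2_shift K m n u).2) := fun u => rfl
    rw [e1, e1, N2_split_form]
    have e2 : B (φ (N2_shift K m n u).2 : V) (φ (N2_shift K m n v).2 : V) =
        N2_std (N2_shift K m n u).2 (N2_shift K m n v).2 := hφ _ _
    show (N2_shift K m n u).1.1 * (N2_shift K m n v).1.2 -
      (N2_shift K m n u).1.2 * (N2_shift K m n v).1.1 +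
      B (φ (N2_shift K m n u).2 : V) (φ (N2_shift K m n v).2 : V) = _
    rw [e2]
    unfold N2_std
    rw [Fin.sum_univ_succ]
    rfl

/-- JOB N2. Alternating forms over any field.

PROOF. Induction on `card σ`: if `S = 0` take `m = 0`. Otherwise there are `x, y` with `x ⬝ S y = 1`; the plane spanned by
them is nondegenerate, the whole space is the direct sum of the plane and its orthogonal complement
`{z | x ⬝ S z = 0, y ⬝ S z = 0}`, of dimension `card σ - 2`; apply the induction hypothesis to the complement. It is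
convenient to prove first: for every finite dimensional `V` with an alternating bilinear form there is a basis indexed
by `(Fin m ⊕ Fin m) ⊕ Fin n` with Gram matrix as stated, and to translate at the end. -/
theorem nf_alt {K : Type} [Field K] {σ : Type} [Fintype σ] [DecidableEq σ] (S : Matrix σ σ K)
    (hS : Sᵀ = -S) (hd : ∀ i, S i i = 0) :
    ∃ (m n : ℕ) (e : σ ≃ (Fin m ⊕ Fin m) ⊕ Fin n) (g h : Matrix σ σ K), g * h = 1 ∧
      (gᵀ * S * g).submatrix e.symm e.symm =
        fromBlocks (fromBlocks 0 (1 : Matrix (Fin m) (Fin m) K) (-1) 0) 0 0 0 := by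
  have hB : (Matrix.toBilin' S).IsAlt := by
    intro x
    rw [Matrix.toBilin'_apply, ← Fintype.sum_prod_type' (fun i j => x i * S i j * x j)]
    refine Finset.sum_involution (fun a _ => a.swap) ?_ ?_ ?_ ?_
    · rintro ⟨i, j⟩ _
      have h1 : S j i = - S i j := by
        have := congrFun (congrFun hS i) j
        rwa [Matrix.transpose_apply, Matrix.neg_apply] at this
      simp only [Prod.swap_prod_mk]
      rw [h1]
      ring
    · rintro ⟨i, j⟩ _ hne heq
      apply hne
      have h1 : i = j := by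
        have := congrArg Prod.snd heq
        simpa using this
      subst h1
      simp [hd i]
    · intro a _
      exact Finset.mem_univ _
    · intro a _
      exact Prod.swap_swap a
  obtain ⟨m, n, φ, hφ⟩ := N2_main _ (σ → K) (Matrix.toBilin' S) hB rfl
  have hcard : Fintype.card σ = Fintype.card ((Fin m ⊕ Fin m) ⊕ Fin n) := by
    have := φ.finrank_eq
    rw [Module.finrank_fintype_fun_eq_card, Module.finrank_fintype_fun_eq_card] at this
    exact this.symm
  obtain ⟨e⟩ : Nonempty (σ ≃ (Fin m ⊕ Fin m) ⊕ Fin n) := Fintype.card_eq.1 hcard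
  obtain ⟨G, hG⟩ : ∃ G, G = LinearMap.toMatrix' (φ : ((Fin m ⊕ Fin m) ⊕ Fin n → K) →ₗ[K] (σ → K)) :=
    ⟨_, rfl⟩
  obtain ⟨G', hG'⟩ : ∃ G', G' = LinearMap.toMatrix'
    (φ.symm : (σ → K) →ₗ[K] ((Fin m ⊕ Fin m) ⊕ Fin n → K)) := ⟨_, rfl⟩
  have hGG : G * G' = 1 := by
    rw [hG, hG', ← LinearMap.toMatrix'_comp]
    simp
  refine ⟨m, n, e, G.submatrix id e, G'.submatrix e id, ?_, ?_⟩
  · rw [Matrix.submatrix_mul_equiv, hGG]
    simp
  · have e1 : ((G.submatrix id e)ᵀ * S * G.submatrix id e).submatrix e.symm e.symm =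
        Gᵀ * S * G := by
      ext a b
      simp [Matrix.mul_apply, Matrix.submatrix_apply]
    rw [e1]
    ext a b
    have h1 := hφ (Pi.single a 1) (Pi.single b 1)
    have h2 : (Gᵀ * S * G) a b = Matrix.toBilin' S (φ (Pi.single a 1)) (φ (Pi.single b 1)) := by
      have hGe : ∀ i c, G i c = φ (Pi.single c 1) i := by
        intro i c
        rw [hG, LinearMap.toMatrix'_apply]
        rfl
      rw [Matrix.toBilin'_apply]
      simp only [Matrix.mul_apply, Matrix.transpose_apply, Finset.sum_mul, hGe]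
      rw [Finset.sum_comm]
    rw [h2, h1]
    rcases a with (a | a) | a <;> rcases b with (b | b) | b <;>
      simp [N2_std, Pi.single_apply, Matrix.one_apply, eq_comm]

end QL
end

section

/-!
LinearBound (MP_c77682_nt), job Z2. See table papers, id 368.
-/

set_option autoImplicit false

open Module

namespace QL

private theorem Z2_expand {F : Type} [Field F] {n r : ℕ}
    (B : (Fin n → F) →ₗ[F] (Fin n → F) →ₗ[F] (Fin r → F)) (x y : Fin n → F) (k : Fin r) :
    B x y k = dotProduct x ((Matrix.of fun a b : Fin n =>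
      B (Pi.single a 1) (Pi.single b 1) k).mulVec y) := by
  have hx : x = ∑ a, x a • (Pi.single a (1 : F) : Fin n → F) := by
    funext i
    simp [Finset.sum_apply, Pi.single_apply]
  have hy : y = ∑ a, y a • (Pi.single a (1 : F) : Fin n → F) := by
    funext i
    simp [Finset.sum_apply, Pi.single_apply]
  have h1 : B x y k = ∑ a, ∑ b, x a * (B (Pi.single a 1) (Pi.single b 1) k * y b) := by
    have e1 : ∀ z, B x z = ∑ a, x a • B (Pi.single a 1) z := by
      intro z
      conv_lhs => rw [hx]
      rw [LinearMap.map_sum₂]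
      refine Finset.sum_congr rfl fun a _ => ?_
      rw [LinearMap.map_smul₂]
    have e2 : ∀ z, B z y = ∑ b, y b • B z (Pi.single b 1) := by
      intro z
      conv_lhs => rw [hy]
      rw [map_sum]
      refine Finset.sum_congr rfl fun b _ => ?_
      rw [map_smul]
    rw [e1, Finset.sum_apply]
    refine Finset.sum_congr rfl fun a _ => ?_
    rw [e2, Pi.smul_apply, Finset.sum_apply, smul_eq_mul, Finset.mul_sum]
    refine Finset.sum_congr rfl fun b _ => ?_
    rw [Pi.smul_apply, smul_eq_mul, mul_comm (y b)]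
  rw [h1]
  simp only [dotProduct, Matrix.mulVec, Matrix.of_apply, Finset.mul_sum]

/-- JOB Z2. A quadratic map over a field is given by matrices.

PROOF. `Q k a b = (Bb e_a e_b) k` for `a < b`, `(gb e_a) k` for `a = b`, `0` for `a > b`; induction on the number of
nonzero coordinates of `x`, or expand `gb (∑ x_a e_a)`. `(Q k + (Q k)ᵀ) a a = 2 gb e_a = Bb e_a e_a` (put `x = y = e_a`:
`gb (2 e_a) = 4 gb e_a = 2 gb e_a + Bb e_a e_a`), `Bb` is symmetric. -/
theorem exists_matrix {F : Type} [Field F] {n r : ℕ} (gb : (Fin n → F) → (Fin r → F))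
    (Bb : (Fin n → F) →ₗ[F] (Fin n → F) →ₗ[F] (Fin r → F))
    (h1 : ∀ x y, gb (x + y) = gb x + gb y + Bb x y) (h2 : ∀ (c : F) x, gb (c • x) = (c * c) • gb x) :
    ∃ Q : Fin r → Matrix (Fin n) (Fin n) F, (∀ x k, gb x k = dotProduct x ((Q k).mulVec x)) ∧
      ∀ x y k, Bb x y k = dotProduct x ((Q k + (Q k).transpose).mulVec y) := by
  classical
  let q : QuadraticMap F (Fin n → F) (Fin r → F) :=
    { toFun := gb
      toFun_smul := fun c x => h2 c x
      exists_companion' := ⟨Bb, h1⟩ }
  let B := q.toBilin (Pi.basisFun F (Fin n))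
  have hq : ∀ x, B x x = gb x := by
    intro x
    have h := congrArg (fun Q : QuadraticMap F (Fin n → F) (Fin r → F) => Q x)
      (QuadraticMap.toQuadraticMap_toBilin q (Pi.basisFun F (Fin n)))
    exact h
  have hb : ∀ x y, Bb x y = B x y + B y x := by
    intro x y
    have e := h1 x y
    rw [← hq, ← hq, ← hq] at e
    simp only [map_add, LinearMap.add_apply] at e
    have e2 : B x x + B y y + Bb x y = B x x + B y y + (B x y + B y x) := by
      rw [← e]
      abel
    exact add_left_cancel e2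
  refine ⟨fun k => Matrix.of fun a b => B (Pi.single a 1) (Pi.single b 1) k, fun x k => ?_,
    fun x y k => ?_⟩
  · rw [← hq]
    exact Z2_expand B x x k
  · rw [hb, Pi.add_apply, Z2_expand B x y k, Z2_expand B y x k, Matrix.add_mulVec,
      dotProduct_add]
    congr 1
    rw [Matrix.dotProduct_mulVec, ← Matrix.mulVec_transpose, dotProduct_comm]

end QL
end

section

/-!
LinearBound (MP_c77682_nt), job Y2. See table papers, id 368.
-/

set_option autoImplicit false

open Matrix Module

namespace QL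

private lemma y2_bq_zero {K : Type} [Field K] {σ₁ σ₀ : Type} [Fintype σ₁] [Fintype σ₀]
    {Q : Matrix (σ₁ ⊕ σ₀) (σ₁ ⊕ σ₀) K} (M : Matrix σ₁ σ₁ K)
    (h0 : Q + Qᵀ = fromBlocks M 0 0 0) (u u' : σ₀ → K) :
    bq Q (Sum.elim 0 u) (Sum.elim 0 u') = 0 := by
  unfold bq
  rw [h0, fromBlocks_mulVec]
  simp [dotProduct, Fintype.sum_sum_type]

private lemma y2_bq_blocks {K : Type} [Field K] {σ₁ σ₀ : Type} [Fintype σ₁] [Fintype σ₀]
    (Q : Matrix (σ₁ ⊕ σ₀) (σ₁ ⊕ σ₀) K) (u u' : σ₀ → K) :
    bq Q (Sum.elim 0 u) (Sum.elim 0 u') = bq Q.toBlocks₂₂ u u' := by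
  unfold bq
  simp only [dotProduct, mulVec, Fintype.sum_sum_type, Sum.elim_inl, Sum.elim_inr, Pi.zero_apply,
    mul_zero, zero_mul, Finset.sum_const_zero, zero_add, Matrix.add_apply, transpose_apply, toBlocks₂₂,
    of_apply]

private def y2ext {K : Type} [Field K] {σ₁ σ₀ : Type} (U₀ : Submodule K (σ₀ → K)) :
    U₀ →ₗ[K] (σ₁ ⊕ σ₀ → K) where
  toFun u := Sum.elim 0 u.1
  map_add' u v := by
    funext s
    cases s <;> simp
  map_smul' a u := by
    funext s
    cases s <;> simp

private def y2cons {K : Type} [Field K] {r : ℕ} (L₀ : Submodule K (Fin r → K)) :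
    (K × L₀) →ₗ[K] (Fin (r + 1) → K) where
  toFun p := Fin.cons p.1 p.2.1
  map_add' u v := by
    funext s
    refine Fin.cases ?_ (fun i => ?_) s <;> simp
  map_smul' a u := by
    funext s
    refine Fin.cases ?_ (fun i => ?_) s <;> simp

private lemma y2_main {K : Type} [Field K] {σ₁ σ₀ : Type} [Fintype σ₁] [Fintype σ₀] {r : ℕ}
    {Q : Fin (r + 1) → Matrix (σ₁ ⊕ σ₀) (σ₁ ⊕ σ₀) K} {c : ℕ} (hQ : Hyp Q c) (M : Matrix σ₁ σ₁ K)
    (h0 : Q 0 + (Q 0)ᵀ = fromBlocks M 0 0 0) (U₀ : Submodule K (σ₀ → K))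
    (L₀ : Submodule K (Fin r → K))
    (h : ∀ l ∈ L₀, ∀ x ∈ U₀, ∀ y ∈ U₀, ∑ k : Fin r, l k * bq (Q k.succ).toBlocks₂₂ x y = 0) :
    4 * (finrank K L₀ + 1) + finrank K U₀ ≤ c + (Fintype.card σ₁ + Fintype.card σ₀) := by
  have hU : finrank K (LinearMap.range (y2ext (σ₁ := σ₁) U₀)) = finrank K U₀ := by
    apply LinearMap.finrank_range_of_inj
    intro u v huv
    apply Subtype.ext
    funext s
    have := congrFun huv (Sum.inr s)
    simpa [y2ext] using this
  have hL : finrank K (LinearMap.range (y2cons L₀)) = finrank K L₀ + 1 := by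
    rw [LinearMap.finrank_range_of_inj, Module.finrank_prod, Module.finrank_self, add_comm]
    intro u v huv
    apply Prod.ext
    · have := congrFun huv 0
      simpa [y2cons] using this
    · apply Subtype.ext
      funext s
      have := congrFun huv s.succ
      simpa [y2cons] using this
  have key := hQ (LinearMap.range (y2ext (σ₁ := σ₁) U₀)) (LinearMap.range (y2cons L₀)) ?_
  · rw [hU, hL, Fintype.card_sum] at key
    exact key
  · rintro _ ⟨⟨a, l⟩, rfl⟩ _ ⟨u, rfl⟩ _ ⟨v, rfl⟩
    have e1 : bq (Q 0) (y2ext (σ₁ := σ₁) U₀ u) (y2ext (σ₁ := σ₁) U₀ v) = 0 :=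
      y2_bq_zero M h0 u.1 v.1
    have e2 : ∀ k : Fin r, bq (Q k.succ) (y2ext (σ₁ := σ₁) U₀ u) (y2ext (σ₁ := σ₁) U₀ v)
        = bq (Q k.succ).toBlocks₂₂ u.1 v.1 := fun k => y2_bq_blocks (Q k.succ) u.1 v.1
    rw [Fin.sum_univ_succ, e1, mul_zero, zero_add]
    simp only [e2]
    have e3 : ∀ k : Fin r, y2cons L₀ (a, l) k.succ = l.1 k := fun k => by simp [y2cons]
    simp only [e3]
    exact h l.1 l.2 u.1 u.2 v.1 v.2

/-- JOB Y2. Passing to the radical of the first form.

PROOF. `Q 0 + (Q 0)ᵀ = fromBlocks M 0 0 0`, so `bq (Q 0) x y = 0` if `x` is supported on `σ₀`. First statement: `hQ` with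
`U = {x | x (inl i) = 0}` (dimension `card σ₀`) and `L` = the line of `e_0`. Second: for `U₀ ≤ K^σ₀`, `L₀ ≤ K^r` let
`U` = the vectors `(0, u)`, `u ∈ U₀` (dimension `dim U₀`) and `L` = the `l : Fin (r+1) → K` with `Fin.tail l ∈ L₀`
(dimension `dim L₀ + 1`); `bq (Q k) (0,u) (0,u') = bq (Q k).toBlocks₂₂ u u'`. So
`4 (dim L₀ + 1) + dim U₀ ≤ c + card σ₁ + card σ₀`. -/
theorem Hyp.radical {K : Type} [Field K] {σ₁ σ₀ : Type} [Fintype σ₁] [Fintype σ₀] {r : ℕ}
    {Q : Fin (r + 1) → Matrix (σ₁ ⊕ σ₀) (σ₁ ⊕ σ₀) K} {c : ℕ} (hQ : Hyp Q c) (M : Matrix σ₁ σ₁ K)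
    (h0 : Q 0 + (Q 0)ᵀ = fromBlocks M 0 0 0) :
    4 ≤ c + Fintype.card σ₁ ∧
      Hyp (fun k : Fin r => (Q k.succ).toBlocks₂₂) (c + Fintype.card σ₁ - 4) := by
  constructor
  · have key := y2_main hQ M h0 ⊤ ⊥ (by
      intro l hl x _ y _
      rw [Submodule.mem_bot] at hl
      simp [hl])
    rw [finrank_bot, finrank_top, Module.finrank_fintype_fun_eq_card] at key
    omega
  · intro U₀ L₀ h
    have key := y2_main hQ M h0 U₀ L₀ h
    omega

end QL
end

section

/-!
LinearBound (MP_c77682_nt), job R7. See table papers, id 368.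
-/

set_option autoImplicit false

open MvPolynomial Matrix

namespace QL

section

variable {K : Type} [Field K] {r : ℕ} {μ : Type} [Fintype μ] [DecidableEq μ]

/-- helper of JOB R7: a graded submodule is generated by finitely many homogeneous elements. -/
private theorem R7_gen (Z' : Submodule (MvPolynomial (Fin r) K) (CB K r μ))
    (hZ : ∀ j, ∀ z ∈ Z', cmp K r μ j z ∈ Z') :
    ∃ S : Finset (CB K r μ), (∀ s ∈ S, s ∈ Z') ∧ (∀ s ∈ S, ∃ j, s ∈ HB K r μ j) ∧
      Z' ≤ Submodule.span (MvPolynomial (Fin r) K) (S : Set (CB K r μ)) := by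
  classical
  haveI := isNoetherian_CB (K := K) (r := r) (μ := μ)
  obtain ⟨S0, hS0⟩ : Z'.FG := IsNoetherian.noetherian Z'
  choose J hJ using fun c : CB K r μ => sum_cmp (K := K) (r := r) (μ := μ) c
  refine ⟨S0.biUnion fun s => (Finset.range (J s)).image fun j : ℕ => cmp K r μ (j : ℤ) s,
    ?_, ?_, ?_⟩
  · intro s hs
    rw [Finset.mem_biUnion] at hs
    obtain ⟨t, ht, hs⟩ := hs
    rw [Finset.mem_image] at hs
    obtain ⟨j, -, rfl⟩ := hs
    refine hZ _ _ ?_
    rw [← hS0]
    exact Submodule.subset_span ht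
  · intro s hs
    rw [Finset.mem_biUnion] at hs
    obtain ⟨t, ht, hs⟩ := hs
    rw [Finset.mem_image] at hs
    obtain ⟨j, -, rfl⟩ := hs
    exact ⟨_, cmp_mem _ _⟩
  · rw [← hS0]
    refine Submodule.span_le.mpr fun t ht => ?_
    rw [SetLike.mem_coe, hJ t]
    refine Submodule.sum_mem _ fun j hj => Submodule.subset_span ?_
    rw [Finset.mem_coe, Finset.mem_biUnion]
    exact ⟨t, ht, Finset.mem_image_of_mem _ hj⟩

/-- JOB R7. Homogeneous generators in bounded degree.

PROOF. Let `Z' ≤ CB` be any submodule all of whose elements have their components in `Z'`. `Z'` is finitely generated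
(`isNoetherian_CB`), hence generated by the finitely many components of finitely many generators (`sum_cmp`): homogeneous
elements `z_k ∈ HB (j_k) ∩ Z'`. Let `J ≥ j_k + 2 N'` for all `k`. For `z ∈ Z' ∩ HB j`, `j > J`: `z = ∑ g_k z_k`, take the
component of degree `j` (`cmp_smul`, `cmp_of_mem`): `z = ∑ g'_k z_k` with `g'_k` homogeneous of degree
`(j - j_k)/2 > N'` or `g'_k = 0`. -/
theorem exists_gen (Z' : Submodule (MvPolynomial (Fin r) K) (CB K r μ))
    (hZ : ∀ j, ∀ z ∈ Z', cmp K r μ j z ∈ Z') (N' : ℕ) :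
    ∃ (J : ℤ) (S : Finset (CB K r μ)), (∀ s ∈ S, s ∈ Z') ∧ (∀ s ∈ S, ∃ j, s ∈ HB K r μ j) ∧
      ∀ j > J, ∀ z ∈ Z', z ∈ HB K r μ j → ∃ g : CB K r μ → MvPolynomial (Fin r) K,
        (∀ s, ∃ d : ℕ, N' < d ∧ (g s).IsHomogeneous d) ∧ z = ∑ s ∈ S, g s • s := by
  classical
  obtain ⟨S, hSZ, hSH, hspan⟩ := R7_gen Z' hZ
  have hex : ∀ s : CB K r μ, ∃ j : ℤ, s ∈ S → s ∈ HB K r μ j := by
    intro s
    by_cases hs : s ∈ S
    · obtain ⟨j, hj⟩ := hSH s hs
      exact ⟨j, fun _ => hj⟩
    · exact ⟨0, fun h => absurd h hs⟩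
  choose jf hjf using hex
  refine ⟨(∑ s ∈ S, |jf s|) + 2 * N' + 2, S, hSZ, hSH, fun j hj z hz hzj => ?_⟩
  have hjs : ∀ s ∈ S, jf s + 2 * N' + 2 < j := by
    intro s hs
    have h1 : |jf s| ≤ ∑ s ∈ S, |jf s| :=
      Finset.single_le_sum (f := fun s => |jf s|) (fun _ _ => abs_nonneg _) hs
    have h2 := le_abs_self (jf s)
    omega
  obtain ⟨f, -, hf⟩ := Submodule.mem_span_finset.mp (hspan hz)
  refine ⟨fun s => if s ∈ S ∧ Even (j - jf s) then
    homogeneousComponent ((j - jf s) / 2).toNat (f s) else 0, ?_, ?_⟩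
  · intro s
    by_cases h : s ∈ S ∧ Even (j - jf s)
    · refine ⟨((j - jf s) / 2).toNat, ?_, ?_⟩
      · have := hjs s h.1
        omega
      · simp only [if_pos h]
        exact homogeneousComponent_isHomogeneous _ _
    · refine ⟨N' + 1, Nat.lt_succ_self _, ?_⟩
      simp only [if_neg h]
      exact isHomogeneous_zero _ _ _
  · have hz' : cmp K r μ j z = z := by rw [cmp_of_mem hzj, if_pos rfl]
    rw [← hz', ← hf, map_sum]
    refine Finset.sum_congr rfl fun s hs => ?_
    rw [cmp_smul (hjf s hs)]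
    have h0 := hjs s hs
    by_cases h : Even (j - jf s)
    · have h1 : 0 ≤ j - jf s ∧ Even (j - jf s) := ⟨by omega, h⟩
      have h2 : s ∈ S ∧ Even (j - jf s) := ⟨hs, h⟩
      simp only [if_pos h1, if_pos h2]
    · have h1 : ¬ (0 ≤ j - jf s ∧ Even (j - jf s)) := fun h' => h h'.2
      have h2 : ¬ (s ∈ S ∧ Even (j - jf s)) := fun h' => h h'.2
      simp only [if_neg h1, if_neg h2, zero_smul]

end

end QL
end

section

/-!
LinearBound (MP_c77682_nt), job M4. See table papers, id 368.
-/

set_option autoImplicit false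

open Matrix

namespace QL

section

variable {K : Type} [Field K] {p : ℕ} {σ : Type} [Fintype σ] [DecidableEq σ]

private theorem M4_mul {μ : Type} [Fintype μ] [DecidableEq μ] (A B : Matrix μ μ K) :
    (A.mulVecLin : Module.End K (μ → K)) * B.mulVecLin = (A * B).mulVecLin := by
  apply LinearMap.ext
  intro v
  change A *ᵥ (B *ᵥ v) = (A * B) *ᵥ v
  rw [Matrix.mulVec_mulVec]

private theorem M4_pow {μ : Type} [Fintype μ] [DecidableEq μ] (A : Matrix μ μ K) (n : ℕ) :
    (A.mulVecLin : Module.End K (μ → K)) ^ n = (A ^ n).mulVecLin := by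
  induction n with
  | zero =>
    rw [pow_zero, pow_zero]
    apply LinearMap.ext
    intro v
    change v = (1 : Matrix μ μ K) *ᵥ v
    rw [Matrix.one_mulVec]
  | succ n ih =>
    rw [pow_succ, pow_succ, ih, M4_mul]

/-- JOB M4. the system of multiplications satisfies `Sys`. -/
theorem sys_GN [Fact p.Prime] [CharP K p] {r : ℕ} (Q : Fin r → Matrix σ σ K) :
    Sys p (gr K (dg (p := p) (σ := σ))) (fun i => (GN p (Q i)).mulVecLin) where
  comm := by
    intro i j
    change (GN p (Q i)).mulVecLin * (GN p (Q j)).mulVecLin =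
      (GN p (Q j)).mulVecLin * (GN p (Q i)).mulVecLin
    rw [M4_mul, M4_mul, GN_comm]
  nil := by
    intro i
    change ((GN p (Q i)).mulVecLin : Module.End K (Mon p σ → K)) ^ p = 0
    rw [M4_pow, GN_pow]
    apply LinearMap.ext
    intro v
    change (0 : Matrix (Mon p σ) (Mon p σ) K) *ᵥ v = 0
    rw [Matrix.zero_mulVec]
  deg := by
    intro i D x hx m hm
    change (GN p (Q i) *ᵥ x) m ≠ 0 at hm
    rw [Matrix.mulVec_eq_sum, Finset.sum_apply] at hm
    obtain ⟨m', _, hm'⟩ := Finset.exists_ne_zero_of_sum_ne_zero hm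
    have h0 : x m' ≠ 0 := by
      intro h0
      apply hm'
      rw [h0]
      simp
    have h1 : GN p (Q i) m m' ≠ 0 := by
      intro h1
      apply hm'
      simp [h1]
    have h2 := GN_deg (Q i) m m' h1
    have h3 := hx m' h0
    rw [h2]
    push_cast
    rw [h3]

/-- JOB M4. -/
theorem gr_neg {μ : Type} (deg : μ → ℕ) (D : ℤ) (hD : D < 0) : gr K deg D = ⊥ := by
  rw [Submodule.eq_bot_iff]
  intro x hx
  funext m
  by_contra hm
  have h1 : (deg m : ℤ) = D := hx m hm
  omega

end

end QL
end
end
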