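import Mathlib

/-!
LinearBound, block P: nonsingular zeros over `F_p`.
-/

set_option autoImplicit false

open Matrix Module

namespace QL

section
variable {p : ℕ} [Fact p.Prime] {n r : ℕ}

/-- the quadratic polynomials `q_k(x)` in the variables `x = inl`. -/
noncomputable def qX (Q : Fin r → Matrix (Fin n) (Fin n) (ZMod p)) (k : Fin r) :
    MvPolynomial (Fin n ⊕ Fin n) (ZMod p) :=
  ∑ a, ∑ b, MvPolynomial.C (Q k a b) *
    (MvPolynomial.X (Sum.inl a) * MvPolynomial.X (Sum.inl b))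

/-- the bilinear polynomials `b_k(x, u)`, `x = inl`, `u = inr`. -/
noncomputable def bXU (Q : Fin r → Matrix (Fin n) (Fin n) (ZMod p)) (k : Fin r) :
    MvPolynomial (Fin n ⊕ Fin n) (ZMod p) :=
  ∑ a, ∑ b, MvPolynomial.C ((Q k + (Q k)ᵀ) a b) *
    (MvPolynomial.X (Sum.inl a) * MvPolynomial.X (Sum.inr b))

/-- the evaluation of the `x`-variables at a point of `F_p^n`: polynomials in `u`. -/
noncomputable def evX (x : Fin n → ZMod p) :
    MvPolynomial (Fin n ⊕ Fin n) (ZMod p) →ₐ[ZMod p] MvPolynomial (Fin n) (ZMod p) :=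
  MvPolynomial.aeval (Sum.elim (fun i => MvPolynomial.C (x i)) MvPolynomial.X)

/-- the polynomial `G`. -/
noncomputable def GG (Q : Fin r → Matrix (Fin n) (Fin n) (ZMod p)) :
    MvPolynomial (Fin n ⊕ Fin n) (ZMod p) :=
  (∏ k, (1 - qX Q k ^ (p - 1))) * ∏ k, bXU Q k ^ (p - 1)

end

end QL
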