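import Mathlib
import Pool.Agent.Lib.MP_c77682_nt.L.PDefs
import Pool.Agent.Lib.MP_c77682_nt.L.N3

section

/-!
LinearBound (MP_c77682_nt), job Z3. See table papers, id 368.
-/

set_option autoImplicit false

open Module

namespace QL

/-- The pairing map from `U` to the dual of `L`. -/
private noncomputable def z3Phi (p : ℕ) [Fact p.Prime] (r n : ℕ)
    (gb : (Fin n → ZMod p) → (Fin r → ZMod p))
    (Bb : (Fin n → ZMod p) →ₗ[ZMod p] (Fin n → ZMod p) →ₗ[ZMod p] (Fin r → ZMod p))
    (h1 : ∀ x y, gb (x + y) = gb x + gb y + Bb x y)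
    (U : Submodule (ZMod p) (Fin n → ZMod p)) (L : Submodule (ZMod p) (Fin r → ZMod p))
    (hUL : ∀ l ∈ L, ∀ u ∈ U, ∀ u' ∈ U, ∑ k, l k * Bb u u' k = 0) :
    U →+ (L →ₗ[ZMod p] ZMod p) :=
  AddMonoidHom.mk'
    (fun u => (dotProductEquiv (ZMod p) (Fin r) (gb u)).comp L.subtype)
    (by
      intro u u'
      ext l
      have h := hUL l l.2 u u.2 u' u'.2
      simp only [LinearMap.comp_apply, Submodule.subtype_apply, LinearMap.add_apply,
        dotProductEquiv_apply_apply, dotProduct, Submodule.coe_add]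
      rw [← Finset.sum_add_distrib]
      have h' : ∑ k, Bb (u : Fin n → ZMod p) u' k * (l : Fin r → ZMod p) k = 0 := by
        rw [← h]
        exact Finset.sum_congr rfl (fun k _ => mul_comm _ _)
      refine Eq.trans ?_ (add_zero _)
      rw [← h', ← Finset.sum_add_distrib]
      apply Finset.sum_congr rfl
      intro k _
      rw [h1]
      simp only [Pi.add_apply]
      ring)

/-- JOB Z3. From the inequality of the maximal lattices to the hypothesis of `exists_nonsing`.

PROOF. Let `bf S l = l ∘ Bb` vanish on `U × U` for `l ∈ L`. `U' = {x ∈ U | ∀ l ∈ L, l (gb x) = 0}` is a subspace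
(`l ∘ gb` is additive on `U`, and `gb (c x) = c² gb x`, and `F_p`-linear because additive maps of `F_p`-spaces are linear), and
`dim U ≤ dim U' + dim L` (it is the kernel of a linear map from `U` to the dual of `L`). If `p` is odd, `U' = U`
(`Bb x x = 2 gb x`). Apply `hst` to `U'` and the annihilator `Q` of `L` (dimension `r - dim L`, it contains `gb U'`):
`n r + 2 r dim U' ≤ 2 r n + n (r - dim L)`, i.e. `n dim L ≤ 2 r (n - dim U')`. `p` odd, `16 r ≤ n`:
`n dim L ≤ 2 r (n - dim U)` and `8 · 2 r ≤ n` give `8 dim L ≤ n - dim U` (if `r ≥ 1`; note `n > 0`). `p = 2`, `18 r ≤ n`: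
`n dim L ≤ 2 r (n - dim U + dim L)`, `(n - 2 r) dim L ≤ 2 r (n - dim U)` and `16 r ≤ n - 2 r`. -/
theorem star_to_hyp (p : ℕ) [Fact p.Prime] (r n : ℕ) (hr : 1 ≤ r)
    (hn : (p ≠ 2 ∧ 16 * r ≤ n) ∨ 18 * r ≤ n)
    (gb : (Fin n → ZMod p) → (Fin r → ZMod p))
    (Bb : (Fin n → ZMod p) →ₗ[ZMod p] (Fin n → ZMod p) →ₗ[ZMod p] (Fin r → ZMod p))
    (h1 : ∀ x y, gb (x + y) = gb x + gb y + Bb x y)
    (h2 : ∀ (c : ZMod p) x, gb (c • x) = (c * c) • gb x)
    (hst : ∀ (U : Submodule (ZMod p) (Fin n → ZMod p)) (Q : Submodule (ZMod p) (Fin r → ZMod p)),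
      (∀ x ∈ U, gb x ∈ Q) →
      n * r + 2 * r * finrank (ZMod p) U ≤ 2 * r * n + n * finrank (ZMod p) Q)
    (U : Submodule (ZMod p) (Fin n → ZMod p)) (L : Submodule (ZMod p) (Fin r → ZMod p))
    (hUL : ∀ l ∈ L, ∀ u ∈ U, ∀ u' ∈ U, ∑ k, l k * Bb u u' k = 0) :
    8 * finrank (ZMod p) L + finrank (ZMod p) U ≤ n := by
  classical
  -- the annihilator
  set Lm : Submodule (ZMod p) (Module.Dual (ZMod p) (Fin r → ZMod p)) :=
    L.map (dotProductEquiv (ZMod p) (Fin r)).toLinearMap with hLm
  set Q : Submodule (ZMod p) (Fin r → ZMod p) := Lm.dualCoannihilator with hQ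
  have hQdim : finrank (ZMod p) L + finrank (ZMod p) Q = r := by
    have h := Subspace.finrank_add_finrank_dualCoannihilator_eq (K := ZMod p)
      (V := Fin r → ZMod p) Lm
    have h' : finrank (ZMod p) Lm = finrank (ZMod p) L :=
      LinearEquiv.finrank_map_eq (dotProductEquiv (ZMod p) (Fin r)) L
    rw [h'] at h
    rw [hQ, h]
    simp
  have hQmem : ∀ y : Fin r → ZMod p, (∀ l ∈ L, ∑ k, l k * y k = 0) → y ∈ Q := by
    intro y hy
    rw [hQ, Submodule.mem_dualCoannihilator]
    intro φ hφ
    rw [hLm, Submodule.mem_map] at hφ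
    obtain ⟨l, hl, rfl⟩ := hφ
    have := hy l hl
    simpa [dotProductEquiv_apply_apply, dotProduct] using this
  -- the subspace U'
  set Φ := (z3Phi p r n gb Bb h1 U L hUL).toZModLinearMap p with hΦ
  have hΦap : ∀ (u : U) (l : L), Φ u l = ∑ k, gb u k * (l : Fin r → ZMod p) k := by
    intro u l
    rfl
  have hU'mem : ∀ x ∈ (LinearMap.ker Φ).map U.subtype, gb x ∈ Q := by
    intro x hx
    rw [Submodule.mem_map] at hx
    obtain ⟨u, hu, rfl⟩ := hx
    apply hQmem
    intro l hl
    have h := hΦap u ⟨l, hl⟩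
    rw [LinearMap.mem_ker] at hu
    rw [hu] at h
    simp only [LinearMap.zero_apply] at h
    rw [Submodule.subtype_apply, h]
    exact Finset.sum_congr rfl (fun k _ => mul_comm _ _)
  have hdim' : finrank (ZMod p) ((LinearMap.ker Φ).map U.subtype) =
      finrank (ZMod p) (LinearMap.ker Φ) :=
    Submodule.finrank_map_subtype_eq U (LinearMap.ker Φ)
  have hrn : finrank (ZMod p) (LinearMap.range Φ) + finrank (ZMod p) (LinearMap.ker Φ)
      = finrank (ZMod p) U := LinearMap.finrank_range_add_finrank_ker Φ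
  have hrange : finrank (ZMod p) (LinearMap.range Φ) ≤ finrank (ZMod p) L := by
    refine (Submodule.finrank_le _).trans ?_
    exact le_of_eq (Subspace.dual_finrank_eq (K := ZMod p) (V := L))
  have hUn : finrank (ZMod p) U ≤ n := by
    refine (Submodule.finrank_le U).trans ?_
    simp
  rcases hn with ⟨hp2, hn⟩ | hn
  · -- p odd
    have h2ne : (2 : ZMod p) ≠ 0 := by
      intro h
      have h3 : ((2 : ℕ) : ZMod p) = 0 := by exact_mod_cast h
      rw [ZMod.natCast_eq_zero_iff] at h3
      have hle := Nat.le_of_dvd (by norm_num) h3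
      have hge := (Fact.out : p.Prime).two_le
      omega
    have hgU : ∀ x ∈ U, gb x ∈ Q := by
      intro x hx
      apply hQmem
      intro l hl
      have hB : ∀ k, Bb x x k = 2 * gb x k := by
        intro k
        have ha := h1 x x
        have hb := h2 2 x
        have hc : (2 : ZMod p) • x = x + x := two_smul _ _
        rw [hc, ha] at hb
        have hk := congrFun hb k
        simp only [Pi.add_apply, Pi.smul_apply, smul_eq_mul] at hk
        linear_combination hk
      have h := hUL l hl x hx x hx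
      have h' : 2 * ∑ k, l k * gb x k = 0 := by
        rw [Finset.mul_sum, ← h]
        apply Finset.sum_congr rfl
        intro k _
        rw [hB]
        ring
      exact (mul_eq_zero.mp h').resolve_left h2ne
    have hmain := hst U Q hgU
    generalize finrank (ZMod p) U = u at *
    generalize finrank (ZMod p) L = l at *
    generalize finrank (ZMod p) Q = q at *
    obtain rfl : r = l + q := hQdim.symm
    -- n (l+q) + 2 r u ≤ 2 r n + n q
    have h3 : n * l + 2 * (l + q) * u ≤ 2 * (l + q) * n := by nlinarith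
    by_contra hcon
    push Not at hcon
    have h4 : 16 * (l + q) * l ≤ n * l := Nat.mul_le_mul_right l hn
    have h5 : 2 * (l + q) * (n + 1) ≤ 2 * (l + q) * (8 * l + u) :=
      Nat.mul_le_mul_left _ hcon
    nlinarith
  · have hmain := hst _ Q hU'mem
    rw [hdim'] at hmain
    generalize finrank (ZMod p) (LinearMap.ker Φ) = u' at *
    generalize finrank (ZMod p) (LinearMap.range Φ) = ra at *
    generalize finrank (ZMod p) U = u at *
    generalize finrank (ZMod p) L = l at *
    generalize finrank (ZMod p) Q = q at *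
    obtain rfl : r = l + q := hQdim.symm
    have hu : u ≤ u' + l := by omega
    have h3 : n * l + 2 * (l + q) * u' ≤ 2 * (l + q) * n := by nlinarith
    have h3' : 2 * (l + q) * u ≤ 2 * (l + q) * (u' + l) := Nat.mul_le_mul_left _ hu
    by_contra hcon
    push Not at hcon
    have h4 : 18 * (l + q) * l ≤ n * l := Nat.mul_le_mul_right l hn
    have h5 : 2 * (l + q) * (n + 1) ≤ 2 * (l + q) * (8 * l + u) :=
      Nat.mul_le_mul_left _ hcon
    nlinarith

end QL
end

section

section

/-!
LinearBound (MP_c77682_nt), job P2. See table papers, id 368.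
-/

set_option autoImplicit false

open Matrix Module

namespace QL

section

variable {p : ℕ} [Fact p.Prime] {n r : ℕ}

/-- the `x`-part of an exponent. -/
private noncomputable def aP (m : (Fin n ⊕ Fin n) →₀ ℕ) : Fin n →₀ ℕ :=
  (Finsupp.sumFinsuppEquivProdFinsupp m).1

/-- the `u`-part of an exponent. -/
private noncomputable def bP (m : (Fin n ⊕ Fin n) →₀ ℕ) : Fin n →₀ ℕ :=
  (Finsupp.sumFinsuppEquivProdFinsupp m).2

private noncomputable def phiP : MvPolynomial (Fin n ⊕ Fin n) (ZMod p) →ₐ[ZMod p]
    MvPolynomial (Fin n) (MvPolynomial (Fin n) (ZMod p)) :=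
  MvPolynomial.aeval (Sum.elim (fun i => MvPolynomial.C (MvPolynomial.X i)) MvPolynomial.X)

private theorem phiP_monomial (m : (Fin n ⊕ Fin n) →₀ ℕ) (c : ZMod p) :
    phiP (MvPolynomial.monomial m c) =
      MvPolynomial.monomial (bP m) (MvPolynomial.monomial (aP m) c) := by
  rw [phiP, MvPolynomial.aeval_monomial, Finsupp.prod_fintype _ _ (fun _ => pow_zero _),
    Fintype.prod_sum_type]
  simp only [Sum.elim_inl, Sum.elim_inr]
  have h1 : ∀ i : Fin n, m (Sum.inl i) = aP m i := fun i => rfl
  have h2 : ∀ i : Fin n, m (Sum.inr i) = bP m i := fun i => rfl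
  simp only [h1, h2]
  have e1 : (∏ i : Fin n, (MvPolynomial.X i : MvPolynomial (Fin n)
      (MvPolynomial (Fin n) (ZMod p))) ^ (bP m i)) = MvPolynomial.monomial (bP m) 1 := by
    rw [MvPolynomial.monomial_eq, map_one, one_mul,
      Finsupp.prod_fintype _ _ (fun _ => pow_zero _)]
  have e2 : (∏ i : Fin n, (MvPolynomial.C (MvPolynomial.X i) : MvPolynomial (Fin n)
      (MvPolynomial (Fin n) (ZMod p))) ^ (aP m i))
      = MvPolynomial.C (MvPolynomial.monomial (aP m) (1 : ZMod p)) := by
    rw [MvPolynomial.monomial_eq, map_one, one_mul,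
      Finsupp.prod_fintype _ _ (fun _ => pow_zero _), map_prod]
    simp only [map_pow]
  rw [e1, e2]
  have e3 : (algebraMap (ZMod p) (MvPolynomial (Fin n) (MvPolynomial (Fin n) (ZMod p)))) c
      = MvPolynomial.C (MvPolynomial.C c) := rfl
  rw [e3, ← mul_assoc, ← map_mul, MvPolynomial.C_mul_monomial, mul_one, MvPolynomial.C_mul_monomial,
    mul_one]

private theorem coeff_phiP (P : MvPolynomial (Fin n ⊕ Fin n) (ZMod p))
    (m : (Fin n ⊕ Fin n) →₀ ℕ) :
    MvPolynomial.coeff (aP m) (MvPolynomial.coeff (bP m) (phiP P)) = MvPolynomial.coeff m P := by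
  induction P using MvPolynomial.induction_on' with
  | monomial m' c =>
    rw [phiP_monomial, MvPolynomial.coeff_monomial, MvPolynomial.coeff_monomial]
    by_cases h : m' = m
    · subst h
      simp
    · rw [if_neg h]
      by_cases hb : bP m' = bP m
      · rw [if_pos hb, MvPolynomial.coeff_monomial, if_neg]
        intro ha
        apply h
        exact Finsupp.sumFinsuppEquivProdFinsupp.injective (Prod.ext ha hb)
      · rw [if_neg hb, MvPolynomial.coeff_zero]
  | add P Q hP hQ => rw [map_add, MvPolynomial.coeff_add, MvPolynomial.coeff_add, hP, hQ,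
      MvPolynomial.coeff_add]

private theorem evX_eq (x : Fin n → ZMod p) (P : MvPolynomial (Fin n ⊕ Fin n) (ZMod p)) :
    evX x P = MvPolynomial.map (MvPolynomial.eval x) (phiP P) := by
  have h : (evX x : MvPolynomial (Fin n ⊕ Fin n) (ZMod p) →ₐ[ZMod p] _).toRingHom
      = (MvPolynomial.map (MvPolynomial.eval x)).comp (phiP (p := p) (n := n)).toRingHom := by
    refine MvPolynomial.ringHom_ext ?_ ?_
    · intro c
      simp [evX, phiP]
    · intro i
      cases i with
      | inl i => simp [evX, phiP]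
      | inr i => simp [evX, phiP]
  exact congrArg (fun f => f P) h

/-- the weights: `x` has weight `1`, `u` has weight `0`. -/
private def wP : Fin n ⊕ Fin n → ℕ := Sum.elim (fun _ => 1) (fun _ => 0)

private theorem weight_wP (m : (Fin n ⊕ Fin n) →₀ ℕ) :
    Finsupp.weight (wP (n := n)) m = (aP m).degree := by
  rw [Finsupp.weight_apply, Finsupp.sum_fintype _ _ (by simp), Fintype.sum_sum_type,
    Finsupp.degree_eq_sum]
  simp [wP]
  rfl

private theorem qX_hom (Q : Fin r → Matrix (Fin n) (Fin n) (ZMod p)) (k : Fin r) :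
    MvPolynomial.IsWeightedHomogeneous (wP (n := n)) (qX Q k) 2 := by
  unfold qX
  refine Submodule.sum_mem (MvPolynomial.weightedHomogeneousSubmodule (ZMod p) wP 2)
    (fun a _ => Submodule.sum_mem _ (fun b _ => ?_))
  have := ((MvPolynomial.isWeightedHomogeneous_X (ZMod p) (wP (n := n)) (Sum.inl a)).mul
    (MvPolynomial.isWeightedHomogeneous_X (ZMod p) (wP (n := n)) (Sum.inl b))).C_mul (Q k a b)
  exact this

private theorem bXU_hom (Q : Fin r → Matrix (Fin n) (Fin n) (ZMod p)) (k : Fin r) :
    MvPolynomial.IsWeightedHomogeneous (wP (n := n)) (bXU Q k) 1 := by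
  unfold bXU
  refine Submodule.sum_mem (MvPolynomial.weightedHomogeneousSubmodule (ZMod p) wP 1)
    (fun a _ => Submodule.sum_mem _ (fun b _ => ?_))
  have := ((MvPolynomial.isWeightedHomogeneous_X (ZMod p) (wP (n := n)) (Sum.inl a)).mul
    (MvPolynomial.isWeightedHomogeneous_X (ZMod p) (wP (n := n)) (Sum.inr b))).C_mul
      ((Q k + (Q k)ᵀ) a b)
  exact this

private theorem prod_hom {κ : Type} (s : Finset κ) (f : κ → MvPolynomial (Fin n ⊕ Fin n) (ZMod p))
    (d : ℕ) (h : ∀ k, MvPolynomial.IsWeightedHomogeneous (wP (n := n)) (f k) d) :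
    MvPolynomial.IsWeightedHomogeneous (wP (n := n)) (∏ k ∈ s, f k) (s.card * d) := by
  classical
  induction s using Finset.induction_on with
  | empty => simpa using MvPolynomial.isWeightedHomogeneous_one (ZMod p) (wP (n := n))
  | insert a s ha ih =>
    rw [Finset.prod_insert ha, Finset.card_insert_of_notMem ha]
    have := (h a).mul ih
    rwa [show d + s.card * d = (s.card + 1) * d by ring] at this

private theorem GG_eq (Q : Fin r → Matrix (Fin n) (Fin n) (ZMod p)) :
    GG Q = ∑ t ∈ (Finset.univ : Finset (Fin r)).powerset,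
      (-1) ^ t.card * ((∏ k ∈ t, qX Q k ^ (p - 1)) * ∏ k, bXU Q k ^ (p - 1)) := by
  have h : ∏ k, (1 - qX Q k ^ (p - 1)) = ∑ t ∈ (Finset.univ : Finset (Fin r)).powerset,
      (-1) ^ t.card * ∏ k ∈ t, qX Q k ^ (p - 1) := by
    have h1 : ∀ k, (1 - qX Q k ^ (p - 1)) = (-(qX Q k ^ (p - 1))) + 1 := fun k => by ring
    simp only [h1, Finset.prod_add, Finset.prod_const_one, mul_one, Finset.prod_neg]
  rw [GG, h, Finset.sum_mul]
  simp only [mul_assoc]

private theorem term_hom (Q : Fin r → Matrix (Fin n) (Fin n) (ZMod p)) (t : Finset (Fin r)) :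
    MvPolynomial.IsWeightedHomogeneous (wP (n := n))
      ((-1) ^ t.card * ((∏ k ∈ t, qX Q k ^ (p - 1)) * ∏ k, bXU Q k ^ (p - 1)))
      ((2 * t.card + r) * (p - 1)) := by
  have h1 := (prod_hom t (fun k => qX Q k ^ (p - 1)) ((p - 1) • 2)
    (fun k => (qX_hom Q k).pow (p - 1))).mul
    (prod_hom (Finset.univ : Finset (Fin r)) (fun k => bXU Q k ^ (p - 1)) ((p - 1) • 1)
    (fun k => (bXU_hom Q k).pow (p - 1)))
  have h2 := h1.C_mul ((-1) ^ t.card)
  rw [map_pow, map_neg, map_one] at h2
  convert h2 using 1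
  simp only [smul_eq_mul, Finset.card_univ, Fintype.card_fin]
  ring

/-- JOB P2. Combinatorial Nullstellensatz.

PROOF. Write `m = (α, β)` (`α = m ∘ inl`, `β = m ∘ inr`). Let `G_β ∈ F_p[x]` be the coefficient of `u^β` in `GG Q`
(`MvPolynomial.sumAlgEquiv` with the roles of the summands exchanged, or define it through the coefficients). The product
in `hm` is homogeneous of degree `3 r (p-1)` in `x` (`2 r (p-1)` from the `qX`, `r (p-1)` from the `bXU`), so
`|α| = 3 r (p-1)`. `GG Q` is the sum over `T ⊆ Fin r` of `(-1)^|T| ∏_{k ∈ T} qX^(p-1) ∏_k bXU^(p-1)`, homogeneous in `x` of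
degree `(2 |T| + r)(p-1)`; so `G_β` has total degree `≤ 3 r (p-1)` and its coefficient at `α` is `(-1)^r` times the
coefficient in `hm`, nonzero. `MvPolynomial.combinatorial_nullstellensatz_exists_eval_nonzero` with the sets
`S_i = Finset.univ` (`card = p > α i`) gives `x` with `G_β(x) ≠ 0`, which is the coefficient of `u^β` in `evX x (GG Q)`. -/
theorem exists_eval (Q : Fin r → Matrix (Fin n) (Fin n) (ZMod p)) (m : (Fin n ⊕ Fin n) →₀ ℕ)
    (hlt : ∀ i, m i < p)
    (hm : MvPolynomial.coeff m ((∏ k, qX Q k ^ (p - 1)) * ∏ k, bXU Q k ^ (p - 1)) ≠ 0) :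
    ∃ (x : Fin n → ZMod p) (β : Fin n →₀ ℕ), (∀ i, β i < p) ∧
      MvPolynomial.coeff β (evX x (GG Q)) ≠ 0 := by
  have hp1 : 0 < p - 1 := by
    have := (Fact.out : p.Prime).two_le
    omega
  have htop := term_hom Q (Finset.univ : Finset (Fin r))
  rw [Finset.card_univ, Fintype.card_fin] at htop
  -- the weight of `m`
  have hwm : (aP m).degree = (2 * r + r) * (p - 1) := by
    rw [← weight_wP]
    refine htop ?_
    have : ((-1 : MvPolynomial (Fin n ⊕ Fin n) (ZMod p)) ^ r) = MvPolynomial.C ((-1) ^ r) := by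
      simp
    rw [this, MvPolynomial.coeff_C_mul]
    exact mul_ne_zero (pow_ne_zero _ (by simp)) hm
  -- all exponents of `GG`
  have hGw : ∀ m', MvPolynomial.coeff m' (GG Q) ≠ 0 → (aP m').degree ≤ (2 * r + r) * (p - 1) := by
    intro m' hm'
    rw [GG_eq, MvPolynomial.coeff_sum] at hm'
    obtain ⟨t, _, ht⟩ := Finset.exists_ne_zero_of_sum_ne_zero hm'
    have h1 := term_hom Q t ht
    rw [weight_wP] at h1
    rw [h1]
    have h2 : t.card ≤ r := by simpa using Finset.card_le_univ t
    exact Nat.mul_le_mul_right _ (by omega)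
  have hGm : MvPolynomial.coeff m (GG Q) ≠ 0 := by
    rw [GG_eq, MvPolynomial.coeff_sum, Finset.sum_eq_single (Finset.univ : Finset (Fin r))]
    · rw [Finset.card_univ, Fintype.card_fin]
      have : ((-1 : MvPolynomial (Fin n ⊕ Fin n) (ZMod p)) ^ r) = MvPolynomial.C ((-1) ^ r) := by
        simp
      rw [this, MvPolynomial.coeff_C_mul]
      exact mul_ne_zero (pow_ne_zero _ (by simp)) hm
    · intro t _ ht
      by_contra hne
      have h1 := term_hom Q t hne
      rw [weight_wP, hwm] at h1
      have h2 : t.card < r := by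
        have h3 : t.card ≤ r := by simpa using Finset.card_le_univ t
        rcases lt_or_eq_of_le h3 with h4 | h4
        · exact h4
        · exact absurd (Finset.eq_univ_of_card t (by simpa using h4)) ht
      have h3 : 2 * r + r = 2 * t.card + r := Nat.eq_of_mul_eq_mul_right hp1 h1
      omega
    · intro h
      exact absurd (Finset.mem_powerset.2 (Finset.subset_univ _)) h
  set F : MvPolynomial (Fin n) (ZMod p) := MvPolynomial.coeff (bP m) (phiP (GG Q)) with hF
  have hFm : MvPolynomial.coeff (aP m) F ≠ 0 := by rw [hF, coeff_phiP]; exact hGm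
  have hFd : F.totalDegree = (aP m).degree := by
    refine le_antisymm ?_ ?_
    · rw [hwm]
      refine Finset.sup_le (fun α hα => ?_)
      have h1 : MvPolynomial.coeff α F ≠ 0 := MvPolynomial.mem_support_iff.1 hα
      set m' : (Fin n ⊕ Fin n) →₀ ℕ := Finsupp.sumFinsuppEquivProdFinsupp.symm (α, bP m) with hm'
      have e1 : aP m' = α := by simp [aP, hm']
      have e2 : bP m' = bP m := by simp [bP, hm']
      have h2 : MvPolynomial.coeff m' (GG Q) ≠ 0 := by
        rw [← coeff_phiP, e1, e2]
        exact h1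
      have h3 := hGw m' h2
      rw [e1] at h3
      exact h3
    · have h1 := MvPolynomial.le_totalDegree (MvPolynomial.mem_support_iff.2 hFm)
      exact h1
  obtain ⟨x, _, hx⟩ := MvPolynomial.combinatorial_nullstellensatz_exists_eval_nonzero F (aP m)
    hFm hFd (fun _ => Finset.univ) (fun i => by
      rw [Finset.card_univ, ZMod.card]
      exact hlt (Sum.inl i))
  refine ⟨x, bP m, fun i => hlt (Sum.inr i), ?_⟩
  rw [evX_eq, MvPolynomial.coeff_map]
  exact hx

end

end QL
end

section

/-!
LinearBound (MP_c77682_nt), job R9. See table papers, id 368.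
-/

set_option autoImplicit false

open MvPolynomial Matrix

namespace QL

section

variable {K : Type} [Field K] {r : ℕ} {μ : Type} [Fintype μ] [DecidableEq μ]

private theorem R9_sg0_monomial (a : Fin (r + 1) →₀ ℕ) (c : K) :
    sg0 K r (monomial a c) = if a 0 = 0 then monomial a c else 0 := by
  unfold sg0
  rw [aeval_monomial]
  split_ifs with h
  · rw [monomial_eq, algebraMap_eq]
    congr 1
    refine Finsupp.prod_congr fun i hi => ?_
    have hi0 : i ≠ 0 := by
      intro h0
      rw [h0] at hi
      exact (Finsupp.mem_support_iff.1 hi) h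
    rw [if_neg hi0]
  · have h1 : (a.prod fun i k => (if i = 0 then 0 else X i : MvPolynomial (Fin (r + 1)) K) ^ k) =
        0 := by
      refine Finset.prod_eq_zero (Finsupp.mem_support_iff.2 h) ?_
      simp only [if_true]
      exact zero_pow h
    rw [h1, mul_zero]

private theorem R9_coeff_sg0 (q : MvPolynomial (Fin (r + 1)) K) (a : Fin (r + 1) →₀ ℕ) :
    coeff a (sg0 K r q) = if a 0 = 0 then coeff a q else 0 := by
  induction q using MvPolynomial.induction_on' with
  | monomial u c =>
    rw [R9_sg0_monomial]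
    by_cases hu : u 0 = 0
    · rw [if_pos hu]
      split_ifs with ha
      · rfl
      · rw [coeff_monomial, if_neg]
        intro h
        rw [h] at hu
        exact ha hu
    · rw [if_neg hu, coeff_zero]
      split_ifs with ha
      · rw [coeff_monomial, if_neg]
        intro h
        rw [h] at hu
        exact hu ha
      · rfl
  | add p q hp hq =>
    rw [map_add, coeff_add, hp, hq, coeff_add]
    split_ifs
    · rfl
    · rw [add_zero]

private theorem R9_toA (c : CB K (r + 1) μ) (I : Finset (Fin (r + 1))) (m : μ)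
    (a : Fin (r + 1) →₀ ℕ) :
    toA K (r + 1) μ c (fun k => 2 * a k + (if k ∈ I then 1 else 0)) m = coeff a (c I m) := by
  have h1 : hlf (fun k => 2 * a k + (if k ∈ I then 1 else 0)) = a := by
    ext k
    simp only [hlf, Finsupp.equivFunOnFinite_symm_apply_apply]
    split_ifs <;> omega
  have h2 : oddS (fun k => 2 * a k + (if k ∈ I then 1 else 0)) = I := by
    ext k
    simp only [oddS, Finset.mem_filter, Finset.mem_univ, true_and]
    by_cases hk : k ∈ I
    · simp only [hk, if_true, iff_true]
      exact ⟨a k, rfl⟩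
    · simp only [hk, if_false, iff_false, add_zero]
      rw [Nat.not_odd_iff_even]
      exact even_two_mul _
  change coeff (hlf _) (c (oddS _) m) = _
  rw [h1, h2]

/-- JOB R9. column `0` in model A. (`coeff a q = 0` for all `a` with `a 0 ≥ 1` iff `sg0 q = q`.) -/
theorem col0_iff (c : CB K (r + 1) μ) :
    Col0 c ↔ ∀ b : Fin (r + 1) → ℕ, 1 ≤ b 0 → toA K (r + 1) μ c b = 0 := by
  constructor
  · intro h b hb
    funext m
    change coeff (hlf b) (c (oddS b) m) = 0
    by_cases ho : Odd (b 0)
    · have h0 : (0 : Fin (r + 1)) ∈ oddS b := by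
        simp only [oddS, Finset.mem_filter, Finset.mem_univ, true_and]
        exact ho
      rw [(h (oddS b) m).1 h0, coeff_zero]
    · rw [← (h (oddS b) m).2, R9_coeff_sg0, if_neg]
      rw [Nat.not_odd_iff_even] at ho
      obtain ⟨t, ht⟩ := ho
      have h1 : hlf b 0 = b 0 / 2 := by
        simp only [hlf, Finsupp.equivFunOnFinite_symm_apply_apply]
      rw [h1]
      omega
  · intro h I m
    constructor
    · intro h0
      ext a
      rw [← R9_toA c I m a, h, Pi.zero_apply, coeff_zero]
      simp only [h0, if_true]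
      omega
    · ext a
      rw [R9_coeff_sg0]
      split_ifs with ha
      · rfl
      · rw [← R9_toA c I m a, h, Pi.zero_apply]
        omega

/-- JOB R9. a homogeneous polynomial of positive degree with `t_0` set to `0` is in `I0`. -/
theorem sg0_mem_I0 (g : MvPolynomial (Fin (r + 1)) K) (d : ℕ) (hd : 0 < d) (hg : g.IsHomogeneous d) :
    sg0 K r g ∈ I0 K r := by
  have h1 : (Set.range fun k : Fin r => (X k.succ : MvPolynomial (Fin (r + 1)) K)) =
      X '' (Set.range (Fin.succ : Fin r → Fin (r + 1))) := by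
    rw [← Set.range_comp]
    rfl
  unfold I0
  rw [h1, mem_ideal_span_X_image]
  intro m hm
  rw [mem_support_iff, R9_coeff_sg0] at hm
  by_cases h0 : m 0 = 0
  · rw [if_pos h0] at hm
    by_contra hcon
    apply hm
    apply hg.coeff_eq_zero
    have hm0 : m = 0 := by
      ext i
      by_contra hi
      apply hcon
      refine ⟨i, ?_, hi⟩
      by_cases hi0 : i = 0
      · rw [hi0] at hi
        exact absurd h0 hi
      · exact ⟨i.pred hi0, Fin.succ_pred i hi0⟩
    rw [hm0]
    simp only [map_zero]
    omega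
  · rw [if_neg h0] at hm
    exact absurd rfl hm

end

end QL
end
end
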