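import Pool.Agent.Lib.MP_c77682_nt.L.Cx
import Pool.Agent.Lib.MP_c77682_nt.L.MDefs

section

/-!
LinearBound (MP_c77682_nt), job C1f. See table papers, id 368.
-/

set_option autoImplicit false

namespace QL

section

variable {F M : Type} [Field F] [AddCommGroup M] [Module F M]

private theorem C1f_ph {M' : Type} [AddCommGroup M'] [Module F M'] (p : ℕ)
    {T : Module.End F M} {T' : Module.End F M'} (Φ : M ≃ₗ[F] M') (h : ∀ m, Φ (T m) = T' (Φ m))
    (k : ℕ) (m : M) : Φ (ph p T k m) = ph p T' k (Φ m) := by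
  have hpow : ∀ (n : ℕ) (m : M), Φ ((T ^ n) m) = (T' ^ n) (Φ m) := by
    intro n
    induction n with
    | zero => intro m; simp
    | succ n ih =>
      intro m
      rw [pow_succ, pow_succ, Module.End.mul_apply, Module.End.mul_apply, ih, h]
  unfold ph
  split_ifs with hk
  · exact h m
  · exact hpow _ m

private theorem C1f_dL {M' : Type} [AddCommGroup M'] [Module F M'] {p r : ℕ}
    {f : Fin r → Module.End F M} {f' : Fin r → Module.End F M'} (Φ : M ≃ₗ[F] M')
    (hf : ∀ i m, Φ (f i m) = f' i (Φ m)) (c : (Fin r → ℕ) → M) (b : Fin r → ℕ) :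
    dL p f' (fun b => Φ (c b)) b = Φ (dL p f c b) := by
  rw [dL_apply, dL_apply, map_sum]
  refine Finset.sum_congr rfl fun i _ => ?_
  split_ifs with h
  · rw [map_smul, C1f_ph p Φ (hf i)]
  · rw [map_zero]

private theorem C1f_Bi {M' : Type} [AddCommGroup M'] [Module F M'] {p r : ℕ}
    {𝓜 : ℤ → Submodule F M} {𝓜' : ℤ → Submodule F M'} (Φ : M ≃ₗ[F] M')
    (hΦ : ∀ D m, m ∈ 𝓜 D ↔ Φ m ∈ 𝓜' D) (j ℓ : ℤ) (c : (Fin r → ℕ) → M) :
    c ∈ Bi p 𝓜 j ℓ ↔ (fun b => Φ (c b)) ∈ Bi p 𝓜' j ℓ := by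
  rw [mem_Bi, mem_Bi]
  refine forall_congr' fun b => ?_
  rw [hΦ]
  refine and_congr Iff.rfl (imp_congr Iff.rfl ?_)
  exact (LinearEquiv.map_eq_zero_iff Φ).symm

/-- JOB C1f. Exactness is invariant under graded isomorphisms that commute with the operators.

PROOF. Apply `Φ` pointwise: `dL p f' (fun b => Φ (c b)) = fun b => Φ (dL p f c b)` (also for the powers
`(f i)^(p-1)` inside `ph`). -/
theorem Ex_of_equiv {M' : Type} [AddCommGroup M'] [Module F M'] {p r : ℕ}
    {𝓜 : ℤ → Submodule F M} {𝓜' : ℤ → Submodule F M'} {f : Fin r → Module.End F M}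
    {f' : Fin r → Module.End F M'} (Φ : M ≃ₗ[F] M') (hΦ : ∀ D m, m ∈ 𝓜 D ↔ Φ m ∈ 𝓜' D)
    (hf : ∀ i m, Φ (f i m) = f' i (Φ m)) {j ℓ : ℤ} (h : Ex p 𝓜' f' j ℓ) : Ex p 𝓜 f j ℓ := by
  intro c hc hd
  have h1 : dL p f' (fun b => Φ (c b)) = 0 := by
    funext b
    rw [C1f_dL Φ hf, hd]
    exact map_zero Φ
  obtain ⟨e', he', hde⟩ := h (fun b => Φ (c b)) ((C1f_Bi Φ hΦ j ℓ c).1 hc) h1
  have h2 : (fun b => Φ ((fun b => Φ.symm (e' b)) b)) = e' := by
    funext b
    exact Φ.apply_symm_apply _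
  refine ⟨fun b => Φ.symm (e' b), ?_, ?_⟩
  · rw [C1f_Bi Φ hΦ, h2]
    exact he'
  · funext b
    apply Φ.injective
    rw [← C1f_dL Φ hf, h2, hde]

/-- JOB C1f. as `Ex_of_equiv`. -/
theorem CR_of_equiv {M' : Type} [AddCommGroup M'] [Module F M'] {p r : ℕ}
    {𝓜 : ℤ → Submodule F M} {𝓜' : ℤ → Submodule F M'} {f : Fin (r + 1) → Module.End F M}
    {f' : Fin (r + 1) → Module.End F M'} (Φ : M ≃ₗ[F] M') (hΦ : ∀ D m, m ∈ 𝓜 D ↔ Φ m ∈ 𝓜' D)
    (hf : ∀ i m, Φ (f i m) = f' i (Φ m)) {ℓ : ℤ} (h : CR p 𝓜' f' ℓ) : CR p 𝓜 f ℓ := by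
  intro j c hc hd
  have h1 : dL p f' (fun b => Φ (c b)) = 0 := by
    funext b
    rw [C1f_dL Φ hf, hd]
    exact map_zero Φ
  obtain ⟨e', he', hde⟩ := h j (fun b => Φ (c b)) ((C1f_Bi Φ hΦ j ℓ c).1 hc) h1
  have h2 : (fun b => Φ ((fun b => Φ.symm (e' b)) b)) = e' := by
    funext b
    exact Φ.apply_symm_apply _
  refine ⟨fun b => Φ.symm (e' b), ?_, ?_⟩
  · rw [C1f_Bi Φ hΦ, h2]
    exact he'
  · intro b hb
    apply Φ.injective
    have h3 := hde b hb
    rw [Pi.sub_apply] at h3 ⊢
    rw [map_sub, ← C1f_dL Φ hf, h2, map_zero]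
    exact h3

end

end QL
end

section

section

/-!
LinearBound (MP_c77682_nt), job M7. See table papers, id 368.
-/

set_option autoImplicit false

open Matrix

namespace QL

section

variable {K : Type} [Field K] {p : ℕ} {σ σ' : Type} [Fintype σ] [DecidableEq σ] [Fintype σ']
  [DecidableEq σ']

private theorem M7_Xm (e : σ ≃ σ') (a : σ) (m m' : Mon p σ) :
    Xm K p (e a) (m ∘ e.symm) (m' ∘ e.symm) = Xm K p a m m' := by
  unfold Xm
  have h : (∀ j : σ', ((m ∘ e.symm) j : ℕ) = (m' ∘ e.symm) j + (if j = e a then 1 else 0)) ↔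
      ∀ i : σ, (m i : ℕ) = m' i + (if i = a then 1 else 0) := by
    constructor
    · intro h i
      have h1 := h (e i)
      simpa using h1
    · intro h j
      have h1 := h (e.symm j)
      simpa [Equiv.symm_apply_eq] using h1
  simp only [h]

/-- JOB M7. Renaming the variables. -/
theorem GN_reindex (e : σ ≃ σ') (Q : Matrix σ σ K) (m m' : Mon p σ) :
    GN p (Q.submatrix e.symm e.symm) (m ∘ e.symm) (m' ∘ e.symm) = GN p Q m m' := by
  simp only [GN, Matrix.sum_apply, Matrix.smul_apply, Matrix.mul_apply, smul_eq_mul]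
  rw [← Equiv.sum_comp e]
  refine Finset.sum_congr rfl fun a _ => ?_
  rw [← Equiv.sum_comp e]
  refine Finset.sum_congr rfl fun b _ => ?_
  rw [← Equiv.sum_comp (e.arrowCongr (Equiv.refl (Fin p)))]
  rw [Matrix.submatrix_apply, Equiv.symm_apply_apply, Equiv.symm_apply_apply]
  congr 1
  refine Finset.sum_congr rfl fun k _ => ?_
  have hk : (e.arrowCongr (Equiv.refl (Fin p))) k = k ∘ e.symm := rfl
  rw [hk, M7_Xm, M7_Xm]

/-- JOB M7. -/
theorem dg_comp (e : σ ≃ σ') (m : Mon p σ) : dg (m ∘ e.symm : Mon p σ') = dg m := by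
  unfold dg
  exact Equiv.sum_comp e.symm (fun i => (m i : ℕ))

end

end QL
end

section

/-!
LinearBound (MP_c77682_nt), job M5. See table papers, id 368.
-/

set_option autoImplicit false

open Matrix

namespace QL

section

variable {K : Type} [Field K] {p : ℕ} {σ : Type} [Fintype σ] [DecidableEq σ]

/-- JOB M5. -/
theorem Tm_surj : Function.Surjective (Tm K p σ) := by
  intro v
  refine ⟨∑ m : Mon p σ,
    MvPolynomial.monomial (Finsupp.equivFunOnFinite.symm fun i => (m i : ℕ)) (v m), ?_⟩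
  funext m'
  change MvPolynomial.coeff (Finsupp.equivFunOnFinite.symm fun i => (m' i : ℕ)) _ = v m'
  rw [MvPolynomial.coeff_sum, Finset.sum_eq_single m']
  · rw [MvPolynomial.coeff_monomial, if_pos rfl]
  · intro m _ hm
    rw [MvPolynomial.coeff_monomial, if_neg]
    intro h
    apply hm
    have h1 := Finsupp.equivFunOnFinite.symm.injective h
    funext i
    exact Fin.ext (congrFun h1 i)
  · intro h
    exact absurd (Finset.mem_univ m') h

/-- JOB M5. -/
theorem Tm_X_mul (a : σ) (P : MvPolynomial σ K) :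
    Tm K p σ (MvPolynomial.X a * P) = (Xm K p a).mulVec (Tm K p σ P) := by
  funext m
  change MvPolynomial.coeff (Finsupp.equivFunOnFinite.symm fun i => (m i : ℕ))
    (MvPolynomial.X a * P) = ∑ m' : Mon p σ, Xm K p a m m' *
      MvPolynomial.coeff (Finsupp.equivFunOnFinite.symm fun i => (m' i : ℕ)) P
  rw [MvPolynomial.coeff_X_mul']
  by_cases h0 : (m a : ℕ) = 0
  · rw [if_neg, Finset.sum_eq_zero]
    · intro m' _
      have : Xm K p a m m' = 0 := by
        unfold Xm
        rw [if_neg]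
        intro h
        have := h a
        rw [if_pos rfl] at this
        omega
      rw [this, zero_mul]
    · rw [Finsupp.mem_support_iff]
      simpa using h0
  · rw [if_pos (by rw [Finsupp.mem_support_iff]; simpa using h0)]
    have hlt : (m a : ℕ) - 1 < p := lt_of_le_of_lt (Nat.sub_le _ _) (m a).2
    set m₀ : Mon p σ := Function.update m a ⟨(m a : ℕ) - 1, hlt⟩ with hm₀
    have hx : ∀ i, (m i : ℕ) = m₀ i + (if i = a then 1 else 0) := by
      intro i
      rw [hm₀]
      by_cases hi : i = a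
      · subst hi
        rw [Function.update_self, if_pos rfl]
        change (m i : ℕ) = ((m i : ℕ) - 1) + 1
        omega
      · rw [Function.update_of_ne hi, if_neg hi, add_zero]
    rw [Finset.sum_eq_single m₀]
    · have : Xm K p a m m₀ = 1 := if_pos hx
      rw [this, one_mul]
      congr 1
      ext i
      rw [Finsupp.tsub_apply]
      simp only [Finsupp.equivFunOnFinite_symm_apply_apply, Finsupp.single_apply]
      have := hx i
      by_cases hi : i = a
      · subst hi
        rw [if_pos rfl] at this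
        simp only [if_true]
        omega
      · rw [if_neg hi] at this
        rw [if_neg (fun h => hi h.symm)]
        omega
    · intro m' _ hm'
      have : Xm K p a m m' = 0 := by
        unfold Xm
        rw [if_neg]
        intro h
        apply hm'
        funext i
        apply Fin.ext
        have e1 := h i
        have e2 := hx i
        omega
      rw [this, zero_mul]
    · intro h
      exact absurd (Finset.mem_univ m₀) h

/-- JOB M5. -/
theorem Tm_qf_mul (Q : Matrix σ σ K) (P : MvPolynomial σ K) :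
    Tm K p σ (qf Q * P) = (GN p Q).mulVec (Tm K p σ P) := by
  unfold qf GN
  rw [Finset.sum_mul, map_sum, Matrix.sum_mulVec]
  refine Finset.sum_congr rfl fun a _ => ?_
  rw [Finset.sum_mul, map_sum, Matrix.sum_mulVec]
  refine Finset.sum_congr rfl fun b _ => ?_
  rw [Matrix.smul_mulVec, ← Matrix.mulVec_mulVec, ← Tm_X_mul, ← Tm_X_mul, ← map_smul,
    MvPolynomial.smul_eq_C_mul]
  congr 1
  ring

end

end QL
end
end

section

section

/-!
LinearBound (MP_c77682_nt), job M6. See table papers, id 368.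
-/

set_option autoImplicit false
set_option linter.unusedSectionVars false

open Matrix

namespace QL

section

variable {K : Type} [Field K] {p : ℕ} {σ : Type} [Fintype σ] [DecidableEq σ]

/-- the substitution `X a ↦ ∑ b, g a b X b`. -/
private noncomputable def M6s (g : Matrix σ σ K) : MvPolynomial σ K →ₐ[K] MvPolynomial σ K :=
  MvPolynomial.aeval fun a => ∑ b, MvPolynomial.C (g a b) * MvPolynomial.X b

private theorem M6s_X (g : Matrix σ σ K) (a : σ) :
    M6s g (MvPolynomial.X a) = ∑ b, MvPolynomial.C (g a b) * MvPolynomial.X b := by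
  rw [M6s, MvPolynomial.aeval_X]

private theorem M6s_C (g : Matrix σ σ K) (c : K) :
    M6s g (MvPolynomial.C c) = MvPolynomial.C c := by
  rw [M6s, MvPolynomial.aeval_C]
  rfl

private theorem M6s_comp (g h : Matrix σ σ K) (P : MvPolynomial σ K) :
    M6s g (M6s h P) = M6s (h * g) P := by
  have e : (M6s g).comp (M6s h) = M6s (h * g) := by
    apply MvPolynomial.algHom_ext
    intro a
    rw [AlgHom.comp_apply, M6s_X, M6s_X, map_sum]
    simp only [map_mul, M6s_C, M6s_X, Finset.mul_sum, Matrix.mul_apply, map_sum, Finset.sum_mul]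
    rw [Finset.sum_comm]
    refine Finset.sum_congr rfl fun c _ => Finset.sum_congr rfl fun b _ => ?_
    rw [mul_assoc]
  exact DFunLike.congr_fun e P

private theorem M6s_one (P : MvPolynomial σ K) : M6s (1 : Matrix σ σ K) P = P := by
  have e : M6s (1 : Matrix σ σ K) = AlgHom.id K (MvPolynomial σ K) := by
    apply MvPolynomial.algHom_ext
    intro a
    rw [M6s_X, AlgHom.id_apply, Finset.sum_eq_single a]
    · rw [Matrix.one_apply_eq, MvPolynomial.C_1, one_mul]
    · intro b _ hb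
      rw [Matrix.one_apply_ne (Ne.symm hb), MvPolynomial.C_0, zero_mul]
    · intro h
      exact absurd (Finset.mem_univ a) h
  rw [e, AlgHom.id_apply]

private theorem M6s_qf (g Q : Matrix σ σ K) : M6s g (qf Q) = qf (gᵀ * Q * g) := by
  have h1 : ∀ a b, M6s g (MvPolynomial.C (Q a b) * (MvPolynomial.X a * MvPolynomial.X b)) =
      ∑ c, ∑ d, MvPolynomial.C (g a c * Q a b * g b d) *
        (MvPolynomial.X c * MvPolynomial.X d) := by
    intro a b
    rw [map_mul, map_mul, M6s_C, M6s_X, M6s_X, Finset.sum_mul_sum, Finset.mul_sum]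
    refine Finset.sum_congr rfl fun c _ => ?_
    rw [Finset.mul_sum]
    refine Finset.sum_congr rfl fun d _ => ?_
    simp only [MvPolynomial.C_mul]
    ring
  have h2 : ∀ c d, (gᵀ * Q * g) c d = ∑ a, ∑ b, g a c * Q a b * g b d := by
    intro c d
    rw [Matrix.mul_apply, Finset.sum_comm]
    refine Finset.sum_congr rfl fun b _ => ?_
    rw [Matrix.mul_apply, Finset.sum_mul]
    rfl
  unfold qf
  simp only [map_sum, h1, h2, Finset.sum_mul]
  -- `∑ a, ∑ b, ∑ c, ∑ d = ∑ c, ∑ d, ∑ a, ∑ b`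
  rw [show (∑ a : σ, ∑ b : σ, ∑ c : σ, ∑ d : σ, MvPolynomial.C (g a c * Q a b * g b d) *
        (MvPolynomial.X c * MvPolynomial.X d)) =
      ∑ a : σ, ∑ c : σ, ∑ b : σ, ∑ d : σ, MvPolynomial.C (g a c * Q a b * g b d) *
        (MvPolynomial.X c * MvPolynomial.X d) from
    Finset.sum_congr rfl fun a _ => Finset.sum_comm]
  rw [Finset.sum_comm]
  refine Finset.sum_congr rfl fun c _ => ?_
  rw [show (∑ a : σ, ∑ b : σ, ∑ d : σ, MvPolynomial.C (g a c * Q a b * g b d) *
        (MvPolynomial.X c * MvPolynomial.X d)) =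
      ∑ a : σ, ∑ d : σ, ∑ b : σ, MvPolynomial.C (g a c * Q a b * g b d) *
        (MvPolynomial.X c * MvPolynomial.X d) from
    Finset.sum_congr rfl fun a _ => Finset.sum_comm]
  rw [Finset.sum_comm]

/-- `Tm (X b ^ p * R) = 0`. -/
private theorem M6_Xp (b : σ) (R : MvPolynomial σ K) :
    Tm K p σ (MvPolynomial.X b ^ p * R) = 0 := by
  funext m
  change MvPolynomial.coeff _ _ = 0
  rw [MvPolynomial.X_pow_eq_monomial, MvPolynomial.coeff_monomial_mul', if_neg]
  intro hle
  have h1 := hle b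
  rw [Finsupp.single_eq_same] at h1
  have h2 := (m b).isLt
  have h3 : (Finsupp.equivFunOnFinite.symm fun i => (m i : ℕ)) b = (m b : ℕ) := rfl
  rw [h3] at h1
  omega

private theorem M6_sX [Fact p.Prime] [CharP K p] (g : Matrix σ σ K) (a : σ) :
    M6s g (MvPolynomial.X a) ^ p =
      ∑ b, MvPolynomial.C (g a b ^ p) * MvPolynomial.X b ^ p := by
  rw [M6s_X, sum_pow_char p]
  refine Finset.sum_congr rfl fun b _ => ?_
  rw [mul_pow, MvPolynomial.C_pow]

/-- the kernel of `Tm` is invariant. -/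
private theorem M6_ker [Fact p.Prime] [CharP K p] (g : Matrix σ σ K) (P : MvPolynomial σ K)
    (hP : Tm K p σ P = 0) : Tm K p σ (M6s g P) = 0 := by
  rw [P.as_sum, map_sum, map_sum]
  refine Finset.sum_eq_zero fun s hs => ?_
  have h1 : ∃ a, p ≤ s a := by
    by_contra hcon
    push Not at hcon
    have h2 := congrFun hP (fun i => ⟨s i, hcon i⟩)
    rw [MvPolynomial.mem_support_iff] at hs
    apply hs
    have h3 : (Finsupp.equivFunOnFinite.symm fun i => (((fun i => ⟨s i, hcon i⟩ : Mon p σ) i : Fin p) : ℕ)) = s := by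
      ext i
      rfl
    have h4 : MvPolynomial.coeff (Finsupp.equivFunOnFinite.symm
        fun i => (((fun i => ⟨s i, hcon i⟩ : Mon p σ) i : Fin p) : ℕ)) P = 0 := h2
    rwa [h3] at h4
  obtain ⟨a, ha⟩ := h1
  have h5 : MvPolynomial.monomial s (MvPolynomial.coeff s P) =
      MvPolynomial.X a ^ p *
        MvPolynomial.monomial (s - Finsupp.single a p) (MvPolynomial.coeff s P) := by
    rw [MvPolynomial.X_pow_eq_monomial, MvPolynomial.monomial_mul, one_mul]
    congr 1
    rw [add_tsub_cancel_of_le]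
    intro i
    by_cases hi : i = a
    · rw [hi, Finsupp.single_eq_same]
      exact ha
    · rw [Finsupp.single_eq_of_ne hi]
      exact Nat.zero_le _
  rw [h5, map_mul, map_pow, M6_sX, Finset.sum_mul, map_sum]
  refine Finset.sum_eq_zero fun b _ => ?_
  rw [mul_assoc, mul_left_comm, M6_Xp]

/-- the section. -/
private noncomputable def M6sec (x : Mon p σ → K) : MvPolynomial σ K :=
  ∑ m : Mon p σ, MvPolynomial.monomial (Finsupp.equivFunOnFinite.symm fun i => (m i : ℕ)) (x m)

private theorem M6_inj {m m' : Mon p σ} (h : (Finsupp.equivFunOnFinite.symm fun i => (m i : ℕ)) =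
    Finsupp.equivFunOnFinite.symm fun i => (m' i : ℕ)) : m = m' := by
  funext i
  apply Fin.ext
  exact DFunLike.congr_fun h i

private theorem M6_sec (x : Mon p σ → K) : Tm K p σ (M6sec x) = x := by
  funext m
  change MvPolynomial.coeff _ _ = _
  rw [M6sec, MvPolynomial.coeff_sum, Finset.sum_eq_single m]
  · rw [MvPolynomial.coeff_monomial, if_pos rfl]
  · intro m' _ hm'
    rw [MvPolynomial.coeff_monomial, if_neg]
    intro h
    exact hm' (M6_inj h)
  · intro h
    exact absurd (Finset.mem_univ m) h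

/-- the matrix of the substitution. -/
private noncomputable def M6Phi (p : ℕ) (g : Matrix σ σ K) : Matrix (Mon p σ) (Mon p σ) K :=
  fun m m' => Tm K p σ (M6s g
    (MvPolynomial.monomial (Finsupp.equivFunOnFinite.symm fun i => (m' i : ℕ)) 1)) m

private theorem M6Phi_sec (g : Matrix σ σ K) (x : Mon p σ → K) :
    M6Phi p g *ᵥ x = Tm K p σ (M6s g (M6sec x)) := by
  funext m
  rw [M6sec, map_sum, map_sum, Finset.sum_apply]
  change ∑ m', M6Phi p g m m' * x m' = _
  refine Finset.sum_congr rfl fun m' _ => ?_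
  have h1 : MvPolynomial.monomial (Finsupp.equivFunOnFinite.symm fun i => (m' i : ℕ)) (x m') =
      x m' • MvPolynomial.monomial (Finsupp.equivFunOnFinite.symm fun i => (m' i : ℕ)) (1 : K) := by
    rw [MvPolynomial.smul_monomial, smul_eq_mul, mul_one]
  rw [h1, map_smul, map_smul, Pi.smul_apply, smul_eq_mul, mul_comm]
  rfl

private theorem M6Phi_Tm [Fact p.Prime] [CharP K p] (g : Matrix σ σ K) (P : MvPolynomial σ K) :
    M6Phi p g *ᵥ (Tm K p σ P) = Tm K p σ (M6s g P) := by
  rw [M6Phi_sec]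
  have h1 : Tm K p σ (M6sec (Tm K p σ P) - P) = 0 := by
    rw [map_sub, M6_sec, sub_self]
  have h2 := M6_ker g _ h1
  rw [map_sub, map_sub, sub_eq_zero] at h2
  exact h2

private theorem M6_dg (g : Matrix σ σ K) (m m' : Mon p σ) (h : M6Phi p g m m' ≠ 0) :
    dg m = dg m' := by
  have h1 : (MvPolynomial.monomial (Finsupp.equivFunOnFinite.symm fun i => (m' i : ℕ))
      (1 : K)).IsHomogeneous (dg m') := by
    apply MvPolynomial.isHomogeneous_monomial
    rw [Finsupp.degree_eq_sum]
    rfl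
  have h2 : (M6s g (MvPolynomial.monomial (Finsupp.equivFunOnFinite.symm fun i => (m' i : ℕ))
      (1 : K))).IsHomogeneous (1 * dg m') := by
    refine h1.aeval _ fun a => ?_
    apply MvPolynomial.IsHomogeneous.sum
    intro b _
    exact MvPolynomial.isHomogeneous_C_mul_X _ _
  rw [one_mul] at h2
  have h3 := h2 h
  have h4 : (Finsupp.weight (fun _ : σ => 1)) (Finsupp.equivFunOnFinite.symm fun i => (m i : ℕ)) =
      dg m' := h3
  rw [← Finsupp.degree_eq_weight_one, Finsupp.degree_eq_sum] at h4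
  exact h4

/-- JOB M6. Linear changes of coordinates. For invertible `g` there is a degree preserving invertible matrix `Φ` on the
monomials with `Φ GN(Q) = GN(gᵀ Q g) Φ`.

PROOF. Let `s_g : MvPolynomial σ K →ₐ MvPolynomial σ K`, `X a ↦ ∑ b, C (g a b) * X b`. The kernel of `Tm` is the ideal
`I` of the polynomials all of whose monomials have some exponent `≥ p`, i.e. the ideal generated by the `X a ^ p`
(`Tm_X_mul` shows that it is an ideal; a monomial with exponent `≥ p` in `a` is a multiple of `X a ^ p`). In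
characteristic `p`, `s_g (X a ^ p) = (∑ b, g a b X b)^p = ∑ b, (g a b)^p X b ^ p ∈ I`, so `s_g I ⊆ I`. As `Tm` is
surjective there is a unique linear map `Φ_g` with `Tm (s_g P) = Φ_g (Tm P)`. `s_g` preserves homogeneous polynomials, so
`Φ_g` preserves degrees. `s_h ∘ s_g` and `s_g ∘ s_h` for `g * h = 1` (so `h * g = 1`) are the identity, so `Φ_g`, `Φ_h`
are inverse to each other. `s_g (qf Q) = qf (gᵀ Q g)` and `s_g (qf Q * P) = qf (gᵀ Q g) * s_g P` give
`Φ_g GN(Q) = GN(gᵀ Q g) Φ_g` by `Tm_qf_mul`. -/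
theorem exists_Phi [Fact p.Prime] [CharP K p] (g h : Matrix σ σ K) (hgh : g * h = 1) :
    ∃ Φ Ψ : Matrix (Mon p σ) (Mon p σ) K, Φ * Ψ = 1 ∧ Ψ * Φ = 1 ∧
      (∀ m m', Φ m m' ≠ 0 → dg m = dg m') ∧ (∀ m m', Ψ m m' ≠ 0 → dg m = dg m') ∧
      ∀ Q : Matrix σ σ K, Φ * GN p Q = GN p (gᵀ * Q * g) * Φ := by
  have hhg : h * g = 1 := mul_eq_one_comm.1 hgh
  have ext : ∀ A B : Matrix (Mon p σ) (Mon p σ) K,
      (∀ P : MvPolynomial σ K, A *ᵥ Tm K p σ P = B *ᵥ Tm K p σ P) → A = B := by
    intro A B hAB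
    apply Matrix.ext_of_mulVec_single
    intro i
    have h1 := hAB (M6sec (Pi.single i 1))
    rwa [M6_sec] at h1
  refine ⟨M6Phi p g, M6Phi p h, ?_, ?_, M6_dg g, M6_dg h, ?_⟩
  · apply ext
    intro P
    rw [← Matrix.mulVec_mulVec, M6Phi_Tm, M6Phi_Tm, M6s_comp, hhg, M6s_one, Matrix.one_mulVec]
  · apply ext
    intro P
    rw [← Matrix.mulVec_mulVec, M6Phi_Tm, M6Phi_Tm, M6s_comp, hgh, M6s_one, Matrix.one_mulVec]
  · intro Q
    apply ext
    intro P
    rw [← Matrix.mulVec_mulVec, ← Matrix.mulVec_mulVec, M6Phi_Tm, ← Tm_qf_mul, M6Phi_Tm, map_mul,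
      M6s_qf, Tm_qf_mul]

end

end QL
end

section

/-!
LinearBound (MP_c77682_nt), job S3. See table papers, id 368.
-/

set_option autoImplicit false

open Matrix Module

namespace QL

section

variable {K : Type} [Field K] {p : ℕ} [Fact p.Prime] [CharP K p]

private theorem S3_gr {σ : Type} [Fintype σ] [DecidableEq σ]
    (Φ : Matrix (Mon p σ) (Mon p σ) K) (hΦ : ∀ m m', Φ m m' ≠ 0 → dg m = dg m') (D : ℤ)
    (x : Mon p σ → K) (hx : x ∈ gr K (dg (p := p) (σ := σ)) D) :
    Φ *ᵥ x ∈ gr K (dg (p := p) (σ := σ)) D := by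
  intro m hm
  have h1 : ∃ m', Φ m m' * x m' ≠ 0 := by
    by_contra hcon
    push Not at hcon
    apply hm
    rw [Matrix.mulVec, dotProduct]
    exact Finset.sum_eq_zero fun m' _ => hcon m'
  obtain ⟨m', hm'⟩ := h1
  rw [hΦ m m' (left_ne_zero_of_mul hm')]
  exact hx m' (right_ne_zero_of_mul hm')

private theorem S3_lin {σ : Type} [Fintype σ] [DecidableEq σ] {r : ℕ}
    (Q : Fin (r + 1) → Matrix σ σ K) (g h : Matrix σ σ K) (hgh : g * h = 1) (ℓ : ℤ)
    (hcr : CR p (gr K (dg (p := p) (σ := σ)))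
      (fun i => (GN p (gᵀ * Q i * g)).mulVecLin) ℓ) :
    CR p (gr K (dg (p := p) (σ := σ))) (fun i => (GN p (Q i)).mulVecLin) ℓ := by
  obtain ⟨Φ, Ψ, hΦΨ, hΨΦ, hdΦ, hdΨ, hQ⟩ := exists_Phi (p := p) g h hgh
  let F : (Mon p σ → K) ≃ₗ[K] (Mon p σ → K) :=
    { Φ.mulVecLin with
      invFun := fun x => Ψ *ᵥ x
      left_inv := by
        intro x
        change Ψ *ᵥ (Φ *ᵥ x) = x
        rw [Matrix.mulVec_mulVec, hΨΦ, Matrix.one_mulVec]
      right_inv := by
        intro x
        change Φ *ᵥ (Ψ *ᵥ x) = x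
        rw [Matrix.mulVec_mulVec, hΦΨ, Matrix.one_mulVec] }
  have hF : ∀ x, F x = Φ *ᵥ x := fun x => rfl
  refine CR_of_equiv F ?_ ?_ hcr
  · intro D m
    rw [hF]
    constructor
    · exact S3_gr Φ hdΦ D m
    · intro hm
      have h1 := S3_gr Ψ hdΨ D _ hm
      rw [Matrix.mulVec_mulVec, hΨΦ, Matrix.one_mulVec] at h1
      exact h1
  · intro i m
    rw [hF, hF, Matrix.mulVecLin_apply, Matrix.mulVecLin_apply, Matrix.mulVec_mulVec,
      Matrix.mulVec_mulVec, hQ]

private theorem S3_ren {σ σ' : Type} [Fintype σ] [DecidableEq σ] [Fintype σ'] [DecidableEq σ']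
    {r : ℕ} (Q : Fin (r + 1) → Matrix σ σ K) (e : σ ≃ σ') (ℓ : ℤ)
    (hcr : CR p (gr K (dg (p := p) (σ := σ')))
      (fun i => (GN p ((Q i).submatrix e.symm e.symm)).mulVecLin) ℓ) :
    CR p (gr K (dg (p := p) (σ := σ))) (fun i => (GN p (Q i)).mulVecLin) ℓ := by
  let E : Mon p σ' ≃ Mon p σ :=
    { toFun := fun m => m ∘ e
      invFun := fun m => m ∘ e.symm
      left_inv := by
        intro m
        funext i
        simp
      right_inv := by
        intro m
        funext i
        simp }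
  have hE : ∀ m : Mon p σ', (E m) ∘ e.symm = m := fun m => E.symm_apply_apply m
  have hdg : ∀ m : Mon p σ', dg m = dg (E m) := by
    intro m
    rw [← dg_comp (p := p) e (E m), hE]
  refine CR_of_equiv (LinearEquiv.funCongrLeft K K E) ?_ ?_ hcr
  · intro D x
    constructor
    · intro hx m hm
      rw [hdg]
      exact hx _ hm
    · intro hx m hm
      have h1 := hx (E.symm m) (by
        rw [LinearEquiv.funCongrLeft_apply, LinearMap.funLeft_apply, E.apply_symm_apply]
        exact hm)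
      rw [hdg, E.apply_symm_apply] at h1
      exact h1
  · intro i x
    funext m
    rw [LinearEquiv.funCongrLeft_apply, LinearMap.funLeft_apply, Matrix.mulVecLin_apply,
      Matrix.mulVecLin_apply, Matrix.mulVec, Matrix.mulVec, dotProduct, dotProduct,
      ← Equiv.sum_comp E]
    refine Finset.sum_congr rfl fun n _ => ?_
    rw [LinearEquiv.funCongrLeft_apply, LinearMap.funLeft_apply]
    have h1 := GN_reindex (p := p) e (Q i) (E m) (E n)
    rw [hE, hE] at h1
    rw [h1]

/-- JOB S3. Column reduction is invariant under linear changes of coordinates and renaming.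

PROOF. `CR_of_equiv` with the matrix `Φ` of `exists_Phi` (an isomorphism of `Mon p σ → K` preserving `gr`), and with
renaming of the variables (`GN_reindex`, `dg_comp`). -/
theorem CR_change {σ σ' : Type} [Fintype σ] [DecidableEq σ] [Fintype σ'] [DecidableEq σ'] {r : ℕ}
    (Q : Fin (r + 1) → Matrix σ σ K) (g h : Matrix σ σ K) (hgh : g * h = 1) (e : σ ≃ σ') (ℓ : ℤ)
    (hcr : CR p (gr K (dg (p := p) (σ := σ')))
      (fun i => (GN p ((gᵀ * Q i * g).submatrix e.symm e.symm)).mulVecLin) ℓ) :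
    CR p (gr K (dg (p := p) (σ := σ))) (fun i => (GN p (Q i)).mulVecLin) ℓ :=
  S3_lin Q g h hgh ℓ (S3_ren (fun i => gᵀ * Q i * g) e ℓ hcr)

end

end QL
end
end
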