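import Pool.Agent.Lib.MP_c77682_nt.L.N3

section

/-!
LinearBound, block T: transvections.
-/

set_option autoImplicit false

open MvPolynomial Matrix

namespace QL

section
variable {K : Type} [Field K] {r : ℕ} {μ : Type} [Fintype μ] [DecidableEq μ]

/-- exterior multiplication. -/
noncomputable def etaB (K : Type) [Field K] {r : ℕ} (μ : Type) (i : Fin r) :
    Module.End (MvPolynomial (Fin r) K) (CB K r μ) where
  toFun c I m := if i ∈ I then (-1 : MvPolynomial (Fin r) K) ^ sgB i I * c (I.erase i) m else 0
  map_add' c c' := by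
    funext I m
    simp only [Pi.add_apply]
    split_ifs
    · rw [mul_add]
    · rw [add_zero]
  map_smul' a c := by
    funext I m
    simp only [Pi.smul_apply, RingHom.id_apply, smul_eq_mul]
    split_ifs
    · ring
    · rw [mul_zero]

/-- contraction. -/
noncomputable def delB (K : Type) [Field K] {r : ℕ} (μ : Type) (i : Fin r) :
    Module.End (MvPolynomial (Fin r) K) (CB K r μ) where
  toFun c I m := if i ∈ I then 0 else (-1 : MvPolynomial (Fin r) K) ^ sgB i I * c (insert i I) m
  map_add' c c' := by
    funext I m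
    simp only [Pi.add_apply]
    split_ifs
    · rw [add_zero]
    · rw [mul_add]
  map_smul' a c := by
    funext I m
    simp only [Pi.smul_apply, RingHom.id_apply, smul_eq_mul]
    split_ifs
    · rw [mul_zero]
    · ring

/-- the action of a matrix over `K`. -/
noncomputable def gmB {r : ℕ} (M : Matrix μ μ K) :
    Module.End (MvPolynomial (Fin r) K) (CB K r μ) where
  toFun c I m := ∑ m', C (M m m') * c I m'
  map_add' c c' := by
    funext I m
    simp only [Pi.add_apply, mul_add, Finset.sum_add_distrib]
  map_smul' a c := by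
    funext I m
    simp only [Pi.smul_apply, RingHom.id_apply, smul_eq_mul, Finset.mul_sum]
    exact Finset.sum_congr rfl fun m' _ => by ring

/-- the matrix `((G + α H)^(p-1) - G^(p-1)) / H`. -/
def PP (p : ℕ) (α : K) (G H : Matrix μ μ K) : Matrix μ μ K :=
  ∑ k ∈ Finset.range (p - 1), ((p - 1).choose (k + 1) : K) • (α ^ (k + 1) • (H ^ k * G ^ (p - 2 - k)))

/-- the substitution `t_j ↦ t_j - β t_i`. -/
noncomputable def sgT (K : Type) [Field K] {r : ℕ} (i j : Fin r) (β : K) :
    MvPolynomial (Fin r) K →ₐ[K] MvPolynomial (Fin r) K :=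
  aeval fun k => if k = j then X j - C β * X i else X k

/-- its action on cochains (additive, semilinear). -/
noncomputable def sgTB {r : ℕ} (i j : Fin r) (β : K) (c : CB K r μ) : CB K r μ :=
  fun I m => sgT K i j β (c I m)

/-- `Ψ = 1 - α η_i ∂_j`. -/
noncomputable def PsB {r : ℕ} (μ : Type) (i j : Fin r) (α : K) :
    Module.End (MvPolynomial (Fin r) K) (CB K r μ) :=
  1 - (C α : MvPolynomial (Fin r) K) • (etaB K μ i * delB K μ j)

/-- `Q = t_i P ∂_i ∂_j`. -/
noncomputable def QB {r : ℕ} (i j : Fin r) (P : Matrix μ μ K) :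
    Module.End (MvPolynomial (Fin r) K) (CB K r μ) :=
  (X i : MvPolynomial (Fin r) K) • (gmB P * (delB K μ i * delB K μ j))

end

end QL
end

section

/-!
LinearBound (MP_c77682_nt), job T1. See table papers, id 368.
-/

set_option autoImplicit false
set_option linter.unusedSectionVars false

open MvPolynomial Matrix

namespace QL

section

variable {K : Type} [Field K] {r : ℕ} {μ : Type} [Fintype μ] [DecidableEq μ]

private theorem T1_gmB (M : Matrix μ μ K) (c : CB K r μ) (I : Finset (Fin r)) (m : μ) :
    gmB M c I m = ∑ m', C (M m m') * c I m' := rfl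

private theorem T1_etaB (i : Fin r) (c : CB K r μ) (I : Finset (Fin r)) (m : μ) :
    etaB K μ i c I m =
      if i ∈ I then (-1 : MvPolynomial (Fin r) K) ^ sgB i I * c (I.erase i) m else 0 := rfl

private theorem T1_delB (i : Fin r) (c : CB K r μ) (I : Finset (Fin r)) (m : μ) :
    delB K μ i c I m =
      if i ∈ I then 0 else (-1 : MvPolynomial (Fin r) K) ^ sgB i I * c (insert i I) m := rfl

/-- JOB T1. -/
theorem dB_eq (p : ℕ) (G : Fin r → Matrix μ μ K) :
    dB p G = ∑ i, gmB (G i) * etaB K μ i +
      ∑ i, (X i : MvPolynomial (Fin r) K) • (gmB (G i ^ (p - 1)) * delB K μ i) := by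
  refine LinearMap.ext fun c => ?_
  funext I m
  have h1 : dB p G c I m = ∑ i, (-1 : MvPolynomial (Fin r) K) ^ sgB i I *
      (if i ∈ I then ∑ m', C (G i m m') * c (I.erase i) m'
        else X i * ∑ m', C ((G i ^ (p - 1)) m m') * c (insert i I) m') := rfl
  rw [h1, LinearMap.add_apply, LinearMap.sum_apply, LinearMap.sum_apply, Pi.add_apply,
    Pi.add_apply, Finset.sum_apply, Finset.sum_apply, Finset.sum_apply, Finset.sum_apply,
    ← Finset.sum_add_distrib]
  refine Finset.sum_congr rfl fun i _ => ?_
  rw [Module.End.mul_apply, LinearMap.smul_apply, Module.End.mul_apply, Pi.smul_apply,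
    Pi.smul_apply, T1_gmB, T1_gmB, smul_eq_mul]
  simp only [T1_etaB, T1_delB]
  by_cases h : i ∈ I
  · simp only [if_pos h, mul_zero, Finset.sum_const_zero, add_zero]
    rw [Finset.mul_sum]
    exact Finset.sum_congr rfl fun m' _ => by ring
  · simp only [if_neg h, mul_zero, Finset.sum_const_zero, zero_add]
    rw [Finset.mul_sum, Finset.mul_sum, Finset.mul_sum]
    exact Finset.sum_congr rfl fun m' _ => by ring

/-- JOB T1. -/
theorem gmB_mul (M M' : Matrix μ μ K) :
    (gmB (M * M') : Module.End (MvPolynomial (Fin r) K) (CB K r μ)) = gmB M * gmB M' := by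
  refine LinearMap.ext fun c => ?_
  funext I m
  rw [Module.End.mul_apply, T1_gmB, T1_gmB]
  simp only [T1_gmB, Matrix.mul_apply, map_sum, map_mul, Finset.sum_mul, Finset.mul_sum]
  rw [Finset.sum_comm]
  exact Finset.sum_congr rfl fun m' _ => Finset.sum_congr rfl fun m'' _ => by ring

/-- JOB T1. -/
theorem gmB_add (M M' : Matrix μ μ K) :
    (gmB (M + M') : Module.End (MvPolynomial (Fin r) K) (CB K r μ)) = gmB M + gmB M' := by
  refine LinearMap.ext fun c => ?_
  funext I m
  rw [LinearMap.add_apply, Pi.add_apply, Pi.add_apply, T1_gmB, T1_gmB, T1_gmB,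
    ← Finset.sum_add_distrib]
  exact Finset.sum_congr rfl fun m' _ => by rw [Matrix.add_apply, map_add, add_mul]

/-- JOB T1. -/
theorem gmB_smul (α : K) (M : Matrix μ μ K) :
    (gmB (α • M) : Module.End (MvPolynomial (Fin r) K) (CB K r μ)) =
      (C α : MvPolynomial (Fin r) K) • gmB M := by
  refine LinearMap.ext fun c => ?_
  funext I m
  rw [LinearMap.smul_apply, Pi.smul_apply, Pi.smul_apply, T1_gmB, T1_gmB, smul_eq_mul,
    Finset.mul_sum]
  exact Finset.sum_congr rfl fun m' _ => by
    rw [Matrix.smul_apply, smul_eq_mul, map_mul, mul_assoc]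

/-- JOB T1. -/
theorem gmB_etaB (M : Matrix μ μ K) (i : Fin r) :
    gmB M * etaB K μ i = etaB K μ i * gmB M := by
  refine LinearMap.ext fun c => ?_
  funext I m
  rw [Module.End.mul_apply, Module.End.mul_apply, T1_gmB, T1_etaB]
  simp only [T1_etaB, T1_gmB]
  by_cases h : i ∈ I
  · simp only [if_pos h]
    rw [Finset.mul_sum]
    exact Finset.sum_congr rfl fun m' _ => by ring
  · simp only [if_neg h, mul_zero, Finset.sum_const_zero]

/-- JOB T1. -/
theorem gmB_delB (M : Matrix μ μ K) (i : Fin r) :
    gmB M * delB K μ i = delB K μ i * gmB M := by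
  refine LinearMap.ext fun c => ?_
  funext I m
  rw [Module.End.mul_apply, Module.End.mul_apply, T1_gmB, T1_delB]
  simp only [T1_delB, T1_gmB]
  by_cases h : i ∈ I
  · simp only [if_pos h, mul_zero, Finset.sum_const_zero]
  · simp only [if_neg h]
    rw [Finset.mul_sum]
    exact Finset.sum_congr rfl fun m' _ => by ring

end

end QL
end
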