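import Pool.Agent.Lib.MP_c77682_nt.L.T1

section

section

/-!
LinearBound (MP_c77682_nt), job T2. See table papers, id 368.
-/

set_option autoImplicit false

open MvPolynomial Matrix

namespace QL

section

variable {K : Type} [Field K] {r : ℕ} {μ : Type} [Fintype μ] [DecidableEq μ]

private theorem T2_sgB_insert (i j : Fin r) (I : Finset (Fin r)) (h : j ∉ I) :
    (-1 : MvPolynomial (Fin r) K) ^ sgB i (insert j I) =
      (if j < i then -1 else 1) * (-1) ^ sgB i I := by
  unfold sgB
  rw [Finset.filter_insert]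
  split_ifs with hj
  · rw [Finset.card_insert_of_notMem, pow_succ]
    · ring
    · intro hh
      exact h (Finset.mem_filter.mp hh).1
  · rw [one_mul]

private theorem T2_sgB_erase (i j : Fin r) (I : Finset (Fin r)) (h : j ∈ I) :
    (-1 : MvPolynomial (Fin r) K) ^ sgB i (I.erase j) =
      (if j < i then -1 else 1) * (-1) ^ sgB i I := by
  have h1 := T2_sgB_insert (K := K) i j (I.erase j) (Finset.notMem_erase j I)
  rw [Finset.insert_erase h] at h1
  rw [h1]
  split_ifs <;> ring

private theorem T2_lt {i j : Fin r} (h : i ≠ j) :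
    (if i < j then (-1 : MvPolynomial (Fin r) K) else 1) = -(if j < i then (-1) else 1) := by
  rcases lt_or_gt_of_ne h with h1 | h1
  · rw [if_pos h1, if_neg (not_lt.mpr h1.le)]
  · rw [if_neg (not_lt.mpr h1.le), if_pos h1]
    ring

private theorem T2_eta (i : Fin r) (c : CB K r μ) (I : Finset (Fin r)) (m : μ) :
    etaB K μ i c I m =
      if i ∈ I then (-1 : MvPolynomial (Fin r) K) ^ sgB i I * c (I.erase i) m else 0 := rfl

private theorem T2_del (i : Fin r) (c : CB K r μ) (I : Finset (Fin r)) (m : μ) :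
    delB K μ i c I m =
      if i ∈ I then 0 else (-1 : MvPolynomial (Fin r) K) ^ sgB i I * c (insert i I) m := rfl

private theorem T2_eta_sq (i : Fin r) : etaB K μ i * etaB K μ i = 0 := by
  refine LinearMap.ext fun c => funext fun I => funext fun m => ?_
  rw [Module.End.mul_apply, T2_eta]
  split_ifs with h
  · rw [T2_eta, if_neg (Finset.notMem_erase i I), mul_zero]
    rfl
  · rfl

private theorem T2_del_sq (i : Fin r) : delB K μ i * delB K μ i = 0 := by
  refine LinearMap.ext fun c => funext fun I => funext fun m => ?_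
  rw [Module.End.mul_apply, T2_del]
  split_ifs with h
  · rfl
  · rw [T2_del, if_pos (Finset.mem_insert_self i I), mul_zero]
    rfl

/-- JOB T2. -/
theorem etaB_etaB (i j : Fin r) : etaB K μ i * etaB K μ j = -(etaB K μ j * etaB K μ i) := by
  by_cases hij : i = j
  · rw [hij, T2_eta_sq, neg_zero]
  refine LinearMap.ext fun c => funext fun I => funext fun m => ?_
  rw [LinearMap.neg_apply, Module.End.mul_apply, Module.End.mul_apply, Pi.neg_apply, Pi.neg_apply,
    T2_eta, T2_eta j, T2_eta j, T2_eta i]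
  by_cases hi : i ∈ I
  · by_cases hj : j ∈ I
    · rw [if_pos hi, if_pos hj, if_pos (Finset.mem_erase.mpr ⟨fun h => hij h.symm, hj⟩),
        if_pos (Finset.mem_erase.mpr ⟨hij, hi⟩), T2_sgB_erase j i I hi, T2_sgB_erase i j I hj,
        T2_lt hij, Finset.erase_right_comm]
      ring
    · rw [if_pos hi, if_neg hj, if_neg fun h => hj (Finset.mem_erase.mp h).2, mul_zero, neg_zero]
  · by_cases hj : j ∈ I
    · rw [if_neg hi, if_pos hj, if_neg fun h => hi (Finset.mem_erase.mp h).2, mul_zero, neg_zero]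
    · rw [if_neg hi, if_neg hj, neg_zero]

/-- JOB T2. -/
theorem etaB_sq (i : Fin r) : etaB K μ i * etaB K μ i = 0 := T2_eta_sq i

/-- JOB T2. -/
theorem delB_delB (i j : Fin r) : delB K μ i * delB K μ j = -(delB K μ j * delB K μ i) := by
  by_cases hij : i = j
  · rw [hij, T2_del_sq, neg_zero]
  refine LinearMap.ext fun c => funext fun I => funext fun m => ?_
  rw [LinearMap.neg_apply, Module.End.mul_apply, Module.End.mul_apply, Pi.neg_apply, Pi.neg_apply,
    T2_del, T2_del j, T2_del j, T2_del i]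
  by_cases hi : i ∈ I
  · by_cases hj : j ∈ I
    · rw [if_pos hi, if_pos hj, neg_zero]
    · rw [if_pos hi, if_neg hj, if_pos (Finset.mem_insert_of_mem hi), mul_zero, neg_zero]
  · by_cases hj : j ∈ I
    · rw [if_neg hi, if_pos hj, if_pos (Finset.mem_insert_of_mem hj), mul_zero, neg_zero]
    · rw [if_neg hi, if_neg hj,
        if_neg fun h => (Finset.mem_insert.mp h).elim (fun h => hij h.symm) hj,
        if_neg fun h => (Finset.mem_insert.mp h).elim hij hi, T2_sgB_insert j i I hi,
        T2_sgB_insert i j I hj, T2_lt hij, Finset.insert_comm]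
      ring

/-- JOB T2. -/
theorem delB_sq (i : Fin r) : delB K μ i * delB K μ i = 0 := T2_del_sq i

/-- JOB T2. -/
theorem delB_etaB (i j : Fin r) :
    delB K μ i * etaB K μ j + etaB K μ j * delB K μ i = if i = j then 1 else 0 := by
  have hs : ∀ (k : Fin r) (I : Finset (Fin r)),
      (-1 : MvPolynomial (Fin r) K) ^ sgB k I * (-1) ^ sgB k I = 1 := by
    intro k I
    rw [← mul_pow, neg_one_mul, neg_neg, one_pow]
  by_cases hij : i = j
  · subst hij
    rw [if_pos rfl]
    refine LinearMap.ext fun c => funext fun I => funext fun m => ?_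
    rw [LinearMap.add_apply, Module.End.mul_apply, Module.End.mul_apply, Pi.add_apply,
      Pi.add_apply, T2_del, T2_eta, T2_eta, T2_del]
    by_cases hi : i ∈ I
    · rw [if_pos hi, if_pos hi, if_neg (Finset.notMem_erase i I), T2_sgB_erase i i I hi,
        if_neg (lt_irrefl i), Finset.insert_erase hi, zero_add, one_mul, ← mul_assoc, hs, one_mul]
      rfl
    · rw [if_neg hi, if_neg hi, if_pos (Finset.mem_insert_self i I), T2_sgB_insert i i I hi,
        if_neg (lt_irrefl i), Finset.erase_insert hi, add_zero, one_mul, ← mul_assoc, hs, one_mul]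
      rfl
  · rw [if_neg hij]
    refine LinearMap.ext fun c => funext fun I => funext fun m => ?_
    rw [LinearMap.add_apply, Module.End.mul_apply, Module.End.mul_apply, Pi.add_apply,
      Pi.add_apply, T2_del, T2_eta, T2_eta, T2_del]
    by_cases hi : i ∈ I
    · rw [if_pos hi, if_pos (Finset.mem_erase.mpr ⟨hij, hi⟩), mul_zero, ite_self, add_zero]
      rfl
    · by_cases hj : j ∈ I
      · rw [if_neg hi, if_pos hj, if_pos (Finset.mem_insert_of_mem hj),
          if_neg fun h => hi (Finset.mem_erase.mp h).2, T2_sgB_insert j i I hi,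
          T2_sgB_erase i j I hj, T2_lt hij, Finset.erase_insert_of_ne hij]
        change _ = (0 : MvPolynomial (Fin r) K)
        ring
      · rw [if_neg hi, if_neg hj,
          if_neg fun h => (Finset.mem_insert.mp h).elim (fun h => hij h.symm) hj, mul_zero,
          add_zero]
        rfl

end

end QL
end

section

/-!
LinearBound (MP_c77682_nt), job T4. See table papers, id 368.
-/

set_option autoImplicit false

open MvPolynomial Matrix

namespace QL

section

variable {K : Type} [Field K] {r : ℕ} {μ : Type} [Fintype μ] [DecidableEq μ]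

section gen

variable {R A : Type} [CommRing R] [Ring A] [Algebra R A]

private theorem gen_neg {a b : A} (h : a + b = 0) : a = -b := eq_neg_of_add_eq_zero_left h

private theorem gen_inv {e d : A} (h1 : e * e = 0) (h2 : d * e + e * d = 0) (a b : R)
    (hab : b = -a) : (1 - a • (e * d)) * (1 - b • (e * d)) = 1 := by
  have h2' := gen_neg h2
  have h0 : (e * d) * (e * d) = 0 := by
    rw [mul_assoc, ← mul_assoc d, h2', neg_mul, mul_neg, ← mul_assoc,
      ← mul_assoc, h1, zero_mul, zero_mul, neg_zero]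
  rw [hab, neg_smul, sub_neg_eq_add, sub_mul, one_mul, mul_add, mul_one, smul_mul_assoc,
    mul_smul_comm, h0, smul_zero, smul_zero]
  abel

private theorem gen_sq {d d' : A} (h : d * d' = -(d' * d)) (h' : d' * d' = 0) :
    (d * d') * (d * d') = 0 := by
  have h1 : d' * (d * d') = 0 := by
    rw [h, mul_neg, ← mul_assoc, h', zero_mul, neg_zero]
  rw [mul_assoc, h1, mul_zero]

private theorem gen_QQ {d d' g g' : A} (h : d * d' = -(d' * d)) (h' : d' * d' = 0)
    (h1 : g' * d = d * g') (h2 : g' * d' = d' * g') (x y : R) :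
    (x • (g * (d * d'))) * (y • (g' * (d * d'))) = 0 := by
  have h3 : (d * d') * g' = g' * (d * d') := by
    rw [mul_assoc, ← h2, ← mul_assoc, ← h1, mul_assoc]
  rw [smul_mul_assoc, mul_smul_comm, mul_assoc, ← mul_assoc (d * d'), h3,
    mul_assoc g', gen_sq h h', mul_zero, mul_zero, smul_zero, smul_zero]

private theorem gen_comm {e d g : A} (h1 : g * e = e * g) (h2 : g * d = d * g) (a : R) :
    (1 - a • (e * d)) * g = g * (1 - a • (e * d)) := by
  rw [sub_mul, mul_sub, one_mul, mul_one, smul_mul_assoc, mul_smul_comm, mul_assoc, ← h2,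
    ← mul_assoc, ← h1, mul_assoc]

private theorem gen_E1 {ei ek dk : A} (h1 : dk * ek + ek * dk = 1) (h2 : ek * ei = -(ei * ek))
    (h3 : ei * ei = 0) (a : R) :
    (1 - a • (ei * dk)) * ek = (ek - a • ei) * (1 - a • (ei * dk)) := by
  have h1' : dk * ek = 1 - ek * dk := eq_sub_of_add_eq h1
  have k1 : (ei * dk) * ek = ei - ei * (ek * dk) := by
    rw [mul_assoc, h1', mul_sub, mul_one]
  have k2 : ek * (ei * dk) = -(ei * (ek * dk)) := by
    rw [← mul_assoc, h2, neg_mul, mul_assoc]
  have k3 : ei * (ei * dk) = 0 := by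
    rw [← mul_assoc, h3, zero_mul]
  rw [sub_mul, one_mul, smul_mul_assoc, k1, sub_mul, mul_sub, mul_one, mul_smul_comm, k2,
    mul_sub, mul_one, mul_smul_comm, smul_mul_assoc, k3, smul_zero, smul_zero, smul_sub,
    smul_neg]
  abel

private theorem gen_E2 {ei ek dj : A} (h1 : dj * ek + ek * dj = 0) (h2 : ei * ek = -(ek * ei))
    (a : R) : (1 - a • (ei * dj)) * ek = ek * (1 - a • (ei * dj)) := by
  have h1' := gen_neg h1
  have k1 : (ei * dj) * ek = ek * (ei * dj) := by
    rw [mul_assoc, h1', mul_neg, ← mul_assoc, h2, neg_mul, neg_neg, mul_assoc]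
  rw [sub_mul, one_mul, smul_mul_assoc, k1, mul_sub, mul_one, mul_smul_comm]

private theorem gen_D1 {ek dk dj : A} (h1 : dk * ek + ek * dk = 1) (h2 : dj * dk = -(dk * dj))
    (h3 : dj * dj = 0) (h4 : dj * ek + ek * dj = 0) (a : R) :
    (1 - a • (ek * dj)) * dk = (dk + a • dj) * (1 - a • (ek * dj)) := by
  have h1' : dk * ek = 1 - ek * dk := eq_sub_of_add_eq h1
  have h4' := gen_neg h4
  have k1 : (ek * dj) * dk = -(ek * (dk * dj)) := by
    rw [mul_assoc, h2, mul_neg]
  have k2 : dk * (ek * dj) = dj - ek * (dk * dj) := by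
    rw [← mul_assoc, h1', sub_mul, one_mul, mul_assoc]
  have k3 : dj * (ek * dj) = 0 := by
    rw [← mul_assoc, h4', neg_mul, mul_assoc, h3, mul_zero, neg_zero]
  rw [sub_mul, one_mul, smul_mul_assoc, k1, add_mul, mul_sub, mul_one, mul_smul_comm, k2,
    mul_sub, mul_one, mul_smul_comm, smul_mul_assoc, k3, smul_zero, smul_zero, smul_sub,
    smul_neg]
  abel

private theorem gen_D2 {ei dk dj : A} (h1 : dk * ei + ei * dk = 0) (h2 : dj * dk = -(dk * dj))
    (a : R) : (1 - a • (ei * dj)) * dk = dk * (1 - a • (ei * dj)) := by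
  have h1' := gen_neg h1
  have k1 : (ei * dj) * dk = dk * (ei * dj) := by
    rw [mul_assoc, h2, mul_neg, ← mul_assoc, ← mul_assoc, h1', neg_mul]
  rw [sub_mul, one_mul, smul_mul_assoc, k1, mul_sub, mul_one, mul_smul_comm]

end gen

private theorem dE0 {i j : Fin r} (hij : i ≠ j) :
    delB K μ i * etaB K μ j + etaB K μ j * delB K μ i = 0 := by
  rw [delB_etaB, if_neg hij]

private theorem dE1 (i : Fin r) :
    delB K μ i * etaB K μ i + etaB K μ i * delB K μ i = 1 := by
  rw [delB_etaB, if_pos rfl]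

/-- JOB T4. -/
theorem PsB_inv {i j : Fin r} (hij : i ≠ j) (α : K) :
    PsB μ i j α * PsB μ i j (-α) = 1 :=
  gen_inv (R := MvPolynomial (Fin r) K) (etaB_sq i) (dE0 hij.symm) (C α) (C (-α)) (map_neg C α)

/-- JOB T4. -/
theorem QB_sq (i j : Fin r) (P P' : Matrix μ μ K) : QB i j P * QB i j P' = 0 :=
  gen_QQ (R := MvPolynomial (Fin r) K) (delB_delB i j) (delB_sq j) (gmB_delB P' i)
    (gmB_delB P' j) (X i) (X i)

private theorem PsB_gmB (i j : Fin r) (α : K) (M : Matrix μ μ K) :
    PsB μ i j α * gmB M = gmB M * PsB μ i j α :=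
  gen_comm (R := MvPolynomial (Fin r) K) (gmB_etaB M i) (gmB_delB M j) (C α)

private theorem PsB_etaB {i j : Fin r} (hij : i ≠ j) (α : K) (k : Fin r) :
    PsB μ i j α * etaB K μ k =
      (etaB K μ k - (if k = j then (C α : MvPolynomial (Fin r) K) • etaB K μ i else 0)) *
        PsB μ i j α := by
  by_cases hk : k = j
  · subst hk
    rw [if_pos rfl]
    exact gen_E1 (R := MvPolynomial (Fin r) K) (dE1 k) (etaB_etaB k i) (etaB_sq i) (C α)
  · rw [if_neg hk, sub_zero]
    exact gen_E2 (R := MvPolynomial (Fin r) K) (dE0 (Ne.symm hk)) (etaB_etaB i k) (C α)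

private theorem PsB_delB {i j : Fin r} (hij : i ≠ j) (α : K) (k : Fin r) :
    PsB μ i j α * delB K μ k =
      (delB K μ k + (if k = i then (C α : MvPolynomial (Fin r) K) • delB K μ j else 0)) *
        PsB μ i j α := by
  by_cases hk : k = i
  · subst hk
    rw [if_pos rfl]
    exact gen_D1 (R := MvPolynomial (Fin r) K) (dE1 k) (delB_delB j k) (delB_sq j)
      (dE0 hij.symm) (C α)
  · rw [if_neg hk, add_zero]
    exact gen_D2 (R := MvPolynomial (Fin r) K) (dE0 hk) (delB_delB j k) (C α)

/-- JOB T4. Conjugation by `Ψ`: with `G' = update G i (G i + α G j)`,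
`Ψ d_{G'} = (∑ G_k η_k + t_i (G_i + α G_j)^(p-1) (∂_i + α ∂_j) + ∑_{k ≠ i} t_k G_k^(p-1) ∂_k) Ψ`.

PROOF. `Ψ η_j = (η_j - α η_i) Ψ`, `Ψ η_k = η_k Ψ` (`k ≠ j`), `Ψ ∂_i = (∂_i + α ∂_j) Ψ`, `Ψ ∂_k = ∂_k Ψ` (`k ≠ i`): from the
relations T2. Then `∑ G'_k (Ψ η_k Ψ⁻¹) = (G_i + α G_j) η_i + G_j (η_j - α η_i) + … = ∑ G_k η_k`. -/
theorem PsB_dB {p : ℕ} (G : Fin r → Matrix μ μ K) {i j : Fin r} (hij : i ≠ j) (α : K) :
    PsB μ i j α * dB p (Function.update G i (G i + α • G j)) =
      (∑ k, gmB (G k) * etaB K μ k +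
        (X i : MvPolynomial (Fin r) K) • (gmB ((G i + α • G j) ^ (p - 1)) *
          (delB K μ i + (C α : MvPolynomial (Fin r) K) • delB K μ j)) +
        ∑ k ∈ Finset.univ.erase i,
          (X k : MvPolynomial (Fin r) K) • (gmB (G k ^ (p - 1)) * delB K μ k)) * PsB μ i j α := by
  rw [dB_eq, mul_add, Finset.mul_sum, Finset.mul_sum]
  have hA : ∀ k, PsB μ i j α * (gmB (Function.update G i (G i + α • G j) k) * etaB K μ k) =
      (gmB (G k) * etaB K μ k +
        ((if k = i then (C α : MvPolynomial (Fin r) K) • (gmB (G j) * etaB K μ i) else 0) -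
          (if k = j then (C α : MvPolynomial (Fin r) K) • (gmB (G j) * etaB K μ i) else 0))) *
        PsB μ i j α := by
    intro k
    rw [← mul_assoc, PsB_gmB, mul_assoc, PsB_etaB hij, ← mul_assoc]
    congr 1
    by_cases hk : k = i
    · subst hk
      rw [if_neg hij, if_pos rfl, if_neg hij, Function.update_self, gmB_add, gmB_smul, sub_zero,
        sub_zero, add_mul, smul_mul_assoc]
    · rw [Function.update_of_ne hk, if_neg hk]
      by_cases hk2 : k = j
      · subst hk2
        rw [if_pos rfl, if_pos rfl, mul_sub, mul_smul_comm, zero_sub, sub_eq_add_neg]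
      · rw [if_neg hk2, if_neg hk2, sub_zero, sub_zero, add_zero]
  have hB : ∀ k, PsB μ i j α * ((X k : MvPolynomial (Fin r) K) •
        (gmB (Function.update G i (G i + α • G j) k ^ (p - 1)) * delB K μ k)) =
      ((X k : MvPolynomial (Fin r) K) •
        (gmB (Function.update G i (G i + α • G j) k ^ (p - 1)) *
          (delB K μ k + (if k = i then (C α : MvPolynomial (Fin r) K) • delB K μ j else 0)))) *
        PsB μ i j α := by
    intro k
    rw [mul_smul_comm, ← mul_assoc, PsB_gmB, mul_assoc, PsB_delB hij, ← mul_assoc, smul_mul_assoc]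
  rw [Finset.sum_congr rfl fun k _ => hA k, Finset.sum_congr rfl fun k _ => hB k,
    ← Finset.sum_mul, ← Finset.sum_mul, ← add_mul]
  congr 1
  rw [Finset.sum_add_distrib, Finset.sum_sub_distrib, Finset.sum_ite_eq' Finset.univ i,
    Finset.sum_ite_eq' Finset.univ j, if_pos (Finset.mem_univ _), if_pos (Finset.mem_univ _),
    sub_self, add_zero, add_assoc]
  congr 1
  rw [← Finset.add_sum_erase Finset.univ _ (Finset.mem_univ i), Function.update_self, if_pos rfl]
  congr 1
  refine Finset.sum_congr rfl fun k hk => ?_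
  have hki : k ≠ i := (Finset.mem_erase.mp hk).1
  rw [Function.update_of_ne hki, if_neg hki, add_zero]

end

end QL
end
end

section

section

/-!
LinearBound (MP_c77682_nt), job T3. See table papers, id 368.
-/

set_option autoImplicit false

open MvPolynomial Matrix

namespace QL

section

variable {K : Type} [Field K] {r : ℕ} {μ : Type} [Fintype μ] [DecidableEq μ]

private theorem addPowT3 {n : ℕ} (α : K) (G H : Matrix μ μ K) (hGH : G * H = H * G) :
    (G + α • H) ^ n =
      ∑ k ∈ Finset.range (n + 1), (n.choose k : K) • (α ^ k • (H ^ k * G ^ (n - k))) := by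
  have hc : Commute (α • H) G := (Commute.symm hGH).smul_left α
  rw [add_comm, hc.add_pow]
  refine Finset.sum_congr rfl fun k _ => ?_
  rw [smul_pow, Matrix.smul_mul, ← nsmul_eq_mul', Nat.cast_smul_eq_nsmul]

/-- JOB T3. PROOF. Binomial theorem for commuting matrices (`Commute.add_pow`). -/
theorem PP_one {p : ℕ} (hp : 2 ≤ p) (α : K) (G H : Matrix μ μ K) (hGH : G * H = H * G) :
    (G + α • H) ^ (p - 1) = G ^ (p - 1) + H * PP p α G H := by
  obtain ⟨n, rfl⟩ : ∃ n, p = n + 1 := ⟨p - 1, by omega⟩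
  have h1 := addPowT3 (n := n) α G H hGH
  rw [Nat.add_sub_cancel, h1, Finset.sum_range_succ', add_comm]
  congr 1
  · simp
  · rw [PP, Finset.mul_sum]
    refine Finset.sum_congr ?_ fun k hk => ?_
    · rw [Nat.add_sub_cancel]
    · rw [Nat.add_sub_cancel, Matrix.mul_smul, Matrix.mul_smul, ← mul_assoc, ← pow_succ']
      rw [show n - (k + 1) = n + 1 - 2 - k by omega]

/-- JOB T3. PROOF. Binomial theorem and `choose (p-1) k + choose (p-1) (k+1) = choose p (k+1) = 0` in `K` for
`k + 1 < p`. -/
theorem PP_two {p : ℕ} [Fact p.Prime] [CharP K p] (α : K) (G H : Matrix μ μ K)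
    (hGH : G * H = H * G) :
    α • (G + α • H) ^ (p - 1) - α ^ p • H ^ (p - 1) = -(G * PP p α G H) := by
  have hp := (Fact.out : p.Prime)
  have hp2 := hp.two_le
  obtain ⟨n, rfl⟩ : ∃ n, p = n + 1 := ⟨p - 1, by omega⟩
  have h1 := addPowT3 (n := n) α G H hGH
  rw [Nat.add_sub_cancel, h1, Finset.sum_range_succ, smul_add, PP, Finset.mul_sum,
    Nat.add_sub_cancel, Finset.smul_sum]
  have h2 : α • ((n.choose n : K) • (α ^ n • (H ^ n * G ^ (n - n)))) = α ^ (n + 1) • H ^ n := by
    rw [Nat.choose_self, Nat.cast_one, one_smul, Nat.sub_self, pow_zero, mul_one, smul_smul,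
      ← pow_succ']
  rw [h2, add_sub_cancel_right, ← Finset.sum_neg_distrib]
  refine Finset.sum_congr rfl fun k hk => ?_
  rw [Finset.mem_range] at hk
  have h3 : ((n.choose k : K)) = -((n.choose (k + 1) : K)) := by
    rw [eq_neg_iff_add_eq_zero, ← Nat.cast_add, ← Nat.choose_succ_succ, CharP.cast_eq_zero_iff K (n + 1)]
    exact hp.dvd_choose_self (by omega) (by omega)
  have hc : Commute G (H ^ k) := Commute.pow_right hGH k
  rw [Matrix.mul_smul, Matrix.mul_smul, ← mul_assoc, hc.eq, mul_assoc, ← pow_succ', h3,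
    show n + 1 - 2 - k + 1 = n - k by omega, neg_smul, smul_neg, smul_comm α, smul_smul α,
    ← pow_succ']

end

end QL
end

section

/-!
LinearBound (MP_c77682_nt), job T5. See table papers, id 368.
-/

set_option autoImplicit false

open MvPolynomial Matrix

namespace QL

section

variable {K : Type} [Field K] {r : ℕ} {μ : Type} [Fintype μ] [DecidableEq μ]

private theorem T5_PP_comm {p : ℕ} (α : K) (G H L : Matrix μ μ K) (h1 : G * L = L * G)
    (h2 : H * L = L * H) : PP p α G H * L = L * PP p α G H := by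
  have hG : Commute G L := h1
  have hH : Commute H L := h2
  have h : Commute (PP p α G H) L := by
    unfold PP
    refine Commute.sum_left _ _ _ fun k _ => ?_
    exact Commute.smul_left (Commute.smul_left ((hH.pow_left _).mul_left (hG.pow_left _)) _) _
  exact h

/-- the abstract computation -/
private theorem T5_abs {R A ι : Type} [CommRing R] [Ring A] [Algebra R A] [Fintype ι]
    [DecidableEq ι] (E D u w : ι → A) (P v : A) (x : ι → R) (a b : R) {i j : ι} (hij : i ≠ j)
    (hDE : ∀ k l, D k * E l + E l * D k = if k = l then 1 else 0)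
    (hDD : ∀ k l, D k * D l = -(D l * D k)) (hD2 : ∀ k, D k * D k = 0)
    (huD : ∀ k l, u k * D l = D l * u k)
    (hwD : ∀ k l, w k * D l = D l * w k) (hPE : ∀ l, P * E l = E l * P)
    (hPD : ∀ l, P * D l = D l * P) (hPu : ∀ l, P * u l = u l * P) (hPw : ∀ l, P * w l = w l * P)
    (hv : v = w i + u j * P) (hv2 : a • v - b • w j = -(u i * P)) :
    (1 - x i • (P * (D i * D j))) *
      (∑ k, u k * E k + x i • (v * (D i + a • D j)) + (x j - b * x i) • (w j * D j) +
        ∑ k ∈ (Finset.univ.erase i).erase j, x k • (w k * D k)) =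
      (∑ k, u k * E k + ∑ k, x k • (w k * D k)) * (1 - x i • (P * (D i * D j))) := by
  have hji : j ∈ Finset.univ.erase i := Finset.mem_erase.mpr ⟨hij.symm, Finset.mem_univ _⟩
  have hS : ∑ k, x k • (w k * D k) = x i • (w i * D i) + (x j • (w j * D j) +
      ∑ k ∈ (Finset.univ.erase i).erase j, x k • (w k * D k)) := by
    rw [Finset.add_sum_erase _ (fun k => x k • (w k * D k)) hji,
      Finset.add_sum_erase _ (fun k => x k • (w k * D k)) (Finset.mem_univ i)]
  -- `D'' = D + x_i (u_j P D_i - u_i P D_j)`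
  have hDD' : (∑ k, u k * E k + x i • (v * (D i + a • D j)) + (x j - b * x i) • (w j * D j) +
        ∑ k ∈ (Finset.univ.erase i).erase j, x k • (w k * D k)) =
      ∑ k, u k * E k + ∑ k, x k • (w k * D k) + x i • (u j * P * D i - u i * P * D j) := by
    rw [hS]
    have e1 : v * (D i + a • D j) = w i * D i + u j * P * D i + (a • v) * D j := by
      rw [mul_add, mul_smul_comm, smul_mul_assoc]
      congr 1
      rw [hv, add_mul]
    have e2 : a • v = b • w j - u i * P := by
      rw [sub_eq_iff_eq_add.mp hv2]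
      abel
    rw [e1, e2, sub_mul, smul_mul_assoc, sub_smul, smul_add, smul_add, smul_sub, smul_sub,
      smul_smul, mul_comm (x i) b]
    abel
  rw [hDD']
  set Q : A := P * (D i * D j) with hQ
  -- `D_i D_j` commutes with `D_k`
  have c1 : ∀ k, D i * D j * D k = D k * (D i * D j) := by
    intro k
    rw [mul_assoc, hDD j k, mul_neg, ← mul_assoc, hDD i k, neg_mul, neg_neg, mul_assoc]
  -- the commutator with `E_k`
  have c2 : ∀ k, D i * D j * E k = E k * (D i * D j) + ((if j = k then D i else 0) -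
      (if i = k then D j else 0)) := by
    intro k
    have h1 : D j * E k = (if j = k then 1 else 0) - E k * D j := by
      rw [← hDE j k]; abel
    have h2 : D i * E k = (if i = k then 1 else 0) - E k * D i := by
      rw [← hDE i k]; abel
    rw [mul_assoc, h1, mul_sub, ← mul_assoc, h2, sub_mul, mul_assoc]
    split_ifs
    · simp only [one_mul, mul_one]
      abel
    · simp only [mul_one, zero_mul, zero_sub, sub_zero]
      abel
    · simp only [one_mul, mul_zero, zero_sub]
      abel
    · simp only [zero_sub, sub_zero, mul_zero, add_zero, zero_mul, neg_neg]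
  have cQw : ∀ k, Q * (w k * D k) = (w k * D k) * Q := by
    intro k
    have e1 : Q * (w k * D k) = w k * P * (D i * D j * D k) := by
      rw [hQ]
      calc P * (D i * D j) * (w k * D k) = P * (D i * (D j * w k) * D k) := by
            simp only [mul_assoc]
        _ = P * (w k * (D i * D j * D k)) := by
            rw [← hwD k j, ← mul_assoc (D i), ← hwD k i]
            simp only [mul_assoc]
        _ = w k * P * (D i * D j * D k) := by
            rw [← mul_assoc, hPw]
    have e2 : (w k * D k) * Q = w k * P * (D k * (D i * D j)) := by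
      rw [hQ]
      calc w k * D k * (P * (D i * D j)) = w k * (D k * P) * (D i * D j) := by
            simp only [mul_assoc]
        _ = w k * P * (D k * (D i * D j)) := by
            rw [← hPD k]
            simp only [mul_assoc]
    rw [e1, e2, c1]
  have cQu : ∀ k, Q * (u k * E k) = (u k * E k) * Q + u k * P *
      ((if j = k then D i else 0) - (if i = k then D j else 0)) := by
    intro k
    have e1 : Q * (u k * E k) = u k * P * (D i * D j * E k) := by
      rw [hQ]
      calc P * (D i * D j) * (u k * E k) = P * (D i * (D j * u k) * E k) := by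
            simp only [mul_assoc]
        _ = P * (u k * (D i * D j * E k)) := by
            rw [← huD k j, ← mul_assoc (D i), ← huD k i]
            simp only [mul_assoc]
        _ = u k * P * (D i * D j * E k) := by
            rw [← mul_assoc, hPu]
    have e2 : (u k * E k) * Q = u k * P * (E k * (D i * D j)) := by
      rw [hQ]
      calc u k * E k * (P * (D i * D j)) = u k * (E k * P) * (D i * D j) := by
            simp only [mul_assoc]
        _ = u k * P * (E k * (D i * D j)) := by
            rw [← hPE k]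
            simp only [mul_assoc]
    rw [e1, e2, c2, mul_add]
  have sQw : Q * ∑ k, x k • (w k * D k) = (∑ k, x k • (w k * D k)) * Q := by
    rw [Finset.mul_sum, Finset.sum_mul]
    refine Finset.sum_congr rfl fun k _ => ?_
    rw [mul_smul_comm, smul_mul_assoc, cQw]
  have sQu : Q * ∑ k, u k * E k = (∑ k, u k * E k) * Q + (u j * P * D i - u i * P * D j) := by
    rw [Finset.mul_sum, Finset.sum_mul, Finset.sum_congr rfl fun k _ => cQu k,
      Finset.sum_add_distrib]
    congr 1
    simp only [mul_sub, Finset.sum_sub_distrib, mul_ite, mul_zero, Finset.sum_ite_eq,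
      Finset.mem_univ, if_true]
  -- `Q (u_j P D_i - u_i P D_j) = 0`
  have z1 : Q * (u j * P * D i) = 0 := by
    rw [hQ]
    calc P * (D i * D j) * (u j * P * D i) = P * (D i * (D j * u j) * P * D i) := by
          simp only [mul_assoc]
      _ = P * (u j * P * (D i * D j * D i)) := by
          rw [← huD j j, ← mul_assoc (D i), ← huD j i]
          have : u j * D i * D j * P * D i = u j * (D i * (D j * P)) * D i := by
            simp only [mul_assoc]
          rw [this, ← hPD j, ← mul_assoc (D i), ← hPD i]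
          simp only [mul_assoc]
      _ = 0 := by
          rw [c1 i, ← mul_assoc (D i), hD2, zero_mul, mul_zero, mul_zero]
  have z2 : Q * (u i * P * D j) = 0 := by
    rw [hQ]
    calc P * (D i * D j) * (u i * P * D j) = P * (D i * (D j * u i) * P * D j) := by
          simp only [mul_assoc]
      _ = P * (u i * P * (D i * D j * D j)) := by
          rw [← huD i j, ← mul_assoc (D i), ← huD i i]
          have : u i * D i * D j * P * D j = u i * (D i * (D j * P)) * D j := by
            simp only [mul_assoc]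
          rw [this, ← hPD j, ← mul_assoc (D i), ← hPD i]
          simp only [mul_assoc]
      _ = 0 := by
          rw [mul_assoc (D i), hD2, mul_zero, mul_zero, mul_zero]
  set S1 : A := ∑ k, u k * E k with hS1
  set S2 : A := ∑ k, x k • (w k * D k) with hS2
  set W : A := u j * P * D i - u i * P * D j with hW
  have z3 : Q * W = 0 := by rw [hW, mul_sub, z1, z2, sub_zero]
  rw [sub_mul, one_mul, mul_sub, mul_one, smul_mul_assoc, mul_add, mul_add, sQu, sQw,
    mul_smul_comm, z3, smul_zero, add_zero, mul_smul_comm, add_mul, smul_add, smul_add, smul_add]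
  abel

/-- JOB T5. Conjugation by `1 - Q`.

PROOF. Let `D = d_G`, `D'' = ∑ G_k η_k + t_i v^(p-1) (∂_i + α ∂_j) + (t_j - α^p t_i) G_j^(p-1) ∂_j + (other k)`,
`v = G_i + α G_j`, `P = PP p α (G i) (G j)`, `Q = QB i j P`. By `PP_one`, `PP_two`:
`D'' - D = t_i P (G_j ∂_i - G_i ∂_j)`. From T2: `(∑ G_k η_k) ∂_i ∂_j - ∂_i ∂_j (∑ G_k η_k) = G_i ∂_j - G_j ∂_i` and
the `∂`-part of `D` commutes with `∂_i ∂_j`, so `D Q - Q D = t_i P (G_i ∂_j - G_j ∂_i) = D - D''`. As `Q D Q = Q (D Q - Q D) =
Q (D - D'') = 0` (three contractions `∂_i ∂_j ∂_i = 0`), `(1 - Q) D'' = (1 - Q)(D - D Q + Q D) = D - D Q + Q D - Q D +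
Q D Q - Q Q D = D (1 - Q)`. -/
theorem QB_dB {p : ℕ} [Fact p.Prime] [CharP K p] {deg : μ → ℕ} {G : Fin r → Matrix μ μ K}
    (hG : SysM p deg G) {i j : Fin r} (hij : i ≠ j) (α : K) :
    (1 - QB i j (PP p α (G i) (G j))) *
      (∑ k, gmB (G k) * etaB K μ k +
        (X i : MvPolynomial (Fin r) K) • (gmB ((G i + α • G j) ^ (p - 1)) *
          (delB K μ i + (C α : MvPolynomial (Fin r) K) • delB K μ j)) +
        (X j - C (α ^ p) * X i : MvPolynomial (Fin r) K) • (gmB (G j ^ (p - 1)) * delB K μ j) +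
        ∑ k ∈ (Finset.univ.erase i).erase j,
          (X k : MvPolynomial (Fin r) K) • (gmB (G k ^ (p - 1)) * delB K μ k)) =
      dB p G * (1 - QB i j (PP p α (G i) (G j))) := by
  have hp : p.Prime := Fact.out
  have hPG : ∀ l, PP p α (G i) (G j) * G l = G l * PP p α (G i) (G j) := fun l =>
    T5_PP_comm α _ _ _ (hG.comm i l) (hG.comm j l)
  have hPw : ∀ l, PP p α (G i) (G j) * G l ^ (p - 1) = G l ^ (p - 1) * PP p α (G i) (G j) :=
    fun l => (show Commute (PP p α (G i) (G j)) (G l) from hPG l).pow_right _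
  rw [dB_eq]
  unfold QB
  refine T5_abs (R := MvPolynomial (Fin r) K) (A := Module.End (MvPolynomial (Fin r) K) (CB K r μ))
    (fun k => etaB K μ k) (fun k => delB K μ k) (fun k => gmB (G k))
    (fun k => gmB (G k ^ (p - 1))) (gmB (PP p α (G i) (G j))) (gmB ((G i + α • G j) ^ (p - 1)))
    (fun k => X k) (C α) (C (α ^ p)) hij (fun k l => delB_etaB k l) (fun k l => delB_delB k l)
    (fun k => delB_sq k) (fun k l => gmB_delB _ _) (fun k l => gmB_delB _ _)
    (fun l => gmB_etaB _ _) (fun l => gmB_delB _ _) (fun l => ?_) (fun l => ?_) ?_ ?_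
  · rw [← gmB_mul, ← gmB_mul, hPG]
  · rw [← gmB_mul, ← gmB_mul, hPw]
  · rw [PP_one hp.two_le α (G i) (G j) (hG.comm i j), gmB_add, gmB_mul]
  · have h := PP_two (p := p) α (G i) (G j) (hG.comm i j)
    have h2 : (gmB (α • (G i + α • G j) ^ (p - 1)) :
        Module.End (MvPolynomial (Fin r) K) (CB K r μ)) =
        gmB (α ^ p • G j ^ (p - 1) + -(G i * PP p α (G i) (G j))) := by
      rw [← h]
      congr 1
      abel
    have h3 : (-(G i * PP p α (G i) (G j)) : Matrix μ μ K) =
        (-1 : K) • (G i * PP p α (G i) (G j)) := by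
      rw [neg_one_smul]
    rw [gmB_smul, gmB_add, gmB_smul, h3, gmB_smul, gmB_mul] at h2
    have h4 : ∀ Z : Module.End (MvPolynomial (Fin r) K) (CB K r μ),
        (C (-1 : K) : MvPolynomial (Fin r) K) • Z = -Z := by
      intro Z
      rw [map_neg, map_one]
      refine LinearMap.ext fun c => ?_
      simp
    rw [h2, h4]
    abel

end

end QL
end

section

/-!
LinearBound (MP_c77682_nt), job T6. See table papers, id 368.
-/

set_option autoImplicit false

open MvPolynomial Matrix

namespace QL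

section

variable {K : Type} [Field K] {r : ℕ} {μ : Type} [Fintype μ] [DecidableEq μ]

private theorem T6_sgT_C (i j : Fin r) (β a : K) : sgT K i j β (C a) = C a := by
  unfold sgT
  rw [aeval_C]
  rfl

private theorem T6_sgT_Xj (i j : Fin r) (β : K) : sgT K i j β (X j) = X j - C β * X i := by
  unfold sgT
  rw [aeval_X, if_pos rfl]

private theorem T6_sgT_X {i j k : Fin r} (h : k ≠ j) (β : K) : sgT K i j β (X k) = X k := by
  unfold sgT
  rw [aeval_X, if_neg h]

private theorem T6_sgT_inv {i j : Fin r} (hij : i ≠ j) (β : K) (x : MvPolynomial (Fin r) K) :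
    sgT K i j β (sgT K i j (-β) x) = x := by
  have h : (sgT K i j β).comp (sgT K i j (-β)) = AlgHom.id K _ := by
    apply MvPolynomial.algHom_ext
    intro k
    rw [AlgHom.comp_apply, AlgHom.id_apply]
    by_cases hk : k = j
    · rw [hk, T6_sgT_Xj, map_sub, map_mul, T6_sgT_C, T6_sgT_Xj, T6_sgT_X hij, map_neg]
      ring
    · rw [T6_sgT_X hk, T6_sgT_X hk]
  exact AlgHom.congr_fun h x

/-- `sgTB` as an additive map. -/
private noncomputable def T6_S (i j : Fin r) (β : K) : CB K r μ →+ CB K r μ where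
  toFun := sgTB i j β
  map_zero' := by
    funext I m
    exact map_zero _
  map_add' c c' := by
    funext I m
    exact map_add _ _ _

private theorem T6_inv {i j : Fin r} (hij : i ≠ j) (β : K) (c : CB K r μ) :
    T6_S i j β (T6_S i j (-β) c) = c := by
  funext I m
  exact T6_sgT_inv hij β (c I m)

private theorem T6_smul (i j : Fin r) (β : K) (q : MvPolynomial (Fin r) K) (c : CB K r μ) :
    T6_S i j β (q • c) = sgT K i j β q • T6_S i j β c := by
  funext I m
  exact map_mul (sgT K i j β) q (c I m)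

private theorem T6_eta (i j k : Fin r) (β : K) (c : CB K r μ) :
    T6_S i j β (etaB K μ k c) = etaB K μ k (T6_S i j β c) := by
  funext I m
  change sgT K i j β (if k ∈ I then (-1 : MvPolynomial (Fin r) K) ^ sgB k I * c (I.erase k) m
    else 0) = if k ∈ I then (-1 : MvPolynomial (Fin r) K) ^ sgB k I *
      sgT K i j β (c (I.erase k) m) else 0
  split_ifs
  · rw [map_mul, map_pow, map_neg, map_one]
  · rw [map_zero]

private theorem T6_del (i j k : Fin r) (β : K) (c : CB K r μ) :
    T6_S i j β (delB K μ k c) = delB K μ k (T6_S i j β c) := by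
  funext I m
  change sgT K i j β (if k ∈ I then 0 else (-1 : MvPolynomial (Fin r) K) ^ sgB k I *
    c (insert k I) m) = if k ∈ I then 0 else (-1 : MvPolynomial (Fin r) K) ^ sgB k I *
      sgT K i j β (c (insert k I) m)
  split_ifs
  · rw [map_zero]
  · rw [map_mul, map_pow, map_neg, map_one]

private theorem T6_gm (i j : Fin r) (β : K) (M : Matrix μ μ K) (c : CB K r μ) :
    T6_S i j β (gmB M c) = gmB M (T6_S i j β c) := by
  funext I m
  change sgT K i j β (∑ m', C (M m m') * c I m') = ∑ m', C (M m m') * sgT K i j β (c I m')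
  rw [map_sum]
  refine Finset.sum_congr rfl fun m' _ => ?_
  rw [map_mul, T6_sgT_C]

private theorem T6_D {p : ℕ} (G : Fin r → Matrix μ μ K) {i j : Fin r} (hij : i ≠ j) (α : K)
    (x : CB K r μ) :
    T6_S i j (α ^ p) ((∑ k, gmB (G k) * etaB K μ k +
        (X i : MvPolynomial (Fin r) K) • (gmB ((G i + α • G j) ^ (p - 1)) *
          (delB K μ i + (C α : MvPolynomial (Fin r) K) • delB K μ j)) +
        ∑ k ∈ Finset.univ.erase i,
          (X k : MvPolynomial (Fin r) K) • (gmB (G k ^ (p - 1)) * delB K μ k) :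
            Module.End (MvPolynomial (Fin r) K) (CB K r μ)) x) =
      (∑ k, gmB (G k) * etaB K μ k +
        (X i : MvPolynomial (Fin r) K) • (gmB ((G i + α • G j) ^ (p - 1)) *
          (delB K μ i + (C α : MvPolynomial (Fin r) K) • delB K μ j)) +
        (X j - C (α ^ p) * X i : MvPolynomial (Fin r) K) • (gmB (G j ^ (p - 1)) * delB K μ j) +
        ∑ k ∈ (Finset.univ.erase i).erase j,
          (X k : MvPolynomial (Fin r) K) • (gmB (G k ^ (p - 1)) * delB K μ k) :
            Module.End (MvPolynomial (Fin r) K) (CB K r μ)) (T6_S i j (α ^ p) x) := by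
  have hj : j ∈ (Finset.univ : Finset (Fin r)).erase i :=
    Finset.mem_erase.2 ⟨hij.symm, Finset.mem_univ j⟩
  rw [← Finset.add_sum_erase _ _ hj]
  simp only [LinearMap.add_apply, LinearMap.sum_apply, LinearMap.smul_apply, Module.End.mul_apply,
    map_add, map_sum, T6_smul, T6_eta, T6_del, T6_gm, T6_sgT_C, T6_sgT_Xj, T6_sgT_X hij, map_smul]
  rw [← add_assoc]
  congr 1
  refine Finset.sum_congr rfl fun k hk => ?_
  rw [T6_sgT_X (Finset.mem_erase.1 hk).1]

private theorem T6_LB_S {p : ℕ} {deg : μ → ℕ} {ℓ : ℤ} (i j : Fin r) (β : K) {c : CB K r μ}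
    (hc : c ∈ LB K p deg ℓ) : T6_S i j β c ∈ LB K p deg ℓ := by
  intro I m hm
  change sgT K i j β (c I m) = 0
  rw [hc I m hm, map_zero]

private theorem T6_LB_Ps {p : ℕ} {deg : μ → ℕ} {ℓ : ℤ} {i j : Fin r} (hij : i ≠ j) (α : K)
    {c : CB K r μ} (hc : c ∈ LB K p deg ℓ) : PsB μ i j α c ∈ LB K p deg ℓ := by
  have h1 : etaB K μ i (delB K μ j c) ∈ LB K p deg ℓ := by
    intro I m hm
    change (if i ∈ I then (-1 : MvPolynomial (Fin r) K) ^ sgB i I *
      (if j ∈ I.erase i then 0 else (-1 : MvPolynomial (Fin r) K) ^ sgB j (I.erase i) *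
        c (insert j (I.erase i)) m) else 0) = 0
    split_ifs with h2 h3
    · rw [mul_zero]
    · rw [hc, mul_zero, mul_zero]
      rw [Finset.card_insert_of_notMem h3, Finset.card_erase_of_mem h2]
      have h4 : 0 < I.card := Finset.card_pos.2 ⟨i, h2⟩
      rwa [Nat.sub_add_cancel h4]
    · rfl
  have h5 : PsB μ i j α c = c - (C α : MvPolynomial (Fin r) K) • etaB K μ i (delB K μ j c) := rfl
  rw [h5]
  exact Submodule.sub_mem _ hc (Submodule.smul_mem _ _ h1)

private theorem T6_pow_deg {deg : μ → ℕ} {G : Matrix μ μ K}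
    (hG : ∀ m m', G m m' ≠ 0 → deg m = deg m' + 2) (n : ℕ) :
    ∀ m m', (G ^ n) m m' ≠ 0 → deg m = deg m' + 2 * n := by
  induction n with
  | zero =>
    intro m m' h
    rw [pow_zero] at h
    have h1 : m = m' := by
      by_contra h2
      exact h (Matrix.one_apply_ne h2)
    rw [h1]
    rfl
  | succ n ih =>
    intro m m' h
    rw [pow_succ, Matrix.mul_apply] at h
    obtain ⟨m'', _, hm⟩ := Finset.exists_ne_zero_of_sum_ne_zero h
    have h1 := ih m m'' (left_ne_zero_of_mul hm)
    have h2 := hG m'' m' (right_ne_zero_of_mul hm)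
    omega

private theorem T6_PP_deg {p : ℕ} {deg : μ → ℕ} {G H : Matrix μ μ K} (α : K)
    (hG : ∀ m m', G m m' ≠ 0 → deg m = deg m' + 2) (hH : ∀ m m', H m m' ≠ 0 → deg m = deg m' + 2) :
    ∀ m m', PP p α G H m m' ≠ 0 → deg m = deg m' + 2 * (p - 2) := by
  intro m m' h
  unfold PP at h
  rw [Matrix.sum_apply] at h
  obtain ⟨k, hk, h1⟩ := Finset.exists_ne_zero_of_sum_ne_zero h
  rw [Finset.mem_range] at hk
  rw [Matrix.smul_apply, Matrix.smul_apply, smul_eq_mul, smul_eq_mul] at h1
  have h2 := right_ne_zero_of_mul (right_ne_zero_of_mul h1)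
  rw [Matrix.mul_apply] at h2
  obtain ⟨m'', _, hm⟩ := Finset.exists_ne_zero_of_sum_ne_zero h2
  have h3 := T6_pow_deg hH k m m'' (left_ne_zero_of_mul hm)
  have h4 := T6_pow_deg hG (p - 2 - k) m'' m' (right_ne_zero_of_mul hm)
  omega

private theorem T6_LB_Q {p : ℕ} (hp : 2 ≤ p) {deg : μ → ℕ} {ℓ : ℤ} {i j : Fin r} (hij : i ≠ j)
    {P : Matrix μ μ K} (hP : ∀ m m', P m m' ≠ 0 → deg m = deg m' + 2 * (p - 2))
    {c : CB K r μ} (hc : c ∈ LB K p deg ℓ) : QB i j P c ∈ LB K p deg ℓ := by
  intro I m hm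
  change X i * ∑ m', C (P m m') * (if i ∈ I then 0 else
    (-1 : MvPolynomial (Fin r) K) ^ sgB i I * (if j ∈ insert i I then 0 else
      (-1 : MvPolynomial (Fin r) K) ^ sgB j (insert i I) * c (insert j (insert i I)) m')) = 0
  rw [Finset.sum_eq_zero, mul_zero]
  intro m' _
  by_cases h1 : P m m' = 0
  · rw [h1, C_0, zero_mul]
  · have h2 := hP m m' h1
    split_ifs with h3 h4
    · rw [mul_zero]
    · rw [mul_zero, mul_zero]
    · rw [hc, mul_zero, mul_zero, mul_zero]
      rw [Finset.card_insert_of_notMem h4, Finset.card_insert_of_notMem h3]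
      intro h5
      apply hm
      rw [← h5, h2]
      push_cast
      rw [Nat.cast_sub hp]
      push_cast
      ring

private theorem T6_ring {R : Type} [Ring R] (Q : R) (h : Q * Q = 0) :
    (1 - Q) * (1 + Q) = 1 ∧ (1 + Q) * (1 - Q) = 1 := by
  constructor
  · rw [sub_mul, one_mul, mul_add, mul_one, h, add_zero, add_sub_cancel_right]
  · rw [add_mul, one_mul, mul_sub, mul_one, h, sub_zero, sub_add_cancel]

/-- the map `Ξ`. -/
private noncomputable def T6_X (i j : Fin r) (α β : K)
    (Q : Module.End (MvPolynomial (Fin r) K) (CB K r μ)) (c : CB K r μ) : CB K r μ :=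
  (1 - Q) (T6_S i j β (PsB μ i j α c))

/-- the inverse map. -/
private noncomputable def T6_Y (i j : Fin r) (α β : K)
    (Q : Module.End (MvPolynomial (Fin r) K) (CB K r μ)) (c : CB K r μ) : CB K r μ :=
  PsB μ i j (-α) (T6_S i j (-β) ((1 + Q) c))

private theorem T6_XY {i j : Fin r} (hij : i ≠ j) (α β : K)
    {Q : Module.End (MvPolynomial (Fin r) K) (CB K r μ)} (hQ : Q * Q = 0) (c : CB K r μ) :
    T6_X i j α β Q (T6_Y i j α β Q c) = c := by
  have h1 : ∀ x : CB K r μ, PsB μ i j α (PsB μ i j (-α) x) = x := by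
    intro x
    have h4 := LinearMap.congr_fun (PsB_inv (μ := μ) hij α) x
    rwa [Module.End.mul_apply, Module.End.one_apply] at h4
  have h2 : (1 - Q) ((1 + Q) c) = c := LinearMap.congr_fun (T6_ring Q hQ).1 c
  unfold T6_X T6_Y
  rw [h1, T6_inv hij, h2]

private theorem T6_YX {i j : Fin r} (hij : i ≠ j) (α β : K)
    {Q : Module.End (MvPolynomial (Fin r) K) (CB K r μ)} (hQ : Q * Q = 0) (c : CB K r μ) :
    T6_Y i j α β Q (T6_X i j α β Q c) = c := by
  have h2 : (1 + Q) ((1 - Q) (T6_S i j β (PsB μ i j α c))) = T6_S i j β (PsB μ i j α c) :=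
    LinearMap.congr_fun (T6_ring Q hQ).2 _
  have h3 : T6_S i j (-β) (T6_S i j β (PsB μ i j α c)) = PsB μ i j α c := by
    have h4 := T6_inv hij (-β) (PsB μ i j α c)
    rwa [neg_neg] at h4
  have h1 : PsB μ i j (-α) (PsB μ i j α c) = c := by
    have h4 := PsB_inv (μ := μ) hij (-α)
    rw [neg_neg] at h4
    exact LinearMap.congr_fun h4 c
  unfold T6_X T6_Y
  rw [h2, h3, h1]

private theorem T6_comm {p : ℕ} [Fact p.Prime] [CharP K p] {deg : μ → ℕ}
    {G : Fin r → Matrix μ μ K} (hG : SysM p deg G) {i j : Fin r} (hij : i ≠ j) (α : K)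
    (c : CB K r μ) :
    T6_X i j α (α ^ p) (QB i j (PP p α (G i) (G j)))
      (dB p (Function.update G i (G i + α • G j)) c) =
      dB p G (T6_X i j α (α ^ p) (QB i j (PP p α (G i) (G j))) c) := by
  have h1 := LinearMap.congr_fun (PsB_dB (p := p) G hij α) c
  rw [Module.End.mul_apply, Module.End.mul_apply] at h1
  have h2 := LinearMap.congr_fun (QB_dB hG hij α) (T6_S i j (α ^ p) (PsB μ i j α c))
  rw [Module.End.mul_apply, Module.End.mul_apply] at h2
  unfold T6_X
  rw [h1, T6_D G hij α, h2]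

private theorem T6_X_LB {p : ℕ} (hp : 2 ≤ p) {deg : μ → ℕ} {ℓ : ℤ} {i j : Fin r} (hij : i ≠ j)
    (α β : K) {P : Matrix μ μ K} (hP : ∀ m m', P m m' ≠ 0 → deg m = deg m' + 2 * (p - 2))
    {c : CB K r μ} (hc : c ∈ LB K p deg ℓ) : T6_X i j α β (QB i j P) c ∈ LB K p deg ℓ := by
  have h1 := T6_LB_S i j β (T6_LB_Ps hij α hc)
  unfold T6_X
  rw [LinearMap.sub_apply, Module.End.one_apply]
  exact Submodule.sub_mem _ h1 (T6_LB_Q hp hij hP h1)

private theorem T6_Y_LB {p : ℕ} (hp : 2 ≤ p) {deg : μ → ℕ} {ℓ : ℤ} {i j : Fin r} (hij : i ≠ j)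
    (α β : K) {P : Matrix μ μ K} (hP : ∀ m m', P m m' ≠ 0 → deg m = deg m' + 2 * (p - 2))
    {c : CB K r μ} (hc : c ∈ LB K p deg ℓ) : T6_Y i j α β (QB i j P) c ∈ LB K p deg ℓ := by
  unfold T6_Y
  refine T6_LB_Ps hij (-α) (T6_LB_S i j _ ?_)
  rw [LinearMap.add_apply, Module.End.one_apply]
  exact Submodule.add_mem _ hc (T6_LB_Q hp hij hP hc)

private theorem T6_X_smul (i j : Fin r) (α β : K)
    (Q : Module.End (MvPolynomial (Fin r) K) (CB K r μ)) (q : MvPolynomial (Fin r) K)
    (c : CB K r μ) : T6_X i j α β Q (q • c) = sgT K i j β q • T6_X i j α β Q c := by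
  unfold T6_X
  rw [map_smul, T6_smul, map_smul]

private theorem T6_Y_zero (i j : Fin r) (α β : K)
    (Q : Module.End (MvPolynomial (Fin r) K) (CB K r μ)) : T6_Y i j α β Q 0 = 0 := by
  unfold T6_Y
  rw [map_zero, map_zero, map_zero]

private theorem T6_eval {i j : Fin r} (β : K) (a : Fin r → K)
    (g : MvPolynomial (Fin r) K) :
    eval a (sgT K i j β g) = eval (Function.update a j (a j - β * a i)) g := by
  have h2 : ((aeval a : MvPolynomial (Fin r) K →ₐ[K] K)).comp (sgT K i j β) =
      aeval (Function.update a j (a j - β * a i)) := by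
    apply MvPolynomial.algHom_ext
    intro k
    rw [AlgHom.comp_apply, aeval_X]
    by_cases hk : k = j
    · rw [hk, T6_sgT_Xj, map_sub, map_mul, aeval_X, aeval_X, aeval_C, Function.update_self]
      rfl
    · rw [T6_sgT_X hk, aeval_X, Function.update_of_ne hk]
  have h3 := AlgHom.congr_fun h2 g
  rw [AlgHom.comp_apply] at h3
  exact h3

/-- JOB T6. Transvections and annihilators.

PROOF. Let `G' = update G i (G i + α G j)`, `σ = sgT i j (α^p)` (`t_j ↦ t_j - α^p t_i`), inverse `sgT i j (-α^p)`.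
`sgTB` commutes with `etaB`, `delB`, `gmB` and `sgTB (q • c) = σ q • sgTB c`. Put
`Ξ c = (1 - Q) (sgTB (Ψ c))`, `Ξ' c = Ψ⁻¹ (sgTB' ((1 + Q) c))` (`Ψ⁻¹ = PsB (-α)`). `Ξ (Ξ' c) = c`. By `PsB_dB` and `QB_dB`,
`Ξ (d_{G'} c) = d_G (Ξ c)`; hence also `d_{G'} (Ξ' c) = Ξ' (d_G c)` (`Ξ' Ξ = 1`). `Ξ`, `Ξ'` preserve `LB ℓ` for every `ℓ`
(`Q` lowers `|I|` by `2` and raises `deg m` by `2 (p-2)`). Let `g'` be the polynomial of `AnnP G' a'`. For `c ∈ LB ℓ`,
`d_G c = 0`: `d_{G'} (Ξ' c) = 0`, `g' • Ξ' c = d_{G'} e'`, apply `Ξ`: `σ g' • c = d_G (Ξ e')`. So `g = σ g'` works: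
`eval a (σ g') = eval a' g'`. -/
theorem AnnP_transv {p : ℕ} [Fact p.Prime] [CharP K p] {deg : μ → ℕ} {G : Fin r → Matrix μ μ K}
    (hG : SysM p deg G) {i j : Fin r} (hij : i ≠ j) (α : K) (a : Fin r → K) {ℓ : ℤ}
    (h : AnnP p deg (Function.update G i (G i + α • G j))
      (Function.update a j (a j - α ^ p * a i)) ℓ) : AnnP p deg G a ℓ := by
  have hp2 : 2 ≤ p := (Fact.out : p.Prime).two_le
  obtain ⟨g', hg', hA⟩ := h
  have hPd := T6_PP_deg (p := p) α (hG.deg i) (hG.deg j)
  have hQQ : QB i j (PP p α (G i) (G j)) * QB i j (PP p α (G i) (G j)) = 0 :=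
    QB_sq i j (PP p α (G i) (G j)) (PP p α (G i) (G j))
  refine ⟨sgT K i j (α ^ p) g', ?_, fun c hc h0 => ?_⟩
  · rw [T6_eval]
    exact hg'
  · have h1 : dB p (Function.update G i (G i + α • G j))
        (T6_Y i j α (α ^ p) (QB i j (PP p α (G i) (G j))) c) = 0 := by
      have h2 := T6_comm hG hij α (T6_Y i j α (α ^ p) (QB i j (PP p α (G i) (G j))) c)
      rw [T6_XY hij α (α ^ p) hQQ, h0] at h2
      have h3 := T6_YX hij α (α ^ p) hQQ (dB p (Function.update G i (G i + α • G j))
        (T6_Y i j α (α ^ p) (QB i j (PP p α (G i) (G j))) c))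
      rw [h2, T6_Y_zero] at h3
      exact h3.symm
    obtain ⟨e', he', he''⟩ := hA _ (T6_Y_LB hp2 hij α (α ^ p) hPd hc) h1
    refine ⟨T6_X i j α (α ^ p) (QB i j (PP p α (G i) (G j))) e',
      T6_X_LB hp2 hij α (α ^ p) hPd he', ?_⟩
    rw [← T6_comm hG hij α, he'', T6_X_smul, T6_XY hij α (α ^ p) hQQ]

end

end QL
end
end
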