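import Pool.Agent.Lib.MP_c77682_nt.L.Cx
import Pool.Agent.Lib.MP_c77682_nt.L.C1a
import Pool.Agent.Lib.MP_c77682_nt.Integral
import Pool.Agent.Lib.MP_c77682_nt.L.YDefs
import Pool.Agent.Lib.MP_c77682_nt.L.MDefs

section

section

/-!
LinearBound (MP_c77682_nt), job C1c. See table papers, id 368.
-/

set_option autoImplicit false

namespace QL

section

variable {F M : Type} [Field F] [AddCommGroup M] [Module F M]

private theorem c1c_sg0 {r : ℕ} (b : Fin (r + 1) → ℕ) : sgE 0 b = 0 := by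
  unfold sgE
  refine Finset.sum_eq_zero fun k hk => ?_
  exact absurd (Finset.mem_filter.1 hk).2 (Fin.not_lt_zero k)

private theorem c1c_sgs {r : ℕ} (i : Fin r) (k : ℕ) (b : Fin r → ℕ) :
    sgE i.succ (Fin.cons k b) = k + sgE i b := by
  unfold sgE
  rw [Finset.sum_filter, Finset.sum_filter, Fin.sum_univ_succ]
  rw [if_pos (Fin.succ_pos i)]
  congr 1
  refine Finset.sum_congr rfl fun j _ => ?_
  by_cases h : j < i
  · rw [if_pos h, if_pos (Fin.succ_lt_succ_iff.2 h)]
    rfl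
  · rw [if_neg h, if_neg fun h' => h (Fin.succ_lt_succ_iff.1 h')]

/-- JOB C1c. Columns: the differential for `r + 1` operators in terms of `f 0` and the differential of
`f ∘ Fin.succ` on the columns `b' ↦ c (Fin.cons k b')`.

PROOF. `Fin.sum_univ_succ`. For `i = 0`: `sgE 0 b = 0` and `Function.update (Fin.cons k b) 0 (k - 1) = Fin.cons (k-1) b`
(`Fin.update_cons_zero`). For `i = succ i'`: `sgE (succ i') (Fin.cons k b) = k + sgE i' b` and
`Function.update (Fin.cons k b) (succ i') v = Fin.cons k (Function.update b i' v)` (`Fin.cons_update`). -/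
theorem dL_cons {p r : ℕ} (f : Fin (r + 1) → Module.End F M) (c : (Fin (r + 1) → ℕ) → M) (k : ℕ)
    (b : Fin r → ℕ) :
    dL p f c (Fin.cons k b) =
      (if 1 ≤ k then ph p (f 0) k (c (Fin.cons (k - 1) b)) else 0) +
        (-1 : F) ^ k • dL p (fun i => f i.succ) (fun b' => c (Fin.cons k b')) b := by
  rw [dL_apply, dL_apply, Fin.sum_univ_succ]
  congr 1
  · rw [c1c_sg0, pow_zero, one_smul, Fin.cons_zero, Fin.update_cons_zero]
  · rw [Finset.smul_sum]
    refine Finset.sum_congr rfl fun i _ => ?_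
    rw [c1c_sgs, Fin.cons_succ, ← Fin.cons_update, smul_ite, smul_zero, smul_smul, pow_add]

end

end QL
end

section

/-!
LinearBound (MP_c77682_nt), job C1d. See table papers, id 368.
-/

set_option autoImplicit false

namespace QL

section

variable {F M : Type} [Field F] [AddCommGroup M] [Module F M]

private theorem C1d_nodd {r : ℕ} (k : ℕ) (b : Fin r → ℕ) :
    nodd (Fin.cons k b : Fin (r + 1) → ℕ) = (if Odd k then 1 else 0) + nodd b := by
  unfold nodd
  rw [Fin.card_filter_univ_succ]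
  simp only [Fin.cons_zero, Fin.cons_succ]
  split_ifs <;> ring

private theorem C1d_deg {r : ℕ} (p k : ℕ) (ℓ : ℤ) (b : Fin r → ℕ) :
    ℓ - ((p : ℤ) - 2) * nodd (Fin.cons k b : Fin (r + 1) → ℕ) =
      (ℓ - if Odd k then (p : ℤ) - 2 else 0) - ((p : ℤ) - 2) * nodd b := by
  rw [C1d_nodd]
  split_ifs <;> push_cast <;> ring

private theorem C1d_sum {r : ℕ} (k : ℕ) (b : Fin r → ℕ) :
    (∑ i, (((Fin.cons k b : Fin (r + 1) → ℕ) i : ℕ) : ℤ)) = k + ∑ i, (b i : ℤ) := by
  rw [Fin.sum_univ_succ]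
  simp only [Fin.cons_zero, Fin.cons_succ]

private theorem C1d_ins {r : ℕ} (k k' : ℕ) (c : (Fin r → ℕ) → M) (b : Fin r → ℕ) :
    ins k c (Fin.cons k' b) = if k' = k then c b else 0 := by
  unfold ins
  rw [Fin.cons_zero, Fin.tail_cons]

/-- JOB C1d. Columns and bidegrees.

PROOF. `∑ k', (Fin.cons k b) k' = k + ∑ b`, `nodd (Fin.cons k b) = (if Odd k then 1 else 0) + nodd b`. Every
`b : Fin (r+1) → ℕ` is `Fin.cons (b 0) (Fin.tail b)` (`Fin.cons_self_tail`). -/
theorem col_mem_Bi {p r : ℕ} {𝓜 : ℤ → Submodule F M} {j ℓ : ℤ} {c : (Fin (r + 1) → ℕ) → M}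
    (hc : c ∈ Bi p 𝓜 j ℓ) (k : ℕ) :
    (fun b' => c (Fin.cons k b')) ∈
      Bi p 𝓜 (j - k) (ℓ - if Odd k then (p : ℤ) - 2 else 0) := by
  intro b'
  have h := hc (Fin.cons k b')
  rw [C1d_deg, C1d_sum] at h
  exact ⟨h.1, fun hj => h.2 fun h' => hj (by linarith)⟩

/-- JOB C1d. -/
theorem ins_mem_Bi {p r : ℕ} {𝓜 : ℤ → Submodule F M} {j ℓ : ℤ} {c : (Fin r → ℕ) → M} (k : ℕ)
    (hc : c ∈ Bi p 𝓜 (j - k) (ℓ - if Odd k then (p : ℤ) - 2 else 0)) :
    ins k c ∈ Bi p 𝓜 j ℓ := by
  intro b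
  obtain ⟨k', b', rfl⟩ : ∃ (k' : ℕ) (b' : Fin r → ℕ), b = Fin.cons k' b' :=
    ⟨b 0, Fin.tail b, (Fin.cons_self_tail b).symm⟩
  rw [C1d_deg, C1d_sum, C1d_ins]
  have h := hc b'
  by_cases hk : k' = k
  · subst hk
    rw [if_pos rfl]
    exact ⟨h.1, fun hj => h.2 fun h' => hj (by linarith)⟩
  · rw [if_neg hk]
    exact ⟨Submodule.zero_mem _, fun _ => rfl⟩

/-- JOB C1d. the differential of a single column: from `dL_cons`. -/
theorem dL_ins {p r : ℕ} (f : Fin (r + 1) → Module.End F M) (k : ℕ) (c : (Fin r → ℕ) → M)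
    (k' : ℕ) (b : Fin r → ℕ) :
    dL p f (ins k c) (Fin.cons k' b) =
      (if k' = k + 1 then ph p (f 0) (k + 1) (c b) else 0) +
        (if k' = k then (-1 : F) ^ k • dL p (fun i => f i.succ) c b else 0) := by
  rw [dL_cons]
  congr 1
  · by_cases h1 : 1 ≤ k'
    · rw [if_pos h1, C1d_ins]
      by_cases h2 : k' = k + 1
      · subst h2
        rw [if_pos rfl, if_pos (by omega)]
      · rw [if_neg h2, if_neg (by omega), map_zero]
    · rw [if_neg h1, if_neg (by omega)]
  · simp only [C1d_ins]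
    by_cases h2 : k' = k
    · subst h2
      simp only [if_true]
    · simp only [if_neg h2]
      have h3 : (fun _ : Fin r → ℕ => (0 : M)) = 0 := rfl
      rw [h3, map_zero, Pi.zero_apply, smul_zero]

end

end QL
end

section

/-!
LinearBound (MP_c77682_nt), job C2. See table papers, id 368.
-/

set_option autoImplicit false

namespace QL

section

variable {F M : Type} [Field F] [AddCommGroup M] [Module F M]

/-- JOB C2. Column reduction from (E1) and (E2).

PROOF. Induction on `K : ℕ`: for every `c ∈ Bi j ℓ` with `d c = 0` and `c b = 0` for `b 0 > K` there is `e` as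
required. `K = 0`: `e = 0`. (For given `c ∈ Bi j ℓ` take `K = j.toNat`: `c b ≠ 0` forces `∑ b = j`, so `b 0 ≤ j`.)
Step: let `k = K + 1` be the top column, `c_k := fun b' => c (Fin.cons k b')`. By `dL_cons` at `Fin.cons (k+1) b`:
`ph p (f 0) (k+1) (c_k b) = 0`; at `Fin.cons k b`: `dL f'' c_k b = ph p (f 0) k (-(-1)^k • c_{k-1} b)`.
If `k` is even: `φ = f 0`, `ψ = (f 0)^(p-1)` and `h1` applies to `c_k` (level `ℓ`, `col_mem_Bi`); if `k` is odd:
`φ = (f 0)^(p-1)`, `ψ = f 0` and `h2` applies (level `ℓ - (p-2)`). One gets `c_k = d'' e'' + ψ g`, `φ e'' = 0`. Put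
`e₁ := (-1)^k • ins k e'' + ins (k-1) g`; it is in `Bi (j-1) (ℓ-p)` by `ins_mem_Bi` (check: `k` even:
`g ∈ Bi (j-k) (ℓ - 2(p-1))` and `ℓ - 2(p-1) = (ℓ - p) - (p-2)`; `k` odd: `g ∈ Bi (j-k) (ℓ-(p-2)-2)`, `= ℓ - p`). By
`dL_ins`, `c - dL e₁` vanishes in columns `≥ k`. It is again a cycle in `Bi j ℓ` (`dL_dL`, `dL_mem_Bi`): apply the
induction hypothesis to it and add. -/
theorem CR_of_EE {p r : ℕ} (hp : 2 ≤ p) {𝓜 : ℤ → Submodule F M}
    {f : Fin (r + 1) → Module.End F M} (hS : Sys p 𝓜 f) {ℓ : ℤ}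
    (h1 : EE p 𝓜 (f 0) (f 0 ^ (p - 1)) (fun i => f i.succ) (2 * ((p : ℤ) - 1)) ℓ)
    (h2 : EE p 𝓜 (f 0 ^ (p - 1)) (f 0) (fun i => f i.succ) 2 (ℓ - ((p : ℤ) - 2))) :
    CR p 𝓜 f ℓ := by
  have hEE : ∀ k : ℕ, EE p 𝓜 (ph p (f 0) (k + 1)) (ph p (f 0) k) (fun i => f i.succ)
      (if Odd k then 2 else 2 * ((p : ℤ) - 1)) (ℓ - if Odd k then (p : ℤ) - 2 else 0) := by
    intro k
    by_cases hk : Odd k
    · have hk1 : ¬ Odd (k + 1) := by
        rw [Nat.not_odd_iff_even]
        exact hk.add_one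
      unfold ph
      rw [if_pos hk, if_pos hk, if_pos hk, if_neg hk1]
      exact h2
    · have hk1 : Odd (k + 1) := (Nat.not_odd_iff_even.1 hk).add_one
      unfold ph
      rw [if_neg hk, if_neg hk, if_neg hk, if_pos hk1, sub_zero]
      exact h1
  have key : ∀ (K : ℕ) (j : ℤ), ∀ c ∈ Bi p 𝓜 j ℓ, dL p f c = 0 → (∀ b, K < b 0 → c b = 0) →
      ∃ e ∈ Bi p 𝓜 (j - 1) (ℓ - p), ∀ b, 1 ≤ b 0 → (c - dL p f e) b = 0 := by
    intro K
    induction K with
    | zero =>
      intro j c _ _ h0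
      refine ⟨0, Submodule.zero_mem _, fun b hb => ?_⟩
      rw [map_zero, sub_zero]
      exact h0 b (by omega)
    | succ K ih =>
      intro j c hc hd hK
      have hcol := col_mem_Bi hc (K + 1)
      have hE := hEE (K + 1) _ _ hcol ?_ ?_
      · obtain ⟨e'', he'', g, hg, hφ, hce⟩ := hE
        have hm1 : ins (K + 1) e'' ∈ Bi p 𝓜 (j - 1) (ℓ - p) := by
          refine ins_mem_Bi (K + 1) ?_
          convert he'' using 1
          congr 1 <;> ring
        have hm2 : ins K g ∈ Bi p 𝓜 (j - 1) (ℓ - p) := by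
          refine ins_mem_Bi K ?_
          convert hg using 1
          congr 1
          · push_cast
            ring
          · by_cases hk : Odd K
            · have hk1 : ¬ Odd (K + 1) := by
                rw [Nat.not_odd_iff_even]
                exact hk.add_one
              rw [if_pos hk, if_neg hk1, if_neg hk1]
              ring
            · have hk1 : Odd (K + 1) := (Nat.not_odd_iff_even.1 hk).add_one
              rw [if_neg hk, if_pos hk1, if_pos hk1]
              ring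
        have hm : (-1 : F) ^ (K + 1) • ins (K + 1) e'' + ins K g ∈ Bi p 𝓜 (j - 1) (ℓ - p) :=
          Submodule.add_mem _ (Submodule.smul_mem _ _ hm1) hm2
        have hdm : dL p f ((-1 : F) ^ (K + 1) • ins (K + 1) e'' + ins K g) ∈ Bi p 𝓜 j ℓ := by
          have := dL_mem_Bi (by omega) hS hm
          rwa [sub_add_cancel, sub_add_cancel] at this
        have hih := ih j (c - dL p f ((-1 : F) ^ (K + 1) • ins (K + 1) e'' + ins K g))
          (Submodule.sub_mem _ hc hdm)
          (by rw [map_sub, hd, dL_dL (by omega) hS, sub_zero]) ?_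
        · obtain ⟨e₂, he₂, hz⟩ := hih
          refine ⟨(-1 : F) ^ (K + 1) • ins (K + 1) e'' + ins K g + e₂,
            Submodule.add_mem _ hm he₂, fun b hb => ?_⟩
          have := hz b hb
          rw [map_add, ← sub_sub]
          exact this
        · intro b hb
          obtain ⟨k', b', rfl⟩ : ∃ (k' : ℕ) (b' : Fin r → ℕ), b = Fin.cons k' b' :=
            ⟨b 0, Fin.tail b, (Fin.cons_self_tail b).symm⟩
          rw [Fin.cons_zero] at hb
          rw [Pi.sub_apply, map_add, map_smul, Pi.add_apply, Pi.smul_apply, dL_ins, dL_ins]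
          have hφb := hφ b'
          have hcb := hce b'
          by_cases h1 : k' = K + 1
          · subst h1
            rw [if_neg (by omega), if_pos rfl, if_pos rfl, if_neg (by omega), zero_add, add_zero,
              smul_smul, ← mul_pow, neg_one_mul, neg_neg, one_pow, one_smul]
            exact sub_eq_zero.2 hcb
          · rw [if_neg h1, if_neg h1, if_neg (by omega : ¬ k' = K), hφb, ite_self, add_zero,
              smul_zero, add_zero, sub_zero]
            refine hK _ ?_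
            rw [Fin.cons_zero]
            omega
      · intro b
        have := congrFun hd (Fin.cons (K + 1 + 1) b)
        rw [dL_cons, if_pos (by omega), Nat.add_sub_cancel] at this
        have h0 : (fun b' : Fin r → ℕ => c (Fin.cons (K + 1 + 1) b')) = 0 := by
          funext b'
          refine hK _ ?_
          rw [Fin.cons_zero]
          omega
        rw [h0, map_zero, Pi.zero_apply, smul_zero, add_zero] at this
        exact this
      · intro b
        have := congrFun hd (Fin.cons (K + 1) b)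
        rw [dL_cons, if_pos (by omega), Nat.add_sub_cancel, Pi.zero_apply] at this
        refine ⟨-((-1 : F) ^ (K + 1) • c (Fin.cons K b)), ?_⟩
        rw [map_neg, map_smul, eq_neg_of_add_eq_zero_left this, smul_neg, neg_neg, smul_smul,
          ← mul_pow, neg_one_mul, neg_neg, one_pow, one_smul]
  intro j c hc hd
  refine key j.toNat j c hc hd fun b hb => ?_
  refine (hc b).2 fun hj => ?_
  have h0 : (b 0 : ℤ) ≤ ∑ k, (b k : ℤ) :=
    Finset.single_le_sum (f := fun k => (b k : ℤ)) (fun i _ => by positivity) (Finset.mem_univ 0)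
  omega

end

end QL
end
end

section

section

/-! LinearBound: imports of the existing `p`-adic library. -/

set_option autoImplicit false

namespace QL



end QL
end

section

/-!
LinearBound (MP_c77682_nt), job Z1. See table papers, id 368.
-/

set_option autoImplicit false

open Module QSys

namespace QL

/-- JOB Z1. The induction step over `ℤ_[p]`, valid for `p = 2` as well.

PROOF. Copy the proof of `QSys.induction_stepG` (`B/StepG.lean`); `exists_red` also gives
`gb (x + y) = gb x + gb y + Bb x y` (its first component `hgbadd`, check its exact form in `Red.lean`), and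
`gb (c • x) = (c * c) • gb x` follows from `gb (redv x) = redv (g x)` and `QuadraticMap.map_smul`. The hypothesis `hns` now
yields directly `gb xb = 0` (no division by `2`). -/
theorem induction_stepL (p : ℕ) [Fact p.Prime] (r n : ℕ) (hr : 1 ≤ r) (hn : 0 < n)
    (hns : ∀ (gb : (Fin n → ZMod p) → (Fin r → ZMod p))
      (Bb : (Fin n → ZMod p) →ₗ[ZMod p] (Fin n → ZMod p) →ₗ[ZMod p] (Fin r → ZMod p)),
      (∀ x y, gb (x + y) = gb x + gb y + Bb x y) → (∀ (c : ZMod p) x, gb (c • x) = (c * c) • gb x) →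
      (∀ (U : Submodule (ZMod p) (Fin n → ZMod p)) (Q : Submodule (ZMod p) (Fin r → ZMod p)),
        (∀ x ∈ U, gb x ∈ Q) →
        n * r + 2 * r * finrank (ZMod p) U ≤ 2 * r * n + n * finrank (ZMod p) Q) →
      ∃ x, gb x = 0 ∧ Function.Surjective (Bb x))
    (hP : ∀ j < r, ∀ h : QuadraticMap ℤ_[p] (Fin (n * j / r + 1) → ℤ_[p]) (Fin j → ℤ_[p]),
      ∃ x, x ≠ 0 ∧ h x = 0)
    (f : QuadraticMap ℤ_[p] (Fin n → ℤ_[p]) (Fin r → ℤ_[p])) :
    ∃ x, x ≠ 0 ∧ f x = 0 := by
  by_contra hcon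
  push Not at hcon
  have hf0 : ∀ x, f x = 0 → x = 0 := by
    intro x hx
    by_contra hx0
    exact hcon x hx0 hx
  obtain ⟨m, hm⟩ := exists_level p f hf0
  have hbdd : ∃ b : ℤ, ∀ z : ℤ, (∃ (φ : (Fin n → ℤ_[p]) →ₗ[ℤ_[p]] (Fin n → ℤ_[p]))
      (ψ : (Fin r → ℤ_[p]) →ₗ[ℤ_[p]] (Fin r → ℤ_[p]))
      (g : QuadraticMap ℤ_[p] (Fin n → ℤ_[p]) (Fin r → ℤ_[p])),
      LinearMap.det φ ≠ 0 ∧ LinearMap.det ψ ≠ 0 ∧ (∀ x, ψ (g x) = f (φ x)) ∧
      z = ((n * (LinearMap.det ψ).valuation : ℕ) : ℤ) - ((2 * r * (LinearMap.det φ).valuation : ℕ) : ℤ)) →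
      z ≤ b := by
    refine ⟨((n * r * m : ℕ) : ℤ), ?_⟩
    rintro z ⟨φ, ψ, g, hφ, hψ, h, rfl⟩
    have h1 := bound_energy2 p n r m (by omega) f hm hP φ ψ g hφ hψ h
    have h2 : ((n * (LinearMap.det ψ).valuation : ℕ) : ℤ) ≤
        ((2 * r * (LinearMap.det φ).valuation + n * r * m : ℕ) : ℤ) := by exact_mod_cast h1
    rw [Nat.cast_add] at h2
    linarith
  have hinh : ∃ z : ℤ, (∃ (φ : (Fin n → ℤ_[p]) →ₗ[ℤ_[p]] (Fin n → ℤ_[p]))
      (ψ : (Fin r → ℤ_[p]) →ₗ[ℤ_[p]] (Fin r → ℤ_[p]))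
      (g : QuadraticMap ℤ_[p] (Fin n → ℤ_[p]) (Fin r → ℤ_[p])),
      LinearMap.det φ ≠ 0 ∧ LinearMap.det ψ ≠ 0 ∧ (∀ x, ψ (g x) = f (φ x)) ∧
      z = ((n * (LinearMap.det ψ).valuation : ℕ) : ℤ) - ((2 * r * (LinearMap.det φ).valuation : ℕ) : ℤ)) := by
    refine ⟨_, LinearMap.id, LinearMap.id, f, ?_, ?_, fun x => rfl, rfl⟩
    · rw [LinearMap.det_id]; exact one_ne_zero
    · rw [LinearMap.det_id]; exact one_ne_zero
  obtain ⟨z, ⟨φ, ψ, g, hφ, hψ, h, rfl⟩, hmaxz⟩ := Int.exists_greatest_of_bdd hbdd hinh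
  have hmax : ∀ (φ' : (Fin n → ℤ_[p]) →ₗ[ℤ_[p]] (Fin n → ℤ_[p]))
      (ψ' : (Fin r → ℤ_[p]) →ₗ[ℤ_[p]] (Fin r → ℤ_[p]))
      (g' : QuadraticMap ℤ_[p] (Fin n → ℤ_[p]) (Fin r → ℤ_[p])),
      LinearMap.det φ' ≠ 0 → LinearMap.det ψ' ≠ 0 → (∀ x, ψ' (g' x) = f (φ' x)) →
      n * (LinearMap.det ψ').valuation + 2 * r * (LinearMap.det φ).valuation ≤
        n * (LinearMap.det ψ).valuation + 2 * r * (LinearMap.det φ').valuation := by
    intro φ' ψ' g' hφ' hψ' h'
    have h1 := hmaxz _ ⟨φ', ψ', g', hφ', hψ', h', rfl⟩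
    have h2 : ((n * (LinearMap.det ψ').valuation : ℕ) : ℤ) + ((2 * r * (LinearMap.det φ).valuation : ℕ) : ℤ) ≤
        ((n * (LinearMap.det ψ).valuation : ℕ) : ℤ) + ((2 * r * (LinearMap.det φ').valuation : ℕ) : ℤ) := by
      linarith
    exact_mod_cast h2
  obtain ⟨gb, Bb, hgbadd, hgb, hBb⟩ := exists_red p g
  have hgsm : ∀ (c : ZMod p) x, gb (c • x) = (c * c) • gb x := by
    intro c xb
    obtain ⟨x, rfl⟩ := redv_surj p xb
    obtain ⟨a, rfl⟩ : ∃ a : ℤ_[p], PadicInt.toZMod a = c :=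
      ZMod.ringHom_surjective (PadicInt.toZMod : ℤ_[p] →+* ZMod p) c
    rw [← redv_smul, hgb, hgb, QuadraticMap.map_smul, redv_smul, map_mul]
  have hstar : ∀ (U : Submodule (ZMod p) (Fin n → ZMod p)) (Q : Submodule (ZMod p) (Fin r → ZMod p)),
      (∀ x ∈ U, gb x ∈ Q) →
      n * r + 2 * r * finrank (ZMod p) U ≤ 2 * r * n + n * finrank (ZMod p) Q := by
    intro U Q hUQ
    exact star_of_max2 p n (2 * r) n r f φ ψ g hφ hψ h hmax gb hgb U Q hUQ
  obtain ⟨xb, hxb0, hxbs⟩ := hns gb Bb hgbadd hgsm hstar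
  obtain ⟨x0, rfl⟩ := redv_surj p xb
  have hgb0 : gb (redv p x0) = 0 := hxb0
  have hz : redv p (0 : Fin r → ℤ_[p]) = 0 := by
    funext i; simp [redv]
  have hzn : redv p (0 : Fin n → ℤ_[p]) = 0 := by
    funext i; simp [redv]
  have hg0 : ∀ i, (p : ℤ_[p]) ∣ g x0 i := by
    have h1 : redv p (g x0) = redv p 0 := by rw [← hgb, hgb0, hz]
    rw [redv_eq_iff] at h1
    intro i
    simpa using h1 i
  have hs : ∀ w : Fin r → ℤ_[p], ∃ y : Fin n → ℤ_[p],
      ∀ i, (p : ℤ_[p]) ∣ QuadraticMap.polar g x0 y i - w i := by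
    intro w
    obtain ⟨yb, hyb⟩ := hxbs (redv p w)
    obtain ⟨y, rfl⟩ := redv_surj p yb
    refine ⟨y, ?_⟩
    rw [hBb, redv_eq_iff] at hyb
    exact hyb
  obtain ⟨x, hx1, hx2⟩ := hensel p g x0 hg0 hs
  have hx0 : x ≠ 0 := by
    rintro rfl
    have h1 : redv p (0 : Fin n → ℤ_[p]) = redv p x0 := (redv_eq_iff p _ _).2 hx1
    rw [hzn] at h1
    rw [← h1, map_zero] at hxbs
    obtain ⟨y, hy⟩ := hxbs (fun _ => 1)
    have h2 := congrFun hy ⟨0, hr⟩
    simp at h2
  have hφx : φ x ≠ 0 := by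
    intro h1
    exact hx0 (inj_of_det p φ hφ (by rw [h1, map_zero]))
  exact hcon (φ x) hφx (by rw [← h, hx2, map_zero])

end QL
end
end

section

section

/-!
LinearBound, block S: Theorem S and its corollary.
-/

set_option autoImplicit false

open Matrix Module

namespace QL

section
variable {K : Type} [Field K] {p : ℕ} [Fact p.Prime] [CharP K p]

end

section
variable {K : Type} [Field K] [IsAlgClosed K] {p : ℕ} [Fact p.Prime] [CharP K p]

/-- the statement of Theorem S for `r` forms. -/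
def ThmS (K : Type) [Field K] (p r : ℕ) : Prop :=
  ∀ (σ : Type) [Fintype σ] [DecidableEq σ] (Q : Fin r → Matrix σ σ K) (c : ℕ), Hyp Q c →
    ∀ ℓ : ℤ, 2 * ℓ < ((p : ℤ) - 1) * (4 * r - c) →
      ∀ j, Ex p (gr K (dg (p := p) (σ := σ))) (fun i => (GN p (Q i)).mulVecLin) j ℓ

end

end QL
end

section

/-!
LinearBound (MP_c77682_nt), job Y1. See table papers, id 368.
-/

set_option autoImplicit false

open Matrix Module

namespace QL

section

variable {K : Type} [Field K] {σ : Type} [Fintype σ]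

private theorem Y1_bq_conj (Q g : Matrix σ σ K) (x y : σ → K) :
    bq (gᵀ * Q * g) x y = bq Q (g *ᵥ x) (g *ᵥ y) := by
  have h1 : gᵀ * Q * g + (gᵀ * Q * g)ᵀ = gᵀ * (Q + Qᵀ) * g := by
    rw [Matrix.transpose_mul, Matrix.transpose_mul, Matrix.transpose_transpose, Matrix.mul_add,
      Matrix.add_mul, Matrix.mul_assoc gᵀ Qᵀ g]
  unfold bq
  rw [h1, ← Matrix.mulVec_mulVec, ← Matrix.mulVec_mulVec, Matrix.dotProduct_mulVec,
    Matrix.vecMul_transpose]

private theorem Y1_bq_add (Q P : Matrix σ σ K) (α : K) (x y : σ → K) :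
    bq (Q + α • P) x y = bq Q x y + α * bq P x y := by
  have h1 : Q + α • P + (Q + α • P)ᵀ = (Q + Qᵀ) + α • (P + Pᵀ) := by
    rw [Matrix.transpose_add, Matrix.transpose_smul, smul_add]
    abel
  unfold bq
  rw [h1, Matrix.add_mulVec, Matrix.smul_mulVec, dotProduct_add, dotProduct_smul, smul_eq_mul]

private theorem Y1_bq_reindex {σ' : Type} [Fintype σ'] (Q : Matrix σ σ K) (e : σ ≃ σ')
    (x y : σ' → K) :
    bq (Q.submatrix e.symm e.symm) x y = bq Q (fun i => x (e i)) (fun i => y (e i)) := by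
  unfold bq dotProduct Matrix.mulVec dotProduct
  rw [← e.sum_comp]
  refine Finset.sum_congr rfl fun i _ => ?_
  congr 1
  rw [← e.sum_comp]
  refine Finset.sum_congr rfl fun j _ => ?_
  simp

/-- JOB Y1. PROOF. `bq (gᵀ Q g) x y = bq Q (g x) (g y)`; replace `U` by its image under `x ↦ g x` (injective). -/
theorem Hyp.conj [DecidableEq σ] {r : ℕ} {Q : Fin r → Matrix σ σ K} {c : ℕ} (hQ : Hyp Q c)
    (g h : Matrix σ σ K) (hgh : g * h = 1) : Hyp (fun k => gᵀ * Q k * g) c := by
  intro U L hUL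
  have hhg : h * g = 1 := mul_eq_one_comm.mp hgh
  have hinj : Function.Injective (Matrix.mulVecLin g) := by
    intro x y hxy
    have h1 := congrArg (fun z => h *ᵥ z) hxy
    simpa [Matrix.mulVec_mulVec, hhg] using h1
  have h1 := hQ (U.map (Matrix.mulVecLin g)) L fun l hl x hx y hy => by
    obtain ⟨x', hx', rfl⟩ := hx
    obtain ⟨y', hy', rfl⟩ := hy
    have h2 := hUL l hl x' hx' y' hy'
    simp only [Y1_bq_conj] at h2
    exact h2
  have h3 : finrank K (U.map (Matrix.mulVecLin g)) = finrank K U :=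
    (Submodule.equivMapOfInjective _ hinj U).finrank_eq.symm
  rw [h3] at h1
  exact h1

/-- JOB Y1. -/
theorem Hyp.reindex {σ' : Type} [Fintype σ'] {r : ℕ} {Q : Fin r → Matrix σ σ K} {c : ℕ}
    (hQ : Hyp Q c) (e : σ ≃ σ') : Hyp (fun k => (Q k).submatrix e.symm e.symm) c := by
  intro U L hUL
  have h1 := hQ (U.map (LinearEquiv.funCongrLeft K K e).toLinearMap) L fun l hl x hx y hy => by
    obtain ⟨x', hx', rfl⟩ := hx
    obtain ⟨y', hy', rfl⟩ := hy
    have h2 := hUL l hl x' hx' y' hy'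
    simp only [Y1_bq_reindex] at h2
    exact h2
  have h3 : finrank K (U.map (LinearEquiv.funCongrLeft K K e).toLinearMap) = finrank K U :=
    LinearEquiv.finrank_map_eq _ U
  rw [h3, Fintype.card_congr e] at h1
  exact h1

/-- JOB Y1. PROOF. `∑ l k b'_k = ∑ l' k b_k` with `l' = l + α (l i) e_j`; replace `L` by its image under the injective map
`l ↦ l + α (l i) e_j`. -/
theorem Hyp.transv {r : ℕ} {Q : Fin r → Matrix σ σ K} {c : ℕ} (hQ : Hyp Q c) {i j : Fin r}
    (hij : i ≠ j) (α : K) : Hyp (Function.update Q i (Q i + α • Q j)) c := by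
  intro U L hUL
  set φ : (Fin r → K) →ₗ[K] (Fin r → K) :=
    LinearMap.id + α • (LinearMap.single K (fun _ : Fin r => K) j ∘ₗ LinearMap.proj i) with hφ
  have φa : ∀ l, φ l = l + Pi.single j (α * l i) := by
    intro l
    funext k
    simp only [hφ, LinearMap.add_apply, LinearMap.id_apply, LinearMap.smul_apply,
      LinearMap.comp_apply, LinearMap.proj_apply, LinearMap.coe_single, Pi.add_apply,
      Pi.smul_apply, smul_eq_mul]
    by_cases hk : k = j
    · subst hk
      simp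
    · simp [Pi.single_eq_of_ne hk]
  have hinj : Function.Injective φ := by
    intro l l' h
    rw [φa, φa] at h
    have h1 : l i = l' i := by
      have := congrFun h i
      simpa [Pi.single_eq_of_ne hij] using this
    rw [h1] at h
    exact add_right_cancel h
  have h1 := hQ U (L.map φ) fun l hl x hx y hy => by
    obtain ⟨l', hl', rfl⟩ := hl
    have h2 := hUL l' hl' x hx y hy
    rw [← h2, φa]
    have e1 : ∀ k, (l' + (Pi.single j (α * l' i) : Fin r → K)) k * bq (Q k) x y =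
        l' k * bq (Q k) x y + (Pi.single j (α * l' i) : Fin r → K) k * bq (Q k) x y := fun k => by
      rw [Pi.add_apply, add_mul]
    have e2 : ∀ k, l' k * bq (Function.update Q i (Q i + α • Q j) k) x y =
        l' k * bq (Q k) x y + (if k = i then l' k * (α * bq (Q j) x y) else 0) := by
      intro k
      by_cases hk : k = i
      · subst hk
        rw [Function.update_self, Y1_bq_add, if_pos rfl]
        ring
      · rw [Function.update_of_ne hk, if_neg hk, add_zero]
    simp only [e1, e2, Finset.sum_add_distrib]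
    congr 1
    rw [Finset.sum_eq_single j (fun k _ hk => by rw [Pi.single_eq_of_ne hk, zero_mul])
      (fun hk => absurd (Finset.mem_univ j) hk),
      Finset.sum_eq_single i (fun k _ hk => by rw [if_neg hk])
      (fun hk => absurd (Finset.mem_univ i) hk), Pi.single_eq_same, if_pos rfl]
    ring
  have h3 : finrank K (L.map φ) = finrank K L :=
    (Submodule.equivMapOfInjective _ hinj L).finrank_eq.symm
  rw [h3] at h1
  exact h1

end

end QL
end
end
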