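import Pool.Agent.Lib.MP_c77682_nt.L.C1a
import Pool.Agent.Lib.MP_c77682_nt.L.C1b
import Pool.Agent.Lib.MP_c77682_nt.L.C1c
import Pool.Agent.Lib.MP_c77682_nt.L.C1d
import Pool.Agent.Lib.MP_c77682_nt.L.C1e
import Pool.Agent.Lib.MP_c77682_nt.L.C1f
import Pool.Agent.Lib.MP_c77682_nt.L.C2
import Pool.Agent.Lib.MP_c77682_nt.L.E1
import Pool.Agent.Lib.MP_c77682_nt.L.E2
import Pool.Agent.Lib.MP_c77682_nt.L.E3
import Pool.Agent.Lib.MP_c77682_nt.L.E4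
import Pool.Agent.Lib.MP_c77682_nt.L.B1
import Pool.Agent.Lib.MP_c77682_nt.L.B2
import Pool.Agent.Lib.MP_c77682_nt.L.B3
import Pool.Agent.Lib.MP_c77682_nt.L.H1a
import Pool.Agent.Lib.MP_c77682_nt.L.H1b
import Pool.Agent.Lib.MP_c77682_nt.L.Q1
import Pool.Agent.Lib.MP_c77682_nt.L.Q2
import Pool.Agent.Lib.MP_c77682_nt.L.Q3
import Pool.Agent.Lib.MP_c77682_nt.L.Q4
import Pool.Agent.Lib.MP_c77682_nt.L.Q5
import Pool.Agent.Lib.MP_c77682_nt.L.M1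
import Pool.Agent.Lib.MP_c77682_nt.L.M2
import Pool.Agent.Lib.MP_c77682_nt.L.M3
import Pool.Agent.Lib.MP_c77682_nt.L.M4
import Pool.Agent.Lib.MP_c77682_nt.L.M5
import Pool.Agent.Lib.MP_c77682_nt.L.M6
import Pool.Agent.Lib.MP_c77682_nt.L.M7
import Pool.Agent.Lib.MP_c77682_nt.L.M8
import Pool.Agent.Lib.MP_c77682_nt.L.N1
import Pool.Agent.Lib.MP_c77682_nt.L.N2
import Pool.Agent.Lib.MP_c77682_nt.L.N3
import Pool.Agent.Lib.MP_c77682_nt.L.N4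
import Pool.Agent.Lib.MP_c77682_nt.L.N5
import Pool.Agent.Lib.MP_c77682_nt.L.Y1
import Pool.Agent.Lib.MP_c77682_nt.L.Y2
import Pool.Agent.Lib.MP_c77682_nt.L.R1
import Pool.Agent.Lib.MP_c77682_nt.L.R2
import Pool.Agent.Lib.MP_c77682_nt.L.R3
import Pool.Agent.Lib.MP_c77682_nt.L.R4
import Pool.Agent.Lib.MP_c77682_nt.L.R5
import Pool.Agent.Lib.MP_c77682_nt.L.R6
import Pool.Agent.Lib.MP_c77682_nt.L.R7
import Pool.Agent.Lib.MP_c77682_nt.L.R8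
import Pool.Agent.Lib.MP_c77682_nt.L.R9
import Pool.Agent.Lib.MP_c77682_nt.L.R10
import Pool.Agent.Lib.MP_c77682_nt.L.R11
import Pool.Agent.Lib.MP_c77682_nt.L.R12
import Pool.Agent.Lib.MP_c77682_nt.L.T1
import Pool.Agent.Lib.MP_c77682_nt.L.T2
import Pool.Agent.Lib.MP_c77682_nt.L.T3
import Pool.Agent.Lib.MP_c77682_nt.L.T4
import Pool.Agent.Lib.MP_c77682_nt.L.T5
import Pool.Agent.Lib.MP_c77682_nt.L.T6
import Pool.Agent.Lib.MP_c77682_nt.L.S1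
import Pool.Agent.Lib.MP_c77682_nt.L.S2
import Pool.Agent.Lib.MP_c77682_nt.L.S3
import Pool.Agent.Lib.MP_c77682_nt.L.S4
import Pool.Agent.Lib.MP_c77682_nt.L.S5
import Pool.Agent.Lib.MP_c77682_nt.L.S6
import Pool.Agent.Lib.MP_c77682_nt.L.S7
import Pool.Agent.Lib.MP_c77682_nt.L.K1
import Pool.Agent.Lib.MP_c77682_nt.L.K2
import Pool.Agent.Lib.MP_c77682_nt.L.K3
import Pool.Agent.Lib.MP_c77682_nt.L.K4
import Pool.Agent.Lib.MP_c77682_nt.L.K5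
import Pool.Agent.Lib.MP_c77682_nt.L.K6
import Pool.Agent.Lib.MP_c77682_nt.L.K7
import Pool.Agent.Lib.MP_c77682_nt.L.K8
import Pool.Agent.Lib.MP_c77682_nt.L.K9
import Pool.Agent.Lib.MP_c77682_nt.L.D1
import Pool.Agent.Lib.MP_c77682_nt.L.D2
import Pool.Agent.Lib.MP_c77682_nt.L.D3
import Pool.Agent.Lib.MP_c77682_nt.L.D4
import Pool.Agent.Lib.MP_c77682_nt.L.P1
import Pool.Agent.Lib.MP_c77682_nt.L.P2
import Pool.Agent.Lib.MP_c77682_nt.L.P3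
import Pool.Agent.Lib.MP_c77682_nt.L.P4
import Pool.Agent.Lib.MP_c77682_nt.L.Z1
import Pool.Agent.Lib.MP_c77682_nt.L.Z2
import Pool.Agent.Lib.MP_c77682_nt.L.Z3
import Pool.Agent.Lib.MP_c77682_nt.L.Z4

/-! LinearBound: all job files. -/
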