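import Pool.Agent.Lib.MP_c77682_nt.L.Cx

/-!
LinearBound, block B: (E1) and (E2) from exactness for the leading parts.

`M = (μ → M0)` where `μ` is a finite set with a degree `deg : μ → ℕ`; matrices over `F` act on `M` by `mact`.
-/

set_option autoImplicit false

namespace QL

variable {F M0 : Type} [Field F] [AddCommGroup M0] [Module F M0]
variable {μ : Type} [Fintype μ] [DecidableEq μ]

/-- action of a matrix on `μ → M0`. -/
def mact (G : Matrix μ μ F) : Module.End F (μ → M0) where
  toFun c m := ∑ m', G m m' • c m'
  map_add' c c' := by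
    funext m
    simp only [Pi.add_apply, smul_add, Finset.sum_add_distrib]
  map_smul' a c := by
    funext m
    simp only [Pi.smul_apply, RingHom.id_apply, Finset.smul_sum]
    exact Finset.sum_congr rfl fun m' _ => smul_comm _ _ _

theorem mact_apply (G : Matrix μ μ F) (c : μ → M0) (m : μ) :
    mact G c m = ∑ m', G m m' • c m' := rfl

/-- the grading of `μ → M0`. -/
def grF (deg : μ → ℕ) (𝓜 : ℤ → Submodule F M0) (D : ℤ) : Submodule F (μ → M0) where
  carrier := {c | ∀ m, c m ∈ 𝓜 (D - deg m)}
  add_mem' h h' m := Submodule.add_mem _ (h m) (h' m)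
  zero_mem' m := Submodule.zero_mem _
  smul_mem' a _ h m := Submodule.smul_mem _ a (h m)

/-- `g` is the leading part of `f`: on elements that vanish in degrees `< D`, `f` gives elements that vanish in
degrees `< D`, and in degree `D` it is `g` componentwise. -/
def Lead (deg : μ → ℕ) (f : Module.End F (μ → M0)) (g : Module.End F M0) : Prop :=
  ∀ (D : ℕ) (c : μ → M0), (∀ m, deg m < D → c m = 0) →
    (∀ m, deg m < D → f c m = 0) ∧ ∀ m, deg m = D → f c m = g (c m)

end QL
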