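import Mathlib

/-!
LinearBound, the periodic complex (model A).

`M` is a vector space with a family `𝓜 D` (`D : ℤ`) of subspaces (the degree `D` part) and operators
`f i : M → M` of degree 2. Cochains are functions `c : (Fin r → ℕ) → M`. The differential `dL p f` is
`(d c)(b) = ∑_{i, b i ≥ 1} (-1)^{b_0+…+b_{i-1}} φ (c (b - e_i))`, `φ = f i` if `b i` is odd and
`φ = (f i)^(p-1)` if `b i` is even. `Bi p 𝓜 j ℓ` are the cochains of bidegree `(j, ℓ)`.
-/

set_option autoImplicit false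

namespace QL

section defs

variable {F M : Type} [Field F] [AddCommGroup M] [Module F M]

/-- the operator leading into position `k`: `T` if `k` is odd, `T ^ (p - 1)` if `k` is even. -/
def ph (p : ℕ) (T : Module.End F M) (k : ℕ) : Module.End F M := if Odd k then T else T ^ (p - 1)

/-- the exponent of the sign: `b_0 + … + b_{i-1}`. -/
def sgE {r : ℕ} (i : Fin r) (b : Fin r → ℕ) : ℕ :=
  ∑ k ∈ Finset.univ.filter (fun k : Fin r => k < i), b k

/-- the number of odd entries of `b`. -/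
def nodd {r : ℕ} (b : Fin r → ℕ) : ℕ := (Finset.univ.filter (fun k : Fin r => Odd (b k))).card

/-- the differential. -/
noncomputable def dL (p : ℕ) {r : ℕ} (f : Fin r → Module.End F M) :
    ((Fin r → ℕ) → M) →ₗ[F] ((Fin r → ℕ) → M) where
  toFun c b := ∑ i, if 1 ≤ b i then
    (-1 : F) ^ sgE i b • ph p (f i) (b i) (c (Function.update b i (b i - 1))) else 0
  map_add' c c' := by
    funext b
    simp only [Pi.add_apply]
    rw [← Finset.sum_add_distrib]
    refine Finset.sum_congr rfl fun i _ => ?_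
    split_ifs with h
    · rw [map_add, smul_add]
    · rw [add_zero]
  map_smul' a c := by
    funext b
    simp only [Pi.smul_apply, RingHom.id_apply]
    rw [Finset.smul_sum]
    refine Finset.sum_congr rfl fun i _ => ?_
    split_ifs with h
    · rw [map_smul, smul_comm]
    · rw [smul_zero]

theorem dL_apply (p : ℕ) {r : ℕ} (f : Fin r → Module.End F M) (c : (Fin r → ℕ) → M)
    (b : Fin r → ℕ) : dL p f c b = ∑ i, if 1 ≤ b i then
      (-1 : F) ^ sgE i b • ph p (f i) (b i) (c (Function.update b i (b i - 1))) else 0 := rfl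

/-- cochains of bidegree `(j, ℓ)`. -/
def Bi (p : ℕ) {r : ℕ} (𝓜 : ℤ → Submodule F M) (j ℓ : ℤ) : Submodule F ((Fin r → ℕ) → M) where
  carrier := {c | ∀ b, c b ∈ 𝓜 (ℓ - ((p : ℤ) - 2) * nodd b) ∧ ((∑ k, (b k : ℤ)) ≠ j → c b = 0)}
  add_mem' := by
    intro c c' h h' b
    refine ⟨Submodule.add_mem _ (h b).1 (h' b).1, fun hj => ?_⟩
    rw [Pi.add_apply, (h b).2 hj, (h' b).2 hj, add_zero]
  zero_mem' := by
    intro b
    exact ⟨Submodule.zero_mem _, fun _ => rfl⟩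
  smul_mem' := by
    intro a c h b
    refine ⟨Submodule.smul_mem _ _ (h b).1, fun hj => ?_⟩
    rw [Pi.smul_apply, (h b).2 hj, smul_zero]

theorem mem_Bi (p : ℕ) {r : ℕ} (𝓜 : ℤ → Submodule F M) (j ℓ : ℤ) (c : (Fin r → ℕ) → M) :
    c ∈ Bi p 𝓜 j ℓ ↔
      ∀ b, c b ∈ 𝓜 (ℓ - ((p : ℤ) - 2) * nodd b) ∧ ((∑ k, (b k : ℤ)) ≠ j → c b = 0) := Iff.rfl

/-- the hypotheses on the operators. -/
structure Sys (p : ℕ) (𝓜 : ℤ → Submodule F M) {r : ℕ} (f : Fin r → Module.End F M) : Prop where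
  comm : ∀ i j, Commute (f i) (f j)
  nil : ∀ i, f i ^ p = 0
  deg : ∀ i D m, m ∈ 𝓜 D → f i m ∈ 𝓜 (D + 2)

/-- exactness at `(j, ℓ)`. -/
def Ex (p : ℕ) {r : ℕ} (𝓜 : ℤ → Submodule F M) (f : Fin r → Module.End F M) (j ℓ : ℤ) : Prop :=
  ∀ c ∈ Bi p 𝓜 j ℓ, dL p f c = 0 → ∃ e ∈ Bi p 𝓜 (j - 1) (ℓ - p), dL p f e = c

/-- the shift by `2 e_i`. -/
def tL {r : ℕ} (i : Fin r) : ((Fin r → ℕ) → M) →ₗ[F] ((Fin r → ℕ) → M) where
  toFun c b := if 2 ≤ b i then c (Function.update b i (b i - 2)) else 0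
  map_add' c c' := by
    funext b
    simp only [Pi.add_apply]
    split_ifs
    · rfl
    · rw [add_zero]
  map_smul' a c := by
    funext b
    simp only [Pi.smul_apply, RingHom.id_apply]
    split_ifs
    · rfl
    · rw [smul_zero]

theorem tL_apply {r : ℕ} (i : Fin r) (c : (Fin r → ℕ) → M) (b : Fin r → ℕ) :
    tL (F := F) i c b = if 2 ≤ b i then c (Function.update b i (b i - 2)) else 0 := rfl

end defs

section defs2

variable {F M : Type} [Field F] [AddCommGroup M] [Module F M]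

/-- the cochain with the single column `k`, equal to `c`. -/
def ins {r : ℕ} (k : ℕ) (c : (Fin r → ℕ) → M) : (Fin (r + 1) → ℕ) → M :=
  fun b => if b 0 = k then c (Fin.tail b) else 0

/-- Column reduction at level `ℓ`: every cycle is homologous to one in column `0`. -/
def CR (p : ℕ) {r : ℕ} (𝓜 : ℤ → Submodule F M) (f : Fin (r + 1) → Module.End F M) (ℓ : ℤ) : Prop :=
  ∀ j : ℤ, ∀ c ∈ Bi p 𝓜 j ℓ, dL p f c = 0 →
    ∃ e ∈ Bi p 𝓜 (j - 1) (ℓ - p), ∀ b, 1 ≤ b 0 → (c - dL p f e) b = 0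

/-- property (E1)/(E2) of the paper. -/
def EE (p : ℕ) {r : ℕ} (𝓜 : ℤ → Submodule F M) (φ ψ : Module.End F M) (f : Fin r → Module.End F M)
    (dψ ℓ : ℤ) : Prop :=
  ∀ j : ℤ, ∀ c ∈ Bi p 𝓜 j ℓ, (∀ b, φ (c b) = 0) → (∀ b, ∃ m, dL p f c b = ψ m) →
    ∃ e ∈ Bi p 𝓜 (j - 1) (ℓ - p), ∃ g ∈ Bi p 𝓜 j (ℓ - dψ),
      (∀ b, φ (e b) = 0) ∧ ∀ b, c b = dL p f e b + ψ (g b)

end defs2

end QL
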