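import Pool.Agent.Lib.MP_c77682_nt.L.Cx
import Pool.Agent.Lib.MP_c77682_nt.L.C1a

section

section

/-!
LinearBound (MP_c77682_nt), job C1e. See table papers, id 368.
-/

set_option autoImplicit false

namespace QL

section

variable {F M : Type} [Field F] [AddCommGroup M] [Module F M]

private theorem C1e_odd {r : ℕ} (i k : Fin r) (b : Fin r → ℕ) (hb : 2 ≤ b i) :
    Odd (Function.update b i (b i - 2) k) ↔ Odd (b k) := by
  by_cases h : k = i
  · subst h
    rw [Function.update_self, Nat.odd_iff, Nat.odd_iff]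
    omega
  · rw [Function.update_of_ne h]

private theorem C1e_nodd {r : ℕ} (i : Fin r) (b : Fin r → ℕ) (hb : 2 ≤ b i) :
    nodd (Function.update b i (b i - 2)) = nodd b := by
  unfold nodd
  congr 1
  refine Finset.filter_congr fun k _ => ?_
  exact C1e_odd i k b hb

private theorem C1e_sum {r : ℕ} (i : Fin r) (b : Fin r → ℕ) (hb : 2 ≤ b i) (S : Finset (Fin r))
    (hi : i ∈ S) : ∑ k ∈ S, Function.update b i (b i - 2) k + 2 = ∑ k ∈ S, b k := by
  rw [Finset.sum_update_of_mem hi, ← Finset.sum_sdiff (Finset.singleton_subset_iff.2 hi)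
    (f := fun k => b k), Finset.sum_singleton]
  omega

private theorem C1e_sgE {r : ℕ} (i k : Fin r) (b : Fin r → ℕ) (hb : 2 ≤ b i) :
    (-1 : F) ^ sgE k (Function.update b i (b i - 2)) = (-1 : F) ^ sgE k b := by
  unfold sgE
  by_cases h : i < k
  · rw [← C1e_sum i b hb _ (Finset.mem_filter.2 ⟨Finset.mem_univ _, h⟩), pow_add, neg_one_sq,
      mul_one]
  · congr 1
    refine Finset.sum_congr rfl fun l hl => ?_
    have hl' : l < k := (Finset.mem_filter.1 hl).2
    rw [Function.update_of_ne]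
    rintro rfl
    exact h hl'

private theorem C1e_ph (p : ℕ) (T : Module.End F M) (k : ℕ) (hk : 2 ≤ k) :
    ph p T (k - 2) = ph p T k := by
  unfold ph
  have h : Odd (k - 2) ↔ Odd k := by
    rw [Nat.odd_iff, Nat.odd_iff]
    omega
  by_cases h1 : Odd k
  · rw [if_pos h1, if_pos (h.2 h1)]
  · rw [if_neg h1, if_neg fun h2 => h1 (h.1 h2)]

/-- JOB C1e. -/
theorem tL_mem_Bi {p r : ℕ} {𝓜 : ℤ → Submodule F M} {j ℓ : ℤ} {c : (Fin r → ℕ) → M} (i : Fin r)
    (hc : c ∈ Bi p 𝓜 j ℓ) : tL (F := F) i c ∈ Bi p 𝓜 (j + 2) ℓ := by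
  intro b
  rw [tL_apply]
  by_cases hb : 2 ≤ b i
  · rw [if_pos hb]
    have h := hc (Function.update b i (b i - 2))
    rw [C1e_nodd i b hb] at h
    refine ⟨h.1, fun hj => h.2 fun h' => hj ?_⟩
    have h2 := C1e_sum i b hb Finset.univ (Finset.mem_univ i)
    have h3 : (∑ k, (b k : ℤ)) = ∑ k, ((Function.update b i (b i - 2) k : ℕ) : ℤ) + 2 := by
      exact_mod_cast h2.symm
    rw [h3, h']
  · rw [if_neg hb]
    exact ⟨Submodule.zero_mem _, fun _ => rfl⟩

/-- JOB C1e. `t_i` commutes with `d`.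

PROOF. Compare the terms of index `k`. `k ≠ i`: the same expression on both sides (`2 e_i` changes sign exponents by
even numbers and no parity; if `b i < 2` both sides are `0`). `k = i`: both sides are
`(-1)^{sgE i b} ph p (f i) (b i) (c (b - 3 e_i))` if `b i ≥ 3` and `0` otherwise (`ph p T (k - 2) = ph p T k`). -/
theorem dL_tL {p r : ℕ} (f : Fin r → Module.End F M) (i : Fin r) (c : (Fin r → ℕ) → M) :
    dL p f (tL (F := F) i c) = tL (F := F) i (dL p f c) := by
  funext b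
  rw [dL_apply, tL_apply]
  by_cases hb : 2 ≤ b i
  · rw [if_pos hb, dL_apply]
    refine Finset.sum_congr rfl fun k _ => ?_
    by_cases hk : k = i
    · subst hk
      rw [if_pos (by omega : 1 ≤ b k), C1e_sgE k k b hb, tL_apply]
      simp only [Function.update_self, Function.update_idem]
      by_cases h3 : 3 ≤ b k
      · rw [if_pos (by omega), if_pos (by omega), C1e_ph p (f k) (b k) hb]
        have h4 : b k - 1 - 2 = b k - 2 - 1 := by omega
        rw [h4]
      · rw [if_neg (by omega), if_neg (by omega), map_zero, smul_zero]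
    · have hk' : i ≠ k := fun h => hk h.symm
      rw [C1e_sgE i k b hb, tL_apply, Function.update_of_ne hk, Function.update_of_ne hk',
        if_pos hb, Function.update_comm hk]
  · rw [if_neg hb]
    refine Finset.sum_eq_zero fun k _ => ?_
    have h0 : tL (F := F) i c (Function.update b k (b k - 1)) = 0 := by
      rw [tL_apply]
      by_cases hk : k = i
      · subst hk
        rw [Function.update_self, if_neg (by omega)]
      · have hk' : i ≠ k := fun h => hk h.symm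
        rw [Function.update_of_ne hk', if_neg hb]
    rw [h0, map_zero, smul_zero, ite_self]

/-- JOB C1e. `t_i` is injective: `(t_i c)(b + 2 e_i) = c b`. -/
theorem tL_inj {r : ℕ} (i : Fin r) (c : (Fin r → ℕ) → M) (h : tL (F := F) i c = 0) : c = 0 := by
  funext b
  have h1 := congrFun h (Function.update b i (b i + 2))
  rw [tL_apply, Function.update_self, if_pos (by omega), Function.update_idem,
    Nat.add_sub_cancel, Function.update_eq_self] at h1
  exact h1

end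

end QL
end

section

/-!
LinearBound, block E: from exactness in large degrees `j` to exactness in all degrees.

`rs s` restricts a cochain to the indices `b` with `b k ≤ 1` for all `k ≥ s` (the variables `t_k`, `k ≥ s`, are set to
`0`). `ExS s` is exactness of the complex of cochains supported there, with differential `rs s ∘ d`.
-/

set_option autoImplicit false

namespace QL

variable {F M : Type} [Field F] [AddCommGroup M] [Module F M]

/-- restriction to `{b | ∀ k ≥ s, b k ≤ 1}`. -/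
noncomputable def rs {r : ℕ} (s : ℕ) : ((Fin r → ℕ) → M) →ₗ[F] ((Fin r → ℕ) → M) := by
  classical
  exact
  { toFun := fun c b => if ∀ k : Fin r, s ≤ (k : ℕ) → b k ≤ 1 then c b else 0
    map_add' := by
      intro c c'
      funext b
      simp only [Pi.add_apply]
      split_ifs
      · rfl
      · rw [add_zero]
    map_smul' := by
      intro a c
      funext b
      simp only [Pi.smul_apply, RingHom.id_apply]
      split_ifs
      · rfl
      · rw [smul_zero] }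

open Classical in
theorem rs_apply {r : ℕ} (s : ℕ) (c : (Fin r → ℕ) → M) (b : Fin r → ℕ) :
    rs (F := F) s c b = if ∀ k : Fin r, s ≤ (k : ℕ) → b k ≤ 1 then c b else 0 := rfl

/-- exactness at `(j, ℓ)` with only `t_0, …, t_{s-1}` alive. -/
def ExS (p : ℕ) {r : ℕ} (𝓜 : ℤ → Submodule F M) (f : Fin r → Module.End F M) (s : ℕ) (j ℓ : ℤ) : Prop :=
  ∀ c ∈ Bi p 𝓜 j ℓ, rs (F := F) s c = c → rs (F := F) s (dL p f c) = 0 →
    ∃ e ∈ Bi p 𝓜 (j - 1) (ℓ - p), rs (F := F) s e = e ∧ rs (F := F) s (dL p f e) = c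

end QL
end

section

/-!
LinearBound (MP_c77682_nt), job E1. See table papers, id 368.
-/

set_option autoImplicit false

namespace QL

section

variable {F M : Type} [Field F] [AddCommGroup M] [Module F M]

private theorem E1_nodd {r : ℕ} (i : Fin r) (b : Fin r → ℕ) :
    nodd (Function.update b i (b i + 2)) = nodd b := by
  unfold nodd
  congr 1
  refine Finset.filter_congr fun k _ => ?_
  by_cases h : k = i
  · subst h
    rw [Function.update_self, Nat.odd_iff, Nat.odd_iff]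
    omega
  · rw [Function.update_of_ne h]

private theorem E1_sum {r : ℕ} (i : Fin r) (b : Fin r → ℕ) :
    ∑ k, ((Function.update b i (b i + 2) k : ℕ) : ℤ) = ∑ k, (b k : ℤ) + 2 := by
  have h : ∑ k, Function.update b i (b i + 2) k = ∑ k, b k + 2 := by
    rw [Finset.sum_update_of_mem (Finset.mem_univ i),
      ← Finset.sum_sdiff (Finset.singleton_subset_iff.2 (Finset.mem_univ i)) (f := fun k => b k),
      Finset.sum_singleton]
    omega
  exact_mod_cast h

private theorem E1_cond {r : ℕ} (s : Fin r) (b : Fin r → ℕ) (v : ℕ) :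
    (∀ k : Fin r, (s : ℕ) + 1 ≤ (k : ℕ) → Function.update b s v k ≤ 1) ↔
      ∀ k : Fin r, (s : ℕ) + 1 ≤ (k : ℕ) → b k ≤ 1 := by
  refine forall_congr' fun k => ?_
  constructor
  · intro h hk
    have hne : k ≠ s := fun e => by rw [e] at hk; omega
    have := h hk
    rwa [Function.update_of_ne hne] at this
  · intro h hk
    have hne : k ≠ s := fun e => by rw [e] at hk; omega
    rw [Function.update_of_ne hne]
    exact h hk

/-- JOB E1. `rs s` kills what `d` makes out of cochains that `rs s` kills: if `rs s c = 0` then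
`rs s (d c) = 0`. (If `b k ≤ 1` for all `k ≥ s` the same holds for `b - e_i`.) Hence
`rs s (d c) = rs s (d (rs s c))`. -/
theorem rs_dL_rs {p r : ℕ} (f : Fin r → Module.End F M) (s : ℕ) (c : (Fin r → ℕ) → M) :
    rs (F := F) s (dL p f (rs (F := F) s c)) = rs (F := F) s (dL p f c) := by
  classical
  funext b
  rw [rs_apply, rs_apply]
  by_cases hb : ∀ k : Fin r, s ≤ (k : ℕ) → b k ≤ 1
  · rw [if_pos hb, if_pos hb, dL_apply, dL_apply]
    refine Finset.sum_congr rfl fun i _ => ?_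
    have h : ∀ k : Fin r, s ≤ (k : ℕ) → Function.update b i (b i - 1) k ≤ 1 := by
      intro k hk
      by_cases h : k = i
      · subst h
        rw [Function.update_self]
        have := hb k hk
        omega
      · rw [Function.update_of_ne h]
        exact hb k hk
    rw [rs_apply, if_pos h]
  · rw [if_neg hb, if_neg hb]

/-- JOB E1. -/
theorem rs_mem_Bi {p r : ℕ} {𝓜 : ℤ → Submodule F M} {j ℓ : ℤ} {c : (Fin r → ℕ) → M} (s : ℕ)
    (hc : c ∈ Bi p 𝓜 j ℓ) : rs (F := F) s c ∈ Bi p 𝓜 j ℓ := by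
  classical
  intro b
  rw [rs_apply]
  by_cases hb : ∀ k : Fin r, s ≤ (k : ℕ) → b k ≤ 1
  · rw [if_pos hb]
    exact hc b
  · rw [if_neg hb]
    exact ⟨Submodule.zero_mem _, fun _ => rfl⟩

/-- JOB E1. `rs s ∘ rs (s+1) = rs s`, `rs (s+1) ∘ rs s = rs s`. -/
theorem rs_rs {r : ℕ} (s : ℕ) (c : (Fin r → ℕ) → M) :
    rs (F := F) s (rs (F := F) (s + 1) c) = rs (F := F) s c ∧
      rs (F := F) (s + 1) (rs (F := F) s c) = rs (F := F) s c := by
  classical
  constructor
  · funext b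
    rw [rs_apply, rs_apply s c b]
    by_cases hb : ∀ k : Fin r, s ≤ (k : ℕ) → b k ≤ 1
    · rw [if_pos hb, if_pos hb, rs_apply, if_pos fun k hk => hb k (by omega)]
    · rw [if_neg hb, if_neg hb]
  · funext b
    rw [rs_apply]
    by_cases hb : ∀ k : Fin r, s ≤ (k : ℕ) → b k ≤ 1
    · rw [if_pos fun k hk => hb k (by omega)]
    · rw [rs_apply, if_neg hb, ite_self]

/-- JOB E1. A cochain supported on `{b k ≤ 1 for k ≥ s + 1}` that is killed by `rs s` is `t_s y`: put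
`y b := c (b + 2 e_s)`. -/
theorem exists_of_rs_zero {p r : ℕ} {𝓜 : ℤ → Submodule F M} {j ℓ : ℤ} {c : (Fin r → ℕ) → M}
    (s : Fin r) (hc : c ∈ Bi p 𝓜 j ℓ) (h1 : rs (F := F) (s + 1) c = c) (h0 : rs (F := F) s c = 0) :
    ∃ y ∈ Bi p 𝓜 (j - 2) ℓ, rs (F := F) ((s : ℕ) + 1) y = y ∧ tL (F := F) s y = c := by
  classical
  have h1' : ∀ b : Fin r → ℕ, (¬ ∀ k : Fin r, (s : ℕ) + 1 ≤ (k : ℕ) → b k ≤ 1) → c b = 0 := by
    intro b hb
    have h := congrFun h1 b
    rw [rs_apply, if_neg hb] at h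
    exact h.symm
  have h0' : ∀ b : Fin r → ℕ, (∀ k : Fin r, (s : ℕ) ≤ (k : ℕ) → b k ≤ 1) → c b = 0 := by
    intro b hb
    have h := congrFun h0 b
    rw [rs_apply, if_pos hb] at h
    exact h
  refine ⟨fun b => c (Function.update b s (b s + 2)), ?_, ?_, ?_⟩
  · intro b
    have h := hc (Function.update b s (b s + 2))
    rw [E1_nodd, E1_sum] at h
    exact ⟨h.1, fun hj => h.2 fun h' => hj (by linarith)⟩
  · funext b
    rw [rs_apply]
    by_cases hb : ∀ k : Fin r, (s : ℕ) + 1 ≤ (k : ℕ) → b k ≤ 1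
    · rw [if_pos hb]
    · rw [if_neg hb]
      exact (h1' _ fun h => hb ((E1_cond s b _).1 h)).symm
  · funext b
    rw [tL_apply]
    by_cases hb : 2 ≤ b s
    · rw [if_pos hb]
      simp only [Function.update_self, Function.update_idem]
      rw [Nat.sub_add_cancel hb, Function.update_eq_self]
    · rw [if_neg hb]
      by_cases hb2 : ∀ k : Fin r, (s : ℕ) + 1 ≤ (k : ℕ) → b k ≤ 1
      · refine (h0' b fun k hk => ?_).symm
        rcases Nat.eq_or_lt_of_le hk with h | h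
        · have : k = s := Fin.ext h.symm
          rw [this]
          omega
        · exact hb2 k h
      · exact (h1' b hb2).symm

/-- JOB E1. `t_s` and `rs`: `rs (s+1) (t_s c) = t_s (rs (s+1) c)`, `rs s (t_s c) = 0`. -/
theorem rs_tL {r : ℕ} (s : Fin r) (c : (Fin r → ℕ) → M) :
    rs (F := F) ((s : ℕ) + 1) (tL (F := F) s c) = tL (F := F) s (rs (F := F) ((s : ℕ) + 1) c) ∧
      rs (F := F) (s : ℕ) (tL (F := F) s c) = 0 := by
  classical
  constructor
  · funext b
    rw [rs_apply, tL_apply, tL_apply]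
    by_cases hb : 2 ≤ b s
    · rw [if_pos hb, if_pos hb, rs_apply]
      by_cases hb2 : ∀ k : Fin r, (s : ℕ) + 1 ≤ (k : ℕ) → b k ≤ 1
      · rw [if_pos hb2, if_pos ((E1_cond s b _).2 hb2)]
      · rw [if_neg hb2, if_neg fun h => hb2 ((E1_cond s b _).1 h)]
    · rw [if_neg hb, if_neg hb, ite_self]
  · funext b
    rw [rs_apply, tL_apply]
    by_cases hb : ∀ k : Fin r, (s : ℕ) ≤ (k : ℕ) → b k ≤ 1
    · have := hb s le_rfl
      rw [if_pos hb, if_neg (by omega)]
      rfl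
    · rw [if_neg hb]
      rfl

end

end QL
end
end

section

/-!
LinearBound (MP_c77682_nt), job E2. See table papers, id 368.
-/

set_option autoImplicit false

namespace QL

section

variable {F M : Type} [Field F] [AddCommGroup M] [Module F M]

private theorem E2_rs_idem {r : ℕ} (s : ℕ) (c : (Fin r → ℕ) → M) :
    rs (F := F) s (rs (F := F) s c) = rs (F := F) s c := by
  funext b
  simp only [rs_apply]
  split_ifs <;> rfl

/-- JOB E2. Descent of exactness.

PROOF. `c ∈ Bi j ℓ`, `rs s c = c`, `rs s (d c) = 0`. Put `x = rs (s+1) (d c)`; `rs s x = 0`, so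
`x = t_s y`, `y ∈ Bi (j-1) (ℓ+p)`, `rs (s+1) y = y` (`exists_of_rs_zero`). `rs (s+1) (d y) = 0`: `t_s (rs (s+1) (d y)) =
rs (s+1) (d (t_s y)) = rs (s+1) (d (rs (s+1) (d c))) = rs (s+1) (d (d c)) = 0` and `t_s` is injective. By `h2`,
`y = rs (s+1) (d w)`, `w ∈ Bi (j-2) ℓ`. `c' = c - t_s w` satisfies `rs (s+1) c' = c'`,
`rs (s+1) (d c') = t_s y - t_s y = 0`; by `h1`, `c' = rs (s+1) (d e)`. Then `rs s (d (rs s e)) = rs s (d e) =
rs s c' = rs s c = c`. Use `rs s e`. -/
theorem ExS_descend {p r : ℕ} (hp : 1 ≤ p) {𝓜 : ℤ → Submodule F M} {f : Fin r → Module.End F M}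
    (hS : Sys p 𝓜 f) (s : Fin r) {j ℓ : ℤ} (h1 : ExS p 𝓜 f ((s : ℕ) + 1) j ℓ)
    (h2 : ExS p 𝓜 f ((s : ℕ) + 1) (j - 1) (ℓ + p)) : ExS p 𝓜 f s j ℓ := by
  intro c hc hcs hdc
  have hc1 : rs (F := F) ((s : ℕ) + 1) c = c := by
    have := (rs_rs (F := F) (s : ℕ) c).2
    rw [hcs] at this
    exact this
  have hx : rs (F := F) ((s : ℕ) + 1) (dL p f c) ∈ Bi p 𝓜 (j + 1) (ℓ + p) :=
    rs_mem_Bi (F := F) _ (dL_mem_Bi hp hS hc)
  have hx0 : rs (F := F) (s : ℕ) (rs (F := F) ((s : ℕ) + 1) (dL p f c)) = 0 := by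
    rw [(rs_rs (F := F) (s : ℕ) (dL p f c)).1, hdc]
  obtain ⟨y, hy, hy1, hyx⟩ := exists_of_rs_zero s hx
    (E2_rs_idem (F := F) ((s : ℕ) + 1) (dL p f c)) hx0
  have hy' : y ∈ Bi p 𝓜 (j - 1) (ℓ + p) := by
    have e : j + 1 - 2 = j - 1 := by ring
    rwa [e] at hy
  have hdy : rs (F := F) ((s : ℕ) + 1) (dL p f y) = 0 := by
    apply tL_inj (F := F) s
    rw [← (rs_tL (F := F) s (dL p f y)).1, ← dL_tL, hyx, rs_dL_rs, dL_dL hp hS, map_zero]
  obtain ⟨w, hw, hw1, hwy⟩ := h2 y hy' hy1 hdy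
  have hw' : w ∈ Bi p 𝓜 (j - 2) ℓ := by
    have e1 : j - 1 - 1 = j - 2 := by ring
    have e2 : ℓ + (p : ℤ) - p = ℓ := by ring
    rwa [e1, e2] at hw
  have htw : tL (F := F) s w ∈ Bi p 𝓜 j ℓ := by
    have := tL_mem_Bi (F := F) s hw'
    have e : j - 2 + 2 = j := by ring
    rwa [e] at this
  have hrtw : rs (F := F) ((s : ℕ) + 1) (tL (F := F) s w) = tL (F := F) s w := by
    rw [(rs_tL (F := F) s w).1, hw1]
  have hc' : rs (F := F) ((s : ℕ) + 1) (c - tL (F := F) s w) = c - tL (F := F) s w := by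
    rw [map_sub, hc1, hrtw]
  have hdc' : rs (F := F) ((s : ℕ) + 1) (dL p f (c - tL (F := F) s w)) = 0 := by
    rw [map_sub, map_sub, dL_tL, (rs_tL (F := F) s (dL p f w)).1, hwy, hyx, sub_self]
  obtain ⟨e, he, he1, hec⟩ := h1 _ (Submodule.sub_mem _ hc htw) hc' hdc'
  refine ⟨rs (F := F) (s : ℕ) e, rs_mem_Bi (F := F) _ he, E2_rs_idem (F := F) _ _, ?_⟩
  rw [rs_dL_rs, ← (rs_rs (F := F) (s : ℕ) (dL p f e)).1, hec, map_sub, hcs,
    (rs_tL (F := F) s w).2, sub_zero]

end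

end QL
end

section

section

/-!
LinearBound (MP_c77682_nt), job E3. See table papers, id 368.
-/

set_option autoImplicit false

namespace QL

section

variable {F M : Type} [Field F] [AddCommGroup M] [Module F M]

private theorem E3_idem {r : ℕ} (s : ℕ) (c : (Fin r → ℕ) → M) :
    rs (F := F) s (rs (F := F) s c) = rs (F := F) s c := by
  classical
  funext b
  rw [rs_apply, rs_apply]
  split_ifs <;> rfl

/-- JOB E3. Pushing a nontrivial class.

PROOF. Suppose `ExS s (J+1) (ℓ-p)`; show `ExS (s+1) J ℓ`. Let `c ∈ Bi J ℓ`, `rs (s+1) c = c`,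
`rs (s+1) (d c) = 0`. `t_s c ∈ Bi (J+2) ℓ` is a cycle (`rs_tL`, `dL_tL`), so by `h2` `t_s c = rs (s+1) (d y)`,
`y ∈ Bi (J+1) (ℓ-p)`, `rs (s+1) y = y`. `ȳ = rs s y`: `rs s (d ȳ) = rs s (d y) = rs s (rs (s+1) (d y)) =
rs s (t_s c) = 0`. So `ȳ = rs s (d x)` with `x ∈ Bi J (ℓ-2p)`, `rs s x = x`. `y - rs (s+1) (d x)` is killed by `rs s`,
so it is `t_s w`, `w ∈ Bi (J-1) (ℓ-p)`, `rs (s+1) w = w`. Then `t_s c = rs (s+1) (d y) = rs (s+1) (d (t_s w)) +
rs (s+1) (d (rs (s+1) (d x))) = t_s (rs (s+1) (d w)) + 0`, so `c = rs (s+1) (d w)`. -/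
theorem ExS_push {p r : ℕ} (hp : 1 ≤ p) {𝓜 : ℤ → Submodule F M} {f : Fin r → Module.End F M}
    (hS : Sys p 𝓜 f) (s : Fin r) {J ℓ : ℤ} (h2 : ExS p 𝓜 f ((s : ℕ) + 1) (J + 2) ℓ)
    (h3 : ExS p 𝓜 f s (J + 1) (ℓ - p)) : ExS p 𝓜 f ((s : ℕ) + 1) J ℓ := by
  intro c hc h1 h0
  have a1 : tL (F := F) s c ∈ Bi p 𝓜 (J + 2) ℓ := tL_mem_Bi s hc
  have a2 : rs (F := F) ((s : ℕ) + 1) (tL (F := F) s c) = tL (F := F) s c := by
    rw [(rs_tL s c).1, h1]
  have a3 : rs (F := F) ((s : ℕ) + 1) (dL p f (tL (F := F) s c)) = 0 := by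
    rw [dL_tL, (rs_tL s _).1, h0, map_zero]
  obtain ⟨y, hy, hy1, hy2⟩ := h2 _ a1 a2 a3
  have hy' : y ∈ Bi p 𝓜 (J + 1) (ℓ - p) := by
    have e1 : J + 2 - 1 = J + 1 := by ring
    rwa [e1] at hy
  have b1 : rs (F := F) (s : ℕ) (dL p f (rs (F := F) (s : ℕ) y)) = 0 := by
    rw [rs_dL_rs, ← (rs_rs (s : ℕ) (dL p f y)).1, hy2]
    exact (rs_tL s c).2
  obtain ⟨x, hx, hx1, hx2⟩ := h3 _ (rs_mem_Bi (s : ℕ) hy') (E3_idem _ _) b1
  have hdx : dL p f x ∈ Bi p 𝓜 (J + 1) (ℓ - p) := by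
    have h4 := dL_mem_Bi hp hS hx
    have e1 : J + 1 - 1 + 1 = J + 1 := by ring
    have e2 : ℓ - (p : ℤ) - p + p = ℓ - p := by ring
    rwa [e1, e2] at h4
  have c1 : y - rs (F := F) ((s : ℕ) + 1) (dL p f x) ∈ Bi p 𝓜 (J + 1) (ℓ - p) :=
    Submodule.sub_mem _ hy' (rs_mem_Bi _ hdx)
  have c2 : rs (F := F) ((s : ℕ) + 1) (y - rs (F := F) ((s : ℕ) + 1) (dL p f x)) =
      y - rs (F := F) ((s : ℕ) + 1) (dL p f x) := by
    rw [map_sub, hy1, E3_idem]
  have c3 : rs (F := F) (s : ℕ) (y - rs (F := F) ((s : ℕ) + 1) (dL p f x)) = 0 := by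
    rw [map_sub, (rs_rs (s : ℕ) (dL p f x)).1, hx2, sub_self]
  obtain ⟨w, hw, hw1, hw2⟩ := exists_of_rs_zero s c1 c2 c3
  have e3 : J + 1 - 2 = J - 1 := by ring
  rw [e3] at hw
  refine ⟨w, hw, hw1, ?_⟩
  have d1 : y = tL (F := F) s w + rs (F := F) ((s : ℕ) + 1) (dL p f x) := by
    rw [hw2, sub_add_cancel]
  have d2 : tL (F := F) s c = tL (F := F) s (rs (F := F) ((s : ℕ) + 1) (dL p f w)) := by
    rw [← hy2, d1, map_add, map_add, dL_tL, (rs_tL s (dL p f w)).1, rs_dL_rs, dL_dL hp hS, map_zero,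
      add_zero]
  have d3 : rs (F := F) ((s : ℕ) + 1) (dL p f w) - c = 0 := by
    refine tL_inj (F := F) s _ ?_
    rw [map_sub, ← d2, sub_self]
  exact sub_eq_zero.1 d3

end

end QL
end

section

/-!
LinearBound (MP_c77682_nt), job E4. See table papers, id 368.
-/

set_option autoImplicit false

namespace QL

section

variable {F M : Type} [Field F] [AddCommGroup M] [Module F M]

private theorem E4_rs_top {r : ℕ} (c : (Fin r → ℕ) → M) : rs (F := F) r c = c := by
  classical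
  funext b
  rw [rs_apply, if_pos]
  intro k hk
  exact absurd k.2 (by omega)

private theorem E4_top {p r : ℕ} {𝓜 : ℤ → Submodule F M} {f : Fin r → Module.End F M} {j ℓ : ℤ} :
    ExS p 𝓜 f r j ℓ ↔ Ex p 𝓜 f j ℓ := by
  constructor
  · intro h c hc h0
    obtain ⟨e, he, _, he2⟩ := h c hc (E4_rs_top c) (by rw [E4_rs_top, h0])
    rw [E4_rs_top] at he2
    exact ⟨e, he, he2⟩
  · intro h c hc _ h0
    rw [E4_rs_top] at h0
    obtain ⟨e, he, he2⟩ := h c hc h0
    exact ⟨e, he, E4_rs_top e, by rw [E4_rs_top, he2]⟩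

private theorem E4_large {p r : ℕ} (hp : 2 ≤ p) {𝓜 : ℤ → Submodule F M}
    {f : Fin r → Module.End F M} (hS : Sys p 𝓜 f) {ℓ : ℤ}
    (hlarge : ∀ ℓ' ≤ ℓ, ∃ J : ℤ, ∀ j > J, Ex p 𝓜 f j ℓ') (t : ℕ) :
    ∀ s : ℕ, s + t = r → ∀ lam : ℤ, lam + t * p ≤ ℓ → ∃ J : ℤ, ∀ j > J, ExS p 𝓜 f s j lam := by
  induction t with
  | zero =>
    intro s hs lam hlam
    rw [add_zero] at hs
    subst hs
    obtain ⟨J, hJ⟩ := hlarge lam (by simpa using hlam)
    exact ⟨J, fun j hj => E4_top.2 (hJ j hj)⟩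
  | succ t ih =>
    intro s hs lam hlam
    have hsr : s < r := by omega
    push_cast at hlam
    have hp0 : (0 : ℤ) ≤ p := by positivity
    obtain ⟨J1, hJ1⟩ := ih (s + 1) (by omega) lam (by linarith)
    obtain ⟨J2, hJ2⟩ := ih (s + 1) (by omega) (lam + p) (by linarith)
    refine ⟨max J1 (J2 + 1), fun j hj => ?_⟩
    have k1 : j > J1 := (le_max_left _ _).trans_lt hj
    have k2 : j > J2 + 1 := (le_max_right _ _).trans_lt hj
    exact ExS_descend (by omega) hS ⟨s, hsr⟩ (hJ1 j k1) (hJ2 (j - 1) (by linarith))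

private theorem E4_zero {p r : ℕ} {𝓜 : ℤ → Submodule F M} {f : Fin r → Module.End F M}
    (h𝓜 : ∀ D : ℤ, D < 0 → 𝓜 D = ⊥) {j lam : ℤ} (hj : (r : ℤ) ≤ j)
    (hlam : lam < ((p : ℤ) - 2) * r) : ExS p 𝓜 f 0 j lam := by
  classical
  intro c hc h1 _
  have hc0 : c = 0 := by
    funext b
    by_contra hb
    have hb' : c b ≠ 0 := hb
    have h2 : ∀ k : Fin r, b k ≤ 1 := by
      have h3 := congrFun h1 b
      rw [rs_apply] at h3
      by_cases h4 : ∀ k : Fin r, 0 ≤ (k : ℕ) → b k ≤ 1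
      · exact fun k => h4 k (Nat.zero_le _)
      · rw [if_neg h4] at h3
        exact absurd h3.symm hb'
    have h5 : (∑ k, (b k : ℤ)) = j := by
      by_contra h6
      exact hb' ((hc b).2 h6)
    have h7 : ∀ k, b k = 1 := by
      intro k
      by_contra h8
      have h9 : b k < 1 := lt_of_le_of_ne (h2 k) h8
      have h10 : (∑ k, (b k : ℤ)) < ∑ k : Fin r, (1 : ℤ) :=
        Finset.sum_lt_sum (fun i _ => by exact_mod_cast h2 i) ⟨k, Finset.mem_univ _, by exact_mod_cast h9⟩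
      rw [h5] at h10
      simp at h10
      linarith
    have h11 : nodd b = r := by
      unfold nodd
      rw [Finset.filter_true_of_mem]
      · simp
      · intro k _
        rw [h7 k]
        exact odd_one
    have h12 := (hc b).1
    rw [h11, h𝓜 _ (by linarith)] at h12
    exact hb' ((Submodule.mem_bot F).1 h12)
  exact ⟨0, Submodule.zero_mem _, by rw [map_zero], by rw [map_zero, map_zero, hc0]⟩

private theorem E4_claim {p r : ℕ} (hp : 2 ≤ p) {𝓜 : ℤ → Submodule F M}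
    {f : Fin r → Module.End F M} (hS : Sys p 𝓜 f) (h𝓜 : ∀ D : ℤ, D < 0 → 𝓜 D = ⊥) {ℓ : ℤ}
    (hlarge : ∀ ℓ' ≤ ℓ, ∃ J : ℤ, ∀ j > J, Ex p 𝓜 f j ℓ') (hℓ : ℓ < 2 * ((p : ℤ) - 1) * r) (s : ℕ) :
    s ≤ r → ∀ j : ℤ, (r : ℤ) - s ≤ j → ExS p 𝓜 f s j (ℓ - ((r : ℤ) - s) * p) := by
  induction s with
  | zero =>
    intro _ j hj
    refine E4_zero h𝓜 (by simpa using hj) ?_
    push_cast
    nlinarith
  | succ s ih =>
    intro hs
    have ih' := ih (by omega)
    obtain ⟨J0, hJ0⟩ := E4_large hp hS hlarge (r - (s + 1)) (s + 1) (by omega)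
      (ℓ - ((r : ℤ) - ((s + 1 : ℕ) : ℤ)) * p) (by
        rw [Nat.cast_sub hs]
        linarith)
    have key : ∀ n : ℕ, ∀ j : ℤ, (r : ℤ) - ((s + 1 : ℕ) : ℤ) ≤ j → J0 - n < j →
        ExS p 𝓜 f (s + 1) j (ℓ - ((r : ℤ) - ((s + 1 : ℕ) : ℤ)) * p) := by
      intro n
      induction n with
      | zero =>
        intro j _ hj
        exact hJ0 j (by simpa using hj)
      | succ n ihn =>
        intro j hj1 hj2
        push_cast at hj2
        have h2 := ihn (j + 2) (by linarith) (by linarith)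
        have h3 := ih' (j + 1) (by push_cast at hj1; linarith)
        have e1 : ℓ - ((r : ℤ) - (s : ℤ)) * p = ℓ - ((r : ℤ) - ((s + 1 : ℕ) : ℤ)) * p - p := by
          push_cast
          ring
        rw [e1] at h3
        exact ExS_push (by omega) hS ⟨s, by omega⟩ h2 h3
    intro j hj
    refine key (J0 - j + 1).toNat j hj ?_
    have h4 : J0 - j + 1 ≤ ((J0 - j + 1).toNat : ℤ) := Int.self_le_toNat _
    linarith

/-- JOB E4. The conclusion.

PROOF. (i) `ExS r = Ex` (the condition in `rs r` is empty). (ii) Large degrees: for `s ≤ r` and `λ` with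
`λ + (r - s) p ≤ ℓ` there is `J` with `ExS s j λ` for all `j > J`: descending induction on `s` with `ExS_descend`.
(iii) `ExS 0 j λ` holds if `j ≥ r` and `λ < (p-2) r`: for `c ∈ Bi j λ`, `rs 0 c = c`: if `c b ≠ 0` then `b k ≤ 1` for all
`k`, `∑ b = j ≥ r`, so `b = 1` and `c b ∈ 𝓜 (λ - (p-2) r) = ⊥`. So `c = 0`, take `e = 0`.
(iv) Claim: for `s ≤ r`: `ExS s j (ℓ - (r - s) p)` for all `j ≥ r - s`. Induction on `s`; `s = 0` is (iii) with
`λ = ℓ - r p`: `λ < (p-2) r` iff `ℓ < 2 (p-1) r`. Step `s → s+1`: by (ii) it holds for large `j`; go down with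
`ExS_push` (its `h2` is the statement for `J + 2`, its `h3` is the claim for `s`, in degree `J + 1 ≥ r - s`, level
`ℓ - (r-s-1) p - p = ℓ - (r-s) p`): a downward induction on `J` (for `J ≥ r - s - 1`).
(v) `s = r`: `Ex j ℓ` for `j ≥ 0`. For `j < 0`, `Bi j ℓ = 0` (`∑ b ≥ 0`). -/
theorem Ex_all {p r : ℕ} (hp : 2 ≤ p) {𝓜 : ℤ → Submodule F M} {f : Fin r → Module.End F M}
    (hS : Sys p 𝓜 f) (h𝓜 : ∀ D : ℤ, D < 0 → 𝓜 D = ⊥) {ℓ : ℤ}
    (hlarge : ∀ ℓ' ≤ ℓ, ∃ J : ℤ, ∀ j > J, Ex p 𝓜 f j ℓ') (hℓ : ℓ < 2 * ((p : ℤ) - 1) * r) (j : ℤ) :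
    Ex p 𝓜 f j ℓ := by
  by_cases hj : 0 ≤ j
  · have h := E4_claim hp hS h𝓜 hlarge hℓ r le_rfl j (by simpa using hj)
    have e1 : ℓ - ((r : ℤ) - (r : ℤ)) * p = ℓ := by ring
    rw [e1] at h
    exact E4_top.1 h
  · intro c hc _
    have hc0 : c = 0 := by
      funext b
      refine (hc b).2 ?_
      have h1 : 0 ≤ ∑ k, (b k : ℤ) := Finset.sum_nonneg fun k _ => by positivity
      intro h2
      rw [h2] at h1
      exact hj h1
    exact ⟨0, Submodule.zero_mem _, by rw [map_zero, hc0]⟩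

end

end QL
end
end
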