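import Mathlib

/-!
LinearBound, block Q: property `QP p 𝒱 g a`: for `1 ≤ k ≤ p - 1` and `D < a - k + 1`, every `x ∈ 𝒱 D` with `g^k x = 0`
is `g^(p-k) y` with `y ∈ 𝒱 (D - 2 (p - k))`.
-/

set_option autoImplicit false

namespace QL

variable {K V V' : Type} [Field K] [AddCommGroup V] [Module K V] [AddCommGroup V'] [Module K V']

/-- property Q. -/
def QP (p : ℕ) (𝒱 : ℤ → Submodule K V) (g : Module.End K V) (a : ℤ) : Prop :=
  ∀ k : ℕ, 1 ≤ k → k + 1 ≤ p → ∀ D : ℤ, D < a - k + 1 → ∀ x ∈ 𝒱 D, (g ^ k) x = 0 →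
    ∃ y ∈ 𝒱 (D - 2 * ((p : ℤ) - k)), (g ^ (p - k)) y = x

/-- the operator `g + v` on `V ⊕ V v`, `v^2 = 0`. -/
def dbl (g : Module.End K V) : Module.End K (V × V) where
  toFun x := (g x.1, g x.2 + x.1)
  map_add' x y := by
    ext
    · simp
    · simp; abel
  map_smul' c x := by
    ext
    · simp
    · simp

/-- the grading of `V ⊕ V v`, `deg v = 2`. -/
def grD (𝒱 : ℤ → Submodule K V) (D : ℤ) : Submodule K (V × V) := (𝒱 D).prod (𝒱 (D - 2))

/-- the operator `g + u^s` on `V ⊗ K[u]/(u^n)`, written as functions `Fin n → V`. -/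
def trc (s n : ℕ) (g : Module.End K V) : Module.End K (Fin n → V) where
  toFun x i := g (x i) + if h : s ≤ (i : ℕ) then x ⟨i - s, by omega⟩ else 0
  map_add' x y := by
    funext i
    simp only [Pi.add_apply, map_add]
    split_ifs
    · abel
    · abel
  map_smul' c x := by
    funext i
    simp only [Pi.smul_apply, RingHom.id_apply, map_smul]
    split_ifs
    · rw [smul_add]
    · rw [smul_add, smul_zero]

/-- the grading of `V ⊗ K[u]/(u^n)` with `deg u = e`. -/
def grT (n : ℕ) (e : ℤ) (𝒱 : ℤ → Submodule K V) (D : ℤ) : Submodule K (Fin n → V) where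
  carrier := {x | ∀ i : Fin n, x i ∈ 𝒱 (D - e * (i : ℕ))}
  add_mem' h h' i := Submodule.add_mem _ (h i) (h' i)
  zero_mem' _ := Submodule.zero_mem _
  smul_mem' c _ h i := Submodule.smul_mem _ c (h i)

/-- the operator `g + x y` on `V ⊗ K[x, y]/(x^2, y^2)`, elements `(c₁, c_x, c_y, c_xy)`. -/
def xy (g : Module.End K V) : Module.End K (V × V × V × V) where
  toFun c := (g c.1, g c.2.1, g c.2.2.1, g c.2.2.2 + c.1)
  map_add' x y := by
    ext
    · simp
    · simp
    · simp
    · simp; abel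
  map_smul' c x := by
    ext
    · simp
    · simp
    · simp
    · simp

/-- its grading. -/
def grXY (𝒱 : ℤ → Submodule K V) (D : ℤ) : Submodule K (V × V × V × V) :=
  (𝒱 D).prod ((𝒱 (D - 1)).prod ((𝒱 (D - 1)).prod (𝒱 (D - 2))))

end QL
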