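import Pool.Agent.Lib.MP_c77682_nt.L.BDefs
import Pool.Agent.Lib.MP_c77682_nt.L.C1a
import Pool.Agent.Lib.MP_c77682_nt.L.PDefs
import Pool.Agent.Lib.MP_c77682_nt.L.MDefs
import Pool.Agent.Lib.MP_c77682_nt.L.QDefs
import Pool.Agent.Lib.MP_c77682_nt.L.Q1

section

section

/-!
LinearBound (MP_c77682_nt), job B1. See table papers, id 368.
-/

set_option autoImplicit false

namespace QL

section

variable {F M0 : Type} [Field F] [AddCommGroup M0] [Module F M0]
variable {μ : Type} [Fintype μ] [DecidableEq μ]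

/-- JOB B1. -/
theorem mact_one : (mact (1 : Matrix μ μ F) : Module.End F (μ → M0)) = 1 := by
  refine LinearMap.ext fun c => funext fun m => ?_
  rw [mact_apply, Finset.sum_eq_single m]
  · rw [Matrix.one_apply_eq, one_smul]
    rfl
  · intro b _ hb
    rw [Matrix.one_apply_ne (Ne.symm hb), zero_smul]
  · intro h
    exact absurd (Finset.mem_univ m) h

/-- JOB B1. -/
theorem mact_mul (G H : Matrix μ μ F) :
    (mact (G * H) : Module.End F (μ → M0)) = mact G * mact H := by
  refine LinearMap.ext fun c => funext fun m => ?_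
  rw [Module.End.mul_apply, mact_apply, mact_apply]
  simp only [mact_apply, Matrix.mul_apply, Finset.sum_smul, Finset.smul_sum, mul_smul]
  exact Finset.sum_comm

/-- JOB B1. -/
theorem mact_add (G H : Matrix μ μ F) :
    (mact (G + H) : Module.End F (μ → M0)) = mact G + mact H := by
  refine LinearMap.ext fun c => funext fun m => ?_
  rw [LinearMap.add_apply, Pi.add_apply, mact_apply, mact_apply, mact_apply,
    ← Finset.sum_add_distrib]
  exact Finset.sum_congr rfl fun m' _ => by rw [Matrix.add_apply, add_smul]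

/-- JOB B1. -/
theorem mact_zero : (mact (0 : Matrix μ μ F) : Module.End F (μ → M0)) = 0 := by
  refine LinearMap.ext fun c => funext fun m => ?_
  rw [LinearMap.zero_apply, Pi.zero_apply, mact_apply]
  exact Finset.sum_eq_zero fun m' _ => by rw [Matrix.zero_apply, zero_smul]

/-- JOB B1. -/
theorem mact_pow (G : Matrix μ μ F) (k : ℕ) :
    (mact (G ^ k) : Module.End F (μ → M0)) = mact G ^ k := by
  induction k with
  | zero => rw [pow_zero, pow_zero, mact_one]
  | succ k ih => rw [pow_succ, pow_succ, mact_mul, ih]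

/-- JOB B1. -/
theorem Lead.pow {deg : μ → ℕ} {f : Module.End F (μ → M0)} {g : Module.End F M0}
    (h : Lead deg f g) (k : ℕ) : Lead deg (f ^ k) (g ^ k) := by
  induction k with
  | zero =>
    intro D c hc
    rw [pow_zero, pow_zero]
    exact ⟨hc, fun m _ => rfl⟩
  | succ k ih =>
    intro D c hc
    obtain ⟨h1, h2⟩ := h D c hc
    obtain ⟨h3, h4⟩ := ih D (f c) h1
    rw [pow_succ, pow_succ]
    refine ⟨fun m hm => h3 m hm, fun m hm => ?_⟩
    rw [Module.End.mul_apply, Module.End.mul_apply, h4 m hm, h2 m hm]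

end

end QL
end

section

/-!
LinearBound (MP_c77682_nt), job B2. See table papers, id 368.
-/

set_option autoImplicit false

namespace QL

section

variable {F M0 : Type} [Field F] [AddCommGroup M0] [Module F M0]
variable {μ : Type} [Fintype μ] [DecidableEq μ]

private theorem b2_ph_lead {p : ℕ} {deg : μ → ℕ} {f : Module.End F (μ → M0)}
    {g : Module.End F M0} (h : Lead deg f g) (k : ℕ) : Lead deg (ph p f k) (ph p g k) := by
  unfold ph
  split_ifs
  · exact h
  · exact h.pow _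

/-- JOB B2. the leading part of the differential. -/
theorem dL_lead {p r : ℕ} {deg : μ → ℕ} {f : Fin r → Module.End F (μ → M0)}
    {f0 : Fin r → Module.End F M0} (hlead : ∀ i, Lead deg (f i) (f0 i)) (D : ℕ)
    (c : (Fin r → ℕ) → (μ → M0)) (hc : ∀ b m, deg m < D → c b m = 0) (b : Fin r → ℕ) :
    (∀ m, deg m < D → dL p f c b m = 0) ∧
      ∀ m, deg m = D → dL p f c b m = dL p f0 (fun b' => c b' m) b := by
  constructor
  · intro m hm
    rw [dL_apply, Finset.sum_apply]
    refine Finset.sum_eq_zero fun i _ => ?_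
    split_ifs with hb
    · rw [Pi.smul_apply, (b2_ph_lead (hlead i) (b i) D _ (hc _)).1 m hm, smul_zero]
    · rfl
  · intro m hm
    rw [dL_apply, dL_apply, Finset.sum_apply]
    refine Finset.sum_congr rfl fun i _ => ?_
    split_ifs with hb
    · rw [Pi.smul_apply, (b2_ph_lead (hlead i) (b i) D _ (hc _)).2 m hm]
    · rfl

/-- JOB B2. operators commuting with `f` pass through `d`. -/
theorem dL_comm {M : Type} [AddCommGroup M] [Module F M] {p r : ℕ} {f : Fin r → Module.End F M}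
    (T : Module.End F M) (hT : ∀ i, Commute T (f i)) (c : (Fin r → ℕ) → M) (b : Fin r → ℕ) :
    dL p f (fun b' => T (c b')) b = T (dL p f c b) := by
  rw [dL_apply, dL_apply, map_sum]
  refine Finset.sum_congr rfl fun i _ => ?_
  split_ifs with hb
  · have h1 : Commute T (ph p (f i) (b i)) := by
      unfold ph
      split_ifs
      · exact hT i
      · exact (hT i).pow_right _
    have h2 : ∀ x, T (ph p (f i) (b i) x) = ph p (f i) (b i) (T x) := by
      intro x
      have h3 := congrArg (fun g : Module.End F M => g x) h1.eq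
      exact h3
    rw [map_smul, h2]
  · rw [map_zero]

end

end QL
end

section

/-!
LinearBound (MP_c77682_nt), job B3. See table papers, id 368.
-/

set_option autoImplicit false

namespace QL

section

variable {F M0 : Type} [Field F] [AddCommGroup M0] [Module F M0]
variable {μ : Type} [Fintype μ] [DecidableEq μ]

private theorem b3_mem {deg : μ → ℕ} {𝓜0 : ℤ → Submodule F M0} (G : Matrix μ μ F) (d : ℕ)
    (hG : ∀ m m', G m m' ≠ 0 → deg m + d = deg m') {D : ℤ} {c : μ → M0}
    (hc : c ∈ grF deg 𝓜0 D) : mact G c ∈ grF deg 𝓜0 (D - d) := by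
  intro m
  rw [mact_apply]
  refine Submodule.sum_mem _ fun m' _ => ?_
  by_cases h0 : G m m' = 0
  · rw [h0, zero_smul]
    exact Submodule.zero_mem _
  · refine Submodule.smul_mem _ _ ?_
    have h1 := hc m'
    have h2 := hG m m' h0
    have h3 : D - (d : ℤ) - (deg m : ℤ) = D - (deg m' : ℤ) := by
      rw [← h2]
      push_cast
      ring
    rw [h3]
    exact h1

private theorem b3_mem_Bi {p r : ℕ} {deg : μ → ℕ} {𝓜0 : ℤ → Submodule F M0} (G : Matrix μ μ F)
    (d : ℕ) (hG : ∀ m m', G m m' ≠ 0 → deg m + d = deg m') {j ℓ : ℤ}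
    {c : (Fin r → ℕ) → (μ → M0)} (hc : c ∈ Bi p (grF deg 𝓜0) j ℓ) :
    (fun b => mact G (c b)) ∈ Bi p (grF deg 𝓜0) j (ℓ - d) := by
  intro b
  refine ⟨?_, fun hj => ?_⟩
  · have h1 := b3_mem G d hG (hc b).1
    have h2 : ℓ - (d : ℤ) - ((p : ℤ) - 2) * nodd b = ℓ - ((p : ℤ) - 2) * nodd b - (d : ℤ) := by
      ring
    rw [h2]
    exact h1
  · show mact G (c b) = 0
    rw [(hc b).2 hj, map_zero]

private theorem b3_dL_sum {p r : ℕ} (f0 : Fin r → Module.End F M0) (G : Matrix μ μ F)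
    (x : (Fin r → ℕ) → (μ → M0)) (m : μ) (b : Fin r → ℕ) :
    dL p f0 (fun b' => mact G (x b') m) b = ∑ m', G m m' • dL p f0 (fun b' => x b' m') b := by
  have h1 : (fun b' => mact G (x b') m) = ∑ m', G m m' • (fun b' => x b' m') := by
    funext b'
    rw [mact_apply, Finset.sum_apply]
    rfl
  rw [h1, map_sum, Finset.sum_apply]
  refine Finset.sum_congr rfl fun m' _ => ?_
  rw [map_smul]
  rfl

private theorem b3_mul (G H : Matrix μ μ F) (c : μ → M0) :
    mact G (mact H c) = mact (G * H) c := by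
  rw [mact_mul, Module.End.mul_apply]

private theorem b3_zero (c : μ → M0) : mact (0 : Matrix μ μ F) c = 0 := by
  rw [mact_zero, LinearMap.zero_apply]

/-- the step: kill the degree `D` part. -/
private theorem b3_step {p r : ℕ} {deg : μ → ℕ} {𝓜0 : ℤ → Submodule F M0}
    {f : Fin r → Module.End F (μ → M0)} {f0 : Fin r → Module.End F M0}
    (hlead : ∀ i, Lead deg (f i) (f0 i))
    (G1 G2 π : Matrix μ μ F) (a ℓ : ℤ)
    (h2 : G1 * π = 0) (h3 : π * G2 = 0)
    (hπ : ∀ m m', π m m' ≠ 0 → deg m = deg m' ∧ a ≤ deg m)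
    (hEx : ∀ ℓ' : ℤ, ℓ' ≤ ℓ - a → ∀ j, Ex p 𝓜0 f0 j ℓ')
    (D : ℕ) (j : ℤ) (c' : (Fin r → ℕ) → (μ → M0)) (hc' : c' ∈ Bi p (grF deg 𝓜0) j ℓ)
    (hπc : ∀ b, mact π (c' b) = c' b) (hd : ∀ b, ∃ m, dL p f c' b = mact G2 m)
    (hD : ∀ b m, deg m < D → c' b m = 0) :
    ∃ e ∈ Bi p (grF deg 𝓜0) (j - 1) (ℓ - p), (∀ b, mact G1 (e b) = 0) ∧
      ∀ b m, deg m < D + 1 → c' b m = dL p f e b m := by
  by_cases ha : (D : ℤ) < a
  · refine ⟨0, Submodule.zero_mem _, fun b => map_zero _, fun b m hm => ?_⟩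
    rw [map_zero]
    show c' b m = 0
    rcases Nat.lt_or_ge (deg m) D with h | h
    · exact hD b m h
    · have hmD : deg m = D := by omega
      rw [← hπc b, mact_apply]
      refine Finset.sum_eq_zero fun m' _ => ?_
      by_cases h0 : π m m' = 0
      · rw [h0, zero_smul]
      · have h5 := (hπ m m' h0).2
        rw [hmD] at h5
        omega
  · rw [not_lt] at ha
    have hl := dL_lead (p := p) hlead D c' hD
    -- the components are cycles
    have hcyc : ∀ m, deg m = D → dL p f0 (fun b' => c' b' m) = 0 := by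
      intro m hm
      funext b
      have h5 : (fun b' => c' b' m) = fun b' => mact π (c' b') m := by
        funext b'
        rw [hπc b']
      rw [h5, b3_dL_sum]
      have h6 : ∑ m', π m m' • dL p f0 (fun b' => c' b' m') b = mact π (dL p f c' b) m := by
        rw [mact_apply]
        refine Finset.sum_congr rfl fun m' _ => ?_
        by_cases h0 : π m m' = 0
        · rw [h0, zero_smul, zero_smul]
        · rw [(hl b).2 m' (by rw [← (hπ m m' h0).1, hm])]
      rw [h6]
      obtain ⟨x, hx⟩ := hd b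
      rw [hx, b3_mul, h3, b3_zero]
      rfl
    have hex : ∀ m, deg m = D → ∃ e ∈ Bi p 𝓜0 (j - 1) (ℓ - D - p),
        dL p f0 e = fun b' => c' b' m := by
      intro m hm
      refine hEx (ℓ - D) (by omega) j (fun b' => c' b' m) ?_ (hcyc m hm)
      intro b
      refine ⟨?_, fun hj => ?_⟩
      · have h5 := (hc' b).1 m
        have h6 : ℓ - (D : ℤ) - ((p : ℤ) - 2) * nodd b = ℓ - ((p : ℤ) - 2) * nodd b - (deg m : ℤ) := by
          rw [hm]
          ring
        rw [h6]
        exact h5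
      · show c' b m = 0
        rw [(hc' b).2 hj]
        rfl
    choose! e he1 he2 using hex
    set E : (Fin r → ℕ) → (μ → M0) := fun b m => if deg m = D then e m b else 0 with hE
    have hEm : E ∈ Bi p (grF deg 𝓜0) (j - 1) (ℓ - p) := by
      intro b
      refine ⟨?_, fun hj => ?_⟩
      · intro m
        show (if deg m = D then e m b else 0) ∈ _
        split_ifs with hm
        · have h5 := (he1 m hm b).1
          have h6 : ℓ - (p : ℤ) - ((p : ℤ) - 2) * nodd b - (deg m : ℤ) =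
              ℓ - (D : ℤ) - (p : ℤ) - ((p : ℤ) - 2) * nodd b := by
            rw [hm]
            ring
          rw [h6]
          exact h5
        · exact Submodule.zero_mem _
      · funext m
        show (if deg m = D then e m b else 0) = 0
        split_ifs with hm
        · exact (he1 m hm b).2 hj
        · rfl
    have hπ0 : ∀ m m', π m m' ≠ 0 → deg m + 0 = deg m' := fun m m' h => (hπ m m' h).1
    have he0m : (fun b => mact π (E b)) ∈ Bi p (grF deg 𝓜0) (j - 1) (ℓ - p) := by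
      have h5 := b3_mem_Bi (p := p) π 0 hπ0 hEm
      simpa using h5
    refine ⟨fun b => mact π (E b), he0m, fun b => ?_, ?_⟩
    · rw [b3_mul, h2, b3_zero]
    · have hs : ∀ b m, deg m < D → mact π (E b) m = 0 := by
        intro b m hm
        rw [mact_apply]
        refine Finset.sum_eq_zero fun m' _ => ?_
        by_cases h0 : π m m' = 0
        · rw [h0, zero_smul]
        · have h5 := (hπ m m' h0).1
          have h6 : E b m' = 0 := by
            show (if deg m' = D then e m' b else 0) = 0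
            rw [if_neg (by omega)]
          rw [h6, smul_zero]
      have hl2 := dL_lead (p := p) hlead D (fun b => mact π (E b)) hs
      intro b m hm
      rcases Nat.lt_or_ge (deg m) D with h | h
      · rw [hD b m h, (hl2 b).1 m h]
      · have hmD : deg m = D := by omega
        rw [(hl2 b).2 m hmD, b3_dL_sum]
        have h7 : ∑ m', π m m' • dL p f0 (fun b' => E b' m') b = mact π (c' b) m := by
          rw [mact_apply]
          refine Finset.sum_congr rfl fun m' _ => ?_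
          by_cases h0 : π m m' = 0
          · rw [h0, zero_smul, zero_smul]
          · have h8 : deg m' = D := by rw [← (hπ m m' h0).1, hmD]
            have h9 : (fun b' => E b' m') = e m' := by
              funext b'
              show (if deg m' = D then e m' b' else 0) = e m' b'
              rw [if_pos h8]
            rw [h9, he2 m' h8]
        rw [h7, hπc b]

private theorem b3_ind {p r : ℕ} (hp : 1 ≤ p) {deg : μ → ℕ} {𝓜0 : ℤ → Submodule F M0}
    {f : Fin r → Module.End F (μ → M0)} {f0 : Fin r → Module.End F M0}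
    (hS : Sys p (grF deg 𝓜0) f) (hlead : ∀ i, Lead deg (f i) (f0 i))
    (G1 G2 π S θ : Matrix μ μ F) (dψ : ℕ) (a ℓ : ℤ)
    (hG1 : ∀ i, Commute (mact G1) (f i)) (hG2 : ∀ i, Commute (mact G2) (f i))
    (h1 : 1 = π + S * G1 + G2 * θ) (h2 : G1 * π = 0) (h3 : π * G2 = 0) (h4 : π * π = π)
    (hπ : ∀ m m', π m m' ≠ 0 → deg m = deg m' ∧ a ≤ deg m)
    (hθ : ∀ m m', θ m m' ≠ 0 → deg m + dψ = deg m')
    (hEx : ∀ ℓ' : ℤ, ℓ' ≤ ℓ - a → ∀ j, Ex p 𝓜0 f0 j ℓ') (j : ℤ) (n : ℕ) :
    ∀ D : ℕ, (∀ m, deg m < D + n) → ∀ c ∈ Bi p (grF deg 𝓜0) j ℓ, (∀ b, mact G1 (c b) = 0) →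
      (∀ b, ∃ m, dL p f c b = mact G2 m) → (∀ b m, deg m < D → c b m = 0) →
      ∃ e ∈ Bi p (grF deg 𝓜0) (j - 1) (ℓ - p), ∃ g ∈ Bi p (grF deg 𝓜0) j (ℓ - dψ),
        (∀ b, mact G1 (e b) = 0) ∧ ∀ b, c b = dL p f e b + mact G2 (g b) := by
  induction n with
  | zero =>
    intro D hD c _ _ _ hc0
    refine ⟨0, Submodule.zero_mem _, 0, Submodule.zero_mem _, fun b => map_zero _, fun b => ?_⟩
    rw [map_zero]
    show c b = 0 + mact G2 0
    rw [map_zero, add_zero]
    funext m
    exact hc0 b m (by simpa using hD m)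
  | succ n ih =>
    intro D hD c hc hcG hcd hc0
    have hπ0 : ∀ m m', π m m' ≠ 0 → deg m + 0 = deg m' := fun m m' h => (hπ m m' h).1
    have hc' : (fun b => mact π (c b)) ∈ Bi p (grF deg 𝓜0) j ℓ := by
      have h5 := b3_mem_Bi (p := p) π 0 hπ0 hc
      simpa using h5
    have hθc : (fun b => mact θ (c b)) ∈ Bi p (grF deg 𝓜0) j (ℓ - dψ) :=
      b3_mem_Bi (p := p) θ dψ hθ hc
    have hdec : ∀ b, c b = mact π (c b) + mact G2 (mact θ (c b)) := by
      intro b
      have h5 : mact (1 : Matrix μ μ F) (c b) = c b := by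
        rw [mact_one, Module.End.one_apply]
      have h6 := h5
      rw [h1, mact_add, mact_add, LinearMap.add_apply, LinearMap.add_apply, ← b3_mul, hcG b,
        map_zero, add_zero, ← b3_mul] at h6
      exact h6.symm
    have hdd : ∀ b, dL p f c b = dL p f (fun b => mact π (c b)) b +
        mact G2 (dL p f (fun b => mact θ (c b)) b) := by
      intro b
      have h6 : dL p f (fun b' => mact G2 (mact θ (c b'))) b =
          mact G2 (dL p f (fun b => mact θ (c b)) b) :=
        dL_comm (p := p) (f := f) (mact G2) hG2 (fun b => mact θ (c b)) b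
      rw [← h6]
      have h5 : c = (fun b => mact π (c b)) + (fun b => mact G2 (mact θ (c b))) := by
        funext b
        exact hdec b
      conv_lhs => rw [h5, map_add]
      rfl
    have hc'd : ∀ b, ∃ m, dL p f (fun b => mact π (c b)) b = mact G2 m := by
      intro b
      obtain ⟨m, hm⟩ := hcd b
      refine ⟨m - dL p f (fun b => mact θ (c b)) b, ?_⟩
      rw [map_sub, ← hm, hdd b]
      abel
    have hc'0 : ∀ b m, deg m < D → mact π (c b) m = 0 := by
      intro b m hm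
      rw [mact_apply]
      refine Finset.sum_eq_zero fun m' _ => ?_
      by_cases h0 : π m m' = 0
      · rw [h0, zero_smul]
      · rw [hc0 b m' (by rw [← (hπ m m' h0).1]; exact hm), smul_zero]
    obtain ⟨e0, he0, he0G, he0d⟩ := b3_step (p := p) hlead G1 G2 π a ℓ h2 h3 hπ hEx D j
      (fun b => mact π (c b)) hc' (fun b => by
        show mact π (mact π (c b)) = mact π (c b)
        rw [b3_mul, h4]) hc'd hc'0
    have hde0 : dL p f e0 ∈ Bi p (grF deg 𝓜0) j ℓ := by
      have h5 := dL_mem_Bi hp hS he0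
      simpa using h5
    obtain ⟨e1, he1, g, hg, he1G, he1d⟩ := ih (D + 1) (fun m => by have := hD m; omega)
      ((fun b => mact π (c b)) - dL p f e0) (Submodule.sub_mem _ hc' hde0)
      (fun b => by
        show mact G1 (mact π (c b) - dL p f e0 b) = 0
        have h6 : dL p f (fun b' => mact G1 (e0 b')) b = mact G1 (dL p f e0 b) :=
          dL_comm (p := p) (f := f) (mact G1) hG1 e0 b
        have h5 : (fun b' => mact G1 (e0 b')) = 0 := by
          funext b'
          exact he0G b'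
        rw [map_sub, b3_mul, h2, b3_zero, ← h6, h5, map_zero]
        show (0 : μ → M0) - 0 = 0
        rw [sub_zero])
      (fun b => by
        obtain ⟨m, hm⟩ := hc'd b
        refine ⟨m, ?_⟩
        rw [map_sub, dL_dL hp hS, sub_zero, hm])
      (fun b m hm => by
        show mact π (c b) m - dL p f e0 b m = 0
        rw [sub_eq_zero]
        exact he0d b m hm)
    refine ⟨e0 + e1, Submodule.add_mem _ he0 he1, g + (fun b => mact θ (c b)),
      Submodule.add_mem _ hg hθc, fun b => ?_, fun b => ?_⟩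
    · show mact G1 (e0 b + e1 b) = 0
      rw [map_add, he0G, he1G, add_zero]
    · have h5 : mact π (c b) - dL p f e0 b = dL p f e1 b + mact G2 (g b) := he1d b
      rw [map_add]
      show c b = dL p f e0 b + dL p f e1 b + mact G2 (g b + mact θ (c b))
      rw [map_add]
      have h6 : mact π (c b) = dL p f e0 b + (dL p f e1 b + mact G2 (g b)) := by
        rw [← h5]
        abel
      have h7 := hdec b
      rw [h6] at h7
      refine h7.trans ?_
      abel

/-- JOB B3. (E1)/(E2).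

PROOF. Descending induction on `D : ℕ`: for every `c ∈ Bi j ℓ` with `mact G1 (c b) = 0`, `dL c b ∈ im (mact G2)` and
`c b m = 0` for `deg m < D` the conclusion holds. For `D > max deg`, `c = 0`. Step: let `c' b = mact π (c b)`. As
`mact G1 (c b) = 0`, `h1` gives `c b = c' b + mact G2 (mact θ (c b))`. (`θ c ∈ Bi j (ℓ - dψ)` by `hθ`.) `c'` vanishes
in degrees `< D` (π is homogeneous), `mact G1 (c' b) = 0`, `mact π (c' b) = c' b`, and
`dL c' b = dL c b - mact G2 (dL (θ c) b) ∈ im (mact G2)` (`dL_comm`). For `deg m = D` put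
`c'_m b = c' b m ∈ Bi p 𝓜0 j (ℓ - D)`; `dL_lead`: `dL c' b m = dL f0 c'_m b`. Claim `dL f0 c'_m = 0`: as `c' = π c'` and
`π` is homogeneous, `c'_m = ∑_{deg m' = D} π m m' • c'_{m'}`, so
`dL f0 c'_m b = ∑_{deg m' = D} π m m' • dL c' b m' = (mact π (dL c' b)) m = 0` since `dL c' b ∈ im (mact G2)` and
`π * G2 = 0`. If `(D : ℤ) < a`, then `π m m' = 0` for `deg m = D`, so `c'_m = 0` and we may pass to `D + 1`. If
`a ≤ D`: `hEx` at level `ℓ - D ≤ ℓ - a` gives `e_m ∈ Bi (j-1) (ℓ-D-p)` with `dL f0 e_m = c'_m` (`deg m = D`). Put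
`e b = mact π (fun m => if deg m = D then e_m b else 0)`: `mact G1 (e b) = 0`, `e ∈ Bi (j-1) (ℓ-p)`, `e` is supported in
degree `D`, and by `dL_lead` `dL e b m = 0` for `deg m < D` and for `deg m = D`
`dL e b m = ∑ π m m' • dL f0 e_{m'} b = ∑ π m m' • c'_{m'} b = c' b m`. So `c' - dL e` vanishes in degrees `≤ D`,
`mact G1` kills it, `dL (c' - dL e) = dL c'` (`dL_dL`) is in `im (mact G2)`. Apply the induction hypothesis to
`c' - dL e` and add up. -/
theorem EE_of_lead {p r : ℕ} (hp : 1 ≤ p) {deg : μ → ℕ} {𝓜0 : ℤ → Submodule F M0}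
    {f : Fin r → Module.End F (μ → M0)} {f0 : Fin r → Module.End F M0}
    (hS : Sys p (grF deg 𝓜0) f) (hlead : ∀ i, Lead deg (f i) (f0 i))
    (G1 G2 π S θ : Matrix μ μ F) (dψ : ℕ) (a ℓ : ℤ)
    (hG1 : ∀ i, Commute (mact G1) (f i)) (hG2 : ∀ i, Commute (mact G2) (f i))
    (h1 : 1 = π + S * G1 + G2 * θ) (h2 : G1 * π = 0) (h3 : π * G2 = 0) (h4 : π * π = π)
    (hπ : ∀ m m', π m m' ≠ 0 → deg m = deg m' ∧ a ≤ deg m)
    (hθ : ∀ m m', θ m m' ≠ 0 → deg m + dψ = deg m')
    (hEx : ∀ ℓ' : ℤ, ℓ' ≤ ℓ - a → ∀ j, Ex p 𝓜0 f0 j ℓ') :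
    EE p (grF deg 𝓜0) (mact G1) (mact G2) f dψ ℓ := by
  intro j c hc hcG hcd
  obtain ⟨N, hN⟩ : ∃ N : ℕ, ∀ m, deg m < N := by
    refine ⟨(Finset.univ.sup deg) + 1, fun m => ?_⟩
    exact Nat.lt_succ_of_le (Finset.le_sup (Finset.mem_univ m))
  exact b3_ind hp hS hlead G1 G2 π S θ dψ a ℓ hG1 hG2 h1 h2 h3 h4 hπ hθ hEx j N 0
    (fun m => by rw [zero_add]; exact hN m) c hc hcG hcd (fun b m hm => absurd hm (Nat.not_lt_zero _))

end

end QL
end
end

section

section

/-!
LinearBound (MP_c77682_nt), job P3. See table papers, id 368.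
-/

set_option autoImplicit false

open Matrix Module

namespace QL

section

variable {p : ℕ} [Fact p.Prime] {n r : ℕ}

private theorem coeff_zero_of_mem (f : MvPolynomial (Fin n) (ZMod p))
    (hf : f ∈ Ideal.span (Set.range fun j : Fin n =>
      (MvPolynomial.X j ^ p : MvPolynomial (Fin n) (ZMod p)))) :
    ∀ β : Fin n →₀ ℕ, (∀ i, β i < p) → MvPolynomial.coeff β f = 0 := by
  induction hf using Submodule.span_induction with
  | mem x hx =>
    obtain ⟨j, rfl⟩ := hx
    intro β hβ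
    simp only
    rw [MvPolynomial.coeff_X_pow, if_neg]
    intro h
    have := hβ j
    rw [← h, Finsupp.single_eq_same] at this
    exact lt_irrefl _ this
  | zero => intro β _; rfl
  | add x y _ _ hx hy => intro β hβ; rw [MvPolynomial.coeff_add, hx β hβ, hy β hβ, add_zero]
  | smul a x _ hx =>
    intro β hβ
    rw [smul_eq_mul, MvPolynomial.coeff_mul]
    refine Finset.sum_eq_zero (fun u hu => ?_)
    rw [Finset.HasAntidiagonal.mem_antidiagonal] at hu
    rw [hx u.2 (fun i => lt_of_le_of_lt ?_ (hβ i)), mul_zero]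
    rw [← hu]
    simp

/-- JOB P3. Dependent linear forms.

PROOF. Let `∑ c k T k = 0` with `c k₀ ≠ 0`: `T k₀ = ∑_{k ≠ k₀} d k T k`. Every monomial of the expansion of
`(T k₀)^(p-1)` contains some `T k`, `k ≠ k₀`, so `∏ T^(p-1)` is in the ideal generated by the `T k ^ p`, and
`T k ^ p = ∑_j (coefficient)^p X j ^ p` (characteristic `p`). All monomials of an element of the ideal `(X j ^ p)` have some
exponent `≥ p`. -/
theorem coeff_zero_of_dep (T : Fin r → MvPolynomial (Fin n) (ZMod p))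
    (hT : ∀ k, ∃ t : Fin n → ZMod p, T k = ∑ j, MvPolynomial.C (t j) * MvPolynomial.X j)
    (c : Fin r → ZMod p) (hc : c ≠ 0) (hdep : ∑ k, MvPolynomial.C (c k) * T k = 0)
    (β : Fin n →₀ ℕ) (hβ : ∀ i, β i < p) : MvPolynomial.coeff β (∏ k, T k ^ (p - 1)) = 0 := by
  classical
  refine coeff_zero_of_mem _ ?_ β hβ
  set I : Ideal (MvPolynomial (Fin n) (ZMod p)) := Ideal.span (Set.range fun j : Fin n =>
      (MvPolynomial.X j ^ p : MvPolynomial (Fin n) (ZMod p))) with hI
  have hTp : ∀ k, T k ^ p ∈ I := by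
    intro k
    obtain ⟨t, ht⟩ := hT k
    rw [ht, sum_pow_char]
    refine Ideal.sum_mem _ (fun j _ => ?_)
    rw [mul_pow]
    exact Ideal.mul_mem_left _ _ (Ideal.subset_span ⟨j, rfl⟩)
  obtain ⟨k₀, hk₀⟩ : ∃ k₀, c k₀ ≠ 0 := by
    by_contra h
    push Not at h
    exact hc (funext h)
  have hp2 : 2 ≤ p := (Fact.out : p.Prime).two_le
  have hTk : T k₀ = ∑ k ∈ Finset.univ.erase k₀, MvPolynomial.C (-(c k₀)⁻¹ * c k) * T k := by
    rw [← Finset.add_sum_erase _ _ (Finset.mem_univ k₀)] at hdep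
    have h1 : MvPolynomial.C (c k₀) * T k₀
        = - ∑ k ∈ Finset.univ.erase k₀, MvPolynomial.C (c k) * T k :=
      eq_neg_of_add_eq_zero_left hdep
    have h2 : T k₀ = MvPolynomial.C (c k₀)⁻¹ * (MvPolynomial.C (c k₀) * T k₀) := by
      rw [← mul_assoc, ← map_mul, inv_mul_cancel₀ hk₀, map_one, one_mul]
    rw [h2, h1, mul_neg, Finset.mul_sum, ← Finset.sum_neg_distrib]
    refine Finset.sum_congr rfl (fun k _ => ?_)
    rw [map_mul, map_neg]
    ring
  rw [← Finset.mul_prod_erase _ _ (Finset.mem_univ k₀)]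
  have e : T k₀ ^ (p - 1) = T k₀ * T k₀ ^ (p - 2) := by
    rw [← pow_succ']
    congr 1
    omega
  rw [e]
  nth_rewrite 1 [hTk]
  rw [Finset.sum_mul, Finset.sum_mul]
  refine Ideal.sum_mem _ (fun k hk => ?_)
  rw [← Finset.mul_prod_erase _ _ hk]
  have e2 : T k ^ p = T k * T k ^ (p - 1) := by
    rw [← pow_succ']
    congr 1
    omega
  have : MvPolynomial.C (-(c k₀)⁻¹ * c k) * T k * T k₀ ^ (p - 2) *
      (T k ^ (p - 1) * ∏ x ∈ (Finset.univ.erase k₀).erase k, T x ^ (p - 1))
      = (MvPolynomial.C (-(c k₀)⁻¹ * c k) * T k₀ ^ (p - 2) *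
        ∏ x ∈ (Finset.univ.erase k₀).erase k, T x ^ (p - 1)) * T k ^ p := by
    rw [e2]
    ring
  rw [this]
  exact Ideal.mul_mem_left _ _ (hTp k)

end

end QL
end

section

/-!
LinearBound (MP_c77682_nt), job M8. See table papers, id 368.
-/

set_option autoImplicit false
set_option linter.unusedSectionVars false

open Matrix

namespace QL

section

variable {K : Type} [Field K] {p : ℕ} {σ₁ σ₀ : Type} [Fintype σ₁] [DecidableEq σ₁] [Fintype σ₀]
  [DecidableEq σ₀]

private theorem M8_dg (m₁ : Mon p σ₁) (m₀ : Mon p σ₀) :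
    dg (Sum.elim m₁ m₀ : Mon p (σ₁ ⊕ σ₀)) = dg m₁ + dg m₀ := by
  unfold dg
  rw [Fintype.sum_sum_type]
  rfl

private theorem M8_elim (m : Mon p (σ₁ ⊕ σ₀)) :
    (Sum.elim (fun i => m (Sum.inl i)) (fun i => m (Sum.inr i)) : Mon p (σ₁ ⊕ σ₀)) = m := by
  funext i
  cases i <;> rfl

/-- JOB M8. -/
theorem curryMon_gr (D : ℤ) (x : Mon p (σ₁ ⊕ σ₀) → K) :
    x ∈ gr K (dg (p := p) (σ := σ₁ ⊕ σ₀)) D ↔
      curryMon K p σ₁ σ₀ x ∈ grF (dg (p := p) (σ := σ₁)) (gr K (dg (p := p) (σ := σ₀))) D := by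
  constructor
  · intro h m₁ m₀ hne
    have h1 := h (Sum.elim m₁ m₀) hne
    rw [M8_dg] at h1
    push_cast at h1
    linarith
  · intro h m hne
    have h1 := h (fun i => m (Sum.inl i)) (fun i => m (Sum.inr i)) (by
      change x (Sum.elim _ _) ≠ 0
      rw [M8_elim]
      exact hne)
    rw [← M8_elim m, M8_dg]
    push_cast
    linarith

/-- multiplication by a variable, transported by `curryMon` -/
private noncomputable def M8_X (K : Type) [Field K] (p : ℕ) {σ₁ σ₀ : Type} [Fintype σ₁]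
    [DecidableEq σ₁] [Fintype σ₀] [DecidableEq σ₀] (a : σ₁ ⊕ σ₀) :
    Module.End K (Mon p σ₁ → (Mon p σ₀ → K)) :=
  (curryMon K p σ₁ σ₀).toLinearMap ∘ₗ (Xm K p a).mulVecLin ∘ₗ
    (curryMon K p σ₁ σ₀).symm.toLinearMap

private theorem M8_GN {σ : Type} [Fintype σ] [DecidableEq σ] (Q : Matrix σ σ K)
    (x : Mon p σ → K) : (GN p Q).mulVec x =
      ∑ a, ∑ b, Q a b • (Xm K p a).mulVec ((Xm K p b).mulVec x) := by
  have h1 : (GN p Q).mulVec x = Matrix.mulVec.addMonoidHomLeft x (GN p Q) := rfl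
  rw [h1]
  unfold GN
  rw [map_sum]
  refine Finset.sum_congr rfl fun a _ => ?_
  rw [map_sum]
  refine Finset.sum_congr rfl fun b _ => ?_
  change (Q a b • (Xm K p a * Xm K p b)).mulVec x = _
  rw [Matrix.smul_mulVec, Matrix.mulVec_mulVec]

private theorem M8_op (Q : Matrix (σ₁ ⊕ σ₀) (σ₁ ⊕ σ₀) K) (c : Mon p σ₁ → (Mon p σ₀ → K)) :
    opC p Q c = ∑ a, ∑ b, Q a b • M8_X K p a (M8_X K p b c) := by
  have h1 : opC p Q c = curryMon K p σ₁ σ₀ ((GN p Q).mulVec ((curryMon K p σ₁ σ₀).symm c)) := rfl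
  rw [h1, M8_GN, map_sum]
  refine Finset.sum_congr rfl fun a _ => ?_
  rw [map_sum]
  refine Finset.sum_congr rfl fun b _ => ?_
  rw [map_smul]
  have h2 : M8_X K p a (M8_X K p b c) = curryMon K p σ₁ σ₀ ((Xm K p a).mulVec
      ((curryMon K p σ₁ σ₀).symm (curryMon K p σ₁ σ₀ ((Xm K p b).mulVec
        ((curryMon K p σ₁ σ₀).symm c))))) := rfl
  rw [h2, LinearEquiv.symm_apply_apply]

/-- sum over monomials in `σ₁ ⊕ σ₀` -/
private theorem M8_sum {M : Type*} [AddCommMonoid M] (f : Mon p (σ₁ ⊕ σ₀) → M) :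
    ∑ m, f m = ∑ m₁ : Mon p σ₁, ∑ m₀ : Mon p σ₀, f (Sum.elim m₁ m₀) := by
  rw [← Fintype.sum_prod_type' (f := fun (m₁ : Mon p σ₁) (m₀ : Mon p σ₀) => f (Sum.elim m₁ m₀))]
  exact (Fintype.sum_equiv (Equiv.sumArrowEquivProdArrow σ₁ σ₀ (Fin p)).symm _ _
    (fun x => rfl)).symm

private theorem M8_Xl (a : σ₁) (m₁ m₁' : Mon p σ₁) (m₀ m₀' : Mon p σ₀) :
    Xm K p (Sum.inl a : σ₁ ⊕ σ₀) (Sum.elim m₁ m₀) (Sum.elim m₁' m₀') =
      if m₀ = m₀' then Xm K p a m₁ m₁' else 0 := by
  unfold Xm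
  by_cases h : m₀ = m₀'
  · subst h
    rw [if_pos rfl]
    refine if_congr ?_ rfl rfl
    constructor
    · intro h i
      have := h (Sum.inl i)
      simpa using this
    · intro h i
      cases i with
      | inl i => simpa using h i
      | inr i => simp
  · rw [if_neg h, if_neg]
    intro h2
    apply h
    funext i
    have := h2 (Sum.inr i)
    simp only [Sum.elim_inr, reduceCtorEq, if_false, add_zero] at this
    exact Fin.ext this

private theorem M8_Xr (a : σ₀) (m₁ m₁' : Mon p σ₁) (m₀ m₀' : Mon p σ₀) :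
    Xm K p (Sum.inr a : σ₁ ⊕ σ₀) (Sum.elim m₁ m₀) (Sum.elim m₁' m₀') =
      if m₁ = m₁' then Xm K p a m₀ m₀' else 0 := by
  unfold Xm
  by_cases h : m₁ = m₁'
  · subst h
    rw [if_pos rfl]
    refine if_congr ?_ rfl rfl
    constructor
    · intro h i
      have := h (Sum.inr i)
      simpa using this
    · intro h i
      cases i with
      | inr i => simpa using h i
      | inl i => simp
  · rw [if_neg h, if_neg]
    intro h2
    apply h
    funext i
    have := h2 (Sum.inl i)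
    simp only [Sum.elim_inl, reduceCtorEq, if_false, add_zero] at this
    exact Fin.ext this

private theorem M8_Xinl (a : σ₁) : M8_X K p (Sum.inl a : σ₁ ⊕ σ₀) = mact (Xm K p a) := by
  refine LinearMap.ext fun c => ?_
  funext m₁ m₀
  have h1 : M8_X K p (Sum.inl a : σ₁ ⊕ σ₀) c m₁ m₀ =
      ∑ m', Xm K p (Sum.inl a : σ₁ ⊕ σ₀) (Sum.elim m₁ m₀) m' *
        c (fun i => m' (Sum.inl i)) (fun i => m' (Sum.inr i)) := rfl
  rw [h1, M8_sum, mact_apply, Finset.sum_apply]
  refine Finset.sum_congr rfl fun m₁' _ => ?_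
  have h2 : ∀ m₀' : Mon p σ₀, Xm K p (Sum.inl a : σ₁ ⊕ σ₀) (Sum.elim m₁ m₀) (Sum.elim m₁' m₀') *
      c (fun i => (Sum.elim m₁' m₀' : Mon p (σ₁ ⊕ σ₀)) (Sum.inl i))
        (fun i => (Sum.elim m₁' m₀' : Mon p (σ₁ ⊕ σ₀)) (Sum.inr i)) =
      if m₀ = m₀' then Xm K p a m₁ m₁' * c m₁' m₀' else 0 := by
    intro m₀'
    rw [M8_Xl]
    change (if m₀ = m₀' then Xm K p a m₁ m₁' else 0) * c m₁' m₀' = _
    rw [ite_mul, zero_mul]
  rw [Finset.sum_congr rfl fun m₀' _ => h2 m₀', Finset.sum_ite_eq]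
  simp

private theorem M8_Xinr (a : σ₀) (c : Mon p σ₁ → (Mon p σ₀ → K)) (m₁ : Mon p σ₁) :
    M8_X K p (Sum.inr a : σ₁ ⊕ σ₀) c m₁ = (Xm K p a).mulVec (c m₁) := by
  funext m₀
  have h1 : M8_X K p (Sum.inr a : σ₁ ⊕ σ₀) c m₁ m₀ =
      ∑ m', Xm K p (Sum.inr a : σ₁ ⊕ σ₀) (Sum.elim m₁ m₀) m' *
        c (fun i => m' (Sum.inl i)) (fun i => m' (Sum.inr i)) := rfl
  have h3 : (Xm K p a).mulVec (c m₁) m₀ = ∑ m₀' : Mon p σ₀, Xm K p a m₀ m₀' * c m₁ m₀' := rfl
  rw [h1, M8_sum, Finset.sum_comm, h3]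
  refine Finset.sum_congr rfl fun m₀' _ => ?_
  have h2 : ∀ m₁' : Mon p σ₁, Xm K p (Sum.inr a : σ₁ ⊕ σ₀) (Sum.elim m₁ m₀) (Sum.elim m₁' m₀') *
      c (fun i => (Sum.elim m₁' m₀' : Mon p (σ₁ ⊕ σ₀)) (Sum.inl i))
        (fun i => (Sum.elim m₁' m₀' : Mon p (σ₁ ⊕ σ₀)) (Sum.inr i)) =
      if m₁ = m₁' then Xm K p a m₀ m₀' * c m₁' m₀' else 0 := by
    intro m₁'
    rw [M8_Xr]
    change (if m₁ = m₁' then Xm K p a m₀ m₀' else 0) * c m₁' m₀' = _
    rw [ite_mul, zero_mul]
  rw [Finset.sum_congr rfl fun m₁' _ => h2 m₁', Finset.sum_ite_eq]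
  simp

/-- vanishing in degrees `< D` -/
private def M8_V (D : ℕ) (c : Mon p σ₁ → (Mon p σ₀ → K)) : Prop := ∀ m, dg m < D → c m = 0

private theorem M8_Vr {D : ℕ} {c : Mon p σ₁ → (Mon p σ₀ → K)} (h : M8_V D c) (a : σ₀) :
    M8_V D (M8_X K p (Sum.inr a : σ₁ ⊕ σ₀) c) := by
  intro m hm
  rw [M8_Xinr, h m hm, Matrix.mulVec_zero]

private theorem M8_Vl {D : ℕ} {c : Mon p σ₁ → (Mon p σ₀ → K)} (h : M8_V D c) (a : σ₁) :
    M8_V (D + 1) (M8_X K p (Sum.inl a : σ₁ ⊕ σ₀) c) := by
  intro m hm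
  rw [M8_Xinl, mact_apply]
  refine Finset.sum_eq_zero fun m' _ => ?_
  by_cases h1 : ∀ i, (m i : ℕ) = m' i + (if i = a then 1 else 0)
  · have h2 : dg m = dg m' + 1 := by
      unfold dg
      rw [Finset.sum_congr rfl fun i _ => h1 i, Finset.sum_add_distrib]
      simp
    rw [h m' (by omega), smul_zero]
  · have h2 : Xm K p a m m' = 0 := if_neg h1
    rw [h2, zero_smul]

private theorem M8_Vmono {D : ℕ} {c : Mon p σ₁ → (Mon p σ₀ → K)} (h : M8_V (D + 1) c) :
    M8_V D c := fun m hm => h m (by omega)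

/-- JOB M8. the leading part (with respect to the degree in the variables `σ₁`) of multiplication by `Q` is
multiplication by the restriction of `Q` to the variables `σ₀`.

PROOF. Split `∑ a, ∑ b` over `σ₁ ⊕ σ₀` into four blocks. Multiplication by `x_a`, `a ∈ σ₀`, acts on the values;
multiplication by `x_a`, `a ∈ σ₁`, raises the `σ₁`-degree by one. The blocks `(σ₁, σ₁)`, `(σ₁, σ₀)`, `(σ₀, σ₁)` therefore
contribute nothing in degree `D` to elements that vanish in degrees `< D`. -/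
theorem opC_lead (Q : Matrix (σ₁ ⊕ σ₀) (σ₁ ⊕ σ₀) K) :
    Lead (dg (p := p) (σ := σ₁)) (opC p Q) (GN p Q.toBlocks₂₂).mulVecLin := by
  intro D c hc
  have hV : M8_V D c := hc
  have hll : ∀ (a : σ₁) (b : σ₁ ⊕ σ₀), M8_V (D + 1) (M8_X K p (Sum.inl a) (M8_X K p b c)) := by
    intro a b
    cases b with
    | inl b => exact M8_Vmono (M8_Vl (M8_Vl hV b) a)
    | inr b => exact M8_Vl (M8_Vr hV b) a
  have hrl : ∀ (a : σ₀) (b : σ₁), M8_V (D + 1)
      (M8_X K p (Sum.inr a) (M8_X K p (Sum.inl b : σ₁ ⊕ σ₀) c)) := by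
    intro a b
    exact M8_Vr (M8_Vl hV b) a
  have hop : ∀ m, dg m < D + 1 → opC p Q c m =
      ∑ a : σ₀, ∑ b : σ₀, Q (Sum.inr a) (Sum.inr b) •
        (Xm K p a).mulVec ((Xm K p b).mulVec (c m)) := by
    intro m hm
    rw [M8_op, Fintype.sum_sum_type, Pi.add_apply, Finset.sum_apply, Finset.sum_apply]
    have h1 : ∑ a : σ₁, (∑ b, Q (Sum.inl a) b • M8_X K p (Sum.inl a) (M8_X K p b c)) m = 0 := by
      refine Finset.sum_eq_zero fun a _ => ?_
      rw [Finset.sum_apply]
      refine Finset.sum_eq_zero fun b _ => ?_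
      rw [Pi.smul_apply, hll a b m hm, smul_zero]
    rw [h1, zero_add]
    refine Finset.sum_congr rfl fun a _ => ?_
    rw [Fintype.sum_sum_type, Pi.add_apply, Finset.sum_apply, Finset.sum_apply]
    have h2 : ∑ b : σ₁, (Q (Sum.inr a) (Sum.inl b) •
        M8_X K p (Sum.inr a) (M8_X K p (Sum.inl b) c)) m = 0 := by
      refine Finset.sum_eq_zero fun b _ => ?_
      rw [Pi.smul_apply, hrl a b m hm, smul_zero]
    rw [h2, zero_add]
    refine Finset.sum_congr rfl fun b _ => ?_
    rw [Pi.smul_apply, M8_Xinr, M8_Xinr]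
  constructor
  · intro m hm
    rw [hop m (by omega), hc m hm]
    simp
  · intro m hm
    rw [hop m (by omega), Matrix.mulVecLin_apply, M8_GN]
    rfl

/-- JOB M8. a form in the variables `σ₁` only acts by `mact`. -/
theorem opC_top (N : Matrix σ₁ σ₁ K) :
    opC p (Matrix.fromBlocks N 0 0 (0 : Matrix σ₀ σ₀ K)) = mact (GN p N) := by
  refine LinearMap.ext fun c => ?_
  rw [M8_op, Fintype.sum_sum_type]
  have h1 : ∑ a : σ₀, ∑ b, Matrix.fromBlocks N 0 0 (0 : Matrix σ₀ σ₀ K) (Sum.inr a) b •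
      M8_X K p (Sum.inr a) (M8_X K p b c) = 0 := by
    refine Finset.sum_eq_zero fun a _ => Finset.sum_eq_zero fun b _ => ?_
    cases b <;> simp
  rw [h1, add_zero]
  have h2 : ∀ a : σ₁, ∑ b, Matrix.fromBlocks N 0 0 (0 : Matrix σ₀ σ₀ K) (Sum.inl a) b •
      M8_X K p (Sum.inl a) (M8_X K p b c) =
      ∑ b : σ₁, N a b • mact (Xm K p a) (mact (Xm K p b) c) := by
    intro a
    rw [Fintype.sum_sum_type]
    have h3 : ∑ b : σ₀, Matrix.fromBlocks N 0 0 (0 : Matrix σ₀ σ₀ K) (Sum.inl a) (Sum.inr b) •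
        M8_X K p (Sum.inl a) (M8_X K p (Sum.inr b) c) = 0 :=
      Finset.sum_eq_zero fun b _ => by simp
    rw [h3, add_zero]
    refine Finset.sum_congr rfl fun b _ => ?_
    rw [M8_Xinl, M8_Xinl, Matrix.fromBlocks_apply₁₁]
  rw [Finset.sum_congr rfl fun a _ => h2 a]
  have hmul : ∀ (G H : Matrix (Mon p σ₁) (Mon p σ₁) K) (c : Mon p σ₁ → (Mon p σ₀ → K)),
      mact G (mact H c) = mact (G * H) c := by
    intro G H c
    funext m
    rw [mact_apply, mact_apply]
    simp only [mact_apply, Matrix.mul_apply, Finset.smul_sum, Finset.sum_smul, smul_smul]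
    rw [Finset.sum_comm]
  have hadd : ∀ G H : Matrix (Mon p σ₁) (Mon p σ₁) K,
      mact (G + H) c = mact G c + mact H c := by
    intro G H
    funext m
    rw [Pi.add_apply, mact_apply, mact_apply, mact_apply, ← Finset.sum_add_distrib]
    refine Finset.sum_congr rfl fun m' _ => ?_
    rw [Matrix.add_apply, add_smul]
  have hsmul : ∀ (k : K) (G : Matrix (Mon p σ₁) (Mon p σ₁) K),
      mact (k • G) c = k • mact G c := by
    intro k G
    funext m
    rw [Pi.smul_apply, mact_apply, mact_apply, Finset.smul_sum]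
    refine Finset.sum_congr rfl fun m' _ => ?_
    rw [Matrix.smul_apply, smul_eq_mul, smul_smul]
  have hphi : mact (GN p N) c = AddMonoidHom.mk' (fun G => mact G c) hadd (GN p N) := rfl
  rw [hphi]
  unfold GN
  rw [map_sum]
  refine Finset.sum_congr rfl fun a _ => ?_
  rw [map_sum]
  refine Finset.sum_congr rfl fun b _ => ?_
  change _ = mact (N a b • (Xm K p a * Xm K p b)) c
  rw [hsmul, hmul]

end

end QL
end
end

section

section

/-!
LinearBound (MP_c77682_nt), job Q5. See table papers, id 368.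
-/

set_option autoImplicit false

namespace QL

section

variable {K V V' : Type} [Field K] [AddCommGroup V] [Module K V] [AddCommGroup V'] [Module K V']

/-- JOB Q5. (`p = 2`.) `Q(a)` for `V` gives `Q(a + 1)` for `V ⊗ K[x, y]/(x^2, y^2)` with `g + x y`.

PROOF. Only `k = 1`. `g c₁ = g c_x = g c_y = 0`, `g c_xy + c₁ = 0`, degree `D < a + 1`. `c_x = g y_x`, `c_y = g y_y` by
`Q(a)` in degree `D - 1 < a`. `y₁ = c_xy`, `y_xy = 0`: `g y₁ = g c_xy = - c₁ = c₁` (characteristic 2) and
`g y_xy + y₁ = c_xy`. -/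
theorem QP_xy [CharP K 2] {𝒱 : ℤ → Submodule K V}
    {g : Module.End K V} {a : ℤ} (h : QP 2 𝒱 g a) :
    QP 2 (grXY 𝒱) (xy g) (a + 1) := by
  intro k hk hk2 D hD c hc hc0
  obtain rfl : k = 1 := by omega
  obtain ⟨c1, cx, cy, cxy⟩ := c
  obtain ⟨hc1, hcx, hcy, hcxy⟩ := hc
  simp only [pow_one, xy, LinearMap.coe_mk, AddHom.coe_mk, Prod.mk_eq_zero] at hc0
  obtain ⟨h1, h2, h3, h4⟩ := hc0
  have hQ := h 1 le_rfl (by norm_num) (D - 1) (by push_cast at hD ⊢; omega)
  obtain ⟨yx, hyx, eyx⟩ := hQ cx hcx (by rw [pow_one]; exact h2)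
  obtain ⟨yy, hyy, eyy⟩ := hQ cy hcy (by rw [pow_one]; exact h3)
  have e1 : g cxy = c1 := by
    have h5 : g cxy = -c1 := eq_neg_of_add_eq_zero_left h4
    rw [h5]
    have h6 : (2 : K) = 0 := CharTwo.two_eq_zero
    have h7 : (2 : K) • c1 = 0 := by rw [h6, zero_smul]
    rw [two_smul] at h7
    exact neg_eq_of_add_eq_zero_left h7
  simp only [Nat.add_one_sub_one, pow_one] at eyx eyy
  refine ⟨(cxy, yx, yy, 0), ⟨?_, ?_, ?_, Submodule.zero_mem _⟩, ?_⟩
  · change cxy ∈ 𝒱 _
    have e : D - 2 * (((2 : ℕ) : ℤ) - ((1 : ℕ) : ℤ)) = D - 2 := by push_cast; ring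
    rw [e]
    exact hcxy
  · change yx ∈ 𝒱 _
    have e : D - 2 * (((2 : ℕ) : ℤ) - ((1 : ℕ) : ℤ)) - 1 =
        D - 1 - 2 * (((2 : ℕ) : ℤ) - ((1 : ℕ) : ℤ)) := by ring
    rw [e]
    exact hyx
  · change yy ∈ 𝒱 _
    have e : D - 2 * (((2 : ℕ) : ℤ) - ((1 : ℕ) : ℤ)) - 1 =
        D - 1 - 2 * (((2 : ℕ) : ℤ) - ((1 : ℕ) : ℤ)) := by ring
    rw [e]
    exact hyy
  · simp only [Nat.add_one_sub_one, pow_one, xy, LinearMap.coe_mk, AddHom.coe_mk, map_zero, zero_add]
    rw [e1, eyx, eyy]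

end

end QL
end

section

/-!
LinearBound (MP_c77682_nt), job N4. See table papers, id 368.
-/

set_option autoImplicit false

open Matrix

namespace QL

section N4aux

variable {K : Type} [Field K]

private theorem N4_X {σ : Type} [Fintype σ] [DecidableEq σ] (a : σ) (x : Mon 2 σ → K)
    (m : Mon 2 σ) :
    ((Xm K 2 a).mulVec x) m = if m a = 1 then x (Function.update m a 0) else 0 := by
  have h0 : ((Xm K 2 a).mulVec x) m = ∑ m', Xm K 2 a m m' * x m' := rfl
  rw [h0]
  by_cases ha : m a = 1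
  · rw [if_pos ha, Finset.sum_eq_single (Function.update m a 0)]
    · have h1 : Xm K 2 a m (Function.update m a 0) = 1 := by
        unfold Xm
        rw [if_pos]
        intro i
        by_cases hi : i = a
        · subst hi
          rw [ha, Function.update_self, if_pos rfl]
          rfl
        · rw [Function.update_of_ne hi, if_neg hi]
          rfl
      rw [h1, one_mul]
    · intro m' _ hm'
      have h1 : Xm K 2 a m m' = 0 := by
        unfold Xm
        rw [if_neg]
        intro h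
        apply hm'
        funext i
        by_cases hi : i = a
        · subst hi
          rw [Function.update_self]
          have h2 := h i
          rw [ha, if_pos rfl] at h2
          apply Fin.ext
          have h3 : ((1 : Fin 2) : ℕ) = 1 := rfl
          have h4 : ((0 : Fin 2) : ℕ) = 0 := rfl
          omega
        · rw [Function.update_of_ne hi]
          have h2 := h i
          rw [if_neg hi] at h2
          apply Fin.ext
          omega
      rw [h1, zero_mul]
    · intro h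
      exact absurd (Finset.mem_univ _) h
  · rw [if_neg ha]
    refine Finset.sum_eq_zero fun m' _ => ?_
    have h1 : Xm K 2 a m m' = 0 := by
      unfold Xm
      rw [if_neg]
      intro h
      apply ha
      have h2 := h a
      rw [if_pos rfl] at h2
      apply Fin.ext
      have h3 : ((1 : Fin 2) : ℕ) = 1 := rfl
      have h5 := (m a).isLt
      omega
    rw [h1, zero_mul]

private abbrev JJ (K : Type) [Field K] (n : ℕ) : Matrix (Fin n ⊕ Fin n) (Fin n ⊕ Fin n) K :=
  fromBlocks 0 (1 : Matrix (Fin n) (Fin n) K) 0 0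

private theorem N4_GN (n : ℕ) :
    GN 2 (JJ K n) = ∑ i : Fin n, Xm K 2 (Sum.inl i : Fin n ⊕ Fin n) * Xm K 2 (Sum.inr i) := by
  unfold GN
  rw [Fintype.sum_sum_type]
  have h1 : ∑ a : Fin n, ∑ b : Fin n ⊕ Fin n, JJ K n (Sum.inr a) b •
      (Xm K 2 (Sum.inr a : Fin n ⊕ Fin n) * Xm K 2 b) = 0 := by
    refine Finset.sum_eq_zero fun a _ => Finset.sum_eq_zero fun b _ => ?_
    have h2 : JJ K n (Sum.inr a) b = 0 := by
      cases b <;> rfl
    rw [h2, zero_smul]
  rw [h1, add_zero]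
  refine Finset.sum_congr rfl fun i _ => ?_
  rw [Fintype.sum_sum_type]
  have h3 : ∑ b : Fin n, JJ K n (Sum.inl i) (Sum.inl b) •
      (Xm K 2 (Sum.inl i : Fin n ⊕ Fin n) * Xm K 2 (Sum.inl b)) = 0 := by
    refine Finset.sum_eq_zero fun b _ => ?_
    have h2 : JJ K n (Sum.inl i) (Sum.inl b) = 0 := rfl
    rw [h2, zero_smul]
  rw [h3, zero_add, Finset.sum_eq_single i]
  · have h2 : JJ K n (Sum.inl i) (Sum.inr i) = 1 := by
      show (1 : Matrix (Fin n) (Fin n) K) i i = 1
      rw [Matrix.one_apply_eq]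
    rw [h2, one_smul]
  · intro b _ hb
    have h2 : JJ K n (Sum.inl i) (Sum.inr b) = 0 := by
      show (1 : Matrix (Fin n) (Fin n) K) i b = 0
      rw [Matrix.one_apply_ne (Ne.symm hb)]
    rw [h2, zero_smul]
  · intro h
    exact absurd (Finset.mem_univ _) h

private def N4_up {n : ℕ} (m : Mon 2 (Fin n ⊕ Fin n)) (i : Fin n) : Mon 2 (Fin n ⊕ Fin n) :=
  Function.update (Function.update m (Sum.inl i) 0) (Sum.inr i) 0

private theorem N4_act (n : ℕ) (x : Mon 2 (Fin n ⊕ Fin n) → K) (m : Mon 2 (Fin n ⊕ Fin n)) :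
    ((GN 2 (JJ K n)).mulVecLin x) m =
      ∑ i : Fin n, if m (Sum.inl i) = 1 ∧ m (Sum.inr i) = 1 then x (N4_up m i) else 0 := by
  rw [Matrix.mulVecLin_apply, N4_GN, Matrix.sum_mulVec, Finset.sum_apply]
  refine Finset.sum_congr rfl fun i _ => ?_
  rw [← Matrix.mulVec_mulVec, N4_X]
  by_cases h1 : m (Sum.inl i) = 1
  · rw [if_pos h1, N4_X]
    have h2 : Function.update m (Sum.inl i) 0 (Sum.inr i) = m (Sum.inr i) :=
      Function.update_of_ne (by simp) _ _
    rw [h2]
    by_cases h3 : m (Sum.inr i) = 1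
    · rw [if_pos h3, if_pos ⟨h1, h3⟩]
      rfl
    · rw [if_neg h3, if_neg fun h => h3 h.2]
  · rw [if_neg h1, if_neg fun h => h1 h.1]

private def N4_E {n : ℕ} (a b : Fin 2) (m : Mon 2 (Fin n ⊕ Fin n)) :
    Mon 2 (Fin (n + 1) ⊕ Fin (n + 1)) :=
  Sum.elim (Fin.cons a fun i => m (Sum.inl i)) (Fin.cons b fun i => m (Sum.inr i))

private def N4_R {n : ℕ} (m : Mon 2 (Fin (n + 1) ⊕ Fin (n + 1))) : Mon 2 (Fin n ⊕ Fin n) :=
  Sum.elim (fun i => m (Sum.inl i.succ)) fun i => m (Sum.inr i.succ)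

private theorem N4_RE {n : ℕ} (a b : Fin 2) (m : Mon 2 (Fin n ⊕ Fin n)) :
    N4_R (N4_E a b m) = m := by
  funext i
  cases i <;> rfl

private theorem N4_ER {n : ℕ} (m : Mon 2 (Fin (n + 1) ⊕ Fin (n + 1))) :
    N4_E (m (Sum.inl 0)) (m (Sum.inr 0)) (N4_R m) = m := by
  funext i
  cases i with
  | inl i => refine Fin.cases rfl (fun i => rfl) i
  | inr i => refine Fin.cases rfl (fun i => rfl) i

private theorem N4_dg {n : ℕ} (a b : Fin 2) (m : Mon 2 (Fin n ⊕ Fin n)) :
    dg (N4_E a b m) = (a : ℕ) + b + dg m := by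
  unfold dg
  rw [Fintype.sum_sum_type, Fintype.sum_sum_type, Fin.sum_univ_succ, Fin.sum_univ_succ]
  have h1 : (N4_E a b m (Sum.inl 0) : ℕ) = a := rfl
  have h2 : (N4_E a b m (Sum.inr 0) : ℕ) = b := rfl
  have h3 : ∀ i : Fin n, (N4_E a b m (Sum.inl i.succ) : ℕ) = m (Sum.inl i) := fun _ => rfl
  have h4 : ∀ i : Fin n, (N4_E a b m (Sum.inr i.succ) : ℕ) = m (Sum.inr i) := fun _ => rfl
  rw [h1, h2, Finset.sum_congr rfl fun i _ => h3 i, Finset.sum_congr rfl fun i _ => h4 i]
  ring

private theorem N4_up0 {n : ℕ} (a b : Fin 2) (m : Mon 2 (Fin n ⊕ Fin n)) :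
    N4_up (N4_E a b m) 0 = N4_E 0 0 m := by
  funext i
  unfold N4_up
  cases i with
  | inl i =>
    rw [Function.update_of_ne (by simp)]
    refine Fin.cases ?_ (fun i => ?_) i
    · rw [Function.update_self]
      rfl
    · rw [Function.update_of_ne (by simp [Fin.succ_ne_zero])]
      rfl
  | inr i =>
    refine Fin.cases ?_ (fun i => ?_) i
    · rw [Function.update_self]
      rfl
    · rw [Function.update_of_ne (by simp [Fin.succ_ne_zero]), Function.update_of_ne (by simp)]
      rfl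

private theorem N4_upS {n : ℕ} (a b : Fin 2) (m : Mon 2 (Fin n ⊕ Fin n)) (j : Fin n) :
    N4_up (N4_E a b m) j.succ = N4_E a b (N4_up m j) := by
  funext i
  unfold N4_up
  cases i with
  | inl i =>
    rw [Function.update_of_ne (by simp)]
    refine Fin.cases ?_ (fun i => ?_) i
    · rw [Function.update_of_ne (by simp [Fin.succ_ne_zero, eq_comm])]
      rfl
    · by_cases hij : i = j
      · subst hij
        rw [Function.update_self]
        show (0 : Fin 2) = Function.update (Function.update m (Sum.inl i) 0) (Sum.inr i) 0 (Sum.inl i)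
        rw [Function.update_of_ne (by simp), Function.update_self]
      · rw [Function.update_of_ne (by simpa using hij)]
        show m (Sum.inl i) = Function.update (Function.update m (Sum.inl j) 0) (Sum.inr j) 0 (Sum.inl i)
        rw [Function.update_of_ne (by simp), Function.update_of_ne (by simpa using hij)]
  | inr i =>
    refine Fin.cases ?_ (fun i => ?_) i
    · rw [Function.update_of_ne (by simp [Fin.succ_ne_zero, eq_comm]),
        Function.update_of_ne (by simp)]
      rfl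
    · by_cases hij : i = j
      · subst hij
        rw [Function.update_self]
        show (0 : Fin 2) = Function.update (Function.update m (Sum.inl i) 0) (Sum.inr i) 0 (Sum.inr i)
        rw [Function.update_self]
      · rw [Function.update_of_ne (by simpa using hij), Function.update_of_ne (by simp)]
        show m (Sum.inr i) = Function.update (Function.update m (Sum.inl j) 0) (Sum.inr j) 0 (Sum.inr i)
        rw [Function.update_of_ne (by simpa using hij), Function.update_of_ne (by simp)]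

private def N4_i (K : Type) [Field K] (n : ℕ) : (Mon 2 (Fin (n + 1) ⊕ Fin (n + 1)) → K) →ₗ[K]
    ((Mon 2 (Fin n ⊕ Fin n) → K) × (Mon 2 (Fin n ⊕ Fin n) → K) × (Mon 2 (Fin n ⊕ Fin n) → K) ×
      (Mon 2 (Fin n ⊕ Fin n) → K)) where
  toFun x := (fun m => x (N4_E 0 0 m), fun m => x (N4_E 1 0 m), fun m => x (N4_E 0 1 m),
    fun m => x (N4_E 1 1 m))
  map_add' x y := rfl
  map_smul' c x := rfl

private def N4_r (K : Type) [Field K] (n : ℕ) :
    ((Mon 2 (Fin n ⊕ Fin n) → K) × (Mon 2 (Fin n ⊕ Fin n) → K) × (Mon 2 (Fin n ⊕ Fin n) → K) ×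
      (Mon 2 (Fin n ⊕ Fin n) → K)) →ₗ[K] (Mon 2 (Fin (n + 1) ⊕ Fin (n + 1)) → K) where
  toFun c m := if m (Sum.inl 0) = 0 then
      (if m (Sum.inr 0) = 0 then c.1 (N4_R m) else c.2.2.1 (N4_R m))
    else (if m (Sum.inr 0) = 0 then c.2.1 (N4_R m) else c.2.2.2 (N4_R m))
  map_add' x y := by
    funext m
    simp only [Pi.add_apply]
    split_ifs <;> rfl
  map_smul' c x := by
    funext m
    simp only [Pi.smul_apply, RingHom.id_apply]
    split_ifs <;> rfl

private theorem N4_two (a : Fin 2) (h : a ≠ 0) : a = 1 := by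
  apply Fin.ext
  have h1 := a.isLt
  have h2 : (a : ℕ) ≠ 0 := fun h3 => h (Fin.ext h3)
  have h3 : ((1 : Fin 2) : ℕ) = 1 := rfl
  omega

private theorem N4_ri (n : ℕ) (x : Mon 2 (Fin (n + 1) ⊕ Fin (n + 1)) → K) :
    N4_r K n (N4_i K n x) = x := by
  funext m
  conv_rhs => rw [← N4_ER m]
  show (if m (Sum.inl 0) = 0 then
      (if m (Sum.inr 0) = 0 then x (N4_E 0 0 (N4_R m)) else x (N4_E 0 1 (N4_R m)))
    else (if m (Sum.inr 0) = 0 then x (N4_E 1 0 (N4_R m)) else x (N4_E 1 1 (N4_R m)))) = _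
  by_cases h1 : m (Sum.inl 0) = 0
  · by_cases h2 : m (Sum.inr 0) = 0
    · rw [if_pos h1, if_pos h2, h1, h2]
    · rw [if_pos h1, if_neg h2, h1, N4_two _ h2]
  · by_cases h2 : m (Sum.inr 0) = 0
    · rw [if_neg h1, if_pos h2, h2, N4_two _ h1]
    · rw [if_neg h1, if_neg h2, N4_two _ h1, N4_two _ h2]

private theorem N4_ir (n : ℕ) (c : (Mon 2 (Fin n ⊕ Fin n) → K) × (Mon 2 (Fin n ⊕ Fin n) → K) ×
    (Mon 2 (Fin n ⊕ Fin n) → K) × (Mon 2 (Fin n ⊕ Fin n) → K)) :
    N4_i K n (N4_r K n c) = c := by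
  have h : ∀ (a b : Fin 2) (m : Mon 2 (Fin n ⊕ Fin n)), N4_r K n c (N4_E a b m) =
      if a = 0 then (if b = 0 then c.1 m else c.2.2.1 m)
      else (if b = 0 then c.2.1 m else c.2.2.2 m) := by
    intro a b m
    show (if a = 0 then
      (if b = 0 then c.1 (N4_R (N4_E a b m)) else c.2.2.1 (N4_R (N4_E a b m)))
    else (if b = 0 then c.2.1 (N4_R (N4_E a b m)) else c.2.2.2 (N4_R (N4_E a b m)))) = _
    rw [N4_RE]
  refine Prod.ext ?_ (Prod.ext ?_ (Prod.ext ?_ ?_))
  · funext m
    exact (h 0 0 m).trans (by simp)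
  · funext m
    exact (h 1 0 m).trans (by simp)
  · funext m
    exact (h 0 1 m).trans (by simp)
  · funext m
    exact (h 1 1 m).trans (by simp)

private theorem N4_sum (n : ℕ) (x : Mon 2 (Fin (n + 1) ⊕ Fin (n + 1)) → K) (a b : Fin 2)
    (m : Mon 2 (Fin n ⊕ Fin n)) :
    ((GN 2 (JJ K (n + 1))).mulVecLin x) (N4_E a b m) =
      (if a = 1 ∧ b = 1 then x (N4_E 0 0 m) else 0) +
        ((GN 2 (JJ K n)).mulVecLin fun m => x (N4_E a b m)) m := by
  rw [N4_act, N4_act, Fin.sum_univ_succ, N4_up0]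
  congr 1
  refine Finset.sum_congr rfl fun i _ => ?_
  rw [N4_upS]
  rfl

private theorem N4_comm (n : ℕ) (x : Mon 2 (Fin (n + 1) ⊕ Fin (n + 1)) → K) :
    N4_i K n ((GN 2 (JJ K (n + 1))).mulVecLin x) =
      xy (GN 2 (JJ K n)).mulVecLin (N4_i K n x) := by
  refine Prod.ext ?_ (Prod.ext ?_ (Prod.ext ?_ ?_))
  · funext m
    refine (N4_sum n x 0 0 m).trans ?_
    rw [if_neg (by simp), zero_add]
    rfl
  · funext m
    refine (N4_sum n x 1 0 m).trans ?_
    rw [if_neg (by simp), zero_add]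
    rfl
  · funext m
    refine (N4_sum n x 0 1 m).trans ?_
    rw [if_neg (by simp), zero_add]
    rfl
  · funext m
    refine (N4_sum n x 1 1 m).trans ?_
    rw [if_pos ⟨rfl, rfl⟩, add_comm]
    rfl

end N4aux

/-- JOB N4. `p = 2`: `Q(m)` for `x_1 y_1 + … + x_m y_m`.

PROOF. Induction on `m` with `QP_xy` and `QP_retract`; the isomorphism
`(Mon 2 (Fin (m+1) ⊕ Fin (m+1)) → K) ≃ V × V × V × V`, `V = (Mon 2 (Fin m ⊕ Fin m) → K)`, is given by the exponents of
`x_0` and `y_0`: `(0,0), (1,0), (0,1), (1,1)`. -/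
theorem QP_J {K : Type} [Field K] [CharP K 2] (m : ℕ) :
    QP 2 (gr K (dg (p := 2) (σ := Fin m ⊕ Fin m)))
      (GN 2 (fromBlocks 0 (1 : Matrix (Fin m) (Fin m) K) 0 0)).mulVecLin (m : ℤ) := by
  induction m with
  | zero =>
    intro k hk hk2 D hD x hx _
    have hk1 : k = 1 := by omega
    subst hk1
    have hD0 : D < 0 := by
      have h1 : ((0 : ℕ) : ℤ) - ((1 : ℕ) : ℤ) + 1 = 0 := by norm_num
      rw [h1] at hD
      exact hD
    have hx0 : x = 0 := by
      funext mm
      by_contra h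
      have h1 := hx mm h
      omega
    refine ⟨0, Submodule.zero_mem _, ?_⟩
    rw [map_zero, hx0]
  | succ n ih =>
    have h1 := QP_xy (K := K) ih
    have h2 : ((n + 1 : ℕ) : ℤ) = (n : ℤ) + 1 := by push_cast; rfl
    rw [h2]
    refine QP_retract (N4_i K n) (N4_r K n) ?_ ?_ (N4_comm n) ?_ (N4_ri n) h1
    · intro D x hx
      have h3 : ∀ (a b : Fin 2) (mm : Mon 2 (Fin n ⊕ Fin n)), x (N4_E a b mm) ≠ 0 →
          (dg mm : ℤ) = D - ((a : ℕ) + (b : ℕ) : ℕ) := by
        intro a b mm hne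
        have h4 := hx _ hne
        rw [N4_dg] at h4
        push_cast at h4 ⊢
        linarith
      refine ⟨?_, ?_, ?_, ?_⟩
      · intro mm hne
        have h5 := h3 0 0 mm hne
        simpa using h5
      · intro mm hne
        have h5 := h3 1 0 mm hne
        simpa using h5
      · intro mm hne
        have h5 := h3 0 1 mm hne
        simpa using h5
      · intro mm hne
        have h5 := h3 1 1 mm hne
        have h6 : (((((1 : Fin 2) : ℕ) + ((1 : Fin 2) : ℕ) : ℕ)) : ℤ) = 2 := by norm_num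
        rw [h6] at h5
        exact h5
    · intro D c hc mm hne
      obtain ⟨hc1, hc2, hc3, hc4⟩ := hc
      rw [← N4_ER mm, N4_dg]
      have h3 : (if mm (Sum.inl 0) = 0 then
          (if mm (Sum.inr 0) = 0 then c.1 (N4_R mm) else c.2.2.1 (N4_R mm))
        else (if mm (Sum.inr 0) = 0 then c.2.1 (N4_R mm) else c.2.2.2 (N4_R mm))) ≠ 0 := hne
      by_cases h4 : mm (Sum.inl 0) = 0
      · by_cases h5 : mm (Sum.inr 0) = 0
        · rw [if_pos h4, if_pos h5] at h3
          have h6 := hc1 _ h3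
          rw [h4, h5]
          push_cast
          simp [h6]
        · rw [if_pos h4, if_neg h5] at h3
          have h6 := hc3 _ h3
          rw [h4, N4_two _ h5]
          push_cast
          rw [h6]
          norm_num
      · by_cases h5 : mm (Sum.inr 0) = 0
        · rw [if_neg h4, if_pos h5] at h3
          have h6 := hc2 _ h3
          rw [h5, N4_two _ h4]
          push_cast
          rw [h6]
          norm_num
        · rw [if_neg h4, if_neg h5] at h3
          have h6 := hc4 _ h3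
          rw [N4_two _ h4, N4_two _ h5]
          push_cast
          rw [h6]
          norm_num
    · intro c
      have h3 := N4_comm n (N4_r K n c)
      rw [N4_ir] at h3
      have h4 := congrArg (N4_r K n) h3
      rw [N4_ri] at h4
      exact h4.symm

end QL
end
end
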