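import Mathlib
import Pool.Agent.Lib.MP_c77682_nt.L.QDefs
import Pool.Agent.Lib.MP_c77682_nt.L.M3
import Pool.Agent.Lib.MP_c77682_nt.L.M4
import Pool.Agent.Lib.MP_c77682_nt.L.N3
import Pool.Agent.Lib.MP_c77682_nt.L.N4
import Pool.Agent.Lib.MP_c77682_nt.L.R9
import Pool.Agent.Lib.MP_c77682_nt.L.Y1
import Pool.Agent.Lib.MP_c77682_nt.L.S3
import Pool.Agent.Lib.MP_c77682_nt.L.T6
import Pool.Agent.Lib.MP_c77682_nt.L.E4
import Pool.Agent.Lib.MP_c77682_nt.L.PDefs
import Pool.Agent.Lib.MP_c77682_nt.L.K9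
import Pool.Agent.Lib.MP_c77682_nt.L.D4

section

section

/-!
LinearBound (MP_c77682_nt), job H1a. See table papers, id 368.
-/

set_option autoImplicit false

namespace QL

section

variable {K μ : Type} [Field K] [Fintype μ] [DecidableEq μ]

omit [Fintype μ] [DecidableEq μ] in
private theorem exists_ginv_lin (f : (μ → K) →ₗ[K] (μ → K)) :
    ∃ h : (μ → K) →ₗ[K] (μ → K), f ∘ₗ h ∘ₗ f = f := by
  obtain ⟨g, hg⟩ := f.rangeRestrict.exists_rightInverse_of_surjective (LinearMap.range_rangeRestrict f)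
  obtain ⟨h, hh⟩ := LinearMap.exists_extend g
  refine ⟨h, ?_⟩
  ext1 x
  have h1 : h (f x) = g (f.rangeRestrict x) := by
    have := LinearMap.congr_fun hh (f.rangeRestrict x)
    simpa using this
  have h2 := LinearMap.congr_fun hg (f.rangeRestrict x)
  have h3 := congrArg Subtype.val h2
  simp only [LinearMap.comp_apply] at h3 ⊢
  rw [h1]
  simpa using h3

private theorem exists_ginv (G : Matrix μ μ K) : ∃ S : Matrix μ μ K, G * S * G = G := by
  obtain ⟨h, hh⟩ := exists_ginv_lin (Matrix.toLin' G)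
  refine ⟨LinearMap.toMatrix' h, ?_⟩
  apply Matrix.toLin'.injective
  rw [Matrix.toLin'_mul, Matrix.toLin'_mul, Matrix.toLin'_toMatrix', LinearMap.comp_assoc]
  exact hh

/-- JOB H1a (linear algebra without grading). `G1 * G2 = 0`: there are `π, S, θ` with `1 = π + S G1 + G2 θ`,
`G1 π = 0`, `π G2 = 0`, `G1 S G1 = G1`.

PROOF. In `V = μ → K` let `N1 = ker G1 ⊇ B = im G2`. Choose complements: `N1 = B ⊕ N`, `V = N1 ⊕ C`. `π` = projection to
`N` along `B ⊕ C`; `S` with `S G1` = projection onto `C` along `N1` (a left inverse of `G1` on `C`, extended by `0` on a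
complement of `G1 C = im G1`); `θ` with `G2 θ` = projection onto `B` along `N ⊕ C`. Use `Matrix.toLin'`. -/
theorem exists_pi0 (G1 G2 : Matrix μ μ K) (h12 : G1 * G2 = 0) :
    ∃ π S θ : Matrix μ μ K, 1 = π + S * G1 + G2 * θ ∧ G1 * π = 0 ∧ π * G2 = 0 ∧
      G1 * S * G1 = G1 := by
  obtain ⟨S, hS⟩ := exists_ginv G1
  obtain ⟨T, hT⟩ := exists_ginv G2
  refine ⟨(1 - G2 * T) * (1 - S * G1), S, T * (1 - S * G1), ?_, ?_, ?_, hS⟩
  · noncomm_ring
  · have h1 : G1 * ((1 - G2 * T) * (1 - S * G1)) = G1 - G1 * S * G1 - (G1 * G2) * T * (1 - S * G1) := by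
      noncomm_ring
    rw [h1, hS, h12]
    simp
  · have h1 : (1 - G2 * T) * (1 - S * G1) * G2 = G2 - G2 * T * G2 - (1 - G2 * T) * S * (G1 * G2) := by
      noncomm_ring
    rw [h1, hT, h12]
    simp

end

end QL
end

section

/-!
LinearBound (MP_c77682_nt), job H1b. See table papers, id 368.
-/

set_option autoImplicit false

namespace QL

section

variable {K μ : Type} [Field K] [Fintype μ] [DecidableEq μ]

/-- Homogeneous matrices of degree `d`. -/
private def Hm (deg : μ → ℕ) (T : Matrix μ μ K) (d : ℤ) : Prop :=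
  ∀ m m', T m m' ≠ 0 → (deg m : ℤ) = deg m' + d

/-- The part of degree `d`. -/
private def prt (deg : μ → ℕ) (T : Matrix μ μ K) (d : ℤ) : Matrix μ μ K :=
  fun m m' => if (deg m : ℤ) = deg m' + d then T m m' else 0

omit [Fintype μ] [DecidableEq μ] in
private lemma hm_prt (deg : μ → ℕ) (T : Matrix μ μ K) (d : ℤ) : Hm deg (prt deg T d) d := by
  intro m m' h
  by_contra hne
  exact h (by simp [prt, hne])

omit [Fintype μ] [DecidableEq μ] in
private lemma prt_of_hm {deg : μ → ℕ} {T : Matrix μ μ K} {d : ℤ} (h : Hm deg T d) :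
    prt deg T d = T := by
  ext m m'
  simp only [prt]
  split_ifs with h1
  · rfl
  · by_contra h2
    exact h1 (h m m' (fun h3 => h2 h3.symm))

omit [Fintype μ] [DecidableEq μ] in
private lemma prt_add (deg : μ → ℕ) (A B : Matrix μ μ K) (d : ℤ) :
    prt deg (A + B) d = prt deg A d + prt deg B d := by
  ext m m'
  simp only [prt, Matrix.add_apply]
  split_ifs <;> simp

omit [Fintype μ] [DecidableEq μ] in
private lemma prt_zero (deg : μ → ℕ) (d : ℤ) : prt deg (0 : Matrix μ μ K) d = 0 := by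
  ext m m'
  simp [prt]

omit [DecidableEq μ] in
private lemma prt_mul {deg : μ → ℕ} (T : Matrix μ μ K) {G : Matrix μ μ K} {e : ℤ} (d f : ℤ)
    (hG : Hm deg G e) (hf : f = d + e) : prt deg (T * G) f = prt deg T d * G := by
  subst hf
  ext m m'
  simp only [prt, Matrix.mul_apply]
  have key : ∀ j, (if (deg m : ℤ) = deg j + d then T m j else 0) * G j m' =
      if (deg m : ℤ) = deg m' + (d + e) then T m j * G j m' else 0 := by
    intro j
    by_cases hz : G j m' = 0
    · simp [hz]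
    · have h1 := hG j m' hz
      by_cases h2 : (deg m : ℤ) = deg j + d
      · rw [if_pos h2, if_pos (by omega)]
      · rw [if_neg h2, if_neg (by omega), zero_mul]
  rw [Finset.sum_congr rfl (fun j _ => key j)]
  split_ifs <;> simp

omit [DecidableEq μ] in
private lemma mul_prt {deg : μ → ℕ} (T : Matrix μ μ K) {G : Matrix μ μ K} {e : ℤ} (d f : ℤ)
    (hG : Hm deg G e) (hf : f = d + e) : prt deg (G * T) f = G * prt deg T d := by
  subst hf
  ext m m'
  simp only [prt, Matrix.mul_apply]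
  have key : ∀ j, G m j * (if (deg j : ℤ) = deg m' + d then T j m' else 0) =
      if (deg m : ℤ) = deg m' + (d + e) then G m j * T j m' else 0 := by
    intro j
    by_cases hz : G m j = 0
    · simp [hz]
    · have h1 := hG m j hz
      by_cases h2 : (deg j : ℤ) = deg m' + d
      · rw [if_pos h2, if_pos (by omega)]
      · rw [if_neg h2, if_neg (by omega), mul_zero]
  rw [Finset.sum_congr rfl (fun j _ => key j)]
  split_ifs <;> simp

omit [DecidableEq μ] in
private lemma Hm.mul {deg : μ → ℕ} {A B : Matrix μ μ K} {a b : ℤ} (hA : Hm deg A a)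
    (hB : Hm deg B b) : Hm deg (A * B) (a + b) := by
  rw [← prt_of_hm hA, ← prt_mul A a (a + b) hB rfl]
  exact hm_prt _ _ _

omit [Fintype μ] in
private lemma hm_one (deg : μ → ℕ) : Hm deg (1 : Matrix μ μ K) 0 := by
  intro m m' h
  by_cases h1 : m = m'
  · subst h1; simp
  · exact absurd (Matrix.one_apply_ne h1) h

omit [Fintype μ] [DecidableEq μ] in
private lemma Hm.sub {deg : μ → ℕ} {A B : Matrix μ μ K} {a : ℤ} (hA : Hm deg A a)
    (hB : Hm deg B a) : Hm deg (A - B) a := by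
  intro m m' h
  by_cases h1 : A m m' = 0
  · by_cases h2 : B m m' = 0
    · exact absurd (by simp [h1, h2]) h
    · exact hB m m' h2
  · exact hA m m' h1

/-- JOB H1b.

PROOF. For a matrix `T` let `T[d] m m' = T m m'` if `(deg m : ℤ) = deg m' + d`, `0` otherwise. If `G` is homogeneous of
degree `e`: `(T G)[d + e] = T[d] G`, `(G T)[d + e] = G T[d]`. From `exists_pi0` take the parts `π₀ = π[0]`,
`S₀ = S[-d1]`, `θ₀ = θ[-d2]`: `1 = π₀ + S₀ G1 + G2 θ₀`, `G1 π₀ = 0`, `π₀ G2 = 0`, `G1 S₀ G1 = G1`. Put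
`e = 1 - S₀ G1` (so `G1 e = 0`, `e G2 = G2`, and `e x = x` if `G1 x = 0`) and `π' = π₀ e`, `θ' = θ₀ e`. Then
`π' + S₀ G1 + G2 θ' = (π₀ + G2 θ₀) e + S₀ G1 = (1 - S₀ G1) e + S₀ G1 = e + S₀ G1 = 1` (`G1 e = 0`), `G1 π' = 0`,
`π' G2 = π₀ G2 = 0`. Idempotent: for `x` with `G1 x = 0`: `x = π₀ x + G2 θ₀ x`, so `π₀ x = π₀ π₀ x`; and `π' π' =
π₀ e π₀ e = π₀ π₀ e = π₀ e` (the columns of `π₀ e` and `e` are killed by `G1`; for `e π₀ = π₀` use `G1 π₀ = 0`).
Vanishing in degrees `D < a`: let `π' m m' ≠ 0`, `deg m = deg m' = D < a`. `x = e δ_{m'}` (`δ` the unit vector) is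
homogeneous of degree `D` and `G1 x = 0`, so by `hQ` `x = G2 y` and `π' δ_{m'} = π₀ x = π₀ G2 y = 0`. -/
theorem exists_pi (deg : μ → ℕ) (G1 G2 : Matrix μ μ K) (d1 d2 : ℕ)
    (hG1 : ∀ m m', G1 m m' ≠ 0 → deg m = deg m' + d1)
    (hG2 : ∀ m m', G2 m m' ≠ 0 → deg m = deg m' + d2) (h12 : G1 * G2 = 0) (a : ℤ)
    (hQ : ∀ (x : μ → K) (D : ℤ), D < a → (∀ m, x m ≠ 0 → (deg m : ℤ) = D) →
      G1.mulVec x = 0 → ∃ y, G2.mulVec y = x) :
    ∃ π S θ : Matrix μ μ K, 1 = π + S * G1 + G2 * θ ∧ G1 * π = 0 ∧ π * G2 = 0 ∧ π * π = π ∧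
      (∀ m m', π m m' ≠ 0 → deg m = deg m' ∧ a ≤ deg m) ∧
      (∀ m m', θ m m' ≠ 0 → deg m + d2 = deg m') := by
  obtain ⟨p, S, t, hone, hGp, hpG, hGSG⟩ := exists_pi0 G1 G2 h12
  have H1 : Hm deg G1 d1 := fun m m' h => by have := hG1 m m' h; omega
  have H2 : Hm deg G2 d2 := fun m m' h => by have := hG2 m m' h; omega
  set p0 := prt deg p 0 with hp0
  set S0 := prt deg S (-d1) with hS0
  set t0 := prt deg t (-d2) with ht0
  have hone0 : (1 : Matrix μ μ K) = p0 + S0 * G1 + G2 * t0 := by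
    have h := congrArg (fun M => prt deg M 0) hone
    simp only [prt_add] at h
    rw [prt_of_hm (hm_one deg), prt_mul S (-d1) 0 H1 (by ring), mul_prt t (-d2) 0 H2 (by ring)] at h
    exact h
  have hGp0 : G1 * p0 = 0 := by
    rw [hp0, ← mul_prt p 0 d1 H1 (by ring), hGp, prt_zero]
  have hpG0 : p0 * G2 = 0 := by
    rw [hp0, ← prt_mul p 0 d2 H2 (by ring), hpG, prt_zero]
  have hGSG0 : G1 * S0 * G1 = G1 := by
    rw [hS0, ← mul_prt S (-d1) 0 H1 (by ring), ← prt_mul (G1 * S) 0 d1 H1 (by ring), hGSG,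
      prt_of_hm H1]
  set e : Matrix μ μ K := 1 - S0 * G1 with he
  have hGe : G1 * e = 0 := by
    rw [he, mul_sub, mul_one, ← mul_assoc, hGSG0, sub_self]
  have heG : e * G2 = G2 := by
    rw [he, sub_mul, one_mul, mul_assoc, h12, mul_zero, sub_zero]
  have hep : e * p0 = p0 := by
    rw [he, sub_mul, one_mul, mul_assoc, hGp0, mul_zero, sub_zero]
  have heH : Hm deg e 0 := by
    refine (hm_one deg).sub ?_
    have := (hm_prt deg S (-d1)).mul H1
    rw [neg_add_cancel] at this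
    exact this
  have hpe : Hm deg (p0 * e) 0 := by
    have := (hm_prt deg p 0).mul heH
    rwa [add_zero] at this
  have hte : Hm deg (t0 * e) (-d2) := by
    have := (hm_prt deg t (-d2)).mul heH
    rwa [add_zero] at this
  refine ⟨p0 * e, S0, t0 * e, ?_, ?_, ?_, ?_, ?_, ?_⟩
  · have h1 : p0 + G2 * t0 = e := by
      rw [he]; nth_rewrite 1 [hone0]; abel
    have h2 : e * e = e := by
      nth_rewrite 1 [he]
      rw [sub_mul, one_mul, mul_assoc, hGe, mul_zero, sub_zero]
    calc (1 : Matrix μ μ K) = e + S0 * G1 := by rw [he]; abel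
      _ = e * e + S0 * G1 := by rw [h2]
      _ = (p0 + G2 * t0) * e + S0 * G1 := by rw [h1]
      _ = p0 * e + S0 * G1 + G2 * (t0 * e) := by rw [add_mul, mul_assoc]; abel
  · rw [← mul_assoc, hGp0, zero_mul]
  · rw [mul_assoc, heG, hpG0]
  · have h3 : p0 * e = p0 * (p0 * e) := by
      have h4 : e = p0 * e + G2 * (t0 * e) := by
        have h5 := congrArg (fun M => M * e) hone0
        simp only [one_mul, add_mul, mul_assoc, hGe, mul_zero, add_zero] at h5
        exact h5
      have h6 := congrArg (fun M => p0 * M) h4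
      simp only [mul_add] at h6
      rw [← mul_assoc p0 G2, hpG0, zero_mul, add_zero] at h6
      exact h6
    rw [mul_assoc, ← mul_assoc e, hep]
    exact h3.symm
  · intro m m' h
    have hd : (deg m : ℤ) = deg m' := by have := hpe m m' h; omega
    refine ⟨by exact_mod_cast hd, ?_⟩
    by_contra hlt
    push Not at hlt
    obtain ⟨y, hy⟩ := hQ (fun j => e j m') (deg m) hlt
      (fun j hj => by have := heH j m' hj; omega)
      (by
        ext i
        have h7 : (G1 * e) i m' = 0 := by rw [hGe]; rfl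
        rw [Matrix.mul_apply] at h7
        exact h7)
    apply h
    have h8 : (p0 * e) m m' = (p0.mulVec (fun j => e j m')) m := by
      simp [Matrix.mulVec, dotProduct, Matrix.mul_apply]
    rw [h8, ← hy, Matrix.mulVec_mulVec, hpG0, Matrix.zero_mulVec]
    rfl
  · intro m m' h
    have := hte m m' h
    omega

end

end QL
end

section

/-!
LinearBound (MP_c77682_nt), job S1. See table papers, id 368.
-/

set_option autoImplicit false

open Matrix Module

namespace QL

section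

variable {K : Type} [Field K] {p : ℕ} [Fact p.Prime] [CharP K p]

private theorem S1_lin {μ : Type} [Fintype μ] [DecidableEq μ] (M : Matrix μ μ K) (n : ℕ)
    (x : μ → K) : (M.mulVecLin ^ n) x = (M ^ n) *ᵥ x := by
  induction n generalizing x with
  | zero => rw [pow_zero, pow_zero, Matrix.one_mulVec, Module.End.one_apply]
  | succ n ih =>
    rw [pow_succ, pow_succ, Module.End.mul_apply, ih, Matrix.mulVecLin_apply, Matrix.mulVec_mulVec]

private theorem S1_deg {σ₁ : Type} [Fintype σ₁] [DecidableEq σ₁] (N : Matrix σ₁ σ₁ K) (n : ℕ) :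
    ∀ m m' : Mon p σ₁, (GN p N ^ n) m m' ≠ 0 → dg m = dg m' + 2 * n := by
  induction n with
  | zero =>
    intro m m' h
    rw [pow_zero] at h
    have h1 : m = m' := by
      by_contra h2
      exact h (Matrix.one_apply_ne h2)
    rw [h1]
    rfl
  | succ n ih =>
    intro m m' h
    rw [pow_succ, Matrix.mul_apply] at h
    obtain ⟨m'', _, hm⟩ := Finset.exists_ne_zero_of_sum_ne_zero h
    have h1 := ih m m'' (left_ne_zero_of_mul hm)
    have h2 := GN_deg N m'' m' (right_ne_zero_of_mul hm)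
    omega

/-- JOB S1. From property Q to the matrices of `EE_of_lead`.

PROOF. `exists_pi` for `deg = dg`, `G1 = GN p N`, `G2 = GN p N ^ (p-1)` (homogeneous of degrees `2`, `2 (p-1)`; product
`GN^p = 0`): hypothesis `hQ` for `D < s` is `QP` with `k = 1` (a vector all of whose nonzero entries have degree `D` is in
`gr K dg D`). Second statement: `G1 = GN p N ^ (p-1)`, `G2 = GN p N`, `QP` with `k = p - 1`: `D < s - (p-1) + 1`. -/
theorem exists_pi_GN {σ₁ : Type} [Fintype σ₁] [DecidableEq σ₁] (N : Matrix σ₁ σ₁ K) (s : ℤ)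
    (hQ : QP p (gr K (dg (p := p) (σ := σ₁))) (GN p N).mulVecLin s) :
    (∃ π S θ : Matrix (Mon p σ₁) (Mon p σ₁) K,
      1 = π + S * GN p N + GN p N ^ (p - 1) * θ ∧ GN p N * π = 0 ∧ π * GN p N ^ (p - 1) = 0 ∧
      π * π = π ∧ (∀ m m', π m m' ≠ 0 → dg m = dg m' ∧ s ≤ dg m) ∧
      (∀ m m', θ m m' ≠ 0 → dg m + 2 * (p - 1) = dg m')) ∧
    (∃ π S θ : Matrix (Mon p σ₁) (Mon p σ₁) K,
      1 = π + S * GN p N ^ (p - 1) + GN p N * θ ∧ GN p N ^ (p - 1) * π = 0 ∧ π * GN p N = 0 ∧
      π * π = π ∧ (∀ m m', π m m' ≠ 0 → dg m = dg m' ∧ s - ((p : ℤ) - 2) ≤ dg m) ∧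
      (∀ m m', θ m m' ≠ 0 → dg m + 2 = dg m')) := by
  have hp2 : 2 ≤ p := (Fact.out : p.Prime).two_le
  have h1 : GN p N * GN p N ^ (p - 1) = 0 := by
    rw [← pow_succ', Nat.sub_add_cancel (by omega)]
    exact GN_pow N
  have h2 : GN p N ^ (p - 1) * GN p N = 0 := by
    rw [← pow_succ, Nat.sub_add_cancel (by omega)]
    exact GN_pow N
  constructor
  · refine exists_pi (fun m : Mon p σ₁ => dg m) (GN p N) (GN p N ^ (p - 1)) 2 (2 * (p - 1))
      (fun m m' h => GN_deg N m m' h) (S1_deg N (p - 1)) h1 s ?_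
    intro x D hD hx h0
    obtain ⟨y, _, hy⟩ := hQ 1 le_rfl (by omega) D (by push_cast; linarith) x hx (by
      rw [S1_lin, pow_one]
      exact h0)
    rw [S1_lin] at hy
    exact ⟨y, hy⟩
  · refine exists_pi (fun m : Mon p σ₁ => dg m) (GN p N ^ (p - 1)) (GN p N) (2 * (p - 1)) 2
      (S1_deg N (p - 1)) (fun m m' h => GN_deg N m m' h) h2 (s - ((p : ℤ) - 2)) ?_
    intro x D hD hx h0
    obtain ⟨y, _, hy⟩ := hQ (p - 1) (by omega) (by omega) D (by
      rw [Nat.cast_sub (by omega)]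
      push_cast
      linarith) x hx (by
      rw [S1_lin]
      exact h0)
    rw [S1_lin, show p - (p - 1) = 1 by omega, pow_one] at hy
    exact ⟨y, hy⟩

end

end QL
end
end

section

section

/-!
LinearBound (MP_c77682_nt), job R6. See table papers, id 368.
-/

set_option autoImplicit false

open MvPolynomial Matrix

namespace QL

section

variable {K : Type} [Field K] {r : ℕ} {μ : Type} [Fintype μ] [DecidableEq μ]

/-- JOB R6. Nullstellensatz.

PROOF. `J = {g | ∀ c ∈ ZB, g • c ∈ BB}` is an ideal of `R`. By hypothesis its zero locus is contained in `{0}`. By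
`MvPolynomial.vanishingIdeal_zeroLocus_eq_radical` (`K` algebraically closed), `X i`, which vanishes on `{0}`, is in the
radical of `J`. Take the maximum of the exponents. -/
theorem exists_pow_mem [IsAlgClosed K] {p : ℕ} {deg : μ → ℕ} {G : Fin r → Matrix μ μ K} {ℓ : ℤ}
    (h : ∀ a : Fin r → K, a ≠ 0 → AnnP p deg G a ℓ) :
    ∃ N : ℕ, ∀ i, ∀ c ∈ ZB p deg G ℓ, (X i : MvPolynomial (Fin r) K) ^ N • c ∈ BB p deg G ℓ := by
  classical
  let J : Ideal (MvPolynomial (Fin r) K) :=
    { carrier := {g | ∀ c ∈ ZB p deg G ℓ, g • c ∈ BB p deg G ℓ}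
      add_mem' := by
        intro g g' hg hg' c hc
        rw [add_smul]
        exact Submodule.add_mem _ (hg c hc) (hg' c hc)
      zero_mem' := by
        intro c hc
        rw [zero_smul]
        exact Submodule.zero_mem _
      smul_mem' := by
        intro a g hg c hc
        rw [smul_eq_mul, mul_smul]
        exact Submodule.smul_mem _ a (hg c hc) }
  have hJ : ∀ g, g ∈ J ↔ ∀ c ∈ ZB p deg G ℓ, g • c ∈ BB p deg G ℓ := fun g => Iff.rfl
  have hzero : ∀ a ∈ zeroLocus K J, a = 0 := by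
    intro a ha
    by_contra hne
    obtain ⟨g, hg1, hg2⟩ := h a hne
    apply hg1
    have hgJ : g ∈ J := by
      rw [hJ]
      intro c hc
      obtain ⟨h1, h2⟩ := Submodule.mem_inf.mp hc
      obtain ⟨e, he, hde⟩ := hg2 c h1 (LinearMap.mem_ker.mp h2)
      exact ⟨e, he, hde⟩
    have := mem_zeroLocus_iff.mp ha g hgJ
    rwa [aeval_eq_eval] at this
  have hX : ∀ i : Fin r, ∃ n : ℕ, (X i : MvPolynomial (Fin r) K) ^ n ∈ J := by
    intro i
    have h1 : (X i : MvPolynomial (Fin r) K) ∈ vanishingIdeal K (zeroLocus K J) := by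
      rw [mem_vanishingIdeal_iff]
      intro a ha
      rw [hzero a ha, aeval_X, Pi.zero_apply]
    rw [vanishingIdeal_zeroLocus_eq_radical] at h1
    exact h1
  choose n hn using hX
  refine ⟨Finset.univ.sup n, fun i c hc => ?_⟩
  have hle : n i ≤ Finset.univ.sup n := Finset.le_sup (Finset.mem_univ i)
  obtain ⟨k, hk⟩ := Nat.exists_eq_add_of_le hle
  rw [hk, pow_add, mul_comm, mul_smul]
  exact Submodule.smul_mem _ _ ((hJ _).mp (hn i) c hc)

end

end QL
end

section

/-!
LinearBound (MP_c77682_nt), job N5. See table papers, id 368.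
-/

set_option autoImplicit false

open Matrix

namespace QL

/-- JOB N5. Summary.

PROOF. `p ≠ 2`: `nf_sq` for `S = Q + Qᵀ` with `N = 1` (`N + Nᵀ = 2 • 1`), `s = τ (p-1)/2`, `QP_one`. `p = 2`: `S = Q + Qᵀ`
is symmetric with zero diagonal (`2 = 0`), `nf_alt`, `N = fromBlocks 0 1 0 0`, `N + Nᵀ = fromBlocks 0 1 1 0` and
`-1 = 1`; `card σ₁ = 2 m`, `s = m`, `QP_J`. -/
theorem exists_normal {K : Type} [Field K] [IsAlgClosed K] {p : ℕ} [Fact p.Prime] [CharP K p]
    {σ : Type} [Fintype σ] [DecidableEq σ] (Q : Matrix σ σ K) :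
    ∃ (σ₁ σ₀ : Type) (_ : Fintype σ₁) (_ : DecidableEq σ₁) (_ : Fintype σ₀) (_ : DecidableEq σ₀)
      (e : σ ≃ σ₁ ⊕ σ₀) (g h : Matrix σ σ K) (N : Matrix σ₁ σ₁ K) (s : ℤ), g * h = 1 ∧
      (gᵀ * (Q + Qᵀ) * g).submatrix e.symm e.symm = fromBlocks (N + Nᵀ) 0 0 0 ∧
      2 * s = Fintype.card σ₁ * ((p : ℤ) - 1) ∧
      QP p (gr K (dg (p := p) (σ := σ₁))) (GN p N).mulVecLin s := by
  by_cases hp : p = 2
  · subst hp
    have h2 : (2 : K) = 0 := by
      have := CharP.cast_eq_zero K 2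
      exact_mod_cast this
    have hneg : ∀ x : K, -x = x := by
      intro x
      rw [neg_eq_iff_add_eq_zero, ← two_mul, h2, zero_mul]
    have hS : (Q + Qᵀ)ᵀ = -(Q + Qᵀ) := by
      ext i j
      simp only [Matrix.transpose_apply, Matrix.add_apply, Matrix.neg_apply]
      rw [hneg, add_comm]
    have hd : ∀ i, (Q + Qᵀ) i i = 0 := by
      intro i
      simp only [Matrix.transpose_apply, Matrix.add_apply]
      rw [← two_mul, h2, zero_mul]
    obtain ⟨m, n, e, g, h, hgh, hw⟩ := nf_alt (Q + Qᵀ) hS hd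
    refine ⟨Fin m ⊕ Fin m, Fin n, inferInstance, inferInstance, inferInstance, inferInstance,
      e, g, h, fromBlocks 0 (1 : Matrix (Fin m) (Fin m) K) 0 0, (m : ℤ), hgh, ?_, ?_, QP_J m⟩
    · rw [hw]
      congr 1
      rw [fromBlocks_transpose, fromBlocks_add]
      congr 1
      · simp
      · simp
      · ext i j
        simp only [Matrix.neg_apply, Matrix.add_apply, Matrix.zero_apply, Matrix.transpose_apply, zero_add]
        rw [hneg, Matrix.one_apply, Matrix.one_apply]
        simp only [eq_comm]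
      · simp
    · rw [Fintype.card_sum, Fintype.card_fin]
      push_cast
      ring
  · have h2 : (2 : K) ≠ 0 := by
      intro h0
      have h1 : ((2 : ℕ) : K) = 0 := by exact_mod_cast h0
      rw [CharP.cast_eq_zero_iff K p] at h1
      exact hp ((Nat.prime_dvd_prime_iff_eq (Fact.out : p.Prime) Nat.prime_two).1 h1)
    have hS : (Q + Qᵀ)ᵀ = Q + Qᵀ := by
      rw [transpose_add, transpose_transpose, add_comm]
    obtain ⟨τ, n, e, g, h, hgh, hw⟩ := nf_sq h2 (Q + Qᵀ) hS
    refine ⟨Fin τ, Fin n, inferInstance, inferInstance, inferInstance, inferInstance,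
      e, g, h, 1, τ * (((p : ℤ) - 1) / 2), hgh, ?_, ?_, QP_one hp τ⟩
    · rw [hw, transpose_one, two_smul]
    · rw [Fintype.card_fin]
      have hodd : Odd p := (Fact.out : p.Prime).odd_of_ne_two hp
      obtain ⟨k, hk⟩ := hodd
      have h3 : (((p : ℤ) - 1) / 2) = k := by
        rw [hk]
        push_cast
        omega
      rw [h3, hk]
      push_cast
      ring

end QL
end

section

/-!
LinearBound (MP_c77682_nt), job R10. See table papers, id 368.
-/

set_option autoImplicit false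
set_option linter.unusedSectionVars false

open MvPolynomial Matrix

namespace QL

section

variable {K : Type} [Field K] {r : ℕ} {μ : Type} [Fintype μ] [DecidableEq μ]

private theorem R10_sg0_monomial (a : Fin (r + 1) →₀ ℕ) (c : K) :
    sg0 K r (monomial a c) = if a 0 = 0 then monomial a c else 0 := by
  unfold sg0
  rw [aeval_monomial]
  split_ifs with h
  · rw [monomial_eq, algebraMap_eq]
    congr 1
    refine Finsupp.prod_congr fun i hi => ?_
    have hi0 : i ≠ 0 := by
      intro h0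
      rw [h0] at hi
      exact (Finsupp.mem_support_iff.1 hi) h
    rw [if_neg hi0]
  · have h1 : (a.prod fun i k => (if i = 0 then 0 else X i : MvPolynomial (Fin (r + 1)) K) ^ k) =
        0 := by
      refine Finset.prod_eq_zero (Finsupp.mem_support_iff.2 h) ?_
      simp only [if_true]
      exact zero_pow h
    rw [h1, mul_zero]

private theorem R10_coeff_sg0 (q : MvPolynomial (Fin (r + 1)) K) (a : Fin (r + 1) →₀ ℕ) :
    coeff a (sg0 K r q) = if a 0 = 0 then coeff a q else 0 := by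
  induction q using MvPolynomial.induction_on' with
  | monomial u c =>
    rw [R10_sg0_monomial]
    by_cases hu : u 0 = 0
    · rw [if_pos hu]
      split_ifs with ha
      · rfl
      · rw [coeff_monomial, if_neg]
        intro h
        rw [h] at hu
        exact ha hu
    · rw [if_neg hu, coeff_zero]
      split_ifs with ha
      · rw [coeff_monomial, if_neg]
        intro h
        rw [h] at hu
        exact hu ha
      · rfl
  | add p q hp hq =>
    rw [map_add, coeff_add, hp, hq, coeff_add]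
    split_ifs
    · rfl
    · rw [add_zero]

private theorem R10_comp (q : MvPolynomial (Fin (r + 1)) K) (h : sg0 K r q = q) (n : ℕ) :
    sg0 K r (homogeneousComponent n q) = homogeneousComponent n q := by
  ext a
  rw [R10_coeff_sg0, coeff_homogeneousComponent]
  by_cases ha : a 0 = 0
  · rw [if_pos ha]
  · rw [if_neg ha]
    have h1 : coeff a q = 0 := by
      rw [← h, R10_coeff_sg0, if_neg ha]
    rw [h1, ite_self]

/-- components of cochains in column `0`. -/
private theorem R10_col0 {c : CB K (r + 1) μ} (h : Col0 c) (j : ℤ) :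
    Col0 (cmp K (r + 1) μ j c) := by
  intro I m
  have e : cmp K (r + 1) μ j c I m = if 0 ≤ j - I.card ∧ Even (j - I.card) then
    homogeneousComponent ((j - I.card) / 2).toNat (c I m) else 0 := rfl
  constructor
  · intro h0
    rw [e, (h I m).1 h0, map_zero, ite_self]
  · rw [e]
    split_ifs
    · exact R10_comp _ (h I m).2 _
    · exact map_zero _

/-- the projection to column `0`. -/
private noncomputable def R10_pi (c : CB K (r + 1) μ) : CB K (r + 1) μ :=
  fun I m => if 0 ∈ I then 0 else sg0 K r (c I m)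

private theorem R10_pi_add (c c' : CB K (r + 1) μ) :
    R10_pi (c + c') = R10_pi c + R10_pi c' := by
  funext I m
  simp only [R10_pi, Pi.add_apply]
  split_ifs
  · rw [add_zero]
  · exact map_add _ _ _

private theorem R10_pi_zero : R10_pi (0 : CB K (r + 1) μ) = 0 := by
  funext I m
  simp only [R10_pi, Pi.zero_apply, map_zero, ite_self]

private theorem R10_pi_smul (g : MvPolynomial (Fin (r + 1)) K) (c : CB K (r + 1) μ) :
    R10_pi (g • c) = sg0 K r g • R10_pi c := by
  funext I m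
  simp only [R10_pi, Pi.smul_apply, smul_eq_mul]
  split_ifs
  · rw [mul_zero]
  · exact map_mul _ _ _

private theorem R10_pi_col0 {c : CB K (r + 1) μ} (h : Col0 c) : R10_pi c = c := by
  funext I m
  simp only [R10_pi]
  split_ifs with h0
  · exact ((h I m).1 h0).symm
  · exact (h I m).2

private theorem R10_pi_sum (S : Finset (CB K (r + 1) μ))
    (g : CB K (r + 1) μ → MvPolynomial (Fin (r + 1)) K) :
    R10_pi (∑ s ∈ S, g s • s) = ∑ s ∈ S, sg0 K r (g s) • R10_pi s := by
  classical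
  induction S using Finset.induction_on with
  | empty =>
    rw [Finset.sum_empty, Finset.sum_empty, R10_pi_zero]
  | insert a S ha ih =>
    rw [Finset.sum_insert ha, Finset.sum_insert ha, R10_pi_add, R10_pi_smul, ih]

/-- JOB R10. Cycles in column `0` of large degree are in `I0 • ZB`.

PROOF. Let `Z'` be the `R`-span of `S' = {z ∈ ZB | Col0 z}`. `Z' ≤ ZB`, and components of elements of `Z'` are in `Z'`
(components of elements of `S'` are in `S'`: `cmp_ZB`, `sg0` preserves homogeneous components; use `cmp_smul` for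
multiples). Repeat the proof of `exists_gen` with generators in `S'`: `Z'` is f.g., so it is the span of a finite subset
of `S'` (`Submodule.fg_span_iff_fg_span_finset_subset` or: a f.g. submodule that is a span of a set is the span of a
finite subset), and replacing its elements by their components we get finitely many `z_k ∈ S' ∩ HB (j_k)`. Let
`j > max j_k` and `z ∈ S' ∩ HB j`: `z = ∑ g_k • z_k` with `g_k` homogeneous of degree `(j - j_k)/2 > 0` or `0`. Apply `sg0`
to all components: `z` and the `z_k` do not change (`Col0`), so `z = ∑ sg0 (g_k) • z_k ∈ I0 • ZB` by `sg0_mem_I0`. -/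
theorem col0_mem {p : ℕ} (deg : μ → ℕ) (G : Fin (r + 1) → Matrix μ μ K) (ℓ : ℤ) :
    ∃ J : ℤ, ∀ j > J, ∀ z ∈ ZB p deg G ℓ, z ∈ HB K (r + 1) μ j → Col0 z →
      z ∈ I0 K r • ZB p deg G ℓ := by
  classical
  set S' : Set (CB K (r + 1) μ) := {z | z ∈ ZB p deg G ℓ ∧ Col0 z} with hS'
  set Z' : Submodule (MvPolynomial (Fin (r + 1)) K) (CB K (r + 1) μ) :=
    Submodule.span (MvPolynomial (Fin (r + 1)) K) S' with hZ'
  have hle : Z' ≤ ZB p deg G ℓ := Submodule.span_le.mpr fun z hz => hz.1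
  have hcmp : ∀ j, ∀ z ∈ Z', cmp K (r + 1) μ j z ∈ Z' := by
    intro j z hz
    induction hz using Submodule.span_induction with
    | mem x hx => exact Submodule.subset_span ⟨(cmp_ZB j).1 hx.1, R10_col0 hx.2 j⟩
    | zero => rw [map_zero]; exact Submodule.zero_mem _
    | add x y _ _ hx hy => rw [map_add]; exact Submodule.add_mem _ hx hy
    | smul a x hx ih0 =>
      clear ih0
      induction hx using Submodule.span_induction generalizing a with
      | mem x hx =>
        obtain ⟨J, hJ⟩ := sum_cmp x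
        rw [hJ, Finset.smul_sum, map_sum]
        refine Submodule.sum_mem _ fun i _ => ?_
        rw [cmp_smul (cmp_mem (i : ℤ) x) a]
        split_ifs
        · exact Submodule.smul_mem _ _
            (Submodule.subset_span ⟨(cmp_ZB (i : ℤ)).1 hx.1, R10_col0 hx.2 i⟩)
        · exact Submodule.zero_mem _
      | zero => rw [smul_zero, map_zero]; exact Submodule.zero_mem _
      | add x y _ _ hx hy => rw [smul_add, map_add]; exact Submodule.add_mem _ (hx a) (hy a)
      | smul b x _ hx => rw [smul_smul]; exact hx (a * b)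
  have hpi : ∀ z ∈ Z', R10_pi z ∈ Z' := by
    intro z hz
    induction hz using Submodule.span_induction with
    | mem x hx => rw [R10_pi_col0 hx.2]; exact Submodule.subset_span hx
    | zero => rw [R10_pi_zero]; exact Submodule.zero_mem _
    | add x y _ _ hx hy => rw [R10_pi_add]; exact Submodule.add_mem _ hx hy
    | smul a x _ hx => rw [R10_pi_smul]; exact Submodule.smul_mem _ _ hx
  obtain ⟨J, S, hS1, _, hJ⟩ := exists_gen Z' hcmp 0
  refine ⟨J, fun j hj z hz hzj hz0 => ?_⟩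
  obtain ⟨g, hg, hzg⟩ := hJ j hj z (Submodule.subset_span ⟨hz, hz0⟩) hzj
  rw [← R10_pi_col0 hz0, hzg, R10_pi_sum]
  refine Submodule.sum_mem _ fun s hs => ?_
  obtain ⟨d, hd, hgd⟩ := hg s
  exact Submodule.smul_mem_smul (sg0_mem_I0 (g s) d hd hgd) (hle (hpi s (hS1 s hs)))

end

end QL
end

section

/-!
LinearBound (MP_c77682_nt), job R8. See table papers, id 368.
-/

set_option autoImplicit false

open MvPolynomial Matrix

namespace QL

section

variable {K : Type} [Field K] {r : ℕ} {μ : Type} [Fintype μ] [DecidableEq μ]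

/-- JOB R8. Exactness in large degrees.

PROOF. `exists_pow_mem` gives `N`; `exists_gen` for `Z' = ZB` with `N' = r * N` gives `J`. For `j > J`, `z ∈ ZB ∩ HB j`:
`z = ∑ g s • s` with `g s` homogeneous of degree `> r N`, so every monomial of `g s` is divisible by some `X i ^ N` and
`g s • s ∈ BB`. Conclude by `Ex_iff`. -/
theorem large_of_annP [IsAlgClosed K] {p : ℕ} {deg : μ → ℕ} {G : Fin r → Matrix μ μ K}
    (hG : SysM p deg G) {ℓ : ℤ} (h : ∀ a : Fin r → K, a ≠ 0 → AnnP p deg G a ℓ) :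
    ∃ J : ℤ, ∀ j > J, Ex p (gr K deg) (fun i => (G i).mulVecLin) j ℓ := by
  obtain ⟨N, hN⟩ := exists_pow_mem h
  obtain ⟨J, S, hS1, hS2, hJ⟩ := exists_gen (ZB p deg G ℓ) (fun j z hz => (cmp_ZB j).1 hz) (r * N)
  refine ⟨J, fun j hj => (Ex_iff hG).2 fun c hc hcj => ?_⟩
  obtain ⟨g, hg, rfl⟩ := hJ j hj c hc hcj
  refine Submodule.sum_mem _ fun s hs => ?_
  obtain ⟨d, hd, hgd⟩ := hg s
  rw [(g s).as_sum, Finset.sum_smul]
  refine Submodule.sum_mem _ fun a ha => ?_
  have hne : coeff a (g s) ≠ 0 := by simpa using ha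
  have hdeg : a.degree = d := by
    by_contra hcon
    exact hne (hgd.coeff_eq_zero hcon)
  have hex : ∃ i : Fin r, N ≤ a i := by
    by_contra hcon
    push Not at hcon
    have h1 : a.degree = ∑ i : Fin r, a i := by
      rw [Finsupp.degree_eq_sum]
    have h2 : ∑ i : Fin r, a i ≤ ∑ _i : Fin r, N := Finset.sum_le_sum fun i _ => (hcon i).le
    simp at h2
    omega
  obtain ⟨i, hi⟩ := hex
  have hmon : (monomial a (coeff a (g s)) : MvPolynomial (Fin r) K) =
      monomial (a - Finsupp.single i N) (coeff a (g s)) * X i ^ N := by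
    have hE : a = a - Finsupp.single i N + Finsupp.single i N := by
      refine Finsupp.ext fun k => ?_
      rw [Finsupp.add_apply, Finsupp.tsub_apply]
      by_cases hk : k = i
      · subst hk
        rw [Finsupp.single_eq_same]
        omega
      · rw [Finsupp.single_eq_of_ne hk]
        omega
    rw [X_pow_eq_monomial, monomial_mul, mul_one, ← hE]
  rw [hmon, mul_smul]
  exact Submodule.smul_mem _ _ (hN i s (hS1 s hs))

end

end QL
end

section

/-!
LinearBound (MP_c77682_nt), job R11. See table papers, id 368.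
-/

set_option autoImplicit false

open MvPolynomial Matrix

namespace QL

section

variable {K : Type} [Field K] {r : ℕ} {μ : Type} [Fintype μ] [DecidableEq μ]

private theorem r11_shift {j : ℤ} (N : ℕ) {c : CB K (r + 1) μ} (hc : c ∈ HB K (r + 1) μ j) :
    (X 0 : MvPolynomial (Fin (r + 1)) K) ^ N • c ∈ HB K (r + 1) μ (j + 2 * N) := by
  intro I m a ha
  have h1 : ((X 0 : MvPolynomial (Fin (r + 1)) K) ^ N • c) I m =
      monomial (Finsupp.single 0 N) 1 * c I m := by
    rw [Pi.smul_apply, Pi.smul_apply, smul_eq_mul, X_pow_eq_monomial]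
  rw [h1, coeff_monomial_mul']
  split_ifs with h
  · rw [hc I m, mul_zero]
    intro h2
    apply ha
    have h3 : ∑ i, (a i : ℤ) = ∑ i, ((a - Finsupp.single 0 N : Fin (r + 1) →₀ ℕ) i : ℤ) + N := by
      have h4 : a = (a - Finsupp.single 0 N) + Finsupp.single 0 N :=
        (tsub_add_cancel_of_le h).symm
      have h5 : ∀ i, (a i : ℤ) = ((a - Finsupp.single 0 N : Fin (r + 1) →₀ ℕ) i : ℤ) +
          (Finsupp.single (0 : Fin (r + 1)) N i : ℤ) := by
        intro i
        have := congrArg (fun f : Fin (r + 1) →₀ ℕ => (f i : ℤ)) h4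
        simpa only [Finsupp.add_apply, Nat.cast_add] using this
      rw [Finset.sum_congr rfl fun i _ => h5 i, Finset.sum_add_distrib]
      congr 1
      rw [Fin.sum_univ_succ, Finsupp.single_eq_same, Finset.sum_eq_zero, add_zero]
      intro i _
      rw [Finsupp.single_eq_of_ne (Fin.succ_ne_zero i)]
      rfl
    rw [h3]
    linarith
  · rfl

/-- JOB R11. From column reduction to a power of `t_0`.

PROOF. `col0_mem` gives `J`. For `z ∈ ZB ∩ HB j`, `j > J`: by `CR` (transported with `toA`: `toA_mem_Bi`, `toA_dB`,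
`exists_toA`, `toA_inj`) there is `e ∈ LB (ℓ-p)` (and in `HB (j-1)`) such that `z - dB e` is `Col0` (`col0_iff`); it is in
`ZB ∩ HB j`, so in `I0 • ZB`; hence `z ∈ I0 • ZB ⊔ BB`. For arbitrary `z ∈ ZB` and `N` with `2 N > J`:
`X 0 ^ N • z = ∑_j X 0 ^ N • cmp j z` (`sum_cmp`) and `X 0 ^ N • cmp j z ∈ ZB ∩ HB (j + 2N)`, `j ≥ 0`. -/
theorem pow_X0 {p : ℕ} (hp : 1 ≤ p) {deg : μ → ℕ} {G : Fin (r + 1) → Matrix μ μ K}
    (hG : SysM p deg G) {ℓ : ℤ} (hcr : CR p (gr K deg) (fun i => (G i).mulVecLin) ℓ) :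
    ∃ N : ℕ, ∀ z ∈ ZB p deg G ℓ,
      (X 0 : MvPolynomial (Fin (r + 1)) K) ^ N • z ∈ I0 K r • ZB p deg G ℓ ⊔ BB p deg G ℓ := by
  obtain ⟨J, hJ⟩ := col0_mem (p := p) deg G ℓ
  have key : ∀ j > J, ∀ z ∈ ZB p deg G ℓ, z ∈ HB K (r + 1) μ j →
      z ∈ I0 K r • ZB p deg G ℓ ⊔ BB p deg G ℓ := by
    intro j hj z hz hzj
    have hzL : z ∈ LB K p deg ℓ := (Submodule.mem_inf.1 hz).1
    have hzd : dB p G z = 0 := LinearMap.mem_ker.1 (Submodule.mem_inf.1 hz).2
    have h1 : toA K (r + 1) μ z ∈ Bi p (gr K deg) j ℓ := (toA_mem_Bi z).1 ⟨hzL, hzj⟩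
    have h2 : dL p (fun i => (G i).mulVecLin) (toA K (r + 1) μ z) = 0 := by
      rw [← toA_dB, hzd, map_zero]
    obtain ⟨e, he, hcol⟩ := hcr j _ h1 h2
    obtain ⟨e', rfl⟩ := exists_toA e he
    obtain ⟨heL, heH⟩ := (toA_mem_Bi e').2 he
    have h3 : dB p G e' ∈ BB p deg G ℓ := Submodule.mem_map_of_mem heL
    have h4 : dB p G e' ∈ ZB p deg G ℓ := BB_le_ZB hp hG ℓ h3
    have h5 : dB p G e' ∈ HB K (r + 1) μ j := by
      have := dB_mem_HB (p := p) (G := G) heH
      rwa [sub_add_cancel] at this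
    have h6 : Col0 (z - dB p G e') := by
      rw [col0_iff]
      intro b hb
      rw [map_sub, toA_dB]
      exact hcol b hb
    have h7 := hJ j hj (z - dB p G e') (Submodule.sub_mem _ hz h4) (Submodule.sub_mem _ hzj h5) h6
    have h8 : z = (z - dB p G e') + dB p G e' := by abel
    rw [h8]
    exact Submodule.add_mem_sup h7 h3
  refine ⟨J.toNat + 1, fun z hz => ?_⟩
  obtain ⟨J', hJ'⟩ := sum_cmp z
  have h1 : (X 0 : MvPolynomial (Fin (r + 1)) K) ^ (J.toNat + 1) • z =
      ∑ j ∈ Finset.range J', (X 0 : MvPolynomial (Fin (r + 1)) K) ^ (J.toNat + 1) •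
        cmp K (r + 1) μ (j : ℤ) z := by
    conv_lhs => rw [hJ']
    rw [Finset.smul_sum]
  rw [h1]
  refine Submodule.sum_mem _ fun j _ => ?_
  refine key ((j : ℤ) + 2 * ((J.toNat + 1 : ℕ) : ℤ)) ?_ _ ?_ (r11_shift _ (cmp_mem _ _))
  · have h2 := Int.self_le_toNat J
    push_cast
    omega
  · exact Submodule.smul_mem _ _ ((cmp_ZB _).1 hz)

end

end QL
end

section

/-!
LinearBound (MP_c77682_nt), job R12. See table papers, id 368.
-/

set_option autoImplicit false

open MvPolynomial Matrix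

namespace QL

section

variable {K : Type} [Field K] {r : ℕ} {μ : Type} [Fintype μ] [DecidableEq μ]

/-- elements of `I0` vanish at points of the `0` axis. -/
private theorem R12_eval {a : Fin (r + 1) → K} (ha : ∀ k, k ≠ 0 → a k = 0)
    {g : MvPolynomial (Fin (r + 1)) K} (hg : g ∈ I0 K r) : eval a g = 0 := by
  have h : I0 K r ≤ RingHom.ker (eval a) := by
    unfold I0
    rw [Ideal.span_le]
    rintro _ ⟨k, rfl⟩
    rw [SetLike.mem_coe, RingHom.mem_ker, eval_X]
    exact ha _ (Fin.succ_ne_zero k)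
  exact h hg

/-- the determinant trick, abstractly. -/
private theorem R12_det {R M : Type} [CommRing R] [AddCommGroup M] [Module R M] (I : Ideal R)
    (x : R) (Z B : Submodule R M) (hfg : Module.Finite R Z) (_hB : B ≤ Z)
    (h : ∀ z ∈ Z, x • z ∈ I • Z ⊔ B) :
    ∃ q : Polynomial R, q.Monic ∧ (∀ k, q.coeff k ∈ I ^ (q.natDegree - k)) ∧
      ∀ z ∈ Z, q.eval x • z ∈ B := by
  set B' : Submodule R Z := B.comap Z.subtype with hB'
  set f : Module.End R (Z ⧸ B') := algebraMap R (Module.End R (Z ⧸ B')) x with hf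
  have hr : LinearMap.range f ≤ I • ⊤ := by
    rintro _ ⟨y, rfl⟩
    obtain ⟨z, rfl⟩ := Submodule.mkQ_surjective B' y
    obtain ⟨u, hu, v, hv, huv⟩ := Submodule.mem_sup.1 (h z z.2)
    have huZ : u ∈ Z := Submodule.smul_le_right hu
    have e1 : f (B'.mkQ z) = B'.mkQ ⟨u, huZ⟩ := by
      have e2 : f (B'.mkQ z) = B'.mkQ (x • z) := by
        rw [map_smul]
        rfl
      rw [e2, ← sub_eq_zero, ← map_sub, ← LinearMap.mem_ker, Submodule.ker_mkQ, hB',
        Submodule.mem_comap]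
      have e3 : Z.subtype (x • z - ⟨u, huZ⟩) = v := by
        rw [map_sub, map_smul]
        show x • (z : M) - u = v
        rw [← huv, add_sub_cancel_left]
      rw [e3]
      exact hv
    rw [e1]
    have h1 : (⟨u, huZ⟩ : Z) ∈ I • (⊤ : Submodule R Z) := by
      rw [Submodule.mem_smul_top_iff]
      exact hu
    have h2 := Submodule.mem_map_of_mem (f := B'.mkQ) h1
    rw [Submodule.map_smul'', Submodule.map_top, Submodule.range_mkQ] at h2
    exact h2
  obtain ⟨q, hq1, -, hq2, hq3⟩ :=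
    LinearMap.exists_monic_and_natDegree_eq_and_coeff_mem_pow_and_aeval_eq_zero R f I hr
  refine ⟨q, hq1, hq2, fun z hz => ?_⟩
  have h3 : Polynomial.aeval f q = algebraMap R (Module.End R (Z ⧸ B')) (q.eval x) := by
    rw [hf, Polynomial.aeval_algebraMap_apply, Polynomial.coe_aeval_eq_eval]
  rw [h3] at hq3
  have h4 : B'.mkQ (q.eval x • (⟨z, hz⟩ : Z)) = 0 := by
    rw [map_smul]
    exact congrArg (fun F : Module.End R (Z ⧸ B') => F (B'.mkQ ⟨z, hz⟩)) hq3
  rw [← LinearMap.mem_ker, Submodule.ker_mkQ, hB', Submodule.mem_comap] at h4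
  exact h4

/-- JOB R12. Determinant trick.

PROOF. `H = ZB ⧸ (BB as a submodule of ZB)` is a finitely generated `R`-module and the range of multiplication by
`X 0 ^ N` on `H` is contained in `I0 • ⊤`. By `LinearMap.exists_monic_and_natDegree_eq_and_coeff_mem_pow_and_aeval_eq_zero`
there is a monic `q : R[Y]` with `q.coeff k ∈ I0 ^ (natDegree q - k)` and `q (X 0 ^ N) = 0` on `H`. Let
`g = q (X 0 ^ N) ∈ R`; `g • z ∈ BB` for `z ∈ ZB`. All elements of `I0` vanish at `a` (`a k = 0` for `k ≠ 0`), so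
`eval a g = (a 0)^(N * natDegree q) ≠ 0`. -/
theorem annP_of_CR {p : ℕ} (hp : 1 ≤ p) {deg : μ → ℕ} {G : Fin (r + 1) → Matrix μ μ K}
    (hG : SysM p deg G) {ℓ : ℤ} (hcr : CR p (gr K deg) (fun i => (G i).mulVecLin) ℓ)
    (a : Fin (r + 1) → K) (ha0 : a 0 ≠ 0) (ha : ∀ k, k ≠ 0 → a k = 0) : AnnP p deg G a ℓ := by
  obtain ⟨N, hN⟩ := pow_X0 hp hG hcr
  have hfg : Module.Finite (MvPolynomial (Fin (r + 1)) K) (ZB p deg G ℓ) := by
    have : IsNoetherian (MvPolynomial (Fin (r + 1)) K) (CB K (r + 1) μ) := by infer_instance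
    infer_instance
  obtain ⟨q, hq1, hq2, hq3⟩ := R12_det (I0 K r) (X 0 ^ N) (ZB p deg G ℓ)
    (BB p deg G ℓ ⊓ ZB p deg G ℓ) hfg inf_le_right (fun z hz => by
      obtain ⟨u, hu, v, hv, huv⟩ := Submodule.mem_sup.1 (hN z hz)
      refine Submodule.mem_sup.2 ⟨u, hu, v, ⟨hv, ?_⟩, huv⟩
      have huZ : u ∈ ZB p deg G ℓ := Submodule.smul_le_right hu
      have : v = (X 0 : MvPolynomial (Fin (r + 1)) K) ^ N • z - u := by
        rw [← huv, add_sub_cancel_left]
      rw [this]
      exact Submodule.sub_mem _ (Submodule.smul_mem _ _ hz) huZ)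
  refine ⟨q.eval (X 0 ^ N), ?_, fun c hc hd => ?_⟩
  · have h1 : q.map (eval a) = Polynomial.X ^ q.natDegree := by
      ext k
      rw [Polynomial.coeff_map, Polynomial.coeff_X_pow]
      by_cases hk : k = q.natDegree
      · rw [if_pos hk, hk, Polynomial.coeff_natDegree, hq1.leadingCoeff, map_one]
      · rw [if_neg hk]
        rcases lt_or_gt_of_ne hk with h | h
        · refine R12_eval ha (Ideal.pow_le_self ?_ (hq2 k))
          omega
        · rw [Polynomial.coeff_eq_zero_of_natDegree_lt h, map_zero]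
    have h2 : eval a (q.eval (X 0 ^ N)) = (q.map (eval a)).eval (a 0 ^ N) := by
      rw [Polynomial.eval_map, ← Polynomial.eval₂_id, Polynomial.hom_eval₂, RingHom.comp_id,
        map_pow, eval_X]
    rw [h2, h1, Polynomial.eval_pow, Polynomial.eval_X]
    exact pow_ne_zero _ (pow_ne_zero _ ha0)
  · have h1 := hq3 c ⟨hc, hd⟩
    exact h1.1

end

end QL
end

section

/-!
LinearBound (MP_c77682_nt), job S2. See table papers, id 368.
-/

set_option autoImplicit false

open Matrix Module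

namespace QL

section

variable {K : Type} [Field K] {p : ℕ} [Fact p.Prime] [CharP K p]

private theorem s2_conj {σ₁ σ₀ : Type} [Fintype σ₁] [DecidableEq σ₁] [Fintype σ₀] [DecidableEq σ₀]
    (Q : Matrix (σ₁ ⊕ σ₀) (σ₁ ⊕ σ₀) K) (x : Mon p (σ₁ ⊕ σ₀) → K) :
    curryMon K p σ₁ σ₀ ((GN p Q).mulVecLin x) = opC p Q (curryMon K p σ₁ σ₀ x) := by
  have h1 : opC p Q (curryMon K p σ₁ σ₀ x) = curryMon K p σ₁ σ₀ ((GN p Q).mulVecLin
      ((curryMon K p σ₁ σ₀).symm (curryMon K p σ₁ σ₀ x))) := rfl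
  rw [h1, LinearEquiv.symm_apply_apply]

private theorem s2_conj_pow {σ₁ σ₀ : Type} [Fintype σ₁] [DecidableEq σ₁] [Fintype σ₀]
    [DecidableEq σ₀] (Q : Matrix (σ₁ ⊕ σ₀) (σ₁ ⊕ σ₀) K) (k : ℕ) (x : Mon p (σ₁ ⊕ σ₀) → K) :
    curryMon K p σ₁ σ₀ (((GN p Q).mulVecLin ^ k) x) = (opC p Q ^ k) (curryMon K p σ₁ σ₀ x) := by
  induction k generalizing x with
  | zero => simp
  | succ k ih => rw [pow_succ, pow_succ, Module.End.mul_apply, Module.End.mul_apply, ih, s2_conj]

private theorem s2_sys {σ₁ σ₀ : Type} [Fintype σ₁] [DecidableEq σ₁] [Fintype σ₀] [DecidableEq σ₀]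
    {r : ℕ} (Q : Fin r → Matrix (σ₁ ⊕ σ₀) (σ₁ ⊕ σ₀) K) :
    Sys p (grF (dg (p := p) (σ := σ₁)) (gr K (dg (p := p) (σ := σ₀))))
      (fun i => opC p (Q i)) := by
  have hS := sys_GN (p := p) Q
  refine ⟨fun i j => ?_, fun i => ?_, fun i D m hm => ?_⟩
  · refine LinearMap.ext fun c => ?_
    obtain ⟨x, rfl⟩ := (curryMon K p σ₁ σ₀).surjective c
    change opC p (Q i) (opC p (Q j) (curryMon K p σ₁ σ₀ x)) =
      opC p (Q j) (opC p (Q i) (curryMon K p σ₁ σ₀ x))
    rw [← s2_conj, ← s2_conj, ← s2_conj, ← s2_conj]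
    exact congrArg _ (LinearMap.congr_fun (hS.comm i j).eq x)
  · refine LinearMap.ext fun c => ?_
    obtain ⟨x, rfl⟩ := (curryMon K p σ₁ σ₀).surjective c
    beta_reduce
    rw [← s2_conj_pow]
    have h1 := hS.nil i
    beta_reduce at h1
    rw [h1, LinearMap.zero_apply, LinearMap.zero_apply, map_zero]
  · obtain ⟨x, rfl⟩ := (curryMon K p σ₁ σ₀).surjective m
    beta_reduce
    rw [← s2_conj, ← curryMon_gr]
    exact hS.deg i D x ((curryMon_gr D x).2 hm)

/-- JOB S2. Column reduction when the first form is `N` in the variables `σ₁`.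

PROOF. `CR_of_equiv` with `curryMon`: the operators become `opC p (Q i)`, the gradings correspond (`curryMon_gr`). `Sys` for
the new operators follows from `sys_GN`. `opC p (Q 0) = mact (GN p N)` (`GN_congr` for `Q 0` and `fromBlocks N 0 0 0`,
`opC_top`), `(opC p (Q 0))^(p-1) = mact (GN p N ^ (p-1))` (`mact_pow`). By `CR_of_EE` it suffices to prove `EE` for
`(mact GN, mact GN^(p-1))` at level `ℓ` (`dψ = 2 (p-1)`) and for `(mact GN^(p-1), mact GN)` at level `ℓ - (p-2)`
(`dψ = 2`): `EE_of_lead` with the matrices of `exists_pi_GN`, `a = s` resp. `a = s - (p-2)`, leading parts from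
`opC_lead`; the operators commute (`GN_comm`, transported). The exactness needed is for levels
`ℓ' ≤ ℓ - s = (ℓ - (p-2)) - (s - (p-2))`. -/
theorem CR_of_block {σ₁ σ₀ : Type} [Fintype σ₁] [DecidableEq σ₁] [Fintype σ₀] [DecidableEq σ₀]
    {r : ℕ} (Q : Fin (r + 1) → Matrix (σ₁ ⊕ σ₀) (σ₁ ⊕ σ₀) K) (N : Matrix σ₁ σ₁ K)
    (h0 : Q 0 + (Q 0)ᵀ = fromBlocks (N + Nᵀ) 0 0 0) (s ℓ : ℤ)
    (hQ : QP p (gr K (dg (p := p) (σ := σ₁))) (GN p N).mulVecLin s)
    (hEx : ∀ ℓ' : ℤ, ℓ' ≤ ℓ - s → ∀ j, Ex p (gr K (dg (p := p) (σ := σ₀)))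
      (fun i : Fin r => (GN p (Q i.succ).toBlocks₂₂).mulVecLin) j ℓ') :
    CR p (gr K (dg (p := p) (σ := σ₁ ⊕ σ₀))) (fun i => (GN p (Q i)).mulVecLin) ℓ := by
  have hp2 : 2 ≤ p := (Fact.out : p.Prime).two_le
  have hSys := s2_sys (p := p) Q
  -- the first operator
  have hQ0 : opC p (Q 0) = mact (GN p N) := by
    have h1 : GN p (Q 0) = GN p (fromBlocks N 0 0 (0 : Matrix σ₀ σ₀ K)) := by
      refine GN_congr _ _ ?_
      rw [h0, fromBlocks_transpose, fromBlocks_add]
      simp
    have h2 : opC p (Q 0) = opC p (fromBlocks N 0 0 (0 : Matrix σ₀ σ₀ K)) := by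
      unfold opC
      rw [h1]
    rw [h2, opC_top]
  have hcomm : ∀ i : Fin r, Commute (mact (GN p N)) (opC p (Q i.succ)) := by
    intro i
    rw [← hQ0]
    exact hSys.comm 0 i.succ
  have hcomm' : ∀ i : Fin r, Commute (mact (GN p N ^ (p - 1))) (opC p (Q i.succ)) := by
    intro i
    rw [mact_pow]
    exact (hcomm i).pow_left _
  have hSys' : Sys p (grF (dg (p := p) (σ := σ₁)) (gr K (dg (p := p) (σ := σ₀))))
      (fun i : Fin r => opC p (Q i.succ)) := s2_sys fun i => Q i.succ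
  have hlead : ∀ i : Fin r, Lead (dg (p := p) (σ := σ₁)) (opC p (Q i.succ))
      (GN p (Q i.succ).toBlocks₂₂).mulVecLin := fun i => opC_lead _
  obtain ⟨⟨π, S, θ, a1, a2, a3, a4, a5, a6⟩, ⟨π', S', θ', b1, b2, b3, b4, b5, b6⟩⟩ :=
    exists_pi_GN N s hQ
  have hE1 := EE_of_lead (p := p) (r := r) (by omega : 1 ≤ p) hSys' hlead (GN p N)
    (GN p N ^ (p - 1)) π S θ (2 * (p - 1)) s ℓ hcomm hcomm' a1 a2 a3 a4 a5 a6 hEx
  have hE2 := EE_of_lead (p := p) (r := r) (by omega : 1 ≤ p) hSys' hlead (GN p N ^ (p - 1))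
    (GN p N) π' S' θ' 2 (s - ((p : ℤ) - 2)) (ℓ - ((p : ℤ) - 2)) hcomm' hcomm b1 b2 b3 b4 b5 b6
    (by
      intro ℓ' h' j
      exact hEx ℓ' (by linarith) j)
  refine CR_of_equiv (curryMon K p σ₁ σ₀) curryMon_gr
    (f' := fun i => opC p (Q i)) (fun i m => s2_conj (Q i) m) ?_
  refine CR_of_EE hp2 hSys ?_ ?_
  · beta_reduce
    rw [hQ0, ← mact_pow]
    have hc : ((2 * (p - 1) : ℕ) : ℤ) = 2 * ((p : ℤ) - 1) := by
      rw [Nat.cast_mul, Nat.cast_sub (by omega : 1 ≤ p)]
      norm_num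
    rw [← hc]
    exact hE1
  · beta_reduce
    rw [hQ0, ← mact_pow]
    exact hE2

end

end QL
end

section

/-!
LinearBound (MP_c77682_nt), job S4. See table papers, id 368.
-/

set_option autoImplicit false

open Matrix Module

namespace QL

section

variable {K : Type} [Field K] [IsAlgClosed K] {p : ℕ} [Fact p.Prime] [CharP K p]

/-- JOB S4. Column reduction for all systems satisfying `Hyp`.

PROOF. `exists_normal` for `Q 0` gives `σ₁, σ₀, e, g, h, N, s`. Let `Q' i = (gᵀ Q i g).submatrix e.symm e.symm`; `Hyp Q' c`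
(`Hyp.conj`, `Hyp.reindex`) and `Q' 0 + (Q' 0)ᵀ = fromBlocks (N + Nᵀ) 0 0 0`. By `Hyp.radical`: `4 ≤ c + card σ₁` and
`Hyp (Q'' k = (Q' k.succ).toBlocks₂₂) (c + card σ₁ - 4)`. By `CR_change` and `CR_of_block` we need `Ex` for `Q''` at levels
`ℓ' ≤ ℓ - s`: `2 ℓ' ≤ 2 ℓ - card σ₁ (p-1) < (p-1)(4 (r+1) - c - card σ₁) = (p-1)(4 r - (c + card σ₁ - 4))`: `ThmS` for
`r`. -/
theorem CR_of_Hyp {r : ℕ} (hS : ThmS K p r) {σ : Type} [Fintype σ] [DecidableEq σ]
    (Q : Fin (r + 1) → Matrix σ σ K) (c : ℕ) (hQ : Hyp Q c) (ℓ : ℤ)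
    (hℓ : 2 * ℓ < ((p : ℤ) - 1) * (4 * (r + 1) - c)) :
    CR p (gr K (dg (p := p) (σ := σ))) (fun i => (GN p (Q i)).mulVecLin) ℓ := by
  obtain ⟨σ₁, σ₀, _, _, _, _, e, g, h, N, s, hgh, h0, hs, hQP⟩ := exists_normal (p := p) (Q 0)
  have h1 := (hQ.conj g h hgh).reindex e
  have h0' : (gᵀ * Q 0 * g).submatrix e.symm e.symm +
      ((gᵀ * Q 0 * g).submatrix e.symm e.symm)ᵀ = fromBlocks (N + Nᵀ) 0 0 0 := by
    have h2 : gᵀ * (Q 0 + (Q 0)ᵀ) * g = gᵀ * Q 0 * g + (gᵀ * Q 0 * g)ᵀ := by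
      rw [Matrix.transpose_mul, Matrix.transpose_mul, Matrix.transpose_transpose, Matrix.mul_add,
        Matrix.add_mul, Matrix.mul_assoc gᵀ (Q 0)ᵀ g]
    rw [← h0, h2]
    rfl
  obtain ⟨h4, h5⟩ := Hyp.radical h1 (N + Nᵀ) h0'
  refine CR_change Q g h hgh e ℓ ?_
  refine CR_of_block (fun i => (gᵀ * Q i * g).submatrix e.symm e.symm) N h0' s ℓ hQP ?_
  intro ℓ' hℓ' j
  refine hS σ₀ _ _ h5 ℓ' ?_ j
  have hc : ((c + Fintype.card σ₁ - 4 : ℕ) : ℤ) = c + Fintype.card σ₁ - 4 := by
    rw [Nat.cast_sub h4]; push_cast; ring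
  rw [hc]
  nlinarith [hs, hℓ, hℓ']

end

end QL
end

section

/-!
LinearBound (MP_c77682_nt), job S5. See table papers, id 368.
-/

set_option autoImplicit false

open Matrix Module

namespace QL

section

variable {K : Type} [Field K] [IsAlgClosed K] {p : ℕ} [Fact p.Prime] [CharP K p]

omit [IsAlgClosed K] in
private theorem sysM_GN {σ : Type} [Fintype σ] [DecidableEq σ] {r : ℕ} (Q : Fin r → Matrix σ σ K) :
    SysM p (dg (p := p) (σ := σ)) (fun i => GN p (Q i)) where
  comm _ _ := GN_comm _ _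
  nil _ := GN_pow _
  deg _ m m' h := GN_deg _ m m' h

omit [IsAlgClosed K] in
private theorem annP_step {σ : Type} [Fintype σ] [DecidableEq σ] {r : ℕ}
    (Q : Fin r → Matrix σ σ K) {i j : Fin r} (hij : i ≠ j) (α : K) (a : Fin r → K) {ℓ : ℤ}
    (h : AnnP p (dg (p := p) (σ := σ))
      (fun k => GN p (Function.update Q i (Q i + α • Q j) k))
      (Function.update a j (a j - α ^ p * a i)) ℓ) :
    AnnP p (dg (p := p) (σ := σ)) (fun k => GN p (Q k)) a ℓ := by
  refine AnnP_transv (sysM_GN Q) hij α a ?_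
  have : Function.update (fun k => GN p (Q k)) i (GN p (Q i) + α • GN p (Q j)) =
      (fun k => GN p (Function.update Q i (Q i + α • Q j) k)) := by
    funext k
    by_cases hk : k = i
    · subst hk
      rw [Function.update_self, Function.update_self, GN_add, GN_smul]
    · rw [Function.update_of_ne hk, Function.update_of_ne hk]
  rw [this]
  exact h

open Classical in
private theorem annP_aux {r : ℕ} (hS : ThmS K p r) {σ : Type} [Fintype σ] [DecidableEq σ]
    (c : ℕ) (ℓ : ℤ) (hℓ : 2 * ℓ < ((p : ℤ) - 1) * (4 * (r + 1) - c)) (n : ℕ) :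
    ∀ (Q : Fin (r + 1) → Matrix σ σ K), Hyp Q c → ∀ a : Fin (r + 1) → K, a 0 ≠ 0 →
      (Finset.univ.filter (fun k : Fin (r + 1) => k ≠ 0 ∧ a k ≠ 0)).card = n →
      AnnP p (dg (p := p) (σ := σ)) (fun i => GN p (Q i)) a ℓ := by
  induction n with
  | zero =>
    intro Q hQ a ha0 hn
    refine annP_of_CR (Nat.Prime.one_lt (Fact.out : p.Prime)).le (sysM_GN Q)
      (CR_of_Hyp hS Q c hQ ℓ hℓ) a ha0 ?_
    intro k hk
    by_contra hak
    rw [Finset.card_eq_zero] at hn
    have : k ∈ (Finset.univ.filter (fun k : Fin (r + 1) => k ≠ 0 ∧ a k ≠ 0)) := by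
      simp [hk, hak]
    rw [hn] at this
    simp at this
  | succ n ih =>
    intro Q hQ a ha0 hn
    have hne : (Finset.univ.filter (fun k : Fin (r + 1) => k ≠ 0 ∧ a k ≠ 0)).Nonempty := by
      rw [← Finset.card_pos, hn]; omega
    obtain ⟨j, hj⟩ := hne
    rw [Finset.mem_filter] at hj
    obtain ⟨-, hj0, haj⟩ := hj
    have hp0 : 0 < p := (Fact.out : p.Prime).pos
    obtain ⟨α, hα⟩ := IsAlgClosed.exists_pow_nat_eq (a j / a 0) hp0
    refine annP_step Q (i := 0) (j := j) (Ne.symm hj0) α a ?_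
    have hz : a j - α ^ p * a 0 = 0 := by
      rw [hα, div_mul_cancel₀ _ ha0, sub_self]
    rw [hz]
    refine ih _ (hQ.transv (Ne.symm hj0) α) _ ?_ ?_
    · rw [Function.update_of_ne (Ne.symm hj0)]
      exact ha0
    · have : (Finset.univ.filter (fun k : Fin (r + 1) => k ≠ 0 ∧ Function.update a j 0 k ≠ 0)) =
          (Finset.univ.filter (fun k : Fin (r + 1) => k ≠ 0 ∧ a k ≠ 0)).erase j := by
        ext k
        simp only [Finset.mem_filter, Finset.mem_univ, true_and, Finset.mem_erase]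
        by_cases hk : k = j
        · subst hk
          simp
        · rw [Function.update_of_ne hk]
          simp [hk]
      rw [this, Finset.card_erase_of_mem, hn]
      · rfl
      · simp [hj0, haj]

/-- JOB S5. Annihilators for all `a ≠ 0`.

PROOF. Call `a` good for `Q` if `AnnP p dg (fun i => GN p (Q i)) a ℓ`. For all `Q` with `Hyp Q c`, `a = (a_0, 0, …, 0)`,
`a_0 ≠ 0`, is good (`CR_of_Hyp`, `annP_of_CR`). `AnnP_transv` and `Hyp.transv` (`GN` is linear, so
`update (GN ∘ Q) i (GN (Q i) + α GN (Q j)) = GN ∘ update Q i (Q i + α Q j)`): if `update a j (a j - α^p a i)` is good for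
all `Q` with `Hyp Q c`, so is `a` (`i ≠ j`). If `a 0 ≠ 0`: with `i = 0` and `α^p = a j / a 0` (`K` algebraically closed)
clear the entries `j = 1, …, r` one after the other (induction on the number of nonzero entries with index `≠ 0`). If
`a 0 = 0` choose `i` with `a i ≠ 0`, `j = 0`, `α = 1`: the new `a 0` is `- a i ≠ 0`. -/
theorem annP_all {r : ℕ} (hS : ThmS K p r) {σ : Type} [Fintype σ] [DecidableEq σ]
    (Q : Fin (r + 1) → Matrix σ σ K) (c : ℕ) (hQ : Hyp Q c) (ℓ : ℤ)
    (hℓ : 2 * ℓ < ((p : ℤ) - 1) * (4 * (r + 1) - c)) (a : Fin (r + 1) → K) (ha : a ≠ 0) :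
    AnnP p (dg (p := p) (σ := σ)) (fun i => GN p (Q i)) a ℓ := by
  by_cases ha0 : a 0 = 0
  · obtain ⟨i, hi⟩ := Function.ne_iff.1 ha
    rw [Pi.zero_apply] at hi
    have hi0 : i ≠ 0 := fun h => hi (h ▸ ha0)
    refine annP_step Q (i := i) (j := 0) hi0 1 a ?_
    refine annP_aux hS c ℓ hℓ _ _ (hQ.transv hi0 1) _ ?_ rfl
    rw [Function.update_self, ha0, one_pow, one_mul, zero_sub]
    exact neg_ne_zero.2 hi
  · exact annP_aux hS c ℓ hℓ _ Q hQ a ha0 rfl

end

end QL
end

section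

/-!
LinearBound (MP_c77682_nt), job S6. See table papers, id 368.
-/

set_option autoImplicit false

open Matrix Module

namespace QL

section

variable {K : Type} [Field K] [IsAlgClosed K] {p : ℕ} [Fact p.Prime] [CharP K p]

/-- JOB S6. Theorem S.

PROOF. Induction on `r`. `r = 0`: `2 ℓ < - (p-1) c ≤ 0`; for `c' ∈ Bi j ℓ` the only index is the empty function, `nodd = 0`,
and `gr K dg ℓ = ⊥` (`gr_neg`), so `c' = 0`. Step: by `annP_all` and `large_of_annP` (with `SysM` from `GN_comm`, `GN_pow`,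
`GN_deg`) exactness holds in large degrees for every level `ℓ' ≤ ℓ`; `Ex_all` applies because
`2 ℓ < (p-1)(4 (r+1) - c) ≤ 4 (p-1)(r+1)`. -/
theorem thmS (r : ℕ) : ThmS K p r := by
  have hp : 2 ≤ p := (Fact.out : p.Prime).two_le
  have hp1 : (0 : ℤ) ≤ (p : ℤ) - 1 := by
    have : (2 : ℤ) ≤ p := by exact_mod_cast hp
    omega
  induction r with
  | zero =>
    intro σ _ _ Q c _ ℓ hℓ j c' hc' _
    have h0 : ℓ < 0 := by
      have h1 : ((p : ℤ) - 1) * (4 * ((0 : ℕ) : ℤ) - c) ≤ 0 :=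
        mul_nonpos_of_nonneg_of_nonpos hp1 (by push_cast; omega)
      omega
    refine ⟨0, Submodule.zero_mem _, ?_⟩
    rw [map_zero]
    funext b
    have h1 := ((mem_Bi _ _ _ _ _).1 hc' b).1
    have h2 : nodd b = 0 := by
      unfold nodd
      rw [Finset.univ_eq_empty, Finset.filter_empty, Finset.card_empty]
    rw [h2, Nat.cast_zero, mul_zero, sub_zero, gr_neg _ _ h0, Submodule.mem_bot] at h1
    rw [h1]
    rfl
  | succ r ih =>
    intro σ _ _ Q c hQ ℓ hℓ j
    have hG : SysM p (dg (p := p) (σ := σ)) (fun i => GN p (Q i)) :=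
      ⟨fun i j => GN_comm (Q i) (Q j), fun i => GN_pow (Q i), fun i m m' h => GN_deg (Q i) m m' h⟩
    refine Ex_all hp (sys_GN Q) (fun D hD => gr_neg _ D hD) (ℓ := ℓ) ?_ ?_ j
    · intro ℓ' hℓ'
      refine large_of_annP hG (fun a ha => annP_all ih Q c hQ ℓ' ?_ a ha)
      push_cast at hℓ
      omega
    · have h1 : ((p : ℤ) - 1) * (4 * ((r + 1 : ℕ) : ℤ) - c) ≤ ((p : ℤ) - 1) * (4 * ((r + 1 : ℕ) : ℤ)) :=
        mul_le_mul_of_nonneg_left (by omega) hp1
      have h2 : 2 * ((p : ℤ) - 1) * ((r + 1 : ℕ) : ℤ) * 2 = ((p : ℤ) - 1) * (4 * ((r + 1 : ℕ) : ℤ)) := by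
        ring
      omega

end

end QL
end

section

/-!
LinearBound (MP_c77682_nt), job S7. See table papers, id 368.
-/

set_option autoImplicit false

open Matrix Module

namespace QL

section

variable {K : Type} [Field K] [IsAlgClosed K] {p : ℕ} [Fact p.Prime] [CharP K p]

private theorem S7_qf_hom {σ : Type} [Fintype σ] [DecidableEq σ] (Q : Matrix σ σ K) :
    (qf Q).IsHomogeneous 2 := by
  unfold qf
  refine MvPolynomial.IsHomogeneous.sum _ _ _ fun a _ => MvPolynomial.IsHomogeneous.sum _ _ _ fun b _ => ?_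
  have h := (MvPolynomial.isHomogeneous_C σ (Q a b)).mul
    ((MvPolynomial.isHomogeneous_X K a).mul (MvPolynomial.isHomogeneous_X K b))
  simpa using h

private theorem S7_Tm_gr {σ : Type} [Fintype σ] [DecidableEq σ] {P : MvPolynomial σ K} {D : ℕ}
    (hP : P.IsHomogeneous D) : Tm K p σ P ∈ gr K (dg (p := p) (σ := σ)) (D : ℤ) := by
  intro m hm
  have h : MvPolynomial.coeff (Finsupp.equivFunOnFinite.symm fun i => (m i : ℕ)) P ≠ 0 := hm
  have h1 := hP h
  have h2 : Finsupp.degree (Finsupp.equivFunOnFinite.symm fun i => (m i : ℕ)) = dg m := by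
    rw [Finsupp.degree_eq_sum]
    rfl
  rw [← h2]
  have h3 : Finsupp.degree (Finsupp.equivFunOnFinite.symm fun i => (m i : ℕ)) = D := by
    rw [← h1, Finsupp.degree_eq_weight_one]
    rfl
  exact_mod_cast h3

private theorem S7_Tm_pow {σ : Type} [Fintype σ] [DecidableEq σ] (Q : Matrix σ σ K)
    (P : MvPolynomial σ K) (n : ℕ) :
    Tm K p σ (qf Q ^ n * P) = (GN p Q ^ n).mulVec (Tm K p σ P) := by
  induction n with
  | zero => rw [pow_zero, pow_zero, one_mul, Matrix.one_mulVec]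
  | succ n ih =>
    rw [pow_succ', mul_assoc, Tm_qf_mul, ih, pow_succ', Matrix.mulVec_mulVec]

/-- JOB S7. Corollary: the product of the `(p-1)`-st powers is not zero.

PROOF. Let `w = Tm 1`, the indicator of the monomial `1`. For `k : Fin r → ℕ` with `k i ≤ p - 1` let
`w_k = (∏ i, GN (Q i) ^ k i) *ᵥ w ∈ gr (2 ∑ k i)`. `w_0 = w ≠ 0`; choose `k` with `w_k ≠ 0` and `∑ k i` maximal. Then
`GN (Q i) *ᵥ w_k = 0` for all `i` (if `k i < p - 1` by maximality, if `k i = p - 1` by `GN_pow`). The cochain `c b = w_k` for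
`b = 0`, `0` otherwise is in `Bi 0 (2 ∑ k i)`, `dL c = 0` (its values at `e_i` are `GN (Q i) *ᵥ w_k`, and at other `b` there
is no term). If `2 · 2 ∑ k i < (p-1) 4 r`, Theorem S (`c = 0`) gives `c = dL e` with `e ∈ Bi (-1) _ = 0`, contradiction. So
`∑ k i ≥ (p-1) r`, i.e. `k i = p - 1` for all `i`. Finally `Tm (∏ i, qf (Q i)^(p-1)) = (∏ i, GN (Q i)^(p-1)) *ᵥ Tm 1`
(`Tm_qf_mul`). -/
theorem prod_ne_zero {r : ℕ} {σ : Type} [Fintype σ] [DecidableEq σ] (Q : Fin r → Matrix σ σ K)
    (hQ : Hyp Q 0) : Tm K p σ (∏ i, qf (Q i) ^ (p - 1)) ≠ 0 := by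
  have hp : 2 ≤ p := (Fact.out : p.Prime).two_le
  classical
  set w : (Fin r → ℕ) → (Mon p σ → K) := fun k => Tm K p σ (∏ i, qf (Q i) ^ k i) with hw
  set S : Finset (Fin r → ℕ) := (Fintype.piFinset fun _ => Finset.range p).filter
    (fun k => w k ≠ 0) with hSdef
  have hw0 : w 0 ≠ 0 := by
    intro h
    have h1 := congrFun h (fun _ => ⟨0, by omega⟩)
    have h2 : MvPolynomial.coeff (Finsupp.equivFunOnFinite.symm fun _ : σ => 0)
        (∏ i, qf (Q i) ^ (0 : Fin r → ℕ) i) = 0 := h1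
    have h3 : (Finsupp.equivFunOnFinite.symm fun _ : σ => 0) = (0 : σ →₀ ℕ) := by
      ext a
      rfl
    rw [h3] at h2
    simp at h2
  have hS : S.Nonempty := by
    refine ⟨0, ?_⟩
    rw [hSdef, Finset.mem_filter, Fintype.mem_piFinset]
    exact ⟨fun i => Finset.mem_range.2 (by rw [Pi.zero_apply]; omega), hw0⟩
  obtain ⟨k, hkS, hmax⟩ := Finset.exists_max_image S (fun k => ∑ i, k i) hS
  rw [hSdef, Finset.mem_filter, Fintype.mem_piFinset] at hkS
  obtain ⟨hkp, hk0⟩ := hkS
  have hkp' : ∀ i, k i ≤ p - 1 := fun i => by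
    have := Finset.mem_range.1 (hkp i)
    omega
  by_cases hall : ∀ i, k i = p - 1
  · have h1 : k = fun _ => p - 1 := funext hall
    rw [h1] at hk0
    exact hk0
  exfalso
  rw [not_forall] at hall
  obtain ⟨i0, hi0⟩ := hall
  have hi0' : k i0 < p - 1 := lt_of_le_of_ne (hkp' i0) hi0
  -- all operators kill `w k`
  have hT : ∀ i, (GN p (Q i)).mulVec (w k) = 0 := by
    intro i
    rcases Nat.lt_or_ge (k i) (p - 1) with hi | hi
    · by_contra hne
      have e1 : (GN p (Q i)).mulVec (w k) = w (Function.update k i (k i + 1)) := by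
        rw [hw]
        change (GN p (Q i)).mulVec (Tm K p σ _) = Tm K p σ _
        rw [← Tm_qf_mul]
        congr 1
        rw [← Finset.mul_prod_erase Finset.univ _ (Finset.mem_univ i),
          ← Finset.mul_prod_erase Finset.univ (fun j => qf (Q j) ^ Function.update k i (k i + 1) j)
            (Finset.mem_univ i), Function.update_self, pow_succ', mul_assoc]
        congr 2
        refine Finset.prod_congr rfl fun j hj => ?_
        rw [Function.update_of_ne (Finset.ne_of_mem_erase hj)]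
      rw [e1] at hne
      have e2 : Function.update k i (k i + 1) ∈ S := by
        rw [hSdef, Finset.mem_filter, Fintype.mem_piFinset]
        refine ⟨fun j => ?_, hne⟩
        rw [Finset.mem_range]
        by_cases hji : j = i
        · rw [hji, Function.update_self]
          omega
        · rw [Function.update_of_ne hji]
          have := hkp' j
          omega
      have e3 := hmax _ e2
      have e4 : ∑ j, Function.update k i (k i + 1) j = (∑ j, k j) + 1 := by
        rw [← Finset.add_sum_erase Finset.univ _ (Finset.mem_univ i),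
          ← Finset.add_sum_erase Finset.univ k (Finset.mem_univ i), Function.update_self]
        have : ∑ j ∈ Finset.univ.erase i, Function.update k i (k i + 1) j =
            ∑ j ∈ Finset.univ.erase i, k j :=
          Finset.sum_congr rfl fun j hj => by rw [Function.update_of_ne (Finset.ne_of_mem_erase hj)]
        rw [this]
        omega
      omega
    · have hi' : k i = p - 1 := le_antisymm (hkp' i) hi
      have e1 : w k = (GN p (Q i) ^ (p - 1)).mulVec
          (Tm K p σ (∏ j ∈ Finset.univ.erase i, qf (Q j) ^ k j)) := by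
        rw [← S7_Tm_pow, ← hi', Finset.mul_prod_erase Finset.univ (fun j => qf (Q j) ^ k j)
          (Finset.mem_univ i)]
      rw [e1, Matrix.mulVec_mulVec, ← pow_succ', Nat.sub_add_cancel (by omega), GN_pow,
        Matrix.zero_mulVec]
  have hsum : ∑ i, k i < r * (p - 1) := by
    have h1 : ∑ i, k i < ∑ _i : Fin r, (p - 1) :=
      Finset.sum_lt_sum (fun i _ => hkp' i) ⟨i0, Finset.mem_univ _, hi0'⟩
    simpa using h1
  set ℓ : ℤ := ((2 * ∑ i, k i : ℕ) : ℤ) with hℓdef
  have hgr : w k ∈ gr K (dg (p := p) (σ := σ)) ℓ := by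
    refine S7_Tm_gr ?_
    have h1 : (∏ i, qf (Q i) ^ k i).IsHomogeneous (∑ i, 2 * k i) :=
      MvPolynomial.IsHomogeneous.prod _ _ _ fun i _ => (S7_qf_hom (Q i)).pow (k i)
    rwa [← Finset.mul_sum] at h1
  set c : (Fin r → ℕ) → (Mon p σ → K) := fun b => if b = 0 then w k else 0 with hc
  have hcB : c ∈ Bi p (gr K (dg (p := p) (σ := σ))) 0 ℓ := by
    rw [mem_Bi]
    intro b
    by_cases hb : b = 0
    · have e1 : nodd b = 0 := by
        rw [hb, nodd, Finset.card_eq_zero, Finset.filter_eq_empty_iff]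
        intro i _
        simp
      refine ⟨?_, fun h => absurd ?_ h⟩
      · rw [e1, Nat.cast_zero, mul_zero, sub_zero, hc]
        simp only [hb, if_true]
        exact hgr
      · rw [hb]
        simp
    · refine ⟨?_, fun _ => ?_⟩
      · rw [hc]
        simp only [if_neg hb]
        exact Submodule.zero_mem _
      · rw [hc]
        simp only [if_neg hb]
  have hdc : dL p (fun i => (GN p (Q i)).mulVecLin) c = 0 := by
    funext b
    rw [dL_apply]
    refine Finset.sum_eq_zero fun i _ => ?_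
    split_ifs with hb
    · by_cases hu : Function.update b i (b i - 1) = 0
      · have e1 : b i = 1 := by
          have := congrFun hu i
          rw [Function.update_self, Pi.zero_apply] at this
          omega
        have e2 : c (Function.update b i (b i - 1)) = w k := by
          rw [hc]
          simp only [hu, if_true]
        rw [e2, e1, ph, if_pos odd_one, Matrix.mulVecLin_apply, hT i, smul_zero]
      · have e2 : c (Function.update b i (b i - 1)) = 0 := by
          rw [hc]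
          simp only [if_neg hu]
        rw [e2, map_zero, smul_zero]
    · rfl
  have hlt : 2 * ℓ < ((p : ℤ) - 1) * (4 * r - ((0 : ℕ) : ℤ)) := by
    have h1 : ((∑ i, k i : ℕ) : ℤ) < (r : ℤ) * ((p : ℤ) - 1) := by
      have h2 : ((∑ i, k i : ℕ) : ℤ) < ((r * (p - 1) : ℕ) : ℤ) := by exact_mod_cast hsum
      rwa [Nat.cast_mul, Nat.cast_sub (by omega), Nat.cast_one] at h2
    rw [hℓdef, Nat.cast_mul, Nat.cast_ofNat, Nat.cast_zero, sub_zero]
    have h3 : ((p : ℤ) - 1) * (4 * r) = 4 * ((r : ℤ) * ((p : ℤ) - 1)) := by ring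
    rw [h3]
    omega
  obtain ⟨e, he, hde⟩ := thmS r σ Q 0 hQ ℓ hlt 0 c hcB hdc
  have he0 : e = 0 := by
    funext b
    refine ((mem_Bi _ _ _ _ _).1 he b).2 ?_
    have : (0 : ℤ) ≤ ∑ k, (b k : ℤ) := Finset.sum_nonneg fun _ _ => Int.natCast_nonneg _
    omega
  rw [he0, map_zero] at hde
  have h5 := congrFun hde 0
  rw [hc] at h5
  simp only [if_true] at h5
  exact hk0 h5.symm

end

end QL
end

section

/-!
LinearBound (MP_c77682_nt), job P1. See table papers, id 368.
-/

set_option autoImplicit false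

open Matrix Module

namespace QL

section

variable {p : ℕ} [Fact p.Prime] {n r : ℕ}

private theorem P1_qf_inl (Q : Fin r → Matrix (Fin n) (Fin n) (ZMod p)) (k : Fin r) :
    qf (dblQ (fun k => (Q k).map (algebraMap (ZMod p) (KK p))) (Fin.castAdd r k)) =
      MvPolynomial.map (algebraMap (ZMod p) (KK p)) (qX Q k) := by
  unfold qf dblQ qX
  rw [Fin.append_left]
  simp only [Fintype.sum_sum_type, fromBlocks_apply₁₁, fromBlocks_apply₁₂, fromBlocks_apply₂₁,
    fromBlocks_apply₂₂, Matrix.zero_apply, map_zero, zero_mul, Finset.sum_const_zero, add_zero,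
    map_sum, map_mul, MvPolynomial.map_C, MvPolynomial.map_X, Matrix.map_apply]

private theorem P1_qf_inr (Q : Fin r → Matrix (Fin n) (Fin n) (ZMod p)) (k : Fin r) :
    qf (dblQ (fun k => (Q k).map (algebraMap (ZMod p) (KK p))) (Fin.natAdd r k)) =
      MvPolynomial.map (algebraMap (ZMod p) (KK p)) (bXU Q k) := by
  unfold qf dblQ bXU
  rw [Fin.append_right]
  simp only [Fintype.sum_sum_type, fromBlocks_apply₁₁, fromBlocks_apply₁₂, fromBlocks_apply₂₁,
    fromBlocks_apply₂₂, Matrix.zero_apply, map_zero, zero_mul, Finset.sum_const_zero, add_zero,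
    zero_add, map_sum, map_mul, MvPolynomial.map_C, MvPolynomial.map_X, Matrix.map_apply,
    Matrix.add_apply, Matrix.transpose_apply, map_add]

/-- JOB P1. From Theorem S: the product has a monomial with all exponents `≤ p - 1`.

PROOF. `kempf` for `S k = Q k + (Q k)ᵀ` gives the hypothesis of `Hyp_dblQ` for `(Q k).map (algebraMap (ZMod p) (KK p))`;
`prod_ne_zero` for `dblQ` of it (`σ = Fin n ⊕ Fin n`, `K = KK p`): `Tm (∏ i, qf (dblQ i)^(p-1)) ≠ 0`. The polynomial is the
image under `MvPolynomial.map (algebraMap …)` of `∏ k, qX Q k ^ (p-1) * ∏ k, bXU Q k ^ (p-1)`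
(`Fin.prod_univ_add`, `Fin.append_left/right`), so this product has a nonzero coefficient at some `m` with
`m i < p` for all `i`. -/
theorem exists_coeff (Q : Fin r → Matrix (Fin n) (Fin n) (ZMod p))
    (hst : ∀ (U : Submodule (ZMod p) (Fin n → ZMod p)) (L : Submodule (ZMod p) (Fin r → ZMod p)),
      (∀ l ∈ L, ∀ u ∈ U, ∀ u' ∈ U, bf (fun k => Q k + (Q k)ᵀ) l u u' = 0) →
      8 * finrank (ZMod p) L + finrank (ZMod p) U ≤ n) :
    ∃ m : (Fin n ⊕ Fin n) →₀ ℕ, (∀ i, m i < p) ∧
      MvPolynomial.coeff m ((∏ k, qX Q k ^ (p - 1)) * ∏ k, bXU Q k ^ (p - 1)) ≠ 0 := by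
  have hH : Hyp (dblQ (fun k => (Q k).map (algebraMap (ZMod p) (KK p)))) 0 := by
    refine Hyp_dblQ _ fun x a l b h => kempf (fun k => Q k + (Q k)ᵀ) hst x a l b ?_
    have e : (fun k => (Q k + (Q k)ᵀ).map (algebraMap (ZMod p) (KK p))) =
        fun k => (Q k).map (algebraMap (ZMod p) (KK p)) +
          ((Q k).map (algebraMap (ZMod p) (KK p)))ᵀ := by
      funext k
      ext i j
      simp [Matrix.map_apply]
    rw [e]
    exact h
  have h1 := prod_ne_zero (K := KK p) (p := p) _ hH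
  obtain ⟨m, hm⟩ := Function.ne_iff.1 h1
  refine ⟨Finsupp.equivFunOnFinite.symm fun i => (m i : ℕ), fun i => (m i).2, fun h0 => hm ?_⟩
  have h2 : (∏ i : Fin (r + r), qf (dblQ (fun k => (Q k).map (algebraMap (ZMod p) (KK p))) i) ^
      (p - 1)) = MvPolynomial.map (algebraMap (ZMod p) (KK p))
        ((∏ k, qX Q k ^ (p - 1)) * ∏ k, bXU Q k ^ (p - 1)) := by
    rw [Fin.prod_univ_add]
    simp only [P1_qf_inl, P1_qf_inr, map_mul, map_prod, map_pow]
  change MvPolynomial.coeff (Finsupp.equivFunOnFinite.symm fun i => (m i : ℕ)) _ = 0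
  rw [h2, MvPolynomial.coeff_map, h0, map_zero]

end

end QL
end

section

/-!
LinearBound (MP_c77682_nt), job P4. See table papers, id 368.
-/

set_option autoImplicit false

open Matrix Module

namespace QL

section

variable {p : ℕ} [Fact p.Prime] {n r : ℕ}

private theorem P4_qX (Q : Fin r → Matrix (Fin n) (Fin n) (ZMod p)) (x : Fin n → ZMod p)
    (k : Fin r) : evX x (qX Q k) = MvPolynomial.C (x ⬝ᵥ (Q k *ᵥ x)) := by
  have e : x ⬝ᵥ (Q k *ᵥ x) = ∑ a, ∑ b, Q k a b * (x a * x b) := by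
    simp only [dotProduct, Matrix.mulVec, Finset.mul_sum]
    refine Finset.sum_congr rfl fun a _ => Finset.sum_congr rfl fun b _ => ?_
    ring
  rw [e]
  simp only [evX, qX, map_sum, map_mul, MvPolynomial.aeval_C, MvPolynomial.aeval_X, Sum.elim_inl,
    MvPolynomial.algebraMap_eq]

private theorem P4_bXU (Q : Fin r → Matrix (Fin n) (Fin n) (ZMod p)) (x : Fin n → ZMod p)
    (k : Fin r) : evX x (bXU Q k) =
      ∑ j, MvPolynomial.C ((x ᵥ* (Q k + (Q k)ᵀ)) j) * MvPolynomial.X j := by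
  simp only [evX, bXU, map_sum, map_mul, MvPolynomial.aeval_C, MvPolynomial.aeval_X, Sum.elim_inl,
    Sum.elim_inr, MvPolynomial.algebraMap_eq, Matrix.vecMul, dotProduct, Finset.sum_mul]
  rw [Finset.sum_comm]
  refine Finset.sum_congr rfl fun b _ => Finset.sum_congr rfl fun a _ => ?_
  ring

/-- JOB P4. Nonsingular zeros.

PROOF. `exists_coeff`, `exists_eval` give `x, β`. `evX x (GG Q) = ∏ (1 - C (q_k(x))^(p-1)) * ∏ (b_k(x, u))^(p-1)`. If some
`q_k(x) ≠ 0` then `q_k(x)^(p-1) = 1` (Fermat) and it vanishes. So `q_k(x) = 0` for all `k` (first claim: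
`q_k(x) = x ⬝ Q k x`) and the coefficient of `u^β` in `∏ T k ^ (p-1)` is not `0`, `T k = b_k(x, u)`. By
`coeff_zero_of_dep` the linear forms `T k` are linearly independent, i.e. no nontrivial combination of the vectors
`(Q k + (Q k)ᵀ) x` vanishes; so `y ↦ (k ↦ x ⬝ (Q k + (Q k)ᵀ) y)` is surjective onto `F_p^r`. -/
theorem exists_nonsing (Q : Fin r → Matrix (Fin n) (Fin n) (ZMod p))
    (hst : ∀ (U : Submodule (ZMod p) (Fin n → ZMod p)) (L : Submodule (ZMod p) (Fin r → ZMod p)),
      (∀ l ∈ L, ∀ u ∈ U, ∀ u' ∈ U, bf (fun k => Q k + (Q k)ᵀ) l u u' = 0) →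
      8 * finrank (ZMod p) L + finrank (ZMod p) U ≤ n) :
    ∃ x : Fin n → ZMod p, (∀ k, x ⬝ᵥ (Q k *ᵥ x) = 0) ∧
      ∀ w : Fin r → ZMod p, ∃ y : Fin n → ZMod p, ∀ k, x ⬝ᵥ ((Q k + (Q k)ᵀ) *ᵥ y) = w k := by
  obtain ⟨m, hm1, hm2⟩ := exists_coeff Q hst
  obtain ⟨x, β, hβ, hx⟩ := exists_eval Q m hm1 hm2
  have hG : evX x (GG Q) = (∏ k, (1 - MvPolynomial.C (x ⬝ᵥ (Q k *ᵥ x)) ^ (p - 1))) *
      ∏ k, (∑ j, MvPolynomial.C ((x ᵥ* (Q k + (Q k)ᵀ)) j) * MvPolynomial.X j) ^ (p - 1) := by
    simp only [GG, map_mul, map_prod, map_sub, map_one, map_pow, P4_qX, P4_bXU]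
  rw [hG] at hx
  have hq : ∀ k, x ⬝ᵥ (Q k *ᵥ x) = 0 := by
    intro k
    by_contra hk
    apply hx
    have h1 : (1 : MvPolynomial (Fin n) (ZMod p)) -
        MvPolynomial.C (x ⬝ᵥ (Q k *ᵥ x)) ^ (p - 1) = 0 := by
      rw [← map_pow, ZMod.pow_card_sub_one_eq_one hk, map_one, sub_self]
    rw [Finset.prod_eq_zero (Finset.mem_univ k) h1, zero_mul, MvPolynomial.coeff_zero]
  have hp1 : p - 1 ≠ 0 := Nat.sub_ne_zero_of_lt (Fact.out : p.Prime).one_lt
  have h1 : ∏ k, ((1 : MvPolynomial (Fin n) (ZMod p)) -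
      MvPolynomial.C (x ⬝ᵥ (Q k *ᵥ x)) ^ (p - 1)) = 1 := by
    refine Finset.prod_eq_one fun k _ => ?_
    rw [hq k, map_zero, zero_pow hp1, sub_zero]
  rw [h1, one_mul] at hx
  refine ⟨x, hq, ?_⟩
  let M : Matrix (Fin r) (Fin n) (ZMod p) := Matrix.of fun k => x ᵥ* (Q k + (Q k)ᵀ)
  have hli : LinearIndependent (ZMod p) M.row := by
    rw [Fintype.linearIndependent_iff]
    intro c hc
    by_contra hne
    have hc0 : c ≠ 0 := by
      rintro rfl
      exact hne fun i => rfl
    apply hx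
    refine coeff_zero_of_dep _ (fun k => ⟨_, rfl⟩) c hc0 ?_ β hβ
    have e : ∀ j, ∑ k, c k * (x ᵥ* (Q k + (Q k)ᵀ)) j = 0 := by
      intro j
      have h := congrFun hc j
      simpa [Finset.sum_apply, M, Matrix.row] using h
    calc ∑ k, MvPolynomial.C (c k) *
          ∑ j, MvPolynomial.C ((x ᵥ* (Q k + (Q k)ᵀ)) j) * MvPolynomial.X j
        = ∑ j, MvPolynomial.C (∑ k, c k * (x ᵥ* (Q k + (Q k)ᵀ)) j) * MvPolynomial.X j := by
          simp only [Finset.mul_sum, map_sum, map_mul, Finset.sum_mul]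
          rw [Finset.sum_comm]
          refine Finset.sum_congr rfl fun j _ => Finset.sum_congr rfl fun k _ => ?_
          ring
      _ = 0 := by
          simp only [e, map_zero, zero_mul, Finset.sum_const_zero]
  have hrk : M.rank = r := by
    rw [hli.rank_matrix, Fintype.card_fin]
  have hsurj : Function.Surjective M.mulVecLin := by
    rw [← LinearMap.range_eq_top]
    apply Submodule.eq_top_of_finrank_eq
    rw [Module.finrank_fin_fun]
    exact hrk
  intro w
  obtain ⟨y, hy⟩ := hsurj w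
  refine ⟨y, fun k => ?_⟩
  have h := congrFun hy k
  rw [Matrix.mulVecLin_apply] at h
  rw [← h, Matrix.dotProduct_mulVec]
  rfl

end

end QL
end

section

/-!
LinearBound (MP_c77682_nt), job Z4. See table papers, id 368.
-/

set_option autoImplicit false

open Module

namespace QL

/-- JOB Z4. The theorem over `ℤ_[p]`.

PROOF. Strong induction on `r` (for all `n`). `r = 0`: `n ≥ 1`, any nonzero `x` (`Fin 0 → ℤ_[p]` is trivial). `r ≥ 1`:
`induction_stepL`; `hP`: for `1 ≤ j < r`: `n * j / r + 1 ≥ 16 j` (resp. `18 j`) and `≥ 1`. `hns`: `star_to_hyp`,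
`exists_matrix` and `exists_nonsing` (with `bf (fun k => Q k + (Q k)ᵀ) l u u' = ∑ l k * Bb u u' k`). -/
theorem main_int (p : ℕ) [Fact p.Prime] (r n : ℕ) (hn : 1 ≤ n)
    (hn' : (p ≠ 2 ∧ 16 * r ≤ n) ∨ 18 * r ≤ n)
    (f : QuadraticMap ℤ_[p] (Fin n → ℤ_[p]) (Fin r → ℤ_[p])) :
    ∃ x, x ≠ 0 ∧ f x = 0 := by
  induction r using Nat.strong_induction_on generalizing n with
  | _ r ih =>
  rcases Nat.eq_zero_or_pos r with hr | hr
  · subst hr
    refine ⟨fun _ => 1, ?_, ?_⟩
    · intro h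
      have := congrFun h ⟨0, hn⟩
      simp at this
    · exact Subsingleton.elim _ _
  · refine induction_stepL p r n hr hn ?_ ?_ f
    · intro gb Bb h1 h2 hst
      obtain ⟨Q, hQ1, hQ2⟩ := exists_matrix gb Bb h1 h2
      obtain ⟨x, hx1, hx2⟩ := exists_nonsing Q (fun U L hUL =>
        star_to_hyp p r n hr hn' gb Bb h1 h2 hst U L (by
          intro l hl u hu u' hu'
          have := hUL l hl u hu u' hu'
          unfold bf at this
          rw [← this]
          refine Finset.sum_congr rfl fun k _ => ?_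
          rw [hQ2]))
      refine ⟨x, ?_, ?_⟩
      · funext k
        rw [hQ1]
        exact hx1 k
      · intro w
        obtain ⟨y, hy⟩ := hx2 w
        refine ⟨y, ?_⟩
        funext k
        rw [hQ2]
        exact hy k
    · intro j hj h
      refine ih j hj (n * j / r + 1) (Nat.le_add_left 1 _) ?_ h
      rcases hn' with ⟨hp, hn1⟩ | hn1
      · left
        refine ⟨hp, ?_⟩
        have h16 : 16 * j ≤ n * j / r := by
          rw [Nat.le_div_iff_mul_le hr]
          calc 16 * j * r = (16 * r) * j := by ring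
            _ ≤ n * j := Nat.mul_le_mul_right j hn1
        omega
      · right
        have h18 : 18 * j ≤ n * j / r := by
          rw [Nat.le_div_iff_mul_le hr]
          calc 18 * j * r = (18 * r) * j := by ring
            _ ≤ n * j := Nat.mul_le_mul_right j hn1
        omega

end QL
end

section

/-!
LinearBound (MP_c77682_nt): the theorem over `ℚ_[p]`.
-/

set_option autoImplicit false

namespace QL

theorem main_padic (p : ℕ) [Fact p.Prime] (r n : ℕ) (hn : 0 < n)
    (h : (p ≠ 2 ∧ 16 * r ≤ n) ∨ 18 * r ≤ n) (f : Fin r → QuadraticForm ℚ_[p] (Fin n → ℚ_[p])) :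
    ∃ x, x ≠ 0 ∧ ∀ i, f i x = 0 := by
  obtain ⟨N, F, hF⟩ := QSys.exists_integral p r n f
  obtain ⟨x, hx, hx0⟩ := main_int p r n hn h F
  refine ⟨fun j => ((x j : ℤ_[p]) : ℚ_[p]), ?_, ?_⟩
  · intro h0
    apply hx
    funext j
    have := congrFun h0 j
    simpa using this
  · intro i
    have h1 := hF x i
    rw [hx0] at h1
    have h2 : (p : ℚ_[p]) ^ N ≠ 0 := pow_ne_zero _ (by exact_mod_cast (Fact.out : p.Prime).ne_zero)
    have h3 : (p : ℚ_[p]) ^ N * f i (fun j => ((x j : ℤ_[p]) : ℚ_[p])) = 0 := by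
      rw [← h1]; simp
    exact (mul_eq_zero.mp h3).resolve_left h2

end QL
end
end
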